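import Pool.Agent.P.MP_f981b0_an.Hy.Basic

set_option autoImplicit false

open scoped InnerProductSpace ComplexConjugate
open MeasureTheory Filter Topology

noncomputable section

namespace Pool.Agent.P.MP_f981b0_an.Hy

variable {H : Type*} [NormedAddCommGroup H] [InnerProductSpace ℂ H] [CompleteSpace H]

theorem meas_kk_measurable (g : ℝ) : Measurable (kk g) := by
  unfold kk
  fun_prop

theorem meas_kk_ball {g : ℝ} (hg : 0 < g) (R : ℝ) :
    IntegrableOn (kk g) (Metric.closedBall 0 R) := by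
  refine LocallyIntegrable.integrableOn_isCompact ?_ (isCompact_closedBall 0 R)
  refine locallyIntegrable_of_norm_le_rpow (C := 1) (α := 2 - 2 * g) (by simp) ?_
    (ae_of_all _ fun x => ?_) (meas_kk_measurable g).aestronglyMeasurable
  · rw [Complex.finrank_real_complex]
    push_cast
    linarith
  · rw [Real.norm_of_nonneg (kk_nonneg g x), one_mul, neg_sub]
    exact le_rfl

theorem meas_kk_shift {g : ℝ} (hg : 0 < g) (p : ℂ) (R : ℝ) :
    IntegrableOn (fun q => kk g (p - q)) ((fun q => p - q) ⁻¹' Metric.closedBall 0 R) :=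
  ((Measure.measurePreserving_sub_left volume p).integrableOn_comp_preimage
    (measurableEmbedding_subLeft p)).2 (meas_kk_ball hg R)

theorem meas_markov {E G : Set ℂ} (hEG : E ⊆ G) (hG : IsCompact G) {f : ℂ → ℝ}
    (hf : IntegrableOn f G) (hf0 : ∀ p, 0 ≤ f p) {e F : ℝ} (he : 0 < e)
    (hE : ENNReal.ofReal e ≤ volume E) (hF : 0 < F) (hI : ∫ p in G, f p ≤ F) :
    ENNReal.ofReal (e / 2) ≤ volume {p | p ∈ E ∧ f p ≤ 2 * F / e} := by
  have h1 := (mul_meas_ge_le_integral_of_nonneg (μ := volume.restrict G) (ae_of_all _ hf0) hf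
    (2 * F / e)).trans hI
  have h2 : (volume.restrict G).real {x | 2 * F / e ≤ f x} ≤ e / 2 := by
    rw [div_mul_eq_mul_div, div_le_iff₀ he] at h1
    nlinarith
  have hfin : (volume.restrict G) {x | 2 * F / e ≤ f x} ≠ ⊤ :=
    ((measure_mono (Set.subset_univ _)).trans_lt
      (by simpa using hG.measure_lt_top)).ne
  have h3 : (volume.restrict G) {x | 2 * F / e ≤ f x} ≤ ENNReal.ofReal (e / 2) :=
    (ENNReal.le_ofReal_iff_toReal_le hfin (by positivity)).2 h2
  have h4 : E ⊆ {p | p ∈ E ∧ f p ≤ 2 * F / e} ∪ ({x | 2 * F / e ≤ f x} ∩ G) := fun p hp => by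
    rcases le_total (f p) (2 * F / e) with h | h
    · exact Or.inl ⟨hp, h⟩
    · exact Or.inr ⟨h, hEG hp⟩
  have h5 := hE.trans ((measure_mono h4).trans ((measure_union_le _ _).trans
    (add_le_add le_rfl ((Measure.le_restrict_apply _ _).trans h3))))
  have h6 : ENNReal.ofReal e = ENNReal.ofReal (e / 2) + ENNReal.ofReal (e / 2) := by
    rw [← ENNReal.ofReal_add (by positivity) (by positivity), add_halves]
  rwa [h6, ENNReal.add_le_add_iff_right ENNReal.ofReal_ne_top] at h5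

/-- The kernel is locally integrable. -/
theorem kint_integrable {g : ℝ} (hg : 0 < g) (p : ℂ) {G : Set ℂ} (hG : IsCompact G) :
    IntegrableOn (fun q => kk g (p - q)) G := by
  obtain ⟨R, hR⟩ := hG.isBounded.subset_closedBall p
  refine (meas_kk_shift hg p R).mono_set fun q hq => ?_
  have := hR hq
  rwa [Set.mem_preimage, mem_closedBall_zero_iff, ← dist_eq_norm, dist_comm]

theorem kint {g : ℝ} (hg : 0 < g) : ∃ Ck : ℝ, 0 < Ck ∧ ∀ (c p : ℂ) (r : ℝ) (G : Set ℂ), 0 < r →
    IsCompact G → G ⊆ Metric.closedBall c r → p ∈ Metric.closedBall c r →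
    ∫ q in G, kk g (p - q) ≤ Ck * r ^ (2 * g) := by
  have hI : 0 ≤ ∫ x in Metric.closedBall (0 : ℂ) 2, kk g x := integral_nonneg (kk_nonneg g)
  refine ⟨(∫ x in Metric.closedBall (0 : ℂ) 2, kk g x) + 1, by linarith,
    fun c p r G hr _ hGc hp => ?_⟩
  have h1 : G ⊆ (fun q => p - q) ⁻¹' Metric.closedBall 0 (r * 2) := fun q hq => by
    have h2 := dist_triangle_right p q c
    have h3 : dist q c ≤ r := hGc hq
    have h4 : dist p c ≤ r := hp
    rw [Set.mem_preimage, mem_closedBall_zero_iff, ← dist_eq_norm]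
    linarith
  have h2 := setIntegral_mono_set (meas_kk_shift hg p (r * 2))
    (ae_of_all _ fun q => kk_nonneg g _) h1.eventuallyLE
  rw [(Measure.measurePreserving_sub_left volume p).setIntegral_preimage_emb
    (measurableEmbedding_subLeft p) (kk g)] at h2
  have h3 := Measure.setIntegral_comp_smul_of_pos volume (kk g) (Metric.closedBall (0 : ℂ) 2) hr
  have h4 : ∀ x : ℂ, kk g (r • x) = r ^ (2 * g - 2) * kk g x := fun x => by
    unfold kk
    rw [norm_smul, Real.norm_of_nonneg hr.le, Real.mul_rpow hr.le (norm_nonneg _)]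
  rw [smul_closedBall _ _ (by norm_num), smul_zero, Real.norm_of_nonneg hr.le,
    Complex.finrank_real_complex, smul_eq_mul, eq_inv_mul_iff_mul_eq₀ (by positivity)] at h3
  simp_rw [h4] at h3
  rw [integral_const_mul, ← mul_assoc, ← Real.rpow_natCast, ← Real.rpow_add hr] at h3
  rw [← h3, show ((2 : ℕ) : ℝ) + (2 * g - 2) = 2 * g by push_cast; ring] at h2
  have h5 : 0 < r ^ (2 * g) := Real.rpow_pos_of_pos hr _
  nlinarith

theorem meas_energy_insert (g : ℝ) (w : ℂ → ℝ) {P : Finset ℂ} {q : ℂ} (hq : q ∉ P) :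
    ∑ p ∈ insert q P, w p * ∑ x ∈ (insert q P).erase p, w x * kk g (p - x) =
      ∑ p ∈ P, w p * ∑ x ∈ P.erase p, w x * kk g (p - x) +
        2 * (w q * ∑ p ∈ P, w p * kk g (p - q)) := by
  have h1 : ∑ p ∈ P, w p * ∑ x ∈ (insert q P).erase p, w x * kk g (p - x) =
      ∑ p ∈ P, (w p * ∑ x ∈ P.erase p, w x * kk g (p - x) + w q * (w p * kk g (p - q))) :=
    Finset.sum_congr rfl fun p hp => by
      rw [Finset.erase_insert_of_ne (show q ≠ p by rintro rfl; exact hq hp),
        Finset.sum_insert fun h => hq (Finset.mem_of_mem_erase h)]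
      ring
  rw [Finset.sum_insert hq, Finset.erase_insert hq, h1, Finset.sum_add_distrib, ← Finset.mul_sum]
  simp_rw [kk_sub_comm g q]
  ring

/-- Greedy choice of points. No measurability of `E` is needed. -/
theorem greedy {g : ℝ} (hg : 0 < g) {E G : Set ℂ} (hEG : E ⊆ G) (hG : IsCompact G) {e I0 : ℝ}
    (he : 0 < e) (hE : ENNReal.ofReal e ≤ volume E) (hI0 : 0 < I0)
    (hI : ∀ p ∈ G, ∫ q in G, kk g (p - q) ≤ I0)
    (w : ℂ → ℝ) {w0 W : ℝ} (hw0 : 0 < w0) (hW : 0 < W) (hw : ∀ p ∈ E, w0 ≤ w p ∧ w p ≤ W) :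
    ∃ P : Finset ℂ, (P : Set ℂ) ⊆ E ∧ W / 2 ≤ ∑ p ∈ P, w p ∧ ∑ p ∈ P, w p ≤ 2 * W ∧
      ∀ p ∈ P, ∑ q ∈ P.erase p, w q * kk g (p - q) ≤ 16 * W * I0 / e := by
  have hw1 : ∀ p ∈ E, 0 ≤ w p := fun p hp => hw0.le.trans (hw p hp).1
  have step : ∀ P : Finset ℂ, (P : Set ℂ) ⊆ E → ∑ p ∈ P, w p ≤ W →
      ∃ q ∈ E, q ∉ P ∧ ∑ p ∈ P, w p * kk g (p - q) ≤ 2 * (W * I0) / e := fun P hP hs => by
    have hi : ∀ p ∈ P, IntegrableOn (fun q => w p * kk g (p - q)) G := fun p _ =>
      (kint_integrable hg p hG).const_mul _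
    have h1 := meas_markov hEG hG (f := fun q => ∑ p ∈ P, w p * kk g (p - q))
      (integrable_finsetSum _ hi)
      (fun q => Finset.sum_nonneg fun p hp => mul_nonneg (hw1 p (hP hp)) (kk_nonneg _ _)) he hE
      (mul_pos hW hI0) (by
        rw [integral_finsetSum _ hi]
        refine le_trans (Finset.sum_le_sum (g := fun p => w p * I0) fun p hp => ?_) ?_
        · rw [integral_const_mul]
          exact mul_le_mul_of_nonneg_left (hI p (hEG (hP hp))) (hw1 p (hP hp))
        · rw [← Finset.sum_mul]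
          exact mul_le_mul_of_nonneg_right hs hI0.le)
    by_contra hne
    have h2 : {q | q ∈ E ∧ ∑ p ∈ P, w p * kk g (p - q) ≤ 2 * (W * I0) / e} ⊆ (P : Set ℂ) :=
      fun q hq => by
        by_contra h
        exact hne ⟨q, hq.1, h, hq.2⟩
    have h3 := h1.trans (measure_mono h2)
    rw [P.finite_toSet.measure_zero, nonpos_iff_eq_zero, ENNReal.ofReal_eq_zero] at h3
    linarith
  obtain ⟨lam, hlam⟩ : ∃ lam, lam = 2 * (W * I0) / e := ⟨_, rfl⟩
  have hlam0 : 0 < lam := by rw [hlam]; positivity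
  rw [← hlam] at step
  have ind : ∀ n : ℕ, ∃ P : Finset ℂ, (P : Set ℂ) ⊆ E ∧ ∑ p ∈ P, w p ≤ 2 * W ∧
      ∑ p ∈ P, w p * ∑ x ∈ P.erase p, w x * kk g (p - x) ≤ 2 * lam * ∑ p ∈ P, w p ∧
      (W ≤ ∑ p ∈ P, w p ∨ n * w0 ≤ ∑ p ∈ P, w p) := fun n => by
    induction n with
    | zero => exact ⟨∅, by simp, by simp; linarith, by simp, Or.inr (by simp)⟩
    | succ n ih =>
      obtain ⟨P, h1, h2, h3, h4⟩ := ih
      rcases le_total W (∑ p ∈ P, w p) with h | h
      · exact ⟨P, h1, h2, h3, Or.inl h⟩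
      obtain ⟨q, hq1, hq2, hq3⟩ := step P h1 h
      obtain ⟨k1, k2⟩ := hw q hq1
      refine ⟨insert q P, by rw [Finset.coe_insert]; exact Set.insert_subset hq1 h1, ?_, ?_, ?_⟩
      · rw [Finset.sum_insert hq2]
        linarith
      · rw [meas_energy_insert g w hq2, Finset.sum_insert hq2]
        nlinarith [mul_le_mul_of_nonneg_left hq3 (hw1 q hq1)]
      · rw [Finset.sum_insert hq2]
        rcases h4 with h4 | h4
        · exact Or.inl (by linarith)
        · exact Or.inr (by push_cast; linarith)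
  obtain ⟨n, hn⟩ := exists_nat_ge (W / w0)
  rw [div_le_iff₀ hw0] at hn
  obtain ⟨P, h1, h2, h3, h4⟩ := ind n
  have h5 : W ≤ ∑ p ∈ P, w p := h4.elim id hn.trans
  have hrow : ∀ p, 0 ≤ ∑ x ∈ P.erase p, w x * kk g (p - x) := fun p =>
    Finset.sum_nonneg fun x hx => mul_nonneg (hw1 x (h1 (Finset.mem_of_mem_erase hx))) (kk_nonneg _ _)
  have h6 := Finset.sum_filter_add_sum_filter_not P
    (fun p => ∑ x ∈ P.erase p, w x * kk g (p - x) ≤ 8 * lam) w
  have h7 : (∑ p ∈ P with ¬ ∑ x ∈ P.erase p, w x * kk g (p - x) ≤ 8 * lam, w p) * (8 * lam) ≤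
      ∑ p ∈ P, w p * ∑ x ∈ P.erase p, w x * kk g (p - x) := by
    rw [Finset.sum_mul]
    refine le_trans (Finset.sum_le_sum fun p hp => ?_) (Finset.sum_le_sum_of_subset_of_nonneg
      (Finset.filter_subset _ _) fun p hp _ => mul_nonneg (hw1 p (h1 hp)) (hrow p))
    rw [Finset.mem_filter] at hp
    exact mul_le_mul_of_nonneg_left (not_le.1 hp.2).le (hw1 p (h1 hp.1))
  have h8 : 0 ≤ ∑ p ∈ P with ¬ ∑ x ∈ P.erase p, w x * kk g (p - x) ≤ 8 * lam, w p :=
    Finset.sum_nonneg fun p hp => hw1 p (h1 (Finset.mem_filter.1 hp).1)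
  refine ⟨P.filter fun p => ∑ x ∈ P.erase p, w x * kk g (p - x) ≤ 8 * lam,
    fun p hp => h1 (Finset.mem_filter.1 hp).1, ?_, by linarith, fun p hp => ?_⟩
  · have h9 : (∑ p ∈ P with ¬ ∑ x ∈ P.erase p, w x * kk g (p - x) ≤ 8 * lam, w p) * (8 * lam) ≤
        W / 2 * (8 * lam) := by nlinarith
    have := le_of_mul_le_mul_right h9 (by positivity)
    linarith
  · refine le_trans (Finset.sum_le_sum_of_subset_of_nonneg
      (Finset.erase_subset_erase p (Finset.filter_subset _ _)) fun x hx _ =>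
        mul_nonneg (hw1 x (h1 (Finset.mem_of_mem_erase hx))) (kk_nonneg _ _))
      ((Finset.mem_filter.1 hp).2.trans (le_of_eq ?_))
    rw [hlam]
    ring

theorem meas_bad {G E : Set ℂ} (hE : MeasurableSet E) (hEG : E ⊆ G) (hG : IsCompact G) {r κ : ℝ}
    (hr : 0 < r) (hκ : 0 ≤ κ) :
    (r / 2) ^ 2 * Real.pi * volume.real {p | p ∈ E ∧ volume.real (E ∩ Metric.ball p r) < κ} ≤
      κ * volume.real (Metric.cthickening r G) := by
  have hm : Measurable fun p : ℂ => volume.real (E ∩ Metric.ball p r) := by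
    have h1 : MeasurableSet {x : ℂ × ℂ | x.2 ∈ E ∧ dist x.2 x.1 < r} :=
      (measurable_snd hE).inter (measurableSet_lt (measurable_snd.dist measurable_fst) measurable_const)
    exact (measurable_measure_prodMk_left (ν := volume) h1).ennreal_toReal
  obtain ⟨B, hB⟩ : ∃ B, B = {p | p ∈ E ∧ volume.real (E ∩ Metric.ball p r) < κ} := ⟨_, rfl⟩
  have hBm : MeasurableSet B := hB ▸ hE.inter (measurableSet_lt hm measurable_const)
  have hs : MeasurableSet {x : ℂ × ℂ | x.2 ∈ B ∧ dist x.1 x.2 < r / 2} :=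
    (measurable_snd hBm).inter (measurableSet_lt (measurable_fst.dist measurable_snd) measurable_const)
  have h1 := (Measure.prod_apply_symm (μ := volume) (ν := volume) hs).symm.trans
    (Measure.prod_apply hs)
  have h2 : ∀ p : ℂ, volume ((fun x => (x, p)) ⁻¹' {x : ℂ × ℂ | x.2 ∈ B ∧ dist x.1 x.2 < r / 2}) =
      B.indicator (fun _ => ENNReal.ofReal (r / 2) ^ 2 * NNReal.pi) p := fun p => by
    by_cases hp : p ∈ B
    · rw [Set.indicator_of_mem hp, ← Complex.volume_ball p]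
      congr 1
      ext x
      simp [hp]
    · rw [Set.indicator_of_notMem hp]
      convert measure_empty (μ := (volume : Measure ℂ))
      ext x
      simp [hp]
  have h3 : ∀ x : ℂ, volume (Prod.mk x ⁻¹' {x : ℂ × ℂ | x.2 ∈ B ∧ dist x.1 x.2 < r / 2}) ≤
      (Metric.cthickening r G).indicator (fun _ => ENNReal.ofReal κ) x := fun x => by
    rcases (Prod.mk x ⁻¹' {x : ℂ × ℂ | x.2 ∈ B ∧ dist x.1 x.2 < r / 2}).eq_empty_or_nonempty
      with h | ⟨p, hp1, hp2⟩
    · simp [h]
    rw [hB] at hp1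
    have hp3 : dist x p < r / 2 := hp2
    rw [Set.indicator_of_mem
      (Metric.mem_cthickening_of_dist_le x p r G (hEG hp1.1) (by linarith))]
    refine le_trans (measure_mono (t := E ∩ Metric.ball p r) fun q hq => ⟨?_, ?_⟩)
      ((ENNReal.le_ofReal_iff_toReal_le ?_ hκ).2 hp1.2.le)
    · have := hq.1
      rw [hB] at this
      exact this.1
    · have h4 : dist x q < r / 2 := hq.2
      have h5 := dist_triangle_left q p x
      rw [Metric.mem_ball]
      linarith
    · exact ((measure_mono Set.inter_subset_right).trans_lt measure_ball_lt_top).ne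
  simp_rw [h2] at h1
  have h4 := h1.trans_le (lintegral_mono h3)
  rw [lintegral_indicator_const hBm,
    lintegral_indicator_const Metric.isClosed_cthickening.measurableSet] at h4
  have h5 := ENNReal.toReal_mono (ENNReal.mul_ne_top ENNReal.ofReal_ne_top
    hG.isBounded.cthickening.measure_lt_top.ne) h4
  rw [← hB]
  simpa only [ENNReal.toReal_mul, ENNReal.toReal_pow, ENNReal.toReal_ofReal hκ,
    ENNReal.toReal_ofReal (half_pos hr).le, ENNReal.coe_toReal, NNReal.coe_real_pi,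
    measureReal_def] using h5

/-- Uniform density lemma. -/
theorem dens {G : Set ℂ} (hG : IsCompact G) (hpos : 0 < volume.real G) {c0 : ℝ} (hc0 : 0 < c0) :
    ∃ r0 : ℝ, 0 < r0 ∧ ∀ r : ℝ, 0 < r → r ≤ r0 → ∀ E : Set ℂ, MeasurableSet E → E ⊆ G →
      c0 * volume.real G ≤ volume.real E →
      c0 / 2 * volume.real G ≤
        volume.real {p | p ∈ E ∧ c0 / 8 * r ^ 2 ≤ volume.real (E ∩ Metric.ball p r)} := by
  have h1 : Tendsto (fun r => volume.real (Metric.cthickening r G)) (𝓝 0) (𝓝 (volume.real G)) :=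
    (ENNReal.tendsto_toReal hG.measure_lt_top.ne).comp (tendsto_measure_cthickening_of_isCompact hG)
  obtain ⟨ε, hε, h2⟩ := Metric.eventually_nhds_iff.1
    (h1.eventually (gt_mem_nhds (show volume.real G < 2 * volume.real G by linarith)))
  refine ⟨ε / 2, half_pos hε, fun r hr hr0 E hE hEG hc => ?_⟩
  have h3 := h2 (y := r) (by rw [Real.dist_eq, sub_zero, abs_of_pos hr]; linarith)
  have h4 := meas_bad hE hEG hG hr (κ := c0 / 8 * r ^ 2) (by positivity)
  have hfin : ∀ s : Set ℂ, s ⊆ E → volume s ≠ ⊤ := fun s hs =>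
    ((measure_mono (hs.trans hEG)).trans_lt hG.measure_lt_top).ne
  have h5 : volume.real E ≤
      volume.real {p | p ∈ E ∧ c0 / 8 * r ^ 2 ≤ volume.real (E ∩ Metric.ball p r)} +
        volume.real {p | p ∈ E ∧ volume.real (E ∩ Metric.ball p r) < c0 / 8 * r ^ 2} := by
    refine le_trans (measureReal_mono (fun p hp => ?_) (hfin _ ?_)) (measureReal_union_le _ _)
    · rcases le_or_gt (c0 / 8 * r ^ 2) (volume.real (E ∩ Metric.ball p r)) with h | h
      · exact Or.inl ⟨hp, h⟩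
      · exact Or.inr ⟨hp, h⟩
    · exact Set.union_subset (fun p hp => hp.1) fun p hp => hp.1
  have h6 : 0 ≤ volume.real {p | p ∈ E ∧ volume.real (E ∩ Metric.ball p r) < c0 / 8 * r ^ 2} :=
    measureReal_nonneg
  generalize volume.real {p | p ∈ E ∧ volume.real (E ∩ Metric.ball p r) < c0 / 8 * r ^ 2} = b at *
  have h7 : r ^ 2 * (b / 2) ≤ r ^ 2 * (c0 / 4 * volume.real G) := by
    have h8 : c0 / 8 * r ^ 2 * volume.real (Metric.cthickening r G) ≤
        c0 / 8 * r ^ 2 * (2 * volume.real G) := mul_le_mul_of_nonneg_left h3.le (by positivity)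
    have h9 : (r / 2) ^ 2 * 2 * b ≤ (r / 2) ^ 2 * Real.pi * b := by
      have := Real.pi_gt_three
      gcongr
      linarith
    nlinarith
  have := le_of_mul_le_mul_left h7 (by positivity)
  linarith

/-- Chebyshev: most of `E` has `f` at most a multiple of its mean over `G`. -/
theorem cheb {E G : Set ℂ} (hEG : E ⊆ G) (hG : IsCompact G) {f : ℂ → ℝ} (hf : Continuous f)
    (hf0 : ∀ p, 0 ≤ f p) {e F : ℝ} (he : 0 < e) (hE : e ≤ volume.real E) (hF : 0 < F)
    (hI : ∫ p in G, f p ≤ F) :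
    ENNReal.ofReal (e / 2) ≤ volume {p | p ∈ E ∧ f p ≤ 2 * F / e} := by
  exact meas_markov hEG hG (hf.continuousOn.integrableOn_compact hG) hf0 he
    (ENNReal.ofReal_le_of_le_toReal hE) hF hI

/-- Schur test for averages. -/
theorem schur_int {g : ℝ} (hg : 0 < g) {G : Set ℂ} (hG : IsCompact G) (Z : ℂ → H)
    (hZ : Continuous Z) (v : H) (hφ : ∀ p, 0 ≤ (⟪v, Z p⟫_ℂ).re) {κ L : ℝ} (hκ : 0 ≤ κ)
    (hL0 : 0 ≤ L)
    (hk : ∀ p ∈ G, ∀ q ∈ G, p ≠ q →
      ‖⟪Z p, Z q⟫_ℂ‖ ≤ ((⟪v, Z p⟫_ℂ).re + (⟪v, Z q⟫_ℂ).re) / 2 * (κ * kk g (p - q)))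
    (hL : ∀ p ∈ G, κ * ∫ q in G, kk g (p - q) ≤ L) :
    ∫ p in G, (⟪v, Z p⟫_ℂ).re ≤ L * ‖v‖ ^ 2 := by
  have hZi : IntegrableOn Z G := hZ.continuousOn.integrableOn_compact hG
  obtain ⟨φ, hφd⟩ : ∃ φ : ℂ → ℝ, φ = fun p => (⟪v, Z p⟫_ℂ).re := ⟨_, rfl⟩
  have hφe : ∀ p, (⟪v, Z p⟫_ℂ).re = φ p := fun p => by rw [hφd]
  have hφc : Continuous φ := by rw [hφd]; fun_prop
  have hφi : IntegrableOn φ G := hφc.continuousOn.integrableOn_compact hG
  simp only [hφe] at hφ hk ⊢
  have hI1 : ∫ p in G, φ p ≤ ‖v‖ * ‖∫ p in G, Z p‖ := by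
    have h1 : ∫ p in G, φ p = (⟪v, ∫ p in G, Z p⟫_ℂ).re := by
      rw [← integral_inner (𝕜 := ℂ) hZi, hφd]
      exact integral_re (hZi.const_inner (𝕜 := ℂ) v)
    rw [h1]
    exact (Complex.re_le_norm _).trans (norm_inner_le_norm _ _)
  have hm : Measurable fun x : ℂ × ℂ => φ x.2 * (κ * kk g (x.1 - x.2)) :=
    (hφc.measurable.comp measurable_snd).mul
      (((meas_kk_measurable g).comp (measurable_fst.sub measurable_snd)).const_mul κ)
  have hin : ∀ p ∈ G, ∫ q in G, φ p * (κ * kk g (q - p)) ≤ L * φ p := fun p hp => by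
    simp_rw [kk_sub_comm g _ p]
    rw [integral_const_mul, integral_const_mul, mul_comm L]
    exact mul_le_mul_of_nonneg_left (hL p hp) (hφ p)
  have hnn : ∀ p q, 0 ≤ φ p * (κ * kk g (q - p)) := fun p q =>
    mul_nonneg (hφ p) (mul_nonneg hκ (kk_nonneg _ _))
  have hψ : Integrable (fun x : ℂ × ℂ => φ x.2 * (κ * kk g (x.1 - x.2)))
      ((volume.restrict G).prod (volume.restrict G)) := by
    refine (integrable_prod_iff' hm.aestronglyMeasurable).2 ⟨ae_of_all _ fun p => ?_, ?_⟩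
    · simp_rw [kk_sub_comm g _ p]
      exact ((kint_integrable hg p hG).const_mul κ).const_mul _
    · refine Integrable.mono' (hφi.const_mul L)
        (hm.stronglyMeasurable.norm.integral_prod_left').aestronglyMeasurable
        ((ae_restrict_iff' hG.measurableSet).2 (ae_of_all _ fun p hp => ?_))
      simp_rw [Real.norm_of_nonneg (hnn _ _)]
      rw [Real.norm_of_nonneg (integral_nonneg (hnn p))]
      exact hin p hp
  have hh := (hψ.add hψ.swap).div_const 2
  have hI2 : ‖∫ p in G, Z p‖ ^ 2 ≤ L * ∫ p in G, φ p := by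
    have h1 : ‖∫ p in G, Z p‖ ^ 2 = ‖⟪∫ p in G, Z p, ∫ p in G, Z p⟫_ℂ‖ := by
      rw [inner_self_eq_norm_sq_to_K (𝕜 := ℂ)]
      simp
    rw [h1, ← integral_inner (𝕜 := ℂ) hZi]
    refine (norm_integral_le_of_norm_le hh.integral_prod_left ?_).trans ?_
    · filter_upwards [hh.prod_right_ae, ae_restrict_mem hG.measurableSet] with q h2 hq
      rw [norm_inner_symm, ← integral_inner (𝕜 := ℂ) hZi]
      refine norm_integral_le_of_norm_le h2 ?_
      filter_upwards [ae_restrict_mem hG.measurableSet,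
        ae_restrict_of_ae (compl_mem_ae_iff.2 (measure_singleton q))] with p hp hpq
      refine (hk q hq p hp fun e => hpq e.symm).trans (le_of_eq ?_)
      simp only [Pi.add_apply, Function.comp_apply, Prod.fst_swap, Prod.snd_swap,
        kk_sub_comm g p q]
      ring
    · rw [← integral_prod _ hh, integral_div, integral_add' hψ hψ.swap]
      erw [integral_prod_swap (fun x : ℂ × ℂ => φ x.2 * (κ * kk g (x.1 - x.2)))]
      rw [add_self_div_two, integral_prod_symm _ hψ, ← integral_const_mul]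
      exact setIntegral_mono_on hψ.integral_prod_right (hφi.const_mul L) hG.measurableSet hin
  have hI0 : 0 ≤ ∫ p in G, φ p := integral_nonneg hφ
  generalize ∫ p in G, φ p = I at *
  generalize ‖∫ p in G, Z p‖ = y at *
  rcases hI0.eq_or_lt with h | h
  · rw [← h]
    positivity
  · have h1 : I * I ≤ L * ‖v‖ ^ 2 * I :=
      calc I * I ≤ (‖v‖ * y) * (‖v‖ * y) := mul_self_le_mul_self hI0 hI1
        _ = ‖v‖ ^ 2 * y ^ 2 := by ring
        _ ≤ ‖v‖ ^ 2 * (L * I) := mul_le_mul_of_nonneg_left hI2 (by positivity)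
        _ = _ := by ring
    exact le_of_mul_le_mul_right h1 h

/-- A set of positive outer measure has a part of positive outer measure in a small disc. -/
theorem exists_ball_part {S : Set ℂ} (hS : volume S ≠ 0) :
    ∃ c : ℂ, volume (S ∩ Metric.closedBall c (1 / 2)) ≠ 0 := by
  by_contra h
  push Not at h
  exact hS (measure_null_of_locally_null S fun x _ =>
    ⟨_, inter_mem_nhdsWithin S (Metric.closedBall_mem_nhds x (by norm_num)), h x⟩)

end Pool.Agent.P.MP_f981b0_an.Hy
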