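import Pool.Agent.P.MP_f981b0_an.Hy.Kern
import Pool.Agent.P.MP_f981b0_an.Hy.Meas

set_option autoImplicit false

open scoped InnerProductSpace ComplexConjugate
open MeasureTheory Filter Topology

noncomputable section

namespace Pool.Agent.P.MP_f981b0_an.Hy

variable {H : Type*} [NormedAddCommGroup H] [InnerProductSpace ℂ H] [CompleteSpace H]

variable {T δ : H →L[ℂ] H}

/-- A telescoping bound with geometric increments for a subadditive function. -/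
theorem Avg_tele {E : Type*} [AddCommGroup E] (N : E → ℝ) (hN : ∀ u v, N (u + v) ≤ N u + N v)
    (d : ℕ → E) (i : ℕ) {a θ : ℝ} (ha : 0 ≤ a) (hθ0 : 0 ≤ θ) (hθ1 : θ < 1)
    (h : ∀ k, N (d (i + k + 1) - d (i + k)) ≤ a * θ ^ k) (k : ℕ) :
    N (d (i + k)) ≤ N (d i) + a / (1 - θ) := by
  have h1 : 0 < 1 - θ := by linarith
  have key : ∀ k, N (d (i + k)) ≤ N (d i) + a * (1 - θ ^ k) / (1 - θ) := by
    intro k
    induction k with
    | zero => simp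
    | succ k ih =>
      have e : d (i + (k + 1)) = d (i + k) + (d (i + k + 1) - d (i + k)) := by
        rw [← add_assoc]; abel
      have e2 : a * (1 - θ ^ (k + 1)) / (1 - θ) = a * (1 - θ ^ k) / (1 - θ) + a * θ ^ k := by
        field_simp; ring
      rw [e, e2]
      have := hN (d (i + k)) (d (i + k + 1) - d (i + k))
      have := h k
      linarith
  have h2 : a * (1 - θ ^ k) / (1 - θ) ≤ a / (1 - θ) := by
    apply div_le_div_of_nonneg_right _ h1.le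
    have : 0 ≤ θ ^ k := pow_nonneg hθ0 k
    nlinarith
  linarith [key k]

theorem Avg_step_orth (hy : Hyp T δ) {e0 : H} (he : ‖e0‖ = 1) (z : ℂ) (l : ℕ) :
    ⟪e0, dv T δ e0 z (tt (l + 1)) - dv T δ e0 z (tt l)⟫_ℂ = 0 := by
  rw [inner_sub_right, inner_dv hy z (tt_pos _) he, inner_dv hy z (tt_pos _) he, sub_self]

theorem Avg_step_qf (hy : Hyp T δ) {e0 : H} (he : ‖e0‖ = 1) (z : ℂ) (l : ℕ) :
    qf T δ z (tt l) (dv T δ e0 z (tt (l + 1)) - dv T δ e0 z (tt l)) ≤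
      4 * (bt T δ e0 z (tt l))⁻¹ := by
  have h1 := (qf_split hy z (tt_pos l) he (dv T δ e0 z (tt (l + 1)))).2
  rw [inner_dv hy z (tt_pos _) he, one_smul] at h1
  have h2 := qf_succ hy z l (dv T δ e0 z (tt (l + 1)))
  rw [qf_dv hy z (tt_pos _) he] at h2
  have h3 : bt T δ e0 z (tt l) ≤ bt T δ e0 z (tt (l + 1)) :=
    bt_anti hy z (tt_pos _) (tt_anti (Nat.le_succ l))
  have h4 : 1 ≤ bt T δ e0 z (tt l) := one_le_bt hy z (tt_pos _)
  have h5 : (bt T δ e0 z (tt (l + 1)))⁻¹ ≤ (bt T δ e0 z (tt l))⁻¹ :=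
    inv_anti₀ (by linarith) h3
  linarith

theorem Avg_exists_time {j0 j : ℕ} (hj : j0 ≤ j) {τ : ℝ} (h1 : tt j ≤ τ) (h2 : τ ≤ tt j0) :
    ∃ i, j0 ≤ i ∧ i ≤ j ∧ τ ≤ tt i ∧ tt i ≤ 4 * τ := by
  induction j, hj using Nat.le_induction with
  | base =>
    have := tt_pos j0
    exact ⟨j0, le_rfl, le_rfl, h2, by linarith⟩
  | succ n hn ih =>
    by_cases h : tt n ≤ τ
    · obtain ⟨i, a, b, c, d⟩ := ih h
      exact ⟨i, a, by omega, c, d⟩
    · push Not at h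
      refine ⟨n, hn, by omega, h.le, ?_⟩
      rw [tt_succ] at h1
      linarith

theorem Avg_exp_div (hy : Hyp T δ) {e0 : H} (R : ℕ → ℂ → ℝ) (z : ℂ) (l : ℕ) {Ω θ : ℝ} (k : ℕ)
    (hΩ : 0 < Ω) (hθ : 0 < θ) (h : Ω * ((θ ^ k) ^ 2)⁻¹ ≤ om T δ e0 R l z) :
    Real.exp (R l z) * (bt T δ e0 z (tt l))⁻¹ ≤ (θ ^ k) ^ 2 / Ω := by
  have h4 : 1 ≤ bt T δ e0 z (tt l) := one_le_bt hy z (tt_pos _)
  have e : Real.exp (R l z) * (bt T δ e0 z (tt l))⁻¹ = (om T δ e0 R l z)⁻¹ := by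
    unfold om
    rw [Real.exp_neg, mul_inv, inv_inv, mul_comm]
  rw [e]
  have hp : 0 < Ω * ((θ ^ k) ^ 2)⁻¹ := by positivity
  refine (inv_anti₀ hp h).trans (le_of_eq ?_)
  field_simp

/-- Decay of `q` on `d_j` after a time `j0` from which `ω` grows geometrically. -/
theorem dq_bound (hy : Hyp T δ) {e0 : H} (he : ‖e0‖ = 1) {R : ℕ → ℂ → ℝ} (hR : RData T δ e0 R)
    {g : ℝ} (hg : 0 < g) : ∃ C : ℝ, 0 < C ∧ ∀ (z : ℂ) (j0 : ℕ) (Ω : ℝ), 0 < Ω →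
      (∀ l, j0 ≤ l → Ω * (4 : ℝ) ^ (g * ((l : ℝ) - j0)) ≤ om T δ e0 R l z) →
      ∀ j, j0 ≤ j →
        ‖dv T δ e0 z (tt j) - dv T δ e0 z (tt j0)‖ ^ 2 ≤ C / Ω ∧
        ∀ τ, tt j ≤ τ → τ ≤ tt j0 → qf T δ z τ (dv T δ e0 z (tt j)) ≤
          C * Real.exp (-R j0 z) / Ω * (τ / tt j0) ^ g := by
  obtain ⟨θ, hθ⟩ : ∃ θ : ℝ, θ = (4 : ℝ) ^ (-(g / 2)) := ⟨_, rfl⟩
  have hθ0 : 0 < θ := by rw [hθ]; positivity
  have hθ1 : θ < 1 := by
    rw [hθ]; exact Real.rpow_lt_one_of_one_lt_of_neg (by norm_num) (by linarith)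
  have h1θ : 0 < 1 - θ := by linarith
  have hpow : ∀ k : ℕ, (θ ^ k) ^ 2 = (4 : ℝ) ^ (-(g * k)) := by
    intro k
    rw [hθ, ← pow_mul, ← Real.rpow_natCast, ← Real.rpow_mul (by norm_num)]
    congr 1
    push_cast
    ring
  obtain ⟨K, hK⟩ : ∃ K : ℝ, K = 1 + 2 / (1 - θ) := ⟨_, rfl⟩
  have hK2 : 0 < 2 / (1 - θ) := by positivity
  have hK0 : 0 < K := by rw [hK]; positivity
  have h4g : (1 : ℝ) ≤ 4 ^ g := Real.one_le_rpow (by norm_num) hg.le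
  refine ⟨K ^ 2 * 4 ^ g, by positivity, ?_⟩
  intro z j0 Ω hΩ hom j hj
  have hom' : ∀ k : ℕ, Real.exp (R (j0 + k) z) * (bt T δ e0 z (tt (j0 + k)))⁻¹ ≤
      (θ ^ k) ^ 2 / Ω := by
    intro k
    apply Avg_exp_div hy R z (j0 + k) k hΩ hθ0
    have := hom (j0 + k) (Nat.le_add_right _ _)
    rw [hpow k, Real.rpow_neg (by norm_num), inv_inv]
    have e : ((j0 + k : ℕ) : ℝ) - j0 = k := by push_cast; ring
    rwa [e] at this
  have hsΩ : 0 < √Ω := Real.sqrt_pos.2 hΩ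
  have hsq : √Ω ^ 2 = Ω := Real.sq_sqrt hΩ.le
  constructor
  · obtain ⟨k, rfl⟩ := Nat.exists_eq_add_of_le hj
    have key := Avg_tele (fun u : H => ‖u‖) norm_add_le
      (fun l => dv T δ e0 z (tt l) - dv T δ e0 z (tt j0)) j0 (a := 2 / √Ω) (by positivity)
      hθ0.le hθ1 (fun k => ?_) k
    · simp only [sub_self, norm_zero, zero_add] at key
      have h2 : 2 / √Ω / (1 - θ) ≤ K / √Ω := by
        rw [div_right_comm]
        apply div_le_div_of_nonneg_right _ hsΩ.le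
        rw [hK]; linarith
      have h3 := pow_le_pow_left₀ (norm_nonneg _) (key.trans h2) 2
      rw [div_pow, hsq] at h3
      refine h3.trans (div_le_div_of_nonneg_right ?_ hΩ.le)
      nlinarith [sq_nonneg K]
    · simp only [sub_sub_sub_cancel_right]
      have a1 := hR.low (j0 + k) z _ (Avg_step_orth hy he z (j0 + k))
      have a2 := Avg_step_qf hy he z (j0 + k)
      have a3 := hom' k
      have a4 : 0 < Real.exp (R (j0 + k) z) := Real.exp_pos _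
      apply abs_le_of_sq_le_sq' _ (by positivity) |>.2
      have e : (2 / √Ω * θ ^ k) ^ 2 = 4 * ((θ ^ k) ^ 2 / Ω) := by
        rw [mul_pow, div_pow, hsq]; ring
      rw [e]
      have a5 := mul_le_mul_of_nonneg_left a2 a4.le
      nlinarith
  · intro τ hτ1 hτ2
    obtain ⟨i, hi0, hij, hi1, hi2⟩ := Avg_exists_time hj hτ1 hτ2
    obtain ⟨m, rfl⟩ := Nat.exists_eq_add_of_le hi0
    obtain ⟨k, rfl⟩ := Nat.exists_eq_add_of_le hij
    have hτ0 : 0 < τ := lt_of_lt_of_le (tt_pos _) hτ1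
    obtain ⟨B, hB⟩ : ∃ B : ℝ, B = √(Real.exp (-R j0 z) / Ω) * θ ^ m := ⟨_, rfl⟩
    have hE : 0 < Real.exp (-R j0 z) / Ω := by positivity
    have hB0 : 0 ≤ B := by rw [hB]; positivity
    have hB2 : B ^ 2 = Real.exp (-R j0 z) * ((θ ^ m) ^ 2 / Ω) := by
      rw [hB, mul_pow, Real.sq_sqrt hE.le]; ring
    have hRm : Real.exp (-R (j0 + m) z) ≤ Real.exp (-R j0 z) :=
      Real.exp_le_exp.2 (neg_le_neg (hR.mono z _ _ (Nat.le_add_right _ _)))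
    have key := Avg_tele (fun u : H => √(qf T δ z (tt (j0 + m)) u))
      (sqrt_qf_add hy z (tt_pos _)) (fun l => dv T δ e0 z (tt l)) (j0 + m) (a := 2 * B)
      (by positivity) hθ0.le hθ1 (fun k => ?_) k
    · have b1 : √(qf T δ z (tt (j0 + m)) (dv T δ e0 z (tt (j0 + m)))) ≤ B := by
        apply Real.sqrt_le_iff.2 ⟨hB0, ?_⟩
        rw [qf_dv hy z (tt_pos _) he, hB2]
        have a3 := hom' m
        have a4 : 0 < Real.exp (-R (j0 + m) z) := Real.exp_pos _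
        have a5 := mul_le_mul_of_nonneg_left a3 a4.le
        rw [← mul_assoc, ← Real.exp_add, neg_add_cancel, Real.exp_zero, one_mul] at a5
        refine a5.trans (mul_le_mul_of_nonneg_right hRm (by positivity))
      have b2 : √(qf T δ z (tt (j0 + m)) (dv T δ e0 z (tt (j0 + m + k)))) ≤ K * B := by
        have e : K * B = B + 2 * B / (1 - θ) := by rw [hK]; ring
        rw [e]; linarith
      have b3 : qf T δ z (tt (j0 + m)) (dv T δ e0 z (tt (j0 + m + k))) ≤ (K * B) ^ 2 :=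
        (Real.sqrt_le_iff.1 b2).2
      have b4 := qf_mono hy z hτ0 hi1 (dv T δ e0 z (tt (j0 + m + k)))
      have b5 : (θ ^ m) ^ 2 ≤ 4 ^ g * (τ / tt j0) ^ g := by
        have t0 := tt_pos j0
        rw [← Real.mul_rpow (by norm_num) (by positivity), hpow m]
        have e : (4 : ℝ) ^ (-(g * m)) = ((1 / 4 : ℝ) ^ m) ^ g := by
          rw [← Real.rpow_natCast, ← Real.rpow_mul (by norm_num), one_div,
            Real.inv_rpow (by norm_num), Real.rpow_neg (by norm_num), mul_comm]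
        rw [e]
        apply Real.rpow_le_rpow (by positivity) _ hg.le
        have e2 : tt (j0 + m) = tt j0 * (1 / 4 : ℝ) ^ m := by unfold tt; rw [pow_add]
        rw [e2] at hi2
        rw [← mul_div_assoc, le_div_iff₀ t0]
        linarith
      refine b4.trans (b3.trans ?_)
      rw [mul_pow, hB2]
      have e3 : K ^ 2 * (Real.exp (-R j0 z) * ((θ ^ m) ^ 2 / Ω)) =
          (K ^ 2 * (Real.exp (-R j0 z) / Ω)) * (θ ^ m) ^ 2 := by ring
      have e4 : K ^ 2 * 4 ^ g * Real.exp (-R j0 z) / Ω * (τ / tt j0) ^ g =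
          (K ^ 2 * (Real.exp (-R j0 z) / Ω)) * (4 ^ g * (τ / tt j0) ^ g) := by ring
      rw [e3, e4]
      exact mul_le_mul_of_nonneg_left b5 (by positivity)
    · apply Real.sqrt_le_iff.2 ⟨by positivity, ?_⟩
      have a1 := hR.rel z (j0 + m) (j0 + m + k) _ (Nat.le_add_right _ _)
        (Avg_step_orth hy he z (j0 + m + k))
      have a2 := Avg_step_qf hy he z (j0 + m + k)
      have a3 := hom' (m + k)
      rw [← add_assoc] at a3
      have a4 : 0 < Real.exp (R (j0 + m + k) z - R (j0 + m) z) := Real.exp_pos _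
      have a5 := mul_le_mul_of_nonneg_left a2 a4.le
      refine a1.trans (a5.trans ?_)
      have e : Real.exp (R (j0 + m + k) z - R (j0 + m) z) * (4 * (bt T δ e0 z (tt (j0 + m + k)))⁻¹)
          = 4 * (Real.exp (-R (j0 + m) z) *
            (Real.exp (R (j0 + m + k) z) * (bt T δ e0 z (tt (j0 + m + k)))⁻¹)) := by
        rw [sub_eq_add_neg, Real.exp_add]; ring
      have e2 : (2 * B * θ ^ k) ^ 2 = 4 * (Real.exp (-R j0 z) * ((θ ^ (m + k)) ^ 2 / Ω)) := by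
        rw [mul_pow, mul_pow, hB2, pow_add]; ring
      rw [e, e2]
      apply mul_le_mul_of_nonneg_left _ (by norm_num)
      have a6 : 1 ≤ bt T δ e0 z (tt (j0 + m + k)) := one_le_bt hy z (tt_pos _)
      exact mul_le_mul hRm a3 (by positivity) (Real.exp_pos _).le

theorem norm_dv_one (hy : Hyp T δ) {e0 : H} (he : ‖e0‖ = 1) (z : ℂ) :
    ‖dv T δ e0 z 1‖ ≤ 1 + ‖δ‖ ^ 2 := by
  have h1 : 1 ≤ bt T δ e0 z 1 := one_le_bt hy z one_pos
  have h2 : ‖oM T δ z 1 e0‖ ≤ 1 + ‖δ‖ ^ 2 := by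
    rw [oM_apply hy]
    have a1 := norm_rb_le T z one_pos (δ e0)
    rw [one_mul] at a1
    have a2 : ‖δ e0‖ ≤ ‖δ‖ := by simpa [he] using δ.le_opNorm e0
    have a3 : ‖δ (rb T z 1 (δ e0))‖ ≤ ‖δ‖ * ‖δ‖ :=
      (δ.le_opNorm _).trans (mul_le_mul_of_nonneg_left (a1.trans a2) (norm_nonneg _))
    have a4 := norm_add_le e0 (δ (rb T z 1 (δ e0)))
    rw [he] at a4
    nlinarith
  unfold dv
  rw [norm_smul, norm_inv, Complex.norm_real, Real.norm_of_nonneg (by linarith)]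
  have h3 : (bt T δ e0 z 1)⁻¹ ≤ 1 := inv_le_one_of_one_le₀ h1
  calc (bt T δ e0 z 1)⁻¹ * ‖oM T δ z 1 e0‖ ≤ 1 * (1 + ‖δ‖ ^ 2) :=
        mul_le_mul h3 h2 (norm_nonneg _) zero_le_one
    _ = 1 + ‖δ‖ ^ 2 := one_mul _

/-- `β^h / β ≤ 4 |⟨h, Y⟩|² + 6 ⟨a h, h⟩ / ω`. -/
theorem bf_div_le (hy : Hyp T δ) {e0 : H} (he : ‖e0‖ = 1) (z : ℂ) {s r ω : ℝ} (hs : 0 < s)
    (hr1 : 1 ≤ r) (hr : ∀ u, ⟪e0, u⟫_ℂ = 0 → ‖u‖ ^ 2 ≤ r * qf T δ z s u) (hω0 : 0 < ω)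
    (hω : r * ω ≤ bt T δ e0 z s) (h : H) :
    bf T z s h / bt T δ e0 z s ≤ 4 * ‖⟪h, yh T δ e0 z s⟫_ℂ‖ ^ 2 + 6 * af T z s h / ω := by
  obtain ⟨p, hp⟩ : ∃ p : H, p = δ (rb T z s h) := ⟨_, rfl⟩
  obtain ⟨α, hα⟩ : ∃ α : ℂ, α = ⟪e0, p⟫_ℂ := ⟨_, rfl⟩
  obtain ⟨p', hp'⟩ : ∃ p' : H, p' = p - α • dv T δ e0 z s := ⟨_, rfl⟩
  have hβ : 1 ≤ bt T δ e0 z s := one_le_bt hy z hs
  have hX : 0 ≤ bf T z s h := bf_nonneg T z hs h
  have hF : 0 ≤ af T z s h := af_nonneg T z hs h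
  have q1 : qf T δ z s p ≤ bf T z s h := by
    have := qf_var hy z hs p (rb T z s h)
    rw [← hp, sub_self, norm_zero] at this
    rw [bf_eq T z hs h]
    linarith
  have q2 := qf_split hy z hs he p
  rw [← hα, ← hp'] at q2
  have n1 : ‖p'‖ ^ 2 ≤ r * bf T z s h :=
    (hr p' q2.1).trans (mul_le_mul_of_nonneg_left (q2.2.trans q1) (by linarith))
  have n2 : ‖α‖ ^ 2 ≤ bt T δ e0 z s * bf T z s h := by
    rw [hα]
    exact (inner_e0_le hy z hs he p).trans (mul_le_mul_of_nonneg_left q1 (by linarith))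
  have n3 : ‖δ (ra T z s h)‖ ^ 2 ≤ af T z s h := by
    have a1 := norm_oA_sq hy z (ra T z s h)
    have a2 := af_eq T z hs h
    have a3 : 0 ≤ s * ‖ra T z s h‖ ^ 2 := by positivity
    nlinarith [sq_nonneg ‖oS T z (ra T z s h)‖]
  have id1 : ⟪h, rb T z s h⟫_ℂ = ⟪h, ra T z s h⟫_ℂ + α * ⟪h, yh T δ e0 z s⟫_ℂ
      + ⟪δ (ra T z s h), p'⟫_ℂ := by
    have a1 : rb T z s h = ra T z s h + ra T z s (δ p) := by
      rw [hp, ← rb_sub_ra hy z hs h]; abel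
    have a2 : p = α • dv T δ e0 z s + p' := by rw [hp']; abel
    have a3 : ra T z s (δ p) = α • yh T δ e0 z s + ra T z s (δ p') := by
      unfold yh
      conv_lhs => rw [a2]
      rw [map_add, map_add, map_smul, map_smul]
    rw [a1, a3, inner_add_right, inner_add_right, inner_smul_right, inner_del hy,
      inner_ra T z hs, add_assoc]
  have id2 : bf T z s h ≤ af T z s h + ‖α‖ * ‖⟪h, yh T δ e0 z s⟫_ℂ‖
      + ‖δ (ra T z s h)‖ * ‖p'‖ := by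
    have a1 : bf T z s h = af T z s h + (α * ⟪h, yh T δ e0 z s⟫_ℂ).re
        + (⟪δ (ra T z s h), p'⟫_ℂ).re := by
      unfold bf af
      rw [id1, Complex.add_re, Complex.add_re]
    have a2 : (α * ⟪h, yh T δ e0 z s⟫_ℂ).re ≤ ‖α‖ * ‖⟪h, yh T δ e0 z s⟫_ℂ‖ := by
      rw [← norm_mul]; exact Complex.re_le_norm _
    have a3 : (⟪δ (ra T z s h), p'⟫_ℂ).re ≤ ‖δ (ra T z s h)‖ * ‖p'‖ :=
      (Complex.re_le_norm _).trans (norm_inner_le_norm _ _)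
    linarith
  generalize bf T z s h = X at *
  generalize af T z s h = F at *
  generalize bt T δ e0 z s = β at *
  generalize ‖⟪h, yh T δ e0 z s⟫_ℂ‖ = Y at *
  generalize ‖α‖ = a at *
  generalize ‖p'‖ = P at *
  generalize ‖δ (ra T z s h)‖ = D at *
  have hβ0 : 0 < β := by linarith
  have hr0 : 0 < r := by linarith
  have c1 : a * Y ≤ X / 4 + β * Y ^ 2 := by
    have : β * (a * Y) ≤ β * (X / 4 + β * Y ^ 2) := by nlinarith [sq_nonneg (a / 2 - β * Y)]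
    exact le_of_mul_le_mul_left this hβ0
  have c2 : D * P ≤ X / 4 + r * F := by
    have : r * (D * P) ≤ r * (X / 4 + r * D ^ 2) := by nlinarith [sq_nonneg (P / 2 - r * D)]
    have h2 := le_of_mul_le_mul_left this hr0
    have h3 : r * D ^ 2 ≤ r * F := mul_le_mul_of_nonneg_left n3 hr0.le
    linarith
  have c3 : X ≤ 2 * β * Y ^ 2 + 4 * (r * F) := by nlinarith
  have c4 : r * F ≤ β * (F / ω) := by
    have : r * F = (r * ω) * (F / ω) := by field_simp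
    rw [this]
    exact mul_le_mul_of_nonneg_right hω (by positivity)
  rw [div_le_iff₀ hβ0]
  have c5 : 0 ≤ β * (F / ω) := by positivity
  have c6 : 0 ≤ β * Y ^ 2 := by positivity
  have e : (4 * Y ^ 2 + 6 * F / ω) * β = 4 * (β * Y ^ 2) + 6 * (β * (F / ω)) := by ring
  rw [e]
  linarith

theorem Avg_int_yh (hy : Hyp T δ) {e0 : H} {g : ℝ} (hg : 0 < g)
    {G : Set ℂ} (hG : IsCompact G) {s κ L : ℝ} (hs : 0 < s) (hκ : 0 ≤ κ) (hL : 0 ≤ L)
    (hk : ∀ p ∈ G, ∀ q ∈ G, p ≠ q → ‖⟪yh T δ e0 p s, yh T δ e0 q s⟫_ℂ‖ ≤ κ * kk g (p - q))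
    (hΛI : ∀ p ∈ G, κ * ∫ q in G, kk g (p - q) ≤ L) (v : H) :
    ∫ p in G, ‖⟪v, yh T δ e0 p s⟫_ℂ‖ ^ 2 ≤ L * ‖v‖ ^ 2 := by
  have hc : Continuous fun p => yh T δ e0 p s := continuous_yh hy hs
  have hφ : ∀ p, (⟪v, ⟪yh T δ e0 p s, v⟫_ℂ • yh T δ e0 p s⟫_ℂ).re =
      ‖⟪v, yh T δ e0 p s⟫_ℂ‖ ^ 2 := by
    intro p
    rw [inner_smul_right, ← inner_conj_symm (yh T δ e0 p s) v, Complex.conj_mul',
      ← Complex.ofReal_pow, Complex.ofReal_re]
  have key := schur_int hg hG (fun p => ⟪yh T δ e0 p s, v⟫_ℂ • yh T δ e0 p s)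
    ((hc.inner continuous_const).smul hc) v (fun p => by rw [hφ]; positivity) hκ hL
    (fun p hp q hq hpq => ?_) hΛI
  · simpa only [hφ] using key
  · rw [hφ, hφ, inner_smul_left, inner_smul_right, norm_mul, norm_mul, RCLike.norm_conj,
      norm_inner_symm (yh T δ e0 p s) v, norm_inner_symm (yh T δ e0 q s) v, ← mul_assoc]
    apply mul_le_mul _ (hk p hp q hq hpq) (norm_nonneg _) (by positivity)
    nlinarith [sq_nonneg (‖⟪v, yh T δ e0 p s⟫_ℂ‖ - ‖⟪v, yh T δ e0 q s⟫_ℂ‖)]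

theorem Avg_int_af (hy : Hyp T δ) {g : ℝ} (hg : 0 < g) (hg1 : g ≤ 1)
    {G : Set ℂ} (hG : IsCompact G) {s I0 : ℝ} (hs : 0 < s) (hI0 : 0 ≤ I0)
    (hI : ∀ p ∈ G, ∫ q in G, kk g (p - q) ≤ I0) (v : H) :
    ∫ p in G, af T p s v ≤ 4 * s ^ (-g) * I0 * ‖v‖ ^ 2 := by
  have hsg : 0 < s ^ (-g) := Real.rpow_pos_of_pos hs _
  have key := schur_int hg hG (fun p => ra T p s v)
    ((continuous_ra T hs).clm_apply continuous_const) v (fun p => af_nonneg T p hs v)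
    (κ := 4 * s ^ (-g)) (L := 4 * s ^ (-g) * I0) (by positivity) (by positivity)
    (fun p _ q _ hpq => ?_)
    (fun p hp => mul_le_mul_of_nonneg_left (hI p hp) (by positivity))
  · exact key
  · have a1 := K_bessel hy p q hs v
    have a2 := inv_le_kk hg.le hg1 (sub_ne_zero.2 hpq) hs
    have a3 := af_nonneg T p hs v
    have a4 := af_nonneg T q hs v
    change ‖⟪ra T p s v, ra T q s v⟫_ℂ‖ ≤ (af T p s v + af T q s v) / 2 * _
    have a5 : 0 < ‖p - q‖ ^ 2 + s := by positivity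
    have a6 : ‖⟪ra T p s v, ra T q s v⟫_ℂ‖ ≤
        2 * (af T p s v + af T q s v) * (1 / (‖p - q‖ ^ 2 + s)) := by
      rw [mul_one_div, le_div_iff₀ a5]
      nlinarith [norm_nonneg ⟪ra T p s v, ra T q s v⟫_ℂ]
    have a7 := mul_le_mul_of_nonneg_left a2
      (show 0 ≤ 2 * (af T p s v + af T q s v) by positivity)
    refine a6.trans (a7.trans (le_of_eq ?_))
    ring

theorem Avg_bf_three (p c : ℂ) {s ρ : ℝ} (hs : 0 < s) (hρ : 0 ≤ ρ) (hp : ‖p - c‖ ≤ ρ) (v v' : H) :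
    bf T p s (oA T c v + (ρ : ℂ) • v') ≤
      3 * (‖v‖ ^ 2 + ρ ^ 2 * bf T p s v + ρ ^ 2 * bf T p s v') := by
  have e : oA T c v + (ρ : ℂ) • v' = oA T p v + (p - c) • v + (ρ : ℂ) • v' := by
    rw [oA_shift T p c v]; abel
  rw [e]
  have a1 := sqrt_bf_add T p hs (oA T p v + (p - c) • v) ((ρ : ℂ) • v')
  have a2 := sqrt_bf_add T p hs (oA T p v) ((p - c) • v)
  have b1 : bf T p s (oA T p v) ≤ ‖v‖ ^ 2 := by simpa using bf_decomp T p hs v 0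
  have b2 : bf T p s ((p - c) • v) ≤ ρ ^ 2 * bf T p s v := by
    rw [bf_smul]
    exact mul_le_mul_of_nonneg_right (pow_le_pow_left₀ (norm_nonneg _) hp 2) (bf_nonneg T p hs v)
  have b3 : bf T p s ((ρ : ℂ) • v') = ρ ^ 2 * bf T p s v' := by
    rw [bf_smul, Complex.norm_real, Real.norm_of_nonneg hρ]
  have c0 := Real.sq_sqrt (bf_nonneg T p hs (oA T p v + (p - c) • v + (ρ : ℂ) • v'))
  have c1 := Real.sq_sqrt (bf_nonneg T p hs (oA T p v))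
  have c2 := Real.sq_sqrt (bf_nonneg T p hs ((p - c) • v))
  have c3 := Real.sq_sqrt (bf_nonneg T p hs ((ρ : ℂ) • v'))
  have d0 := Real.sqrt_nonneg (bf T p s (oA T p v + (p - c) • v + (ρ : ℂ) • v'))
  have d := pow_le_pow_left₀ d0 (a1.trans (add_le_add_left a2 _)) 2
  rw [c0] at d
  generalize √(bf T p s (oA T p v)) = x at *
  generalize √(bf T p s ((p - c) • v)) = y at *
  generalize √(bf T p s ((ρ : ℂ) • v')) = w at *
  nlinarith [sq_nonneg (x - y), sq_nonneg (x - w), sq_nonneg (y - w)]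

/-- The mean of `β^x / β` over a cluster. -/
theorem avg_bound (hy : Hyp T δ) {e0 : H} (he : ‖e0‖ = 1) {g : ℝ} (hg : 0 < g) (hg1 : g ≤ 1)
    {G : Set ℂ} (hG : IsCompact G) {c : ℂ} {ρ s ω κ Λ I0 Γ : ℝ} (hρ : 0 ≤ ρ)
    (hGc : G ⊆ Metric.closedBall c ρ) (hs : 0 < s) (hω0 : 0 < ω) (hκ : 0 ≤ κ) (hΛ : 0 ≤ Λ)
    (hI0 : 0 ≤ I0) (r : ℂ → ℝ) (hr1 : ∀ p ∈ G, 1 ≤ r p)
    (hr : ∀ p ∈ G, ∀ u, ⟪e0, u⟫_ℂ = 0 → ‖u‖ ^ 2 ≤ r p * qf T δ p s u)
    (hω : ∀ p ∈ G, r p * ω ≤ bt T δ e0 p s)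
    (hk : ∀ p ∈ G, ∀ q ∈ G, p ≠ q → ‖⟪yh T δ e0 p s, yh T δ e0 q s⟫_ℂ‖ ≤ κ * kk g (p - q))
    (hΛI : ∀ p ∈ G, κ * ∫ q in G, kk g (p - q) ≤ Λ * volume.real G)
    (hI : ∀ p ∈ G, ∫ q in G, kk g (p - q) ≤ I0)
    (v v' : H) (hv : ‖v‖ ^ 2 + ‖v'‖ ^ 2 ≤ Γ) :
    ∫ p in G, bf T p s (oA T c v + (ρ : ℂ) • v') / bt T δ e0 p s ≤
      12 * ρ ^ 2 * Γ * Λ * volume.real G
        + (3 * Γ * volume.real G + 72 * ρ ^ 2 * Γ * s ^ (-g) * I0) / ω := by
  have hV : 0 ≤ volume.real G := measureReal_nonneg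
  have hsg : 0 < s ^ (-g) := Real.rpow_pos_of_pos hs _
  have hcy : Continuous fun p => yh T δ e0 p s := continuous_yh hy hs
  have hcb : Continuous fun p => bt T δ e0 p s := continuous_bt hy hs
  have iY : ∀ w : H, IntegrableOn (fun p => ‖⟪w, yh T δ e0 p s⟫_ℂ‖ ^ 2) G := fun w =>
    (((continuous_const.inner hcy).norm.pow 2).continuousOn).integrableOn_compact hG
  have iA : ∀ w : H, IntegrableOn (fun p => af T p s w) G := fun w =>
    ((continuous_af T hs w).continuousOn).integrableOn_compact hG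
  have iC : IntegrableOn (fun _ : ℂ => 3 * ‖v‖ ^ 2 / ω) G :=
    (continuous_const.continuousOn).integrableOn_compact hG
  have iL : IntegrableOn (fun p => bf T p s (oA T c v + (ρ : ℂ) • v') / bt T δ e0 p s) G := by
    refine (Continuous.continuousOn ?_).integrableOn_compact hG
    refine (continuous_bf T hs _).div hcb fun p => ?_
    have := one_le_bt hy p hs (e0 := e0)
    linarith
  have i1 : IntegrableOn (fun p => 12 * ρ ^ 2 *
      (‖⟪v, yh T δ e0 p s⟫_ℂ‖ ^ 2 + ‖⟪v', yh T δ e0 p s⟫_ℂ‖ ^ 2)) G :=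
    ((iY v).add (iY v')).const_mul (12 * ρ ^ 2)
  have i2 : IntegrableOn (fun p => 18 * ρ ^ 2 / ω * (af T p s v + af T p s v')) G :=
    ((iA v).add (iA v')).const_mul (18 * ρ ^ 2 / ω)
  have i3 : IntegrableOn (fun p => 3 * ‖v‖ ^ 2 / ω + 12 * ρ ^ 2 *
      (‖⟪v, yh T δ e0 p s⟫_ℂ‖ ^ 2 + ‖⟪v', yh T δ e0 p s⟫_ℂ‖ ^ 2)) G := iC.add i1
  have hmono : ∫ p in G, bf T p s (oA T c v + (ρ : ℂ) • v') / bt T δ e0 p s ≤
      ∫ p in G, (3 * ‖v‖ ^ 2 / ω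
        + 12 * ρ ^ 2 * (‖⟪v, yh T δ e0 p s⟫_ℂ‖ ^ 2 + ‖⟪v', yh T δ e0 p s⟫_ℂ‖ ^ 2)
        + 18 * ρ ^ 2 / ω * (af T p s v + af T p s v')) := by
    refine setIntegral_mono_on iL (i3.add i2) hG.measurableSet fun p hp => ?_
    have hβ : 1 ≤ bt T δ e0 p s := one_le_bt hy p hs
    have hβ0 : 0 < bt T δ e0 p s := by linarith
    have a0 := Avg_bf_three (T := T) p c hs hρ (by simpa [dist_eq_norm] using hGc hp) v v'
    have a1 := bf_div_le hy he p hs (hr1 p hp) (hr p hp) hω0 (hω p hp) v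
    have a2 := bf_div_le hy he p hs (hr1 p hp) (hr p hp) hω0 (hω p hp) v'
    have a3 : ω ≤ bt T δ e0 p s := by
      have := hω p hp
      nlinarith [hr1 p hp]
    have a4 : ‖v‖ ^ 2 / bt T δ e0 p s ≤ ‖v‖ ^ 2 / ω :=
      div_le_div_of_nonneg_left (by positivity) hω0 a3
    have a5 := div_le_div_of_nonneg_right a0 hβ0.le
    have e : 3 * (‖v‖ ^ 2 + ρ ^ 2 * bf T p s v + ρ ^ 2 * bf T p s v') / bt T δ e0 p s =
        3 * (‖v‖ ^ 2 / bt T δ e0 p s) + 3 * (ρ ^ 2 * (bf T p s v / bt T δ e0 p s))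
          + 3 * (ρ ^ 2 * (bf T p s v' / bt T δ e0 p s)) := by ring
    rw [e] at a5
    have a6 := mul_le_mul_of_nonneg_left a1 (sq_nonneg ρ)
    have a7 := mul_le_mul_of_nonneg_left a2 (sq_nonneg ρ)
    have e2 : 3 * ‖v‖ ^ 2 / ω
        + 12 * ρ ^ 2 * (‖⟪v, yh T δ e0 p s⟫_ℂ‖ ^ 2 + ‖⟪v', yh T δ e0 p s⟫_ℂ‖ ^ 2)
        + 18 * ρ ^ 2 / ω * (af T p s v + af T p s v') =
        3 * (‖v‖ ^ 2 / ω) + 3 * (ρ ^ 2 * (4 * ‖⟪v, yh T δ e0 p s⟫_ℂ‖ ^ 2 + 6 * af T p s v / ω))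
          + 3 * (ρ ^ 2 * (4 * ‖⟪v', yh T δ e0 p s⟫_ℂ‖ ^ 2 + 6 * af T p s v' / ω)) := by ring
    rw [e2]
    linarith
  refine hmono.trans ?_
  rw [integral_add i3 i2, integral_add iC i1, integral_const_mul, integral_const_mul,
    integral_add (iY v) (iY v'), integral_add (iA v) (iA v'), setIntegral_const, smul_eq_mul]
  have hL : 0 ≤ Λ * volume.real G := mul_nonneg hΛ hV
  have y1 := Avg_int_yh hy hg hG hs hκ hL hk hΛI v
  have y2 := Avg_int_yh hy hg hG hs hκ hL hk hΛI v'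
  have f1 := Avg_int_af hy hg hg1 hG hs hI0 hI v
  have f2 := Avg_int_af hy hg hg1 hG hs hI0 hI v'
  have t1 : volume.real G * (3 * ‖v‖ ^ 2 / ω) ≤ 3 * Γ * volume.real G / ω := by
    have : ‖v‖ ^ 2 ≤ Γ := by nlinarith [sq_nonneg ‖v'‖]
    have e : volume.real G * (3 * ‖v‖ ^ 2 / ω) = 3 * ‖v‖ ^ 2 * volume.real G / ω := by ring
    rw [e]
    gcongr
  have t2 : (∫ p in G, ‖⟪v, yh T δ e0 p s⟫_ℂ‖ ^ 2) + ∫ p in G, ‖⟪v', yh T δ e0 p s⟫_ℂ‖ ^ 2 ≤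
      Λ * volume.real G * Γ := by
    have := mul_le_mul_of_nonneg_left hv hL
    nlinarith
  have t3 : (∫ p in G, af T p s v) + ∫ p in G, af T p s v' ≤ 4 * s ^ (-g) * I0 * Γ := by
    have := mul_le_mul_of_nonneg_left hv (show 0 ≤ 4 * s ^ (-g) * I0 by positivity)
    nlinarith
  have t4 := mul_le_mul_of_nonneg_left t2 (show 0 ≤ 12 * ρ ^ 2 by positivity)
  have t5 := mul_le_mul_of_nonneg_left t3 (show 0 ≤ 18 * ρ ^ 2 / ω by positivity)
  have e : 12 * ρ ^ 2 * Γ * Λ * volume.real G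
        + (3 * Γ * volume.real G + 72 * ρ ^ 2 * Γ * s ^ (-g) * I0) / ω =
      3 * Γ * volume.real G / ω + 12 * ρ ^ 2 * (Λ * volume.real G * Γ)
        + 18 * ρ ^ 2 / ω * (4 * s ^ (-g) * I0 * Γ) := by ring
  rw [e]
  linarith

end Pool.Agent.P.MP_f981b0_an.Hy
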