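import Pool.Agent.P.MP_f981b0_an.Hy.Basic0

set_option autoImplicit false
set_option linter.unusedSectionVars false
set_option linter.unusedVariables false

open scoped InnerProductSpace ComplexConjugate
open MeasureTheory Filter Topology

noncomputable section

namespace Pool.Agent.P.MP_f981b0_an.Hy

variable {H : Type*} [NormedAddCommGroup H] [InnerProductSpace ℂ H] [CompleteSpace H]

section hyp

variable {T δ : H →L[ℂ] H} (hy : Hyp T δ) (z : ℂ) {t : ℝ}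
include hy

theorem inner_del (u v : H) : ⟪δ u, v⟫_ℂ = ⟪u, δ v⟫_ℂ := by
  rw [← inner_star_left δ u v, hy.sa]

theorem del_del (u : H) : δ (δ u) = oS T z (oA T z u) - oA T z (oS T z u) := by
  have h := congrArg (fun B : H →L[ℂ] H => B u) hy.sq
  change δ (δ u) = star T (T u) - T (star T u) at h
  rw [h]
  simp only [oA_apply, oS_apply, map_sub, map_smul, smul_sub, smul_smul]
  rw [mul_comm z (conj z)]
  abel

theorem norm_oA_sq (u : H) : ‖oA T z u‖ ^ 2 = ‖oS T z u‖ ^ 2 + ‖δ u‖ ^ 2 := by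
  have h : ⟪u, δ (δ u)⟫_ℂ = ⟪u, oS T z (oA T z u)⟫_ℂ - ⟪u, oA T z (oS T z u)⟫_ℂ := by
    rw [del_del hy z, inner_sub_right]
  rw [← inner_del hy, inner_oS_right, ← inner_oS_left T z u (oS T z u)] at h
  have h2 := congrArg Complex.re h
  rw [Complex.sub_re, re_inner_self, re_inner_self, re_inner_self] at h2
  linarith

theorem rb_sub_ra (ht : 0 < t) (v : H) :
    rb T z t v - ra T z t v = ra T z t (δ (δ (rb T z t v))) := by
  have h1 := ra_right T z ht (rb T z t v)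
  have h2 := rb_left T z ht v
  have h3 : δ (δ (rb T z t v)) = (oS T z (oA T z (rb T z t v)) + (t : ℂ) • rb T z t v) - v := by
    rw [del_del hy z]
    conv_rhs => rw [← h2]
    rw [h2]
    conv_rhs => enter [2]; rw [← h2]
    abel
  rw [h3, map_sub, h1]

theorem rb_sub_ra' (ht : 0 < t) (v : H) :
    rb T z t v - ra T z t v = rb T z t (δ (δ (ra T z t v))) := by
  have h1 := rb_right T z ht (ra T z t v)
  have h2 := ra_left T z ht v
  have h3 : δ (δ (ra T z t v)) = v - (oA T z (oS T z (ra T z t v)) + (t : ℂ) • ra T z t v) := by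
    rw [del_del hy z]
    conv_rhs => enter [1]; rw [← h2]
    abel
  rw [h3, map_sub, h1]

theorem oQ_apply (u : H) : oQ T δ z t u = u - δ (ra T z t (δ u)) := by
  simp [oQ]

theorem oM_apply (u : H) : oM T δ z t u = u + δ (rb T z t (δ u)) := by
  simp [oM]

theorem ra_del_oM (ht : 0 < t) (u : H) : ra T z t (δ (oM T δ z t u)) = rb T z t (δ u) := by
  rw [oM_apply hy, map_add, map_add, ← rb_sub_ra hy z ht]; abel

theorem rb_del_oQ (ht : 0 < t) (u : H) : rb T z t (δ (oQ T δ z t u)) = ra T z t (δ u) := by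
  rw [oQ_apply hy, map_sub, map_sub, ← rb_sub_ra' hy z ht]; abel

theorem oQ_oM (ht : 0 < t) (u : H) : oQ T δ z t (oM T δ z t u) = u := by
  rw [oQ_apply hy, ra_del_oM hy z ht, oM_apply hy]; abel

theorem oM_oQ (ht : 0 < t) (u : H) : oM T δ z t (oQ T δ z t u) = u := by
  rw [oM_apply hy, rb_del_oQ hy z ht, oQ_apply hy]; abel

theorem inner_oQ (ht : 0 < t) (u v : H) : ⟪oQ T δ z t u, v⟫_ℂ = ⟪u, oQ T δ z t v⟫_ℂ := by
  rw [oQ_apply hy, oQ_apply hy, inner_sub_left, inner_sub_right, inner_del hy, inner_ra T z ht,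
    inner_del hy]

theorem inner_oM (ht : 0 < t) (u v : H) : ⟪oM T δ z t u, v⟫_ℂ = ⟪u, oM T δ z t v⟫_ℂ := by
  rw [oM_apply hy, oM_apply hy, inner_add_left, inner_add_right, inner_del hy, inner_rb T z ht,
    inner_del hy]

theorem star_oQ (ht : 0 < t) : star (oQ T δ z t) = oQ T δ z t :=
  star_eq_of_inner _ (inner_oQ hy z ht)

theorem star_oM (ht : 0 < t) : star (oM T δ z t) = oM T δ z t :=
  star_eq_of_inner _ (inner_oM hy z ht)

theorem qf_eq_af (u : H) : qf T δ z t u = ‖u‖ ^ 2 - af T z t (δ u) := by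
  unfold qf af
  rw [oQ_apply hy, inner_sub_right, Complex.sub_re, re_inner_self, ← inner_del hy]

theorem mf_eq_bf (u : H) : mf T δ z t u = ‖u‖ ^ 2 + bf T z t (δ u) := by
  unfold mf bf
  rw [oM_apply hy, inner_add_right, Complex.add_re, re_inner_self, ← inner_del hy]

theorem energy_expand (u y : H) :
    ‖u - δ y‖ ^ 2 + ‖oS T z y‖ ^ 2 + t * ‖y‖ ^ 2 =
      ‖u‖ ^ 2 - (2 * (⟪δ u, y⟫_ℂ).re - ‖oA T z y‖ ^ 2 - t * ‖y‖ ^ 2) := by
  rw [@norm_sub_sq ℂ, norm_oA_sq hy z y, inner_del hy]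
  simp only [RCLike.re_to_complex]
  ring

theorem qf_eq (ht : 0 < t) (u : H) :
    qf T δ z t u = ‖u - δ (ra T z t (δ u))‖ ^ 2 + ‖oS T z (ra T z t (δ u))‖ ^ 2
      + t * ‖ra T z t (δ u)‖ ^ 2 := by
  rw [energy_expand hy z, qf_eq_af hy]
  have h1 := af_eq T z ht (δ u)
  have h2 : (⟪δ u, ra T z t (δ u)⟫_ℂ).re = af T z t (δ u) := rfl
  rw [h2]; linarith

theorem qf_var (ht : 0 < t) (u y : H) :
    qf T δ z t u ≤ ‖u - δ y‖ ^ 2 + ‖oS T z y‖ ^ 2 + t * ‖y‖ ^ 2 := by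
  rw [energy_expand hy z, qf_eq_af hy]
  have := af_var T z ht (δ u) y
  linarith

theorem qf_nonneg (ht : 0 < t) (u : H) : 0 ≤ qf T δ z t u := by
  rw [qf_eq hy z ht]; positivity

theorem qf_le (ht : 0 < t) (u : H) : qf T δ z t u ≤ ‖u‖ ^ 2 := by
  rw [qf_eq_af hy]
  have := af_nonneg T z ht (δ u)
  linarith

theorem inner_oQ_self (ht : 0 < t) (u : H) : ⟪u, oQ T δ z t u⟫_ℂ = (qf T δ z t u : ℂ) := by
  rw [qf_eq_af hy, oQ_apply hy, inner_sub_right, ← inner_del hy, inner_ra_self T z ht,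
    inner_self_c]
  push_cast; ring

theorem inner_oM_self (ht : 0 < t) (u : H) : ⟪u, oM T δ z t u⟫_ℂ = (mf T δ z t u : ℂ) := by
  rw [mf_eq_bf hy, oM_apply hy, inner_add_right, ← inner_del hy, inner_rb_self T z ht,
    inner_self_c]
  push_cast; ring

/-- `Q = S S`, so that `q` is the square of a Hilbertian seminorm. -/
theorem exists_rootQ (ht : 0 < t) :
    ∃ S : H →L[ℂ] H, (∀ u v, ⟪u, oQ T δ z t v⟫_ℂ = ⟪S u, S v⟫_ℂ) ∧
      ∀ u, qf T δ z t u = ‖S u‖ ^ 2 := by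
  obtain ⟨S, hS⟩ := exists_root_inner _ (star_oQ hy z ht) (qf_nonneg hy z ht)
  exact ⟨S, hS, fun u => by unfold qf; rw [hS, re_inner_self]⟩

theorem qf_smul (c : ℂ) (u : H) : qf T δ z t (c • u) = ‖c‖ ^ 2 * qf T δ z t u :=
  form_smul _ _ _

theorem sqrt_qf_add (ht : 0 < t) (u v : H) :
    √(qf T δ z t (u + v)) ≤ √(qf T δ z t u) + √(qf T δ z t v) :=
  sqrt_form_add _ (star_oQ hy z ht) (qf_nonneg hy z ht) u v

theorem sqrt_qf_sub (ht : 0 < t) (u v : H) :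
    √(qf T δ z t (u - v)) ≤ √(qf T δ z t u) + √(qf T δ z t v) := by
  have h := sqrt_qf_add hy z ht u ((-1 : ℂ) • v)
  rw [qf_smul hy] at h
  simpa [sub_eq_add_neg] using h

theorem qf_oM (ht : 0 < t) (v : H) : qf T δ z t (oM T δ z t v) = mf T δ z t v := by
  unfold qf mf
  rw [oQ_oM hy z ht, inner_oM hy z ht]

theorem qf_mf_cs (ht : 0 < t) (u v : H) : ‖⟪u, v⟫_ℂ‖ ^ 2 ≤ qf T δ z t u * mf T δ z t v := by
  obtain ⟨S, h1, h2⟩ := exists_rootQ hy z ht
  rw [← qf_oM hy z ht, h2, h2, ← mul_pow]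
  conv_lhs => rw [← oQ_oM hy z ht v, h1]
  exact pow_le_pow_left₀ (norm_nonneg _) (norm_inner_le_norm _ _) 2

theorem qf_pos (ht : 0 < t) {u : H} (hu : u ≠ 0) : 0 < qf T δ z t u := by
  refine (qf_nonneg hy z ht u).lt_of_ne fun h0 => ?_
  have h := qf_mf_cs hy z ht u u
  rw [← h0, zero_mul] at h
  have h2 : ‖⟪u, u⟫_ℂ‖ = 0 := by
    have := sq_nonneg ‖⟪u, u⟫_ℂ‖
    exact pow_eq_zero_iff (two_ne_zero) |>.mp (le_antisymm h this)
  exact hu (inner_self_eq_zero.mp (norm_eq_zero.mp h2))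

/-- Bessel inequality for a `Q`-orthonormal family. -/
theorem bessel_Q (ht : 0 < t) {ι : Type*} [Fintype ι] [DecidableEq ι] (f : ι → H)
    (hf : ∀ k l, ⟪f k, oQ T δ z t (f l)⟫_ℂ = if k = l then 1 else 0) (h : H) :
    ∑ k, ‖⟪f k, h⟫_ℂ‖ ^ 2 ≤ mf T δ z t h := by
  obtain ⟨S, h1, h2⟩ := exists_rootQ hy z ht
  have ho : Orthonormal ℂ (fun k => S (f k)) := by
    rw [orthonormal_iff_ite]
    intro k l
    rw [← h1, hf]
  have h3 := ho.sum_inner_products_le (S (oM T δ z t h)) (s := Finset.univ)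
  rw [← h2, qf_oM hy z ht] at h3
  refine le_trans (le_of_eq ?_) h3
  refine Finset.sum_congr rfl fun k _ => ?_
  rw [← h1, oQ_oM hy z ht]

theorem qf_mono {s : ℝ} (hs : 0 < s) (hst : s ≤ t) (u : H) : qf T δ z s u ≤ qf T δ z t u := by
  have ht : 0 < t := hs.trans_le hst
  have h1 := qf_var hy z hs u (ra T z t (δ u))
  rw [qf_eq hy z ht]
  nlinarith [sq_nonneg ‖ra T z t (δ u)‖]

theorem qf_ratio {s : ℝ} (hs : 0 < s) (hst : s ≤ t) (u : H) :
    s * qf T δ z t u ≤ t * qf T δ z s u := by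
  have ht : 0 < t := hs.trans_le hst
  have h1 := qf_var hy z ht u (ra T z s (δ u))
  rw [qf_eq hy z hs]
  have h2 := mul_le_mul_of_nonneg_left h1 hs.le
  nlinarith [sq_nonneg ‖oS T z (ra T z s (δ u))‖, sq_nonneg ‖u - δ (ra T z s (δ u))‖]

theorem qf_succ (j : ℕ) (u : H) : qf T δ z (tt j) u ≤ 4 * qf T δ z (tt (j + 1)) u := by
  have h := qf_ratio hy z (tt_pos (j + 1)) (tt_anti (Nat.le_succ j)) u
  have hp := tt_pos j
  have e := tt_succ j
  refine le_of_mul_le_mul_left ?_ hp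
  rw [e] at h ⊢
  linarith

theorem bf_sub_af (ht : 0 < t) (h : H) :
    bf T z t h - af T z t h = mf T δ z t (δ (ra T z t h)) := by
  unfold bf af mf
  rw [← Complex.sub_re, ← inner_sub_right, rb_sub_ra' hy z ht, inner_del hy, inner_ra T z ht,
    ra_del_oM hy z ht]

theorem mf_nonneg (ht : 0 < t) (u : H) : 0 ≤ mf T δ z t u := by
  rw [mf_eq_bf hy]
  have := bf_nonneg T z ht (δ u)
  positivity

theorem af_le_bf (ht : 0 < t) (h : H) : af T z t h ≤ bf T z t h := by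
  have h1 := bf_sub_af hy z ht h
  have h2 := mf_nonneg hy z ht (δ (ra T z t h))
  linarith

theorem af_oA (ht : 0 < t) (h : H) : af T z t (oA T z h) ≤ ‖h‖ ^ 2 := by
  refine (af_le_bf hy z ht _).trans ?_
  simpa using bf_decomp T z ht h 0

theorem af_del (ht : 0 < t) (u : H) : af T z t (δ u) ≤ ‖u‖ ^ 2 := by
  have h1 := qf_eq_af hy z (t := t) u
  have h2 := qf_nonneg hy z ht u
  linarith

theorem continuous_qf (u : H) (ht : 0 < t) : Continuous fun z => qf T δ z t u := by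
  simp only [qf_eq_af hy]
  exact continuous_const.sub (continuous_af T ht _)

theorem continuous_qf_vec : Continuous fun u => qf T δ z t u := by
  unfold qf
  exact Complex.continuous_re.comp (continuous_id.inner (oQ T δ z t).continuous)

/-! ### `β`, `d`, `Y` -/

variable {e0 : H}

theorem one_le_bt (ht : 0 < t) : 1 ≤ bt T δ e0 z t := by
  have := bf_nonneg T z ht (δ e0)
  unfold bt; linarith

theorem bt_pos (ht : 0 < t) : 0 < bt T δ e0 z t := one_pos.trans_le (one_le_bt hy z ht)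

theorem bt_eq_mf (he : ‖e0‖ = 1) : bt T δ e0 z t = mf T δ z t e0 := by
  rw [mf_eq_bf hy, he]; simp [bt]

theorem inner_dv (ht : 0 < t) (he : ‖e0‖ = 1) : ⟪e0, dv T δ e0 z t⟫_ℂ = 1 := by
  unfold dv
  rw [inner_smul_right, inner_oM_self hy z ht, ← bt_eq_mf hy z he]
  exact inv_mul_cancel₀ (Complex.ofReal_ne_zero.mpr (bt_pos hy z ht).ne')

theorem oQ_dv (ht : 0 < t) : oQ T δ z t (dv T δ e0 z t) = ((bt T δ e0 z t : ℝ) : ℂ)⁻¹ • e0 := by
  unfold dv
  rw [map_smul, oQ_oM hy z ht]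

theorem qf_dv (ht : 0 < t) (he : ‖e0‖ = 1) :
    qf T δ z t (dv T δ e0 z t) = (bt T δ e0 z t)⁻¹ := by
  unfold qf
  rw [oQ_dv hy z ht, inner_smul_right, ← inner_conj_symm, inner_dv hy z ht he, map_one, mul_one,
    ← Complex.ofReal_inv, Complex.ofReal_re]

theorem yh_eq (ht : 0 < t) :
    yh T δ e0 z t = ((bt T δ e0 z t : ℝ) : ℂ)⁻¹ • rb T z t (δ e0) := by
  unfold yh dv
  rw [map_smul, map_smul, ra_del_oM hy z ht]

theorem inner_e0_le (ht : 0 < t) (he : ‖e0‖ = 1) (u : H) :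
    ‖⟪e0, u⟫_ℂ‖ ^ 2 ≤ bt T δ e0 z t * qf T δ z t u := by
  rw [norm_inner_symm, bt_eq_mf hy z he, mul_comm]
  exact qf_mf_cs hy z ht u e0

/-- Splitting along `d`: `u - ⟪e0, u⟫ d` is orthogonal to `e0` and has smaller `q`. -/
theorem qf_split (ht : 0 < t) (he : ‖e0‖ = 1) (u : H) :
    ⟪e0, u - ⟪e0, u⟫_ℂ • dv T δ e0 z t⟫_ℂ = 0 ∧
      qf T δ z t (u - ⟪e0, u⟫_ℂ • dv T δ e0 z t) ≤ qf T δ z t u := by
  have h0 : ⟪e0, u - ⟪e0, u⟫_ℂ • dv T δ e0 z t⟫_ℂ = 0 := by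
    rw [inner_sub_right, inner_smul_right, inner_dv hy z ht he, mul_one, sub_self]
  refine ⟨h0, ?_⟩
  obtain ⟨S, h1, h2⟩ := exists_rootQ hy z ht
  set p := u - ⟪e0, u⟫_ℂ • dv T δ e0 z t with hp
  have h3 : ⟪S p, S (⟪e0, u⟫_ℂ • dv T δ e0 z t)⟫_ℂ = 0 := by
    rw [← h1, map_smul, oQ_dv hy z ht, inner_smul_right, inner_smul_right, ← inner_conj_symm p e0,
      h0]
    simp
  have h4 : S u = S p + S (⟪e0, u⟫_ℂ • dv T δ e0 z t) := by
    rw [← map_add, hp, sub_add_cancel]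
  rw [h2, h2, h4, @norm_add_sq ℂ, h3]
  simp only [map_zero, mul_zero, add_zero]
  nlinarith [sq_nonneg ‖S (⟪e0, u⟫_ℂ • dv T δ e0 z t)‖]

theorem energy_yh (ht : 0 < t) (he : ‖e0‖ = 1) :
    ‖oS T z (yh T δ e0 z t)‖ ^ 2 + t * ‖yh T δ e0 z t‖ ^ 2 ≤ (bt T δ e0 z t)⁻¹ := by
  rw [← qf_dv hy z ht he, qf_eq hy z ht]
  unfold yh
  nlinarith [sq_nonneg ‖dv T δ e0 z t - δ (ra T z t (δ (dv T δ e0 z t)))‖]

theorem inner_xi_yh (ht : 0 < t) :
    ⟪δ e0, yh T δ e0 z t⟫_ℂ = ((1 - (bt T δ e0 z t)⁻¹ : ℝ) : ℂ) := by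
  rw [yh_eq hy z ht, inner_smul_right, inner_rb_self T z ht, ← Complex.ofReal_inv,
    ← Complex.ofReal_mul]
  congr 1
  have h := (bt_pos hy z ht (e0 := e0)).ne'
  have h2 : bf T z t (δ e0) = bt T δ e0 z t - 1 := by unfold bt; ring
  rw [h2]; field_simp

theorem inner_yh_le (ht : 0 < t) (he : ‖e0‖ = 1) (h : H) :
    ‖⟪h, yh T δ e0 z t⟫_ℂ‖ ^ 2 ≤ bf T z t h / bt T δ e0 z t := by
  refine (bf_cs T z ht h _).trans ?_
  rw [div_eq_mul_inv]
  exact mul_le_mul_of_nonneg_left (energy_yh hy z ht he) (bf_nonneg T z ht h)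

theorem bt_anti {s : ℝ} (hs : 0 < s) (hst : s ≤ t) : bt T δ e0 z t ≤ bt T δ e0 z s := by
  have := bf_anti T z hs hst (δ e0)
  unfold bt; linarith

theorem bt_succ (j : ℕ) : bt T δ e0 z (tt (j + 1)) ≤ 4 * bt T δ e0 z (tt j) := by
  have h := mul_bf_mono T z (tt_pos (j + 1)) (tt_anti (Nat.le_succ j)) (δ e0)
  have hp := tt_pos j
  have e := tt_succ j
  have h2 : bf T z (tt (j + 1)) (δ e0) ≤ 4 * bf T z (tt j) (δ e0) := by
    refine le_of_mul_le_mul_left ?_ hp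
    rw [e] at h ⊢
    linarith
  unfold bt; linarith

theorem bt_harnack (ht : 0 < t) (w : ℂ) (hw : ‖z - w‖ ^ 2 ≤ t) :
    bt T δ e0 w t ≤ 3 * bt T δ e0 z t := by
  have := bf_harnack T z ht w hw (δ e0)
  unfold bt; linarith

theorem continuous_bt (ht : 0 < t) : Continuous fun z => bt T δ e0 z t := by
  unfold bt
  exact continuous_const.add (continuous_bf T ht _)

theorem continuous_yh (ht : 0 < t) : Continuous fun z => yh T δ e0 z t := by
  simp only [fun z => yh_eq hy z ht (e0 := e0)]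
  refine Continuous.smul ?_ ((continuous_rb T ht).clm_apply continuous_const)
  refine Continuous.inv₀ (Complex.continuous_ofReal.comp (continuous_bt hy ht)) fun z => ?_
  exact Complex.ofReal_ne_zero.mpr (bt_pos hy z ht).ne'

end hyp

end Pool.Agent.P.MP_f981b0_an.Hy
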