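import Pool.Agent.P.MP_f981b0_an.Hy.Defs

set_option autoImplicit false
set_option linter.unusedSectionVars false

open scoped InnerProductSpace ComplexConjugate
open MeasureTheory Filter Topology

noncomputable section

namespace Pool.Agent.P.MP_f981b0_an.Hy

variable {H : Type*} [NormedAddCommGroup H] [InnerProductSpace ℂ H] [CompleteSpace H]

theorem tt_pos (j : ℕ) : 0 < tt j := by unfold tt; positivity

theorem tt_le_one (j : ℕ) : tt j ≤ 1 := by
  unfold tt; exact pow_le_one₀ (by norm_num) (by norm_num)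

theorem tt_succ (j : ℕ) : tt (j + 1) = tt j / 4 := by unfold tt; rw [pow_succ]; ring

theorem tt_anti {i j : ℕ} (h : i ≤ j) : tt j ≤ tt i := by
  unfold tt; exact pow_le_pow_of_le_one (by norm_num) (by norm_num) h

theorem tt_zero : tt 0 = 1 := by simp [tt]

theorem tt_eq_exp (j : ℕ) : tt j = Real.exp (-((j : ℝ) * Real.log 4)) := by
  unfold tt
  rw [Real.exp_neg, Real.exp_nat_mul, Real.exp_log (by norm_num), one_div, inv_pow]

theorem tt_tendsto : Tendsto tt atTop (𝓝 0) :=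
  tendsto_pow_atTop_nhds_zero_of_lt_one (by norm_num) (by norm_num)

theorem kk_nonneg (g : ℝ) (ζ : ℂ) : 0 ≤ kk g ζ := Real.rpow_nonneg (norm_nonneg _) _

theorem kk_sub_comm (g : ℝ) (p q : ℂ) : kk g (p - q) = kk g (q - p) := by
  unfold kk; rw [norm_sub_rev]

/-! ### `A` and `A*` -/

theorem oA_apply (T : H →L[ℂ] H) (z : ℂ) (x : H) : oA T z x = T x - z • x := by simp [oA]

theorem oS_apply (T : H →L[ℂ] H) (z : ℂ) (x : H) : oS T z x = star T x - conj z • x := by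
  simp [oS]

theorem star_oA (T : H →L[ℂ] H) (z : ℂ) : star (oA T z) = oS T z := by
  simp [oA, oS, star_sub, star_smul]

theorem star_oS (T : H →L[ℂ] H) (z : ℂ) : star (oS T z) = oA T z := by
  rw [← star_oA, star_star]

theorem oA_star (T : H →L[ℂ] H) (z : ℂ) : oA (star T) (conj z) = oS T z := rfl

theorem oS_star (T : H →L[ℂ] H) (z : ℂ) : oS (star T) (conj z) = oA T z := by
  simp [oA, oS]

theorem ra_star (T : H →L[ℂ] H) (z : ℂ) (t : ℝ) : ra (star T) (conj z) t = rb T z t := by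
  unfold ra rb; rw [oA_star, oS_star]

theorem af_star (T : H →L[ℂ] H) (z : ℂ) (t : ℝ) (h : H) :
    af (star T) (conj z) t h = bf T z t h := by
  unfold af bf; rw [ra_star]

theorem inner_star_left (B : H →L[ℂ] H) (x y : H) : ⟪star B x, y⟫_ℂ = ⟪x, B y⟫_ℂ := by
  rw [ContinuousLinearMap.star_eq_adjoint, ContinuousLinearMap.adjoint_inner_left]

theorem inner_star_right (B : H →L[ℂ] H) (x y : H) : ⟪x, star B y⟫_ℂ = ⟪B x, y⟫_ℂ := by
  rw [ContinuousLinearMap.star_eq_adjoint, ContinuousLinearMap.adjoint_inner_right]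

theorem inner_oS_left (T : H →L[ℂ] H) (z : ℂ) (x y : H) :
    ⟪oS T z x, y⟫_ℂ = ⟪x, oA T z y⟫_ℂ := by rw [← star_oA, inner_star_left]

theorem inner_oS_right (T : H →L[ℂ] H) (z : ℂ) (x y : H) :
    ⟪x, oS T z y⟫_ℂ = ⟪oA T z x, y⟫_ℂ := by rw [← star_oA, inner_star_right]

theorem oA_shift (T : H →L[ℂ] H) (z w : ℂ) (x : H) : oA T z x = oA T w x - (z - w) • x := by
  rw [oA_apply, oA_apply, sub_smul]; abel

theorem oS_shift (T : H →L[ℂ] H) (z w : ℂ) (x : H) :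
    oS T z x = oS T w x - conj (z - w) • x := by
  rw [oS_apply, oS_apply, map_sub, sub_smul]; abel

theorem re_inner_self (x : H) : (⟪x, x⟫_ℂ).re = ‖x‖ ^ 2 := by
  rw [inner_self_eq_norm_sq_to_K]; norm_cast

theorem inner_self_c (x : H) : ⟪x, x⟫_ℂ = ((‖x‖ ^ 2 : ℝ) : ℂ) := by
  rw [inner_self_eq_norm_sq_to_K]; norm_cast

/-- A self-adjoint operator with nonnegative form is a square. -/
theorem exists_root (P : H →L[ℂ] H) (hs : star P = P) (hp : ∀ u, 0 ≤ (⟪u, P u⟫_ℂ).re) :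
    ∃ S : H →L[ℂ] H, star S = S ∧ S * S = P := by
  have h0 : 0 ≤ P := by
    rw [ContinuousLinearMap.nonneg_iff_isPositive, ContinuousLinearMap.isPositive_def']
    refine ⟨hs, fun x => ?_⟩
    have := hp x
    rw [ContinuousLinearMap.reApplyInnerSelf_apply, inner_re_symm]
    exact this
  exact ⟨CFC.sqrt P, (CFC.sqrt_nonneg P).isSelfAdjoint, CFC.sqrt_mul_sqrt_self P h0⟩

theorem exists_root_inner (P : H →L[ℂ] H) (hs : star P = P) (hp : ∀ u, 0 ≤ (⟪u, P u⟫_ℂ).re) :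
    ∃ S : H →L[ℂ] H, ∀ u v, ⟪u, P v⟫_ℂ = ⟪S u, S v⟫_ℂ := by
  obtain ⟨S, h1, h2⟩ := exists_root P hs hp
  refine ⟨S, fun u v => ?_⟩
  rw [← h2, ← inner_star_right S u (S v), h1]; rfl

/-- `1 + B` (more generally `B + t`) is invertible for `B ≥ 0`. -/
theorem isUnit_add_pos (B : H →L[ℂ] H) (hp : ∀ u, 0 ≤ (⟪u, B u⟫_ℂ).re) {t : ℝ} (ht : 0 < t) :
    IsUnit (B + (t : ℂ) • (1 : H →L[ℂ] H)) := by
  refine ContinuousLinearMap.isUnit_of_forall_le_norm_inner_map _ (c := ⟨t, ht.le⟩) ht fun x => ?_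
  rw [norm_inner_symm]
  refine le_trans ?_ (Complex.re_le_norm _)
  have : (B + (t : ℂ) • (1 : H →L[ℂ] H)) x = B x + (t : ℂ) • x := by simp
  rw [this, inner_add_right, inner_smul_right, inner_self_c, Complex.add_re]
  have h2 : ((t : ℂ) * ((‖x‖ ^ 2 : ℝ) : ℂ)).re = t * ‖x‖ ^ 2 := by
    rw [← Complex.ofReal_mul, Complex.ofReal_re]
  rw [h2]
  have := hp x
  change ‖x‖ ^ 2 * t ≤ _
  nlinarith

theorem norm_smul_real (c : ℝ) (hc : 0 ≤ c) (x : H) : ‖(c : ℂ) • x‖ = c * ‖x‖ := by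
  rw [norm_smul, Complex.norm_real, Real.norm_of_nonneg hc]

theorem re_inner_le (x y : H) : (⟪x, y⟫_ℂ).re ≤ ‖x‖ * ‖y‖ :=
  (Complex.re_le_norm _).trans (norm_inner_le_norm _ _)

theorem re_inner_symm (x y : H) : (⟪x, y⟫_ℂ).re = (⟪y, x⟫_ℂ).re := by
  rw [← inner_conj_symm x y, Complex.conj_re]

theorem cs_two {a b c d : ℝ} : (a * b + c * d) ^ 2 ≤ (a ^ 2 + c ^ 2) * (b ^ 2 + d ^ 2) := by
  nlinarith [sq_nonneg (a * d - b * c)]

section general

variable (T : H →L[ℂ] H) (z : ℂ) {t : ℝ}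

theorem isUnit_a (ht : 0 < t) : IsUnit (oS T z * oA T z + (t : ℂ) • (1 : H →L[ℂ] H)) := by
  refine isUnit_add_pos _ (fun u => ?_) ht
  change 0 ≤ (⟪u, oS T z (oA T z u)⟫_ℂ).re
  rw [inner_oS_right, re_inner_self]; positivity

theorem isUnit_b (ht : 0 < t) : IsUnit (oA T z * oS T z + (t : ℂ) • (1 : H →L[ℂ] H)) := by
  have := isUnit_a (star T) (conj z) ht
  rwa [oA_star, oS_star] at this

theorem ra_left (ht : 0 < t) (v : H) :
    oS T z (oA T z (ra T z t v)) + (t : ℂ) • ra T z t v = v := by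
  have h := congrArg (fun B : H →L[ℂ] H => B v) (Ring.mul_inverse_cancel _ (isUnit_a T z ht))
  simpa [ra] using h

theorem ra_right (ht : 0 < t) (v : H) : ra T z t (oS T z (oA T z v) + (t : ℂ) • v) = v := by
  have h := congrArg (fun B : H →L[ℂ] H => B v) (Ring.inverse_mul_cancel _ (isUnit_a T z ht))
  simpa [ra] using h

theorem rb_left (ht : 0 < t) (v : H) :
    oA T z (oS T z (rb T z t v)) + (t : ℂ) • rb T z t v = v := by
  have := ra_left (star T) (conj z) ht v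
  rwa [oA_star, oS_star, ra_star] at this

theorem rb_right (ht : 0 < t) (v : H) : rb T z t (oA T z (oS T z v) + (t : ℂ) • v) = v := by
  have := ra_right (star T) (conj z) ht v
  rwa [oA_star, oS_star, ra_star] at this

theorem inner_ra (ht : 0 < t) (u v : H) : ⟪ra T z t u, v⟫_ℂ = ⟪u, ra T z t v⟫_ℂ := by
  conv_lhs => rw [← ra_left T z ht v]
  conv_rhs => rw [← ra_left T z ht u]
  rw [inner_add_right, inner_add_left, inner_smul_right, inner_smul_left, inner_oS_right,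
    inner_oS_left, Complex.conj_ofReal]

theorem inner_rb (ht : 0 < t) (u v : H) : ⟪rb T z t u, v⟫_ℂ = ⟪u, rb T z t v⟫_ℂ := by
  have := inner_ra (star T) (conj z) ht u v
  rwa [ra_star] at this

theorem star_eq_of_inner (B : H →L[ℂ] H) (h : ∀ u v, ⟪B u, v⟫_ℂ = ⟪u, B v⟫_ℂ) : star B = B := by
  ext u
  refine ext_inner_right ℂ fun v => ?_
  rw [inner_star_left, h]

theorem star_ra (ht : 0 < t) : star (ra T z t) = ra T z t :=
  star_eq_of_inner _ (inner_ra T z ht)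

theorem star_rb (ht : 0 < t) : star (rb T z t) = rb T z t :=
  star_eq_of_inner _ (inner_rb T z ht)

theorem oA_ra (ht : 0 < t) (v : H) : oA T z (ra T z t v) = rb T z t (oA T z v) := by
  conv_rhs => rw [← ra_left T z ht v, map_add, map_smul]
  rw [rb_right T z ht]

theorem oS_rb (ht : 0 < t) (v : H) : oS T z (rb T z t v) = ra T z t (oS T z v) := by
  conv_rhs => rw [← rb_left T z ht v, map_add, map_smul]
  rw [ra_right T z ht]

theorem inner_ra_energy (ht : 0 < t) (h y : H) :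
    ⟪h, y⟫_ℂ = ⟪oA T z (ra T z t h), oA T z y⟫_ℂ + (t : ℂ) * ⟪ra T z t h, y⟫_ℂ := by
  conv_lhs => rw [← ra_left T z ht h]
  rw [inner_add_left, inner_smul_left, inner_oS_left, Complex.conj_ofReal]

theorem inner_ra_self' (ht : 0 < t) (h : H) : ⟪h, ra T z t h⟫_ℂ =
    ((‖oA T z (ra T z t h)‖ ^ 2 + t * ‖ra T z t h‖ ^ 2 : ℝ) : ℂ) := by
  rw [inner_ra_energy T z ht h, inner_self_c, inner_self_c]; push_cast; ring

theorem af_eq (ht : 0 < t) (h : H) :
    af T z t h = ‖oA T z (ra T z t h)‖ ^ 2 + t * ‖ra T z t h‖ ^ 2 := by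
  unfold af; rw [inner_ra_self' T z ht, Complex.ofReal_re]

theorem bf_eq (ht : 0 < t) (h : H) :
    bf T z t h = ‖oS T z (rb T z t h)‖ ^ 2 + t * ‖rb T z t h‖ ^ 2 := by
  have := af_eq (star T) (conj z) ht h
  rwa [af_star, oA_star, ra_star] at this

theorem inner_ra_self (ht : 0 < t) (h : H) : ⟪h, ra T z t h⟫_ℂ = (af T z t h : ℂ) := by
  rw [af_eq T z ht, inner_ra_self' T z ht]

theorem inner_rb_self (ht : 0 < t) (h : H) : ⟪h, rb T z t h⟫_ℂ = (bf T z t h : ℂ) := by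
  have := inner_ra_self (star T) (conj z) ht h
  rwa [af_star, ra_star] at this

theorem af_nonneg (ht : 0 < t) (h : H) : 0 ≤ af T z t h := by
  rw [af_eq T z ht]; positivity

theorem bf_nonneg (ht : 0 < t) (h : H) : 0 ≤ bf T z t h := by
  rw [bf_eq T z ht]; positivity

theorem af_cs (ht : 0 < t) (h y : H) :
    ‖⟪h, y⟫_ℂ‖ ^ 2 ≤ af T z t h * (‖oA T z y‖ ^ 2 + t * ‖y‖ ^ 2) := by
  have h1 : ‖⟪h, y⟫_ℂ‖ ≤ ‖oA T z (ra T z t h)‖ * ‖oA T z y‖
      + (√t * ‖ra T z t h‖) * (√t * ‖y‖) := by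
    rw [inner_ra_energy T z ht h y]
    refine (norm_add_le _ _).trans (add_le_add (norm_inner_le_norm _ _) ?_)
    rw [norm_mul, Complex.norm_real, Real.norm_of_nonneg ht.le]
    have := norm_inner_le_norm (𝕜 := ℂ) (ra T z t h) y
    have h2 : √t * √t = t := Real.mul_self_sqrt ht.le
    calc t * ‖⟪ra T z t h, y⟫_ℂ‖ ≤ t * (‖ra T z t h‖ * ‖y‖) := by gcongr
      _ = (√t * √t) * (‖ra T z t h‖ * ‖y‖) := by rw [h2]
      _ = _ := by ring
  have h3 := pow_le_pow_left₀ (norm_nonneg _) h1 2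
  refine h3.trans (cs_two.trans_eq ?_)
  rw [af_eq T z ht, mul_pow, mul_pow, Real.sq_sqrt ht.le]

theorem bf_cs (ht : 0 < t) (h y : H) :
    ‖⟪h, y⟫_ℂ‖ ^ 2 ≤ bf T z t h * (‖oS T z y‖ ^ 2 + t * ‖y‖ ^ 2) := by
  have := af_cs (star T) (conj z) ht h y
  rwa [af_star, oA_star] at this

theorem af_var (ht : 0 < t) (h y : H) :
    2 * (⟪h, y⟫_ℂ).re - ‖oA T z y‖ ^ 2 - t * ‖y‖ ^ 2 ≤ af T z t h := by
  have h1 := af_cs T z ht h y
  have h2 := Complex.re_le_norm ⟪h, y⟫_ℂ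
  have h3 := af_nonneg T z ht h
  have h4 : 0 ≤ ‖oA T z y‖ ^ 2 + t * ‖y‖ ^ 2 := by positivity
  have h5 : 2 * ‖⟪h, y⟫_ℂ‖ ≤ af T z t h + (‖oA T z y‖ ^ 2 + t * ‖y‖ ^ 2) := by
    refine le_of_sq_le_sq ?_ (by positivity)
    nlinarith [sq_nonneg (af T z t h - (‖oA T z y‖ ^ 2 + t * ‖y‖ ^ 2))]
  linarith

theorem bf_var (ht : 0 < t) (h y : H) :
    2 * (⟪h, y⟫_ℂ).re - ‖oS T z y‖ ^ 2 - t * ‖y‖ ^ 2 ≤ bf T z t h := by
  have := af_var (star T) (conj z) ht h y
  rwa [af_star, oA_star] at this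

theorem norm_ra_le (ht : 0 < t) (h : H) : t * ‖ra T z t h‖ ≤ ‖h‖ := by
  have h1 : af T z t h ≤ ‖h‖ * ‖ra T z t h‖ := re_inner_le _ _
  have h2 := af_eq T z ht h
  rcases (norm_nonneg (ra T z t h)).eq_or_lt with h0 | h0
  · rw [← h0]; simp
  · refine le_of_mul_le_mul_right ?_ h0
    nlinarith [sq_nonneg ‖oA T z (ra T z t h)‖]

theorem norm_rb_le (ht : 0 < t) (h : H) : t * ‖rb T z t h‖ ≤ ‖h‖ := by
  have := norm_ra_le (star T) (conj z) ht h
  rwa [ra_star] at this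

theorem af_le (ht : 0 < t) (h : H) : t * af T z t h ≤ ‖h‖ ^ 2 := by
  have h1 : af T z t h ≤ ‖h‖ * ‖ra T z t h‖ := re_inner_le _ _
  have h2 := norm_ra_le T z ht h
  nlinarith [norm_nonneg h]

theorem bf_le (ht : 0 < t) (h : H) : t * bf T z t h ≤ ‖h‖ ^ 2 := by
  have := af_le (star T) (conj z) ht h
  rwa [af_star] at this

theorem af_decomp (ht : 0 < t) (g g' : H) :
    af T z t (oS T z g + g') ≤ ‖g‖ ^ 2 + ‖g'‖ ^ 2 / t := by
  set h := oS T z g + g' with hh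
  set y := ra T z t h with hy
  have h1 : af T z t h ≤ ‖g‖ * ‖oA T z y‖ + (‖g'‖ / √t) * (√t * ‖y‖) := by
    have hs : 0 < √t := Real.sqrt_pos.mpr ht
    have e1 : af T z t h = (⟪g, oA T z y⟫_ℂ).re + (⟪g', y⟫_ℂ).re := by
      change (⟪oS T z g + g', y⟫_ℂ).re = _
      rw [inner_add_left, inner_oS_left, Complex.add_re]
    have e2 : (‖g'‖ / √t) * (√t * ‖y‖) = ‖g'‖ * ‖y‖ := by field_simp
    rw [e1, e2]
    exact add_le_add (re_inner_le _ _) (re_inner_le _ _)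
  have h2 : af T z t h = ‖oA T z y‖ ^ 2 + (√t * ‖y‖) ^ 2 := by
    rw [af_eq T z ht, mul_pow, Real.sq_sqrt ht.le]
  have h3 : ‖g'‖ ^ 2 / t = (‖g'‖ / √t) ^ 2 := by rw [div_pow, Real.sq_sqrt ht.le]
  rw [h3]
  nlinarith [sq_nonneg (‖g‖ - ‖oA T z y‖), sq_nonneg (‖g'‖ / √t - √t * ‖y‖)]

theorem bf_decomp (ht : 0 < t) (g g' : H) :
    bf T z t (oA T z g + g') ≤ ‖g‖ ^ 2 + ‖g'‖ ^ 2 / t := by
  have := af_decomp (star T) (conj z) ht g g'
  rwa [af_star, oS_star] at this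

theorem form_smul (B : H →L[ℂ] H) (c : ℂ) (h : H) :
    (⟪c • h, B (c • h)⟫_ℂ).re = ‖c‖ ^ 2 * (⟪h, B h⟫_ℂ).re := by
  rw [map_smul, inner_smul_left, inner_smul_right, ← mul_assoc, Complex.conj_mul',
    ← Complex.ofReal_pow, Complex.re_ofReal_mul]

theorem af_smul (c : ℂ) (h : H) : af T z t (c • h) = ‖c‖ ^ 2 * af T z t h := form_smul _ _ _

theorem bf_smul (c : ℂ) (h : H) : bf T z t (c • h) = ‖c‖ ^ 2 * bf T z t h := form_smul _ _ _

theorem sqrt_form_add (P : H →L[ℂ] H) (hs : star P = P) (hp : ∀ u, 0 ≤ (⟪u, P u⟫_ℂ).re)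
    (h h' : H) :
    √((⟪h + h', P (h + h')⟫_ℂ).re) ≤ √((⟪h, P h⟫_ℂ).re) + √((⟪h', P h'⟫_ℂ).re) := by
  obtain ⟨S, hS⟩ := exists_root_inner P hs hp
  rw [hS, hS, hS, re_inner_self, re_inner_self, re_inner_self, Real.sqrt_sq (norm_nonneg _),
    Real.sqrt_sq (norm_nonneg _), Real.sqrt_sq (norm_nonneg _), map_add]
  exact norm_add_le _ _

theorem sqrt_af_add (ht : 0 < t) (h h' : H) :
    √(af T z t (h + h')) ≤ √(af T z t h) + √(af T z t h') :=
  sqrt_form_add _ (star_ra T z ht) (af_nonneg T z ht) h h'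

theorem sqrt_bf_add (ht : 0 < t) (h h' : H) :
    √(bf T z t (h + h')) ≤ √(bf T z t h) + √(bf T z t h') :=
  sqrt_form_add _ (star_rb T z ht) (bf_nonneg T z ht) h h'

theorem bf_gain {s : ℝ} (hs : 0 < s) (hst : s ≤ t) (h : H) :
    bf T z t h + (t - s) * ‖rb T z t h‖ ^ 2 ≤ bf T z s h := by
  have ht : 0 < t := hs.trans_le hst
  have h1 := bf_var T z hs h (rb T z t h)
  have h2 := bf_eq T z ht h
  have h3 : (⟪h, rb T z t h⟫_ℂ).re = bf T z t h := rfl
  rw [h3] at h1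
  linarith

theorem bf_anti {s : ℝ} (hs : 0 < s) (hst : s ≤ t) (h : H) : bf T z t h ≤ bf T z s h := by
  have := bf_gain T z hs hst h
  have h2 : 0 ≤ (t - s) * ‖rb T z t h‖ ^ 2 := mul_nonneg (by linarith) (by positivity)
  linarith

theorem mul_bf_mono {s : ℝ} (hs : 0 < s) (hst : s ≤ t) (h : H) :
    s * bf T z s h ≤ t * bf T z t h := by
  have ht : 0 < t := hs.trans_le hst
  have h1 := bf_decomp T z hs (oS T z (rb T z t h)) ((t : ℂ) • rb T z t h)
  rw [rb_left T z ht, norm_smul_real _ ht.le] at h1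
  rw [bf_eq T z ht]
  have h2 : s * (‖oS T z (rb T z t h)‖ ^ 2 + (t * ‖rb T z t h‖) ^ 2 / s)
      = s * ‖oS T z (rb T z t h)‖ ^ 2 + (t * ‖rb T z t h‖) ^ 2 := by field_simp
  have h3 := mul_le_mul_of_nonneg_left h1 hs.le
  rw [h2] at h3
  nlinarith [sq_nonneg ‖oS T z (rb T z t h)‖]

theorem bf_harnack (ht : 0 < t) (w : ℂ) (hw : ‖z - w‖ ^ 2 ≤ t) (h : H) :
    bf T w t h ≤ 3 * bf T z t h := by
  set y := rb T w t h with hy
  have h1 := bf_cs T z ht h y
  rw [hy, inner_rb_self T w ht, Complex.norm_real, Real.norm_of_nonneg (bf_nonneg T w ht h),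
    ← hy] at h1
  have h2 : ‖oS T z y‖ ≤ ‖oS T w y‖ + ‖z - w‖ * ‖y‖ := by
    rw [oS_shift T z w y]
    refine (norm_sub_le _ _).trans ?_
    rw [norm_smul, Complex.norm_conj]
  have h3 : ‖oS T z y‖ ^ 2 + t * ‖y‖ ^ 2 ≤ 3 * bf T w t h := by
    rw [bf_eq T w ht, ← hy]
    have h4 := pow_le_pow_left₀ (norm_nonneg _) h2 2
    have h5 : (‖z - w‖ * ‖y‖) ^ 2 ≤ t * ‖y‖ ^ 2 := by
      rw [mul_pow]; gcongr
    nlinarith [sq_nonneg (‖oS T w y‖ - ‖z - w‖ * ‖y‖), sq_nonneg ‖oS T w y‖]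
  have h6 := bf_nonneg T z ht h
  rcases (bf_nonneg T w ht h).eq_or_lt with h0 | h0
  · rw [← h0]; positivity
  · refine le_of_mul_le_mul_right ?_ h0
    nlinarith [mul_le_mul_of_nonneg_left h3 h6]

theorem bf_comm (ht : 0 < t) (B : H →L[ℂ] H) (hB : B * T = T * B) (h : H) :
    bf T z t (B h) ≤ ‖B‖ ^ 2 * bf T z t h := by
  set y := rb T z t h with hy
  have hBA : ∀ v, B (oA T z v) = oA T z (B v) := fun v => by
    rw [oA_apply, oA_apply, map_sub, map_smul]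
    congr 1
    exact congrArg (fun C : H →L[ℂ] H => C v) hB
  have h1 := bf_decomp T z ht (B (oS T z y)) ((t : ℂ) • B y)
  have h2 : oA T z (B (oS T z y)) + (t : ℂ) • B y = B h := by
    rw [← hBA, ← map_smul, ← map_add, hy, rb_left T z ht]
  rw [h2, norm_smul_real _ ht.le] at h1
  rw [bf_eq T z ht h, ← hy]
  have h3 : (t * ‖B y‖) ^ 2 / t = t * ‖B y‖ ^ 2 := by field_simp
  rw [h3] at h1
  have h4 := pow_le_pow_left₀ (norm_nonneg _) (B.le_opNorm (oS T z y)) 2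
  have h5 := pow_le_pow_left₀ (norm_nonneg _) (B.le_opNorm y) 2
  rw [mul_pow] at h4 h5
  nlinarith [mul_le_mul_of_nonneg_left h5 ht.le]

/-- Resolvent identity in `t`. -/
theorem ra_sub {s : ℝ} (hs : 0 < s) (ht : 0 < t) (v : H) :
    ra T z s v - ra T z t v = ra T z s (((t - s : ℝ) : ℂ) • ra T z t v) := by
  have h1 := ra_left T z ht v
  have h2 := ra_right T z hs (ra T z t v)
  have h3 : v = (oS T z (oA T z (ra T z t v)) + (s : ℂ) • ra T z t v)
      + ((t - s : ℝ) : ℂ) • ra T z t v := by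
    conv_lhs => rw [← h1]
    rw [add_assoc, ← add_smul]; push_cast; ring_nf
  conv_lhs => rw [h3, map_add, h2, ← h3]
  abel

theorem norm_oA_far {ρ : ℝ} (hz : ρ ≤ ‖z‖ - ‖T‖) (y : H) : ρ * ‖y‖ ≤ ‖oA T z y‖ := by
  have h1 : ‖z • y‖ ≤ ‖T y‖ + ‖oA T z y‖ := by
    have : z • y = T y - oA T z y := by rw [oA_apply]; abel
    rw [this]; exact norm_sub_le _ _
  rw [norm_smul] at h1
  have h2 := T.le_opNorm y
  nlinarith [norm_nonneg y]

theorem af_far' (ht : 0 < t) {ρ : ℝ} (hρ : 0 ≤ ρ) (hz : ρ ≤ ‖z‖ - ‖T‖) (h : H) :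
    ρ ^ 2 * af T z t h ≤ ‖h‖ ^ 2 ∧ ρ ^ 2 * ‖ra T z t h‖ ≤ ‖h‖ := by
  have h1 : af T z t h ≤ ‖h‖ * ‖ra T z t h‖ := re_inner_le _ _
  have h2 := af_eq T z ht h
  have h3 := pow_le_pow_left₀ (by positivity) (norm_oA_far T z hz (ra T z t h)) 2
  rw [mul_pow] at h3
  have h4 : ρ ^ 2 * ‖ra T z t h‖ ≤ ‖h‖ := by
    rcases (norm_nonneg (ra T z t h)).eq_or_lt with h0 | h0
    · rw [← h0]; simp
    · refine le_of_mul_le_mul_right ?_ h0
      nlinarith [mul_nonneg ht.le (sq_nonneg ‖ra T z t h‖)]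
  refine ⟨?_, h4⟩
  nlinarith [norm_nonneg h, sq_nonneg ρ]

/-- Far from the spectrum. -/
theorem af_far (ht : 0 < t) {ρ : ℝ} (hρ : 0 ≤ ρ) (hz : ρ ≤ ‖z‖ - ‖T‖) (h : H) :
    ρ ^ 2 * af T z t h ≤ ‖h‖ ^ 2 := (af_far' T z ht hρ hz h).1

theorem bf_far (ht : 0 < t) {ρ : ℝ} (hρ : 0 ≤ ρ) (hz : ρ ≤ ‖z‖ - ‖T‖) (h : H) :
    ρ ^ 2 * bf T z t h ≤ ‖h‖ ^ 2 ∧ ρ ^ 2 * ‖rb T z t h‖ ≤ ‖h‖ := by
  have := af_far' (star T) (conj z) ht hρ (by rwa [Complex.norm_conj, norm_star]) h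
  rwa [af_star, ra_star] at this

theorem continuous_oA : Continuous fun z => oA T z := by unfold oA; fun_prop

theorem continuous_oS : Continuous fun z => oS T z := by
  unfold oS
  exact continuous_const.sub (Complex.continuous_conj.smul continuous_const)

theorem continuous_ra (ht : 0 < t) : Continuous fun z => ra T z t := by
  refine continuous_iff_continuousAt.mpr fun z => ?_
  have h1 := NormedRing.inverse_continuousAt (isUnit_a T z ht).unit
  have h2 : Continuous fun z => oS T z * oA T z + (t : ℂ) • (1 : H →L[ℂ] H) :=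
    ((continuous_oS T).mul (continuous_oA T)).add continuous_const
  exact ContinuousAt.comp (f := fun z => oS T z * oA T z + (t : ℂ) • (1 : H →L[ℂ] H)) h1
    h2.continuousAt

theorem continuous_rb (ht : 0 < t) : Continuous fun z => rb T z t := by
  have := (continuous_ra (star T) ht).comp Complex.continuous_conj
  refine this.congr fun z => ?_
  exact ra_star T z t

theorem continuous_af (ht : 0 < t) (h : H) : Continuous fun z => af T z t h := by
  unfold af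
  exact Complex.continuous_re.comp
    (continuous_const.inner ((continuous_ra T ht).clm_apply continuous_const))

theorem continuous_bf (ht : 0 < t) (h : H) : Continuous fun z => bf T z t h := by
  unfold bf
  exact Complex.continuous_re.comp
    (continuous_const.inner ((continuous_rb T ht).clm_apply continuous_const))

theorem tendsto_mul_bf (hd : DenseRange (oA T z)) (h : H) :
    Tendsto (fun j => tt j * bf T z (tt j) h) atTop (𝓝 0) := by
  rw [Metric.tendsto_atTop]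
  intro ε hε
  obtain ⟨g, hg⟩ := Metric.denseRange_iff.mp hd h (√(ε / 2)) (Real.sqrt_pos.mpr (by positivity))
  have h1 : Tendsto (fun j => tt j * ‖g‖ ^ 2) atTop (𝓝 0) := by
    simpa using tt_tendsto.mul_const (‖g‖ ^ 2)
  obtain ⟨N, hN⟩ := (Metric.tendsto_atTop.mp h1) (ε / 2) (by positivity)
  refine ⟨N, fun j hj => ?_⟩
  have h2 := hN j hj
  have hp := tt_pos j
  rw [Real.dist_eq, sub_zero] at h2 ⊢
  rw [abs_of_nonneg (mul_nonneg hp.le (bf_nonneg T z hp h))]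
  have h3 := bf_decomp T z hp g (h - oA T z g)
  rw [add_sub_cancel] at h3
  have h4 : ‖h - oA T z g‖ ^ 2 < ε / 2 := by
    rw [dist_eq_norm] at hg
    have := pow_lt_pow_left₀ hg (norm_nonneg _) (two_ne_zero)
    rwa [Real.sq_sqrt (by positivity)] at this
  have h5 := mul_le_mul_of_nonneg_left h3 hp.le
  have h6 : tt j * (‖g‖ ^ 2 + ‖h - oA T z g‖ ^ 2 / tt j)
      = tt j * ‖g‖ ^ 2 + ‖h - oA T z g‖ ^ 2 := by field_simp
  have h7 := le_abs_self (tt j * ‖g‖ ^ 2)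
  linarith

/-- Dini: `t β → 0` uniformly on compact sets. -/
theorem mul_bf_small (hd : ∀ z, DenseRange (oA T z)) (h : H) {K : Set ℂ} (hK : IsCompact K)
    {ε : ℝ} (hε : 0 < ε) : ∀ᶠ j in atTop, ∀ z ∈ K, tt j * bf T z (tt j) h ≤ ε := by
  have h1 : TendstoUniformlyOn (fun j z => tt j * bf T z (tt j) h) (fun _ => 0) atTop K := by
    refine Antitone.tendstoUniformlyOn_of_forall_tendsto hK (fun j => ?_) (fun z _ => ?_)
      continuousOn_const fun z _ => tendsto_mul_bf T z (hd z) h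
    · exact (continuous_const.mul (continuous_bf T (tt_pos j) h)).continuousOn
    · intro i j hij
      exact mul_bf_mono T z (tt_pos j) (tt_anti hij) h
  filter_upwards [Metric.tendstoUniformlyOn_iff.mp h1 ε hε] with j hj z hz
  have := hj z hz
  rw [Real.dist_eq, zero_sub, abs_neg] at this
  exact (le_abs_self _).trans this.le

end general

end Pool.Agent.P.MP_f981b0_an.Hy
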