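import Pool.Agent.P.MP_f981b0_an.Hy.Basic

set_option autoImplicit false

open scoped InnerProductSpace ComplexConjugate
open MeasureTheory Filter Topology

noncomputable section

namespace Pool.Agent.P.MP_f981b0_an.Hy

variable {H : Type*} [NormedAddCommGroup H] [InnerProductSpace ℂ H] [CompleteSpace H]

/-! ### Operator valued derivatives -/

theorem calcop_inv {G : ℝ → (H →L[ℂ] H)} {G' : H →L[ℂ] H} {s : ℝ} (hG : HasDerivAt G G' s)
    (hu : IsUnit (G s)) :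
    HasDerivAt (fun s => Ring.inverse (G s))
      (-(Ring.inverse (G s) * G' * Ring.inverse (G s))) s := by
  obtain ⟨x, hx⟩ := hu
  have h := hasFDerivAt_ringInverse (𝕜 := ℝ) x
  rw [hx] at h
  have h2 := h.comp_hasDerivAt s hG
  rw [← hx, Ring.inverse_unit]
  simpa [Function.comp_def] using h2

omit [CompleteSpace H] in
theorem calcop_apply {F : ℝ → (H →L[ℂ] H)} {F' : H →L[ℂ] H} {s : ℝ} (hF : HasDerivAt F F' s)
    (v : H) : HasDerivAt (fun s => F s v) (F' v) s :=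
  ((ContinuousLinearMap.apply ℂ H v).restrictScalars ℝ).hasFDerivAt.comp_hasDerivAt s hF

omit [CompleteSpace H] in
theorem calcop_form {F : ℝ → (H →L[ℂ] H)} {F' : H →L[ℂ] H} {s : ℝ} (hF : HasDerivAt F F' s)
    (u v : H) : HasDerivAt (fun s => ⟪u, F s v⟫_ℂ) ⟪u, F' v⟫_ℂ s :=
  ((innerSL ℂ u).restrictScalars ℝ).hasFDerivAt.comp_hasDerivAt s (calcop_apply hF v)

theorem calcop_oA {z : ℝ → ℂ} {z' : ℂ} {s : ℝ} (T : H →L[ℂ] H) (hz : HasDerivAt z z' s) :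
    HasDerivAt (fun s => oA T (z s)) (-(z' • (1 : H →L[ℂ] H))) s :=
  (hz.smul_const (1 : H →L[ℂ] H)).const_sub T

theorem calcop_oS {z : ℝ → ℂ} {z' : ℂ} {s : ℝ} (T : H →L[ℂ] H) (hz : HasDerivAt z z' s) :
    HasDerivAt (fun s => oS T (z s)) (-(conj z' • (1 : H →L[ℂ] H))) s := by
  have h : HasDerivAt (fun s => conj (z s)) (conj z') s :=
    (Complex.conjCLE : ℂ →L[ℝ] ℂ).hasFDerivAt.comp_hasDerivAt s hz
  exact (h.smul_const (1 : H →L[ℂ] H)).const_sub (star T)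

theorem calcop_zx (y x : ℝ) : HasDerivAt (fun s : ℝ => (s : ℂ) + (y : ℂ) * Complex.I) 1 x :=
  (Complex.ofRealCLM.hasDerivAt (x := x)).add_const _

theorem calcop_zy (x y : ℝ) :
    HasDerivAt (fun s : ℝ => (x : ℂ) + (s : ℂ) * Complex.I) Complex.I y := by
  have := ((Complex.ofRealCLM.hasDerivAt (x := y)).mul_const Complex.I).const_add (x : ℂ)
  simpa using this

/-- The direction operator. -/
def calcopD (T : H →L[ℂ] H) (z c : ℂ) : H →L[ℂ] H := conj c • oA T z + c • oS T z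

theorem calcop_ra_z {z : ℝ → ℂ} {c : ℂ} {s : ℝ} (T : H →L[ℂ] H) {t : ℝ} (ht : 0 < t)
    (hz : HasDerivAt z c s) :
    HasDerivAt (fun s => ra T (z s) t) (ra T (z s) t * calcopD T (z s) c * ra T (z s) t) s := by
  have h1 := ((calcop_oS T hz).mul (calcop_oA T hz)).add_const ((t : ℂ) • (1 : H →L[ℂ] H))
  have h2 := calcop_inv h1 (isUnit_a T (z s) ht)
  refine HasDerivAt.congr_deriv h2 ?_
  simp only [ra, calcopD, neg_mul, mul_neg, smul_mul_assoc, mul_smul_comm, one_mul, mul_one,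
    mul_add, add_mul, neg_add, neg_neg, Pi.mul_apply]

theorem calcop_D {z : ℝ → ℂ} {c : ℂ} {s : ℝ} (T : H →L[ℂ] H) (hz : HasDerivAt z c s)
    (hc : conj c * c = 1) :
    HasDerivAt (fun s => calcopD T (z s) c) (-2) s := by
  have h := ((calcop_oA T hz).const_smul (conj c)).add ((calcop_oS T hz).const_smul c)
  refine HasDerivAt.congr_deriv h ?_
  rw [smul_neg, smul_neg, smul_smul, smul_smul, mul_comm c, hc, one_smul, ← neg_add,
    one_add_one_eq_two]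

theorem calcop_ra_zz {z : ℝ → ℂ} {c : ℂ} {s : ℝ} (T : H →L[ℂ] H) {t : ℝ} (ht : 0 < t)
    (hz : HasDerivAt z c s) (hc : conj c * c = 1) :
    HasDerivAt (fun s => ra T (z s) t * calcopD T (z s) c * ra T (z s) t)
      (2 * (ra T (z s) t * calcopD T (z s) c * ra T (z s) t * calcopD T (z s) c * ra T (z s) t)
        - 2 * (ra T (z s) t * ra T (z s) t)) s := by
  have h := ((calcop_ra_z T ht hz).mul (calcop_D T hz hc)).mul (calcop_ra_z T ht hz)
  refine HasDerivAt.congr_deriv h ?_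
  simp only [Pi.mul_apply]
  noncomm_ring

theorem calcop_exp (τ : ℝ) :
    HasDerivAt (fun s : ℝ => ((Real.exp (-s) : ℝ) : ℂ)) (-((Real.exp (-τ) : ℝ) : ℂ)) τ := by
  have h : HasDerivAt (fun s : ℝ => Real.exp (-s)) (-Real.exp (-τ)) τ := by
    simpa using (hasDerivAt_neg τ).exp
  simpa using h.ofReal_comp

theorem calcop_ra_t (T : H →L[ℂ] H) (z : ℂ) (τ : ℝ) :
    HasDerivAt (fun s : ℝ => ra T z (Real.exp (-s)))
      (((Real.exp (-τ) : ℝ) : ℂ) • (ra T z (Real.exp (-τ)) * ra T z (Real.exp (-τ)))) τ := by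
  have h1 := ((calcop_exp τ).smul_const (1 : H →L[ℂ] H)).const_add (oS T z * oA T z)
  have h2 := calcop_inv h1 (isUnit_a T z (Real.exp_pos _))
  refine HasDerivAt.congr_deriv h2 ?_
  simp only [ra, neg_smul, neg_mul, mul_neg, smul_mul_assoc, mul_smul_comm, mul_one, neg_neg]

theorem calcop_ra_tt (T : H →L[ℂ] H) (z : ℂ) (τ : ℝ) :
    HasDerivAt (fun s : ℝ =>
        ((Real.exp (-s) : ℝ) : ℂ) • (ra T z (Real.exp (-s)) * ra T z (Real.exp (-s))))
      ((2 * ((Real.exp (-τ) : ℝ) : ℂ) ^ 2) •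
          (ra T z (Real.exp (-τ)) * ra T z (Real.exp (-τ)) * ra T z (Real.exp (-τ)))
        - ((Real.exp (-τ) : ℝ) : ℂ) • (ra T z (Real.exp (-τ)) * ra T z (Real.exp (-τ)))) τ := by
  have h := (calcop_exp τ).smul ((calcop_ra_t T z τ).mul (calcop_ra_t T z τ))
  refine HasDerivAt.congr_deriv h ?_
  simp only [Pi.mul_apply, smul_mul_assoc, mul_smul_comm, mul_assoc]
  module

/-- `a` along the real direction. -/
theorem hasDerivAt_ra_x (T : H →L[ℂ] H) (y : ℝ) {t : ℝ} (ht : 0 < t) (v : H) (x : ℝ) :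
    HasDerivAt (fun s : ℝ => ra T ((s : ℂ) + (y : ℂ) * Complex.I) t v)
      (let z : ℂ := (x : ℂ) + (y : ℂ) * Complex.I
       ra T z t (oA T z (ra T z t v) + oS T z (ra T z t v))) x := by
  have h := calcop_apply (calcop_ra_z T ht (calcop_zx y x)) v
  refine HasDerivAt.congr_deriv h ?_
  simp [calcopD]

/-- `a` along the imaginary direction. -/
theorem hasDerivAt_ra_y (T : H →L[ℂ] H) (x : ℝ) {t : ℝ} (ht : 0 < t) (v : H) (y : ℝ) :
    HasDerivAt (fun s : ℝ => ra T ((x : ℂ) + (s : ℂ) * Complex.I) t v)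
      (let z : ℂ := (x : ℂ) + (y : ℂ) * Complex.I
       ra T z t (Complex.I • oS T z (ra T z t v) - Complex.I • oA T z (ra T z t v))) y := by
  have h := calcop_apply (calcop_ra_z T ht (calcop_zy x y)) v
  refine HasDerivAt.congr_deriv h ?_
  simp [calcopD, sub_eq_neg_add]

/-- `a` along `τ`. -/
theorem hasDerivAt_ra_t (T : H →L[ℂ] H) (z : ℂ) (v : H) (τ : ℝ) :
    HasDerivAt (fun s : ℝ => ra T z (Real.exp (-s)) v)
      (((Real.exp (-τ) : ℝ) : ℂ) • ra T z (Real.exp (-τ)) (ra T z (Real.exp (-τ)) v)) τ := by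
  exact calcop_apply (calcop_ra_t T z τ) v

theorem contDiff_ra_form (T : H →L[ℂ] H) (u v : H) :
    ContDiff ℝ 2 fun p : ℝ × ℝ × ℝ =>
      ⟪u, ra T ((p.1 : ℂ) + (p.2.1 : ℂ) * Complex.I) (Real.exp (-p.2.2)) v⟫_ℂ := by
  have hz : ContDiff ℝ 2 fun p : ℝ × ℝ × ℝ => (p.1 : ℂ) + (p.2.1 : ℂ) * Complex.I :=
    (Complex.ofRealCLM.contDiff.comp contDiff_fst).add
      ((Complex.ofRealCLM.contDiff.comp (contDiff_fst.comp contDiff_snd)).mul contDiff_const)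
  have hz' : ContDiff ℝ 2 fun p : ℝ × ℝ × ℝ => conj ((p.1 : ℂ) + (p.2.1 : ℂ) * Complex.I) :=
    Complex.conjCLE.contDiff.comp hz
  have ht : ContDiff ℝ 2 fun p : ℝ × ℝ × ℝ => ((Real.exp (-p.2.2) : ℝ) : ℂ) :=
    Complex.ofRealCLM.contDiff.comp (Real.contDiff_exp.comp (contDiff_snd.comp contDiff_snd).neg)
  have hG : ContDiff ℝ 2 fun p : ℝ × ℝ × ℝ =>
      oS T ((p.1 : ℂ) + (p.2.1 : ℂ) * Complex.I) * oA T ((p.1 : ℂ) + (p.2.1 : ℂ) * Complex.I) +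
        ((Real.exp (-p.2.2) : ℝ) : ℂ) • (1 : H →L[ℂ] H) :=
    ((contDiff_const.sub (hz'.smul contDiff_const)).mul
      (contDiff_const.sub (hz.smul contDiff_const))).add (ht.smul contDiff_const)
  have ha : ContDiff ℝ 2 fun p : ℝ × ℝ × ℝ =>
      ra T ((p.1 : ℂ) + (p.2.1 : ℂ) * Complex.I) (Real.exp (-p.2.2)) := by
    rw [contDiff_iff_contDiffAt]
    intro p
    obtain ⟨x, hx⟩ := isUnit_a T ((p.1 : ℂ) + (p.2.1 : ℂ) * Complex.I) (Real.exp_pos (-p.2.2))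
    have h := contDiffAt_ringInverse ℝ (n := 2) x
    rw [hx] at h
    exact h.comp p hG.contDiffAt
  exact ((innerSL ℂ u).restrictScalars ℝ).contDiff.comp
    (((ContinuousLinearMap.apply ℂ H v).restrictScalars ℝ).contDiff.comp ha)

theorem calcop_Dx (T : H →L[ℂ] H) (z : ℂ) (w : H) :
    calcopD T z 1 w = oA T z w + oS T z w := by
  simp [calcopD]

theorem calcop_Dy (T : H →L[ℂ] H) (z : ℂ) (w : H) :
    calcopD T z Complex.I w = Complex.I • oS T z w - Complex.I • oA T z w := by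
  simp [calcopD, sub_eq_neg_add]

theorem calcop_DD (T a : H →L[ℂ] H) (z : ℂ) (w : H) :
    calcopD T z 1 (a (calcopD T z 1 w)) + calcopD T z Complex.I (a (calcopD T z Complex.I w)) =
      (2 : ℂ) • (oA T z (a (oS T z w)) + oS T z (a (oA T z w))) := by
  simp only [calcop_Dx, calcop_Dy, map_add, map_sub, map_smul, smul_sub, smul_smul,
    Complex.I_mul_I]
  module

theorem calcop_L (T : H →L[ℂ] H) (z : ℂ) {t : ℝ} (ht : 0 < t) (w : H) :
    (2 * (t : ℂ) ^ 2) • ra T z t w - (t : ℂ) • w + ((t : ℂ) / 4) •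
      (((2 : ℂ) • calcopD T z 1 (ra T z t (calcopD T z 1 w)) - (2 : ℂ) • w) +
        ((2 : ℂ) • calcopD T z Complex.I (ra T z t (calcopD T z Complex.I w)) - (2 : ℂ) • w)) =
      -((t : ℂ) ^ 2 • (rb T z t w - ra T z t w) +
        (t : ℂ) • oS T z (rb T z t (oA T z w) - ra T z t (oA T z w))) := by
  have h1 := calcop_DD T (ra T z t) z w
  have h2 : oA T z (ra T z t (oS T z w)) = w - (t : ℂ) • rb T z t w := by
    rw [← oS_rb T z ht]
    exact eq_sub_of_add_eq (rb_left T z ht w)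
  have h3 : oS T z (rb T z t (oA T z w)) = w - (t : ℂ) • ra T z t w := by
    rw [← oA_ra T z ht]
    exact eq_sub_of_add_eq (ra_left T z ht w)
  rw [map_sub, h3]
  rw [h2] at h1
  linear_combination (norm := module) ((t : ℂ) / 2) • h1

/-- First and second derivatives of the operator valued maps in the three directions, with the
value of `opL` on `a`: `L a = - t a (t (b - a) + A* (b - a) A) a`. -/
theorem ra_second (T : H →L[ℂ] H) (u v : H) (x y τ : ℝ) :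
    ∃ (fx fy ft : ℝ → ℂ) (cx cy ct : ℂ),
      (∀ s, HasDerivAt (fun s : ℝ =>
        ⟪u, ra T ((s : ℂ) + (y : ℂ) * Complex.I) (Real.exp (-τ)) v⟫_ℂ) (fx s) s) ∧
      (∀ s, HasDerivAt (fun s : ℝ =>
        ⟪u, ra T ((x : ℂ) + (s : ℂ) * Complex.I) (Real.exp (-τ)) v⟫_ℂ) (fy s) s) ∧
      (∀ s, HasDerivAt (fun s : ℝ =>
        ⟪u, ra T ((x : ℂ) + (y : ℂ) * Complex.I) (Real.exp (-s)) v⟫_ℂ) (ft s) s) ∧
      HasDerivAt fx cx x ∧ HasDerivAt fy cy y ∧ HasDerivAt ft ct τ ∧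
      (let z : ℂ := (x : ℂ) + (y : ℂ) * Complex.I
       let t : ℝ := Real.exp (-τ)
       let a := ra T z t
       let b := rb T z t
       fx x = ⟪a u, oA T z (a v)⟫_ℂ + ⟪oA T z (a u), a v⟫_ℂ ∧
       fy y = Complex.I * ⟪oA T z (a u), a v⟫_ℂ - Complex.I * ⟪a u, oA T z (a v)⟫_ℂ ∧
       ft τ = (t : ℂ) * ⟪a u, a v⟫_ℂ ∧
       ct + (t : ℂ) / 4 * (cx + cy) =
         -((t : ℂ) ^ 2 * ⟪a u, b (a v) - a (a v)⟫_ℂ
           + (t : ℂ) * ⟪oA T z (a u), b (oA T z (a v)) - a (oA T z (a v))⟫_ℂ)) := by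
  have ht := Real.exp_pos (-τ)
  refine ⟨_, _, _, _, _, _, fun s => calcop_form (calcop_ra_z T ht (calcop_zx y s)) u v,
    fun s => calcop_form (calcop_ra_z T ht (calcop_zy x s)) u v,
    fun s => calcop_form (calcop_ra_t T _ s) u v,
    calcop_form (calcop_ra_zz T ht (calcop_zx y x) (by simp)) u v,
    calcop_form (calcop_ra_zz T ht (calcop_zy x y) (by simp)) u v,
    calcop_form (calcop_ra_tt T _ τ) u v, ?_⟩
  intro z t a b
  refine ⟨?_, ?_, ?_, ?_⟩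
  · change ⟪u, a (calcopD T z 1 (a v))⟫_ℂ = _
    rw [← inner_ra T z ht, calcop_Dx, inner_add_right, inner_oS_right]
  · change ⟪u, a (calcopD T z Complex.I (a v))⟫_ℂ = _
    rw [← inner_ra T z ht, calcop_Dy, inner_sub_right, inner_smul_right, inner_smul_right,
      inner_oS_right]
  · change ⟪u, (t : ℂ) • a (a v)⟫_ℂ = _
    rw [inner_smul_right, ← inner_ra T z ht]
  · have h := congrArg (fun w => ⟪a u, w⟫_ℂ) (calcop_L T z ht (a v))
    have h2 : ∀ (B : H →L[ℂ] H) (w : H), (2 * B) w = (2 : ℂ) • B w := by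
      intro B w
      rw [two_mul, two_smul]
      rfl
    simp only [inner_add_right, inner_smul_right, inner_neg_right, inner_oS_right] at h
    rw [← h]
    simp only [sub_apply, smul_apply, h2, mul_apply_eq_comp, inner_sub_right, inner_smul_right]
    have h3 : ∀ w, ⟪a u, w⟫_ℂ = ⟪u, a w⟫_ℂ := inner_ra T z ht u
    simp only [h3]
    rfl

theorem calcop_log {φ f : ℝ → ℂ} {c : ℂ} {s₀ : ℝ} (h1 : ∀ s, HasDerivAt φ (f s) s)
    (h2 : HasDerivAt f c s₀) (hpos : ∀ s, 0 < 1 + (φ s).re) :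
    deriv (fun s => -Real.log (1 + (φ s).re)) s₀ = -((f s₀).re / (1 + (φ s₀).re)) ∧
    deriv (deriv fun s => -Real.log (1 + (φ s).re)) s₀ =
      -(c.re / (1 + (φ s₀).re) - (f s₀).re ^ 2 / (1 + (φ s₀).re) ^ 2) := by
  have hre : ∀ {g : ℝ → ℂ} {g' : ℂ} {s : ℝ}, HasDerivAt g g' s →
      HasDerivAt (fun s => (g s).re) g'.re s := fun {g g' s} h =>
    Complex.reCLM.hasFDerivAt.comp_hasDerivAt s h
  have hβ : ∀ s, HasDerivAt (fun s => 1 + (φ s).re) (f s).re s := fun s =>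
    (hre (h1 s)).const_add 1
  have hd : deriv (fun s => -Real.log (1 + (φ s).re)) =
      fun s => -((f s).re / (1 + (φ s).re)) := by
    funext s
    exact ((hβ s).log (hpos s).ne').neg.deriv
  refine ⟨by rw [hd], ?_⟩
  rw [hd]
  refine (((hre h2).div (hβ s₀) (hpos s₀).ne').neg.deriv).trans ?_
  have := (hpos s₀).ne'
  field_simp

theorem calcop_conj (x y : ℝ) :
    (x : ℂ) + ((-y : ℝ) : ℂ) * Complex.I = conj ((x : ℂ) + (y : ℂ) * Complex.I) := by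
  simp

theorem calcop_rb_star (T : H →L[ℂ] H) (z : ℂ) (t : ℝ) : rb (star T) (conj z) t = ra T z t := by
  unfold ra rb; rw [oA_star, oS_star]

theorem calcop_lift (T δ : H →L[ℂ] H) (e0 : H) (p : ℝ × ℝ × ℝ) :
    lift (fun z t => -Real.log (bt T δ e0 z t)) p =
      -Real.log (1 + (⟪δ e0, ra (star T) ((p.1 : ℂ) + ((-p.2.1 : ℝ) : ℂ) * Complex.I)
        (Real.exp (-p.2.2)) (δ e0)⟫_ℂ).re) := by
  rw [calcop_conj, ra_star]
  rfl

theorem calcop_pos (T : H →L[ℂ] H) (z : ℂ) (τ : ℝ) (ξ : H) :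
    0 < 1 + (⟪ξ, ra T z (Real.exp τ) ξ⟫_ℂ).re := by
  have := af_nonneg T z (Real.exp_pos τ) ξ
  unfold af at this
  linarith

/-- All first and second derivatives of `- log β`. -/
theorem calcop_all (T δ : H →L[ℂ] H) (e0 : H) (p : ℝ × ℝ × ℝ) (z : ℂ) (t : ℝ)
    (hz : z = (p.1 : ℂ) + (p.2.1 : ℂ) * Complex.I) (ht : t = Real.exp (-p.2.2)) (η : H)
    (hη : η = rb T z t (δ e0)) :
    dx (lift fun z t => -Real.log (bt T δ e0 z t)) p =
      -(2 * (⟪η, oS T z η⟫_ℂ).re / bt T δ e0 z t) ∧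
    dy (lift fun z t => -Real.log (bt T δ e0 z t)) p =
      2 * (⟪η, oS T z η⟫_ℂ).im / bt T δ e0 z t ∧
    opL (lift fun z t => -Real.log (bt T δ e0 z t)) p =
      -((t ^ 2 * (bf T z t η - af T z t η) +
          t * (bf T z t (oS T z η) - af T z t (oS T z η))) / bt T δ e0 z t -
        (t ^ 2 * (‖η‖ ^ 2) ^ 2 + t * ‖⟪η, oS T z η⟫_ℂ‖ ^ 2) / bt T δ e0 z t ^ 2) := by
  obtain ⟨x, y, τ⟩ := p
  obtain ⟨fx, fy, ft, cx, cy, ct, hx, hy, hτ, hxx, hyy, hττ, e1, e2, e3, e4⟩ :=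
    ra_second (star T) (δ e0) (δ e0) x (-y) τ
  dsimp only at hz ht
  rw [calcop_conj, ← hz, ← ht, ra_star, oA_star, ← hη] at e1 e2 e4
  rw [calcop_conj, ← hz, ← ht, ra_star, ← hη] at e3
  rw [calcop_rb_star] at e4
  have hβ : 1 + (⟪δ e0, ra (star T) ((x : ℂ) + ((-y : ℝ) : ℂ) * Complex.I)
      (Real.exp (-τ)) (δ e0)⟫_ℂ).re = bt T δ e0 z t := by
    rw [calcop_conj, ← hz, ← ht, ra_star]
    rfl
  have hy' : ∀ s : ℝ, HasDerivAt (fun s : ℝ => ⟪δ e0, ra (star T)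
      ((x : ℂ) + ((-s : ℝ) : ℂ) * Complex.I) (Real.exp (-τ)) (δ e0)⟫_ℂ) (-fy (-s)) s := by
    intro s
    have := (hy (-s)).scomp s (hasDerivAt_neg s)
    simpa [Function.comp_def] using this
  have hyy' : HasDerivAt (fun s : ℝ => -fy (-s)) cy y := by
    refine HasDerivAt.congr_deriv (hyy.scomp y (hasDerivAt_neg y)).neg ?_
    simp
  obtain ⟨a1, a2⟩ := calcop_log hx hxx (fun s => calcop_pos _ _ _ _)
  obtain ⟨b1, b2⟩ := calcop_log hy' hyy' (fun s => calcop_pos _ _ _ _)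
  obtain ⟨-, c2⟩ := calcop_log hτ hττ (fun s => calcop_pos _ _ _ _)
  rw [hβ] at a1 a2 b1 b2 c2
  have f1 : (fx x).re = 2 * (⟪η, oS T z η⟫_ℂ).re := by
    rw [e1, ← inner_conj_symm (oS T z η) η, Complex.add_re, Complex.conj_re]
    ring
  have f2 : (-fy (-y)).re = -(2 * (⟪η, oS T z η⟫_ℂ).im) := by
    rw [e2, ← inner_conj_symm (oS T z η) η]
    generalize ⟪η, oS T z η⟫_ℂ = w
    simp
    ring
  have f3 : (ft τ).re = t * ‖η‖ ^ 2 := by
    rw [e3, inner_self_c, ← Complex.ofReal_mul, Complex.ofReal_re]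
  have f4 : ct.re + t / 4 * (cx.re + cy.re) = t ^ 2 * (bf T z t η - af T z t η) +
      t * (bf T z t (oS T z η) - af T z t (oS T z η)) := by
    have h0 : 0 < t := ht ▸ Real.exp_pos _
    rw [inner_sub_right, inner_sub_right, inner_ra_self T z h0, inner_rb_self T z h0,
      inner_ra_self T z h0, inner_rb_self T z h0] at e4
    have h1 := congrArg Complex.re e4
    have h2 : (t : ℂ) / 4 = ((t / 4 : ℝ) : ℂ) := by push_cast; rfl
    rw [h2, Complex.add_re, Complex.re_ofReal_mul, Complex.add_re] at h1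
    rw [h1]
    norm_cast
    ring
  simp only [dx, dy, opL, dxx, dyy, dtt, calcop_lift]
  refine ⟨by rw [a1, f1], by rw [b1, f2]; ring, ?_⟩
  rw [a2, b2, c2, ← f4, f1, f2, f3, ← ht, Complex.sq_norm, Complex.normSq_apply]
  ring

theorem calcop_qf {T δ : H →L[ℂ] H} (hy : Hyp T δ) (z : ℂ) {t : ℝ} (ht : 0 < t) (h : H) :
    qf T δ z t (δ (rb T z t h)) = bf T z t h - af T z t h := by
  have h1 : oQ T δ z t (δ (rb T z t h)) = δ (ra T z t h) := by
    rw [oQ_apply hy, ← rb_sub_ra hy z ht, map_sub, sub_sub_cancel]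
  unfold qf
  rw [h1, ← inner_del hy, ← inner_ra T z ht, ← rb_sub_ra hy z ht, inner_sub_left,
    inner_ra T z ht, inner_rb T z ht, Complex.sub_re]
  rfl

variable {T δ : H →L[ℂ] H}

theorem contDiff_logbt (hy : Hyp T δ) (e0 : H) :
    ContDiff ℝ 2 (lift fun z t => -Real.log (bt T δ e0 z t)) := by
  have h1 := (contDiff_ra_form (star T) (δ e0) (δ e0)).comp
    (contDiff_fst.prodMk ((contDiff_fst.comp contDiff_snd).neg.prodMk
      (contDiff_snd.comp contDiff_snd)) :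
      ContDiff ℝ 2 fun p : ℝ × ℝ × ℝ => (p.1, -p.2.1, p.2.2))
  have h2 := (contDiff_const (c := (1 : ℝ))).add (Complex.reCLM.contDiff.comp h1)
  rw [funext (calcop_lift T δ e0)]
  exact (h2.log fun p => (calcop_pos _ _ _ _).ne').neg

theorem opL_logbt (hy : Hyp T δ) {e0 : H} (he : ‖e0‖ = 1) (p : ℝ × ℝ × ℝ) :
    opL (lift fun z t => -Real.log (bt T δ e0 z t)) p ≤ 0 := by
  obtain ⟨z, hz⟩ : ∃ z, z = (p.1 : ℂ) + (p.2.1 : ℂ) * Complex.I := ⟨_, rfl⟩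
  obtain ⟨t, ht⟩ : ∃ t, t = Real.exp (-p.2.2) := ⟨_, rfl⟩
  obtain ⟨η, hη⟩ : ∃ η, η = rb T z t (δ e0) := ⟨_, rfl⟩
  have h0 : 0 < t := ht ▸ Real.exp_pos _
  rw [(calcop_all T δ e0 p z t hz ht η hη).2.2]
  have key : ∀ h, ‖⟪η, h⟫_ℂ‖ ^ 2 ≤ bt T δ e0 z t * (bf T z t h - af T z t h) := by
    intro h
    rw [← calcop_qf hy z h0, hη, inner_rb T z h0, inner_del hy]
    exact inner_e0_le hy z h0 he _
  have h1 := key η
  have h2 := key (oS T z η)
  rw [inner_self_c, Complex.norm_real, Real.norm_of_nonneg (sq_nonneg _)] at h1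
  have hβ : 0 < bt T δ e0 z t := lt_of_lt_of_le one_pos (one_le_bt hy z h0)
  rw [neg_nonpos, sub_nonneg, div_le_div_iff₀ (by positivity) hβ]
  have h3 := mul_le_mul_of_nonneg_left h1 (sq_nonneg t)
  have h4 := mul_le_mul_of_nonneg_left h2 h0.le
  nlinarith [mul_le_mul_of_nonneg_right (add_le_add h3 h4) hβ.le]

theorem grad_logbt (hy : Hyp T δ) (e0 : H) (p : ℝ × ℝ × ℝ) {ρ : ℝ} (hρ : 0 < ρ)
    (hz : ρ ≤ ‖(p.1 : ℂ) + (p.2.1 : ℂ) * Complex.I‖ - ‖T‖) :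
    |dx (lift fun z t => -Real.log (bt T δ e0 z t)) p| ≤ 2 * ‖δ e0‖ ^ 2 / ρ ^ 3 ∧
    |dy (lift fun z t => -Real.log (bt T δ e0 z t)) p| ≤ 2 * ‖δ e0‖ ^ 2 / ρ ^ 3 := by
  obtain ⟨z, hz'⟩ : ∃ z, z = (p.1 : ℂ) + (p.2.1 : ℂ) * Complex.I := ⟨_, rfl⟩
  obtain ⟨t, ht⟩ : ∃ t, t = Real.exp (-p.2.2) := ⟨_, rfl⟩
  obtain ⟨η, hη⟩ : ∃ η, η = rb T z t (δ e0) := ⟨_, rfl⟩
  have h0 : 0 < t := ht ▸ Real.exp_pos _
  obtain ⟨h1, h2, -⟩ := calcop_all T δ e0 p z t hz' ht η hη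
  rw [← hz'] at hz
  obtain ⟨h3, h4⟩ := bf_far T z h0 hρ.le hz (δ e0)
  rw [bf_eq T z h0, ← hη] at h3
  rw [← hη] at h4
  have h5 : ρ * ‖oS T z η‖ ≤ ‖δ e0‖ := by
    refine le_of_sq_le_sq ?_ (norm_nonneg _)
    have : 0 ≤ ρ ^ 2 * (t * ‖η‖ ^ 2) := by positivity
    nlinarith
  have h6 : ‖⟪η, oS T z η⟫_ℂ‖ ≤ ‖δ e0‖ ^ 2 / ρ ^ 3 := by
    refine (norm_inner_le_norm _ _).trans ?_
    rw [le_div_iff₀ (by positivity)]
    calc ‖η‖ * ‖oS T z η‖ * ρ ^ 3 = (ρ ^ 2 * ‖η‖) * (ρ * ‖oS T z η‖) := by ring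
      _ ≤ ‖δ e0‖ * ‖δ e0‖ := mul_le_mul h4 h5 (by positivity) (norm_nonneg _)
      _ = ‖δ e0‖ ^ 2 := by ring
  have hβ := one_le_bt hy z h0 (e0 := e0)
  have h7 : ∀ r : ℝ, |r| ≤ ‖⟪η, oS T z η⟫_ℂ‖ →
      |2 * r / bt T δ e0 z t| ≤ 2 * ‖δ e0‖ ^ 2 / ρ ^ 3 := by
    intro r hr
    rw [abs_div, abs_mul, abs_two, abs_of_pos (lt_of_lt_of_le one_pos hβ), mul_div_assoc 2 (_ ^ 2)]
    refine (div_le_self (by positivity) hβ).trans ?_
    linarith
  rw [h1, h2, abs_neg]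
  exact ⟨h7 _ (Complex.abs_re_le_norm _), h7 _ (Complex.abs_im_le_norm _)⟩

end Pool.Agent.P.MP_f981b0_an.Hy
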