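import Pool.Agent.P.MP_f981b0_an.Hy.Basic

set_option autoImplicit false

open scoped InnerProductSpace ComplexConjugate
open MeasureTheory Filter Topology

noncomputable section

namespace Pool.Agent.P.MP_f981b0_an.Hy

variable {H : Type*} [NormedAddCommGroup H] [InnerProductSpace ℂ H] [CompleteSpace H]

variable {T δ : H →L[ℂ] H}

/-- Gram matrix of an operator. -/
def gram_gm (B : H →L[ℂ] H) {ι : Type*} (v : ι → H) : Matrix ι ι ℂ :=
  Matrix.of fun i k => ⟪v i, B (v k)⟫_ℂ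

omit [CompleteSpace H] in
theorem gram_comb {ι κ : Type*} [Fintype ι] (B : H →L[ℂ] H) (v : ι → H) (F : Matrix ι κ ℂ) :
    gram_gm B (fun k => ∑ i, F i k • v i) = F.conjTranspose * gram_gm B v * F := by
  ext k l
  simp only [gram_gm, Matrix.of_apply, Matrix.mul_apply, Matrix.conjTranspose_apply, map_sum,
    map_smul, sum_inner, inner_sum, inner_smul_left, inner_smul_right, Finset.sum_mul,
    Finset.mul_sum]
  refine Finset.sum_congr rfl fun i _ => Finset.sum_congr rfl fun j _ => ?_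
  rw [RCLike.star_def]
  ring

omit [CompleteSpace H] in
theorem gram_diag_sum {ι : Type*} [Fintype ι] [DecidableEq ι] (B : H →L[ℂ] H) (w : ι → H)
    (d : ι → ℝ) (h : ∀ k l, ⟪w k, B (w l)⟫_ℂ = if k = l then (d k : ℂ) else 0) (a : ι → ℂ) :
    (⟪∑ k, a k • w k, B (∑ k, a k • w k)⟫_ℂ).re = ∑ k, d k * ‖a k‖ ^ 2 := by
  simp only [map_sum, map_smul, sum_inner, inner_sum, inner_smul_left, inner_smul_right, h,
    mul_ite, mul_zero, Finset.sum_ite_eq', Finset.mem_univ, if_true, Complex.re_sum]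
  refine Finset.sum_congr rfl fun k _ => ?_
  rw [← mul_assoc, Complex.mul_conj, ← Complex.ofReal_mul, Complex.ofReal_re,
    Complex.normSq_eq_norm_sq, mul_comm]

omit [CompleteSpace H] in
theorem gram_span_iff (e : ℕ → H) (s : Finset ℕ) (u : H) :
    u ∈ Submodule.span ℂ (e '' (s : Set ℕ)) ↔ ∃ c : s → ℂ, ∑ i, c i • e i = u := by
  rw [Set.image_eq_range, Submodule.mem_span_range_iff_exists_fun]
  rfl

/-- Eigenvectors of the Gram matrix. -/
theorem gram_eig (hy : Hyp T δ) {e : ℕ → H} (he : Orthonormal ℂ e) (s : Finset ℕ) (z : ℂ)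
    {t : ℝ} (ht : 0 < t) :
    ∃ (w : s → H) (μ : s → ℝ),
      (∀ k l, ⟪w k, (1 : H →L[ℂ] H) (w l)⟫_ℂ = if k = l then ((1 : ℝ) : ℂ) else 0) ∧
      (∀ k l, ⟪w k, oQ T δ z t (w l)⟫_ℂ = if k = l then (μ k : ℂ) else 0) ∧
      (∀ k, 0 < μ k ∧ μ k ≤ 1 ∧ ‖w k‖ ^ 2 = 1 ∧ qf T δ z t (w k) = μ k) ∧
      (∀ B : H →L[ℂ] H, (gram_gm B w).det = (gram_gm B (fun i : s => e i)).det) ∧
      (∀ B : H →L[ℂ] H, ∑ k, (⟪w k, B (w k)⟫_ℂ).re = ∑ i ∈ s, (⟪e i, B (e i)⟫_ℂ).re) ∧
      (∀ k, w k ∈ Submodule.span ℂ (e '' (s : Set ℕ))) ∧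
      (∀ u ∈ Submodule.span ℂ (e '' (s : Set ℕ)), ∃ a : s → ℂ, u = ∑ k, a k • w k) ∧
      (gram T δ z t (fun i : s => e i)).det = ((∏ k, μ k : ℝ) : ℂ) := by
  have hH : (gram_gm (oQ T δ z t) (fun i : s => e i)).IsHermitian := by
    ext i k
    simp only [gram_gm, Matrix.conjTranspose_apply, Matrix.of_apply, RCLike.star_def,
      inner_conj_symm]
    exact inner_oQ hy z ht _ _
  set U : Matrix s s ℂ := (hH.eigenvectorUnitary : Matrix s s ℂ) with hU
  have h1 : U.conjTranspose * U = 1 := Unitary.coe_star_mul_self hH.eigenvectorUnitary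
  have h2 : U * U.conjTranspose = 1 := mul_eq_one_comm.1 h1
  have h3 : U.conjTranspose * gram_gm (oQ T δ z t) (fun i : s => e i) * U =
      Matrix.diagonal (fun k => (hH.eigenvalues k : ℂ)) := by
    have := hH.conjStarAlgAut_star_eigenvectorUnitary
    rw [Unitary.conjStarAlgAut_star_apply] at this
    exact this
  have h4 : gram_gm (1 : H →L[ℂ] H) (fun i : s => e i) = 1 := by
    ext i k
    simp only [gram_gm, Matrix.of_apply, one_apply_eq_self, Matrix.one_apply,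
      orthonormal_iff_ite.1 he, Subtype.ext_iff]
  have a1 : ∀ k l, ⟪∑ i, U i k • e i, (1 : H →L[ℂ] H) (∑ i, U i l • e i)⟫_ℂ =
      if k = l then ((1 : ℝ) : ℂ) else 0 := by
    intro k l
    have := congrFun (congrFun (gram_comb 1 (fun i : s => e i) U) k) l
    rw [h4, mul_one, h1, Matrix.one_apply] at this
    exact this
  have a2 : ∀ k l, ⟪∑ i, U i k • e i, oQ T δ z t (∑ i, U i l • e i)⟫_ℂ =
      if k = l then (hH.eigenvalues k : ℂ) else 0 := by
    intro k l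
    have := congrFun (congrFun (gram_comb (oQ T δ z t) (fun i : s => e i) U) k) l
    rw [h3, Matrix.diagonal_apply] at this
    exact this
  refine ⟨fun k => ∑ i, U i k • e i, hH.eigenvalues, a1, a2, ?_, ?_, ?_, ?_, ?_, ?_⟩
  · intro k
    have b1 : ‖∑ i, U i k • e i‖ ^ 2 = 1 := by
      have := congrArg Complex.re (a1 k k)
      rwa [if_pos rfl, one_apply_eq_self, re_inner_self, Complex.ofReal_re] at this
    have b2 : qf T δ z t (∑ i, U i k • e i) = hH.eigenvalues k := by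
      rw [qf, a2, if_pos rfl, Complex.ofReal_re]
    refine ⟨?_, ?_, b1, b2⟩
    · rw [← b2]
      apply qf_pos hy z ht
      intro h0
      rw [h0] at b1
      simp at b1
    · rw [← b2, ← b1]
      exact qf_le hy z ht _
  · intro B
    rw [gram_comb, Matrix.det_mul, Matrix.det_mul, mul_right_comm, ← Matrix.det_mul, h1,
      Matrix.det_one, one_mul]
  · intro B
    have := congrArg Matrix.trace (gram_comb B (fun i : s => e i) U)
    rw [Matrix.trace_mul_cycle, h2, one_mul] at this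
    rw [← Finset.sum_coe_sort s, ← Complex.re_sum, ← Complex.re_sum]
    exact congrArg Complex.re this
  · intro k
    exact (gram_span_iff e s _).2 ⟨_, rfl⟩
  · intro u hu
    obtain ⟨c, rfl⟩ := (gram_span_iff e s u).1 hu
    refine ⟨U.conjTranspose.mulVec c, ?_⟩
    have : ∀ i, c i = ∑ k, U.conjTranspose.mulVec c k * U i k := by
      intro i
      have h5 := congrFun (Matrix.mulVec_mulVec c U U.conjTranspose) i
      rw [h2, Matrix.one_mulVec] at h5
      rw [← h5]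
      simp only [Matrix.mulVec, dotProduct]
      exact Finset.sum_congr rfl fun k _ => mul_comm _ _
    simp only [Finset.smul_sum, smul_smul]
    rw [Finset.sum_comm]
    refine Finset.sum_congr rfl fun i _ => ?_
    rw [← Finset.sum_smul, ← this]
  · rw [Complex.ofReal_prod]
    exact hH.det_eq_prod_eigenvalues

theorem gram_Vs_eq {e : ℕ → H} {s : Finset ℕ} {z : ℂ} {t : ℝ} {μ : s → ℝ} (hμ : ∀ k, 0 < μ k)
    (h : (gram T δ z t (fun i : s => e i)).det = ((∏ k, μ k : ℝ) : ℂ)) :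
    Vs T δ e s z t = -∑ k, Real.log (μ k) := by
  rw [Vs, h, Complex.ofReal_re, Real.log_prod fun k _ => (hμ k).ne']

theorem gram_sum_af (hy : Hyp T δ) {e : ℕ → H} (he : Orthonormal ℂ e) {s : Finset ℕ} {z : ℂ}
    {t : ℝ} {w : s → H} {μ : s → ℝ} (h1 : ∀ k, qf T δ z t (w k) = μ k)
    (h2 : ∀ B : H →L[ℂ] H, ∑ k, (⟪w k, B (w k)⟫_ℂ).re = ∑ i ∈ s, (⟪e i, B (e i)⟫_ℂ).re) :
    ∑ i ∈ s, af T z t (δ (e i)) = ∑ k, (1 - μ k) := by
  have h3 : ∑ k, μ k = ∑ i ∈ s, (1 - af T z t (δ (e i))) := by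
    rw [← Finset.sum_congr rfl fun k _ => h1 k]
    refine (h2 (oQ T δ z t)).trans (Finset.sum_congr rfl fun i _ => ?_)
    have := qf_eq_af hy z (t := t) (e i)
    rw [he.1 i, one_pow] at this
    exact this
  rw [Finset.sum_sub_distrib, h3, Finset.sum_sub_distrib]
  simp

theorem gram_det_pos (hy : Hyp T δ) {e : ℕ → H} (he : Orthonormal ℂ e) (s : Finset ℕ) (z : ℂ)
    {t : ℝ} (ht : 0 < t) :
    0 < (gram T δ z t (fun i : s => e i)).det.re ∧
      (gram T δ z t (fun i : s => e i)).det.im = 0 := by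
  obtain ⟨w, μ, -, -, h3, -, -, -, -, h8⟩ := gram_eig hy he s z ht
  rw [h8, Complex.ofReal_re, Complex.ofReal_im]
  exact ⟨Finset.prod_pos fun k _ => (h3 k).1, rfl⟩

theorem gram_frame (hy : Hyp T δ) {e : ℕ → H} (he : Orthonormal ℂ e) (s : Finset ℕ) (z0 : ℂ)
    {t0 : ℝ} (ht0 : 0 < t0) :
    ∃ (f : s → H) (c : ℝ),
      (∀ k l, ⟪f k, oQ T δ z0 t0 (f l)⟫_ℂ = if k = l then 1 else 0) ∧
      (∀ (z : ℂ) (t : ℝ), 0 < t → Vs T δ e s z t = c - Real.log (gram T δ z t f).det.re) ∧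
      (∀ u ∈ Submodule.span ℂ (e '' (s : Set ℕ)), ∃ a : s → ℂ, u = ∑ k, a k • f k) ∧
      ∑ k, ‖oS T z0 (ra T z0 t0 (δ (f k)))‖ ^ 2 ≤ 2 * ∑ i ∈ s, af T z0 t0 (δ (e i)) ∧
      ∀ k, f k ∈ Submodule.span ℂ (e '' (s : Set ℕ)) := by
  obtain ⟨w, μ, -, h2, h3, h4, h5, h6, h7, -⟩ := gram_eig hy he s z0 ht0
  have r0 : ∀ k, 0 < √(μ k) := fun k => Real.sqrt_pos.2 (h3 k).1
  have r1 : ∀ k, √(μ k) * √(μ k) = μ k := fun k => Real.mul_self_sqrt (h3 k).1.le
  have r2 : ∀ k, ‖(((√(μ k))⁻¹ : ℝ) : ℂ)‖ ^ 2 = (μ k)⁻¹ := fun k => by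
    rw [Complex.norm_real, Real.norm_eq_abs, sq_abs, sq, ← mul_inv, r1]
  refine ⟨fun k => (((√(μ k))⁻¹ : ℝ) : ℂ) • w k, Real.log (∏ k, (μ k)⁻¹), ?_, ?_, ?_, ?_, ?_⟩
  · intro k l
    rw [map_smul, inner_smul_left, inner_smul_right, h2, Complex.conj_ofReal]
    split_ifs with h
    · subst h
      rw [← Complex.ofReal_mul, ← Complex.ofReal_mul, ← mul_assoc, ← mul_inv, r1,
        inv_mul_cancel₀ (h3 k).1.ne', Complex.ofReal_one]
    · simp
  · intro z t ht
    have e1 : (fun k => (((√(μ k))⁻¹ : ℝ) : ℂ) • w k) =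
        fun k => ∑ i, Matrix.diagonal (fun k => (((√(μ k))⁻¹ : ℝ) : ℂ)) i k • w i := by
      funext k
      simp [Matrix.diagonal_apply]
    have e2 : (gram T δ z t (fun k => (((√(μ k))⁻¹ : ℝ) : ℂ) • w k)).det =
        ((∏ k, (μ k)⁻¹ : ℝ) : ℂ) * (gram T δ z t (fun i : s => e i)).det := by
      change (gram_gm (oQ T δ z t) _).det = _ * (gram_gm (oQ T δ z t) _).det
      rw [e1, gram_comb, Matrix.det_mul, Matrix.det_mul, h4, mul_right_comm, ← Matrix.det_mul,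
        Matrix.diagonal_conjTranspose, Matrix.diagonal_mul_diagonal, Matrix.det_diagonal,
        Complex.ofReal_prod]
      congr 1
      refine Finset.prod_congr rfl fun k _ => ?_
      rw [Pi.star_apply, RCLike.star_def, Complex.conj_ofReal, ← Complex.ofReal_mul, ← mul_inv, r1]
    rw [e2, Complex.re_ofReal_mul, Real.log_mul
      (Finset.prod_pos fun k _ => inv_pos.2 (h3 k).1).ne' (gram_det_pos hy he s z ht).1.ne', Vs]
    ring
  · intro u hu
    obtain ⟨a, rfl⟩ := h7 u hu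
    refine ⟨fun k => a k * (√(μ k) : ℝ), Finset.sum_congr rfl fun k _ => ?_⟩
    rw [smul_smul, mul_assoc, ← Complex.ofReal_mul, mul_inv_cancel₀ (r0 k).ne', Complex.ofReal_one,
      mul_one]
  · rw [gram_sum_af hy he (fun k => (h3 k).2.2.2) h5, Finset.mul_sum]
    refine Finset.sum_le_sum fun k _ => ?_
    obtain ⟨m0, m1, m2, m3⟩ := h3 k
    set f : H := (((√(μ k))⁻¹ : ℝ) : ℂ) • w k with hf
    have q1 : qf T δ z0 t0 f = 1 := by rw [hf, qf_smul hy, r2, m3, inv_mul_cancel₀ m0.ne']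
    have q2 : ‖f‖ ^ 2 = (μ k)⁻¹ := by rw [hf, norm_smul, mul_pow, r2, m2, mul_one]
    have q3 := qf_eq hy z0 ht0 f
    have q4 := qf_eq_af hy z0 (t := t0) f
    have q5 := af_eq T z0 ht0 (δ f)
    have q6 := norm_oA_sq hy z0 (ra T z0 t0 (δ f))
    have q7 : 0 ≤ t0 * ‖ra T z0 t0 (δ f)‖ ^ 2 := by positivity
    have q8 := sq_nonneg ‖f - δ (ra T z0 t0 (δ f))‖
    have q9 := sq_nonneg ‖δ (ra T z0 t0 (δ f))‖
    rcases le_total (μ k) (1 / 2) with h | h
    · linarith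
    · have : (μ k)⁻¹ - 1 ≤ 2 * (1 - μ k) := by
        rw [sub_le_iff_le_add, inv_le_iff_one_le_mul₀ m0]
        nlinarith
      linarith
  · exact fun k => Submodule.smul_mem _ _ (h6 k)

omit [CompleteSpace H] in
theorem gram_schur (B : H →L[ℂ] H) (e : ℕ → H) (s : Finset ℕ) {i : ℕ} (hi : i ∉ s) {v : H}
    (hv : v ∈ Submodule.span ℂ (e '' (s : Set ℕ))) (ho : ∀ k : s, ⟪e k, B (e i + v)⟫_ℂ = 0) :
    (gram_gm B (fun k : (insert i s : Finset ℕ) => e k)).det =
      ⟪e i + v, B (e i + v)⟫_ℂ * (gram_gm B (fun k : s => e k)).det := by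
  obtain ⟨c, rfl⟩ := (gram_span_iff e s v).1 hv
  let φ : Unit ⊕ s → (insert i s : Finset ℕ) :=
    Sum.elim (fun _ => ⟨i, Finset.mem_insert_self _ _⟩)
      (fun k => ⟨k, Finset.mem_insert_of_mem k.2⟩)
  have hφ : Function.Bijective φ := by
    constructor
    · rintro (a | a) (b | b) h
      · rfl
      · have h' : i = b := congrArg Subtype.val h
        exact absurd (h' ▸ b.2) hi
      · have h' : a = i := congrArg Subtype.val h
        exact absurd (h' ▸ a.2) hi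
      · have h' : (a : ℕ) = b := congrArg (fun x : (insert i s : Finset ℕ) => (x : ℕ)) h
        rw [Subtype.ext h']
    · rintro ⟨k, hk⟩
      rcases Finset.mem_insert.1 hk with rfl | h
      · exact ⟨.inl (), rfl⟩
      · exact ⟨.inr ⟨k, h⟩, rfl⟩
  let F : Matrix (Unit ⊕ s) (Unit ⊕ s) ℂ := Matrix.fromBlocks 1 0 (Matrix.of fun k _ => c k) 1
  have hF : F.det = 1 := by simp [F]
  have e1 : gram_gm B (fun j => e (φ j)) =
      (gram_gm B (fun k : (insert i s : Finset ℕ) => e k)).submatrix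
        (Equiv.ofBijective φ hφ) (Equiv.ofBijective φ hφ) := rfl
  have e2 : (fun k => ∑ j, F j k • e (φ j)) =
      Sum.elim (fun _ => e i + ∑ k, c k • e k) (fun k : s => e k) := by
    funext k
    rcases k with k | k
    · simp [F, φ]
    · simp [F, φ, Matrix.one_apply]
  have e3 : gram_gm B (Sum.elim (fun _ : Unit => e i + ∑ k, c k • e k) (fun k : s => e k)) =
      Matrix.fromBlocks (Matrix.of fun _ _ => ⟪e i + ∑ k, c k • e k, B (e i + ∑ k, c k • e k)⟫_ℂ)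
        (Matrix.of fun _ (k : s) => ⟪e i + ∑ k, c k • e k, B (e k)⟫_ℂ) 0
        (gram_gm B (fun k : s => e k)) := by
    ext (a | a) (b | b)
    · rfl
    · rfl
    · exact ho a
    · rfl
  have e4 := congrArg Matrix.det (gram_comb B (fun j => e (φ j)) F)
  rw [e2, e3, Matrix.det_fromBlocks_zero₂₁, Matrix.det_mul, Matrix.det_mul,
    Matrix.det_conjTranspose, hF, e1, Matrix.det_submatrix_equiv_self, Matrix.det_unique] at e4
  simpa using e4.symm

/-- A `Q`-orthonormal frame of eigenvectors of the Gram matrix at `(z0, t0)`. -/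
theorem exists_frame (hy : Hyp T δ) {e : ℕ → H} (he : Orthonormal ℂ e) (s : Finset ℕ) (z0 : ℂ)
    {t0 : ℝ} (ht0 : 0 < t0) :
    ∃ (f : s → H) (c : ℝ),
      (∀ k l, ⟪f k, oQ T δ z0 t0 (f l)⟫_ℂ = if k = l then 1 else 0) ∧
      (∀ (z : ℂ) (t : ℝ), 0 < t → Vs T δ e s z t = c - Real.log (gram T δ z t f).det.re) ∧
      (∀ u ∈ Submodule.span ℂ (e '' (s : Set ℕ)), ∃ a : s → ℂ, u = ∑ k, a k • f k) ∧
      ∑ k, ‖oS T z0 (ra T z0 t0 (δ (f k)))‖ ^ 2 ≤ 2 * ∑ i ∈ s, af T z0 t0 (δ (e i)) := by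
  obtain ⟨f, c, h1, h2, h3, h4, -⟩ := gram_frame hy he s z0 ht0
  exact ⟨f, c, h1, h2, h3, h4⟩

theorem Vs_nonneg (hy : Hyp T δ) {e : ℕ → H} (he : Orthonormal ℂ e) (s : Finset ℕ) (z : ℂ)
    {t : ℝ} (ht : 0 < t) : 0 ≤ Vs T δ e s z t := by
  obtain ⟨w, μ, -, -, h3, -, -, -, -, h8⟩ := gram_eig hy he s z ht
  rw [gram_Vs_eq (fun k => (h3 k).1) h8, neg_nonneg]
  exact Finset.sum_nonpos fun k _ => Real.log_nonpos (h3 k).1.le (h3 k).2.1

theorem sum_af_le_Vs (hy : Hyp T δ) {e : ℕ → H} (he : Orthonormal ℂ e) (s : Finset ℕ) (z : ℂ)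
    {t : ℝ} (ht : 0 < t) : ∑ i ∈ s, af T z t (δ (e i)) ≤ Vs T δ e s z t := by
  obtain ⟨w, μ, -, -, h3, -, h5, -, -, h8⟩ := gram_eig hy he s z ht
  rw [gram_Vs_eq (fun k => (h3 k).1) h8, gram_sum_af hy he (fun k => (h3 k).2.2.2) h5,
    ← Finset.sum_neg_distrib]
  refine Finset.sum_le_sum fun k _ => ?_
  have := Real.log_le_sub_one_of_pos (h3 k).1
  linarith

theorem Vs_le (hy : Hyp T δ) {e : ℕ → H} (he : Orthonormal ℂ e) (s : Finset ℕ) (z : ℂ)
    {t : ℝ} (ht : 0 < t) : t * Vs T δ e s z t ≤ ∑ i ∈ s, ‖δ (e i)‖ ^ 2 := by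
  obtain ⟨w, μ, -, -, h3, -, h5, -, -, h8⟩ := gram_eig hy he s z ht
  have e1 : ∀ u : H, (⟪u, (δ * δ) u⟫_ℂ).re = ‖δ u‖ ^ 2 := fun u => by
    rw [mul_apply_eq_comp, ← inner_del hy, re_inner_self]
  have e2 := h5 (δ * δ)
  simp only [e1] at e2
  rw [gram_Vs_eq (fun k => (h3 k).1) h8, ← e2, ← Finset.sum_neg_distrib, Finset.mul_sum]
  refine Finset.sum_le_sum fun k _ => ?_
  obtain ⟨m0, -, m2, m3⟩ := h3 k
  have c1 := qf_mf_cs hy z ht (w k) (w k)
  rw [inner_self_c, m2, m3, mf_eq_bf hy, m2] at c1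
  have c2 := bf_le T z ht (δ (w k))
  have c3 := Real.log_le_sub_one_of_pos (inv_pos.2 m0)
  rw [Real.log_inv] at c3
  have c4 : (μ k)⁻¹ ≤ 1 + bf T z t (δ (w k)) := by
    rw [inv_le_iff_one_le_mul₀' m0]
    simpa using c1
  calc t * -Real.log (μ k) ≤ t * bf T z t (δ (w k)) := by
        apply mul_le_mul_of_nonneg_left _ ht.le
        linarith
    _ ≤ _ := c2

theorem norm_le_exp_Vs (hy : Hyp T δ) {e : ℕ → H} (he : Orthonormal ℂ e) (s : Finset ℕ) (z : ℂ)
    {t : ℝ} (ht : 0 < t) {u : H} (hu : u ∈ Submodule.span ℂ (e '' (s : Set ℕ))) :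
    ‖u‖ ^ 2 ≤ Real.exp (Vs T δ e s z t) * qf T δ z t u := by
  obtain ⟨w, μ, h1, h2, h3, -, -, -, h7, h8⟩ := gram_eig hy he s z ht
  obtain ⟨a, rfl⟩ := h7 u hu
  have e1 := gram_diag_sum 1 w (fun _ => 1) h1 a
  rw [one_apply_eq_self, re_inner_self] at e1
  rw [e1, qf, gram_diag_sum _ w μ h2 a, Finset.mul_sum, gram_Vs_eq (fun k => (h3 k).1) h8]
  refine Finset.sum_le_sum fun k _ => ?_
  rw [← mul_assoc]
  refine mul_le_mul_of_nonneg_right ?_ (sq_nonneg _)
  have c1 : -Real.log (μ k) ≤ -∑ l, Real.log (μ l) := by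
    rw [← Finset.sum_neg_distrib]
    exact Finset.single_le_sum (f := fun l => -Real.log (μ l))
      (fun l _ => neg_nonneg.2 (Real.log_nonpos (h3 l).1.le (h3 l).2.1)) (Finset.mem_univ k)
  have c2 := Real.exp_le_exp.2 c1
  rw [Real.exp_neg, Real.exp_log (h3 k).1, inv_le_iff_one_le_mul₀ (h3 k).1] at c2
  exact c2

/-- Schur complement identity. -/
theorem Vs_insert (hy : Hyp T δ) {e : ℕ → H} (he : Orthonormal ℂ e) (s : Finset ℕ) {i : ℕ}
    (hi : i ∉ s) (z : ℂ) {t : ℝ} (ht : 0 < t) :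
    (∃ v ∈ Submodule.span ℂ (e '' (s : Set ℕ)),
      qf T δ z t (e i + v) = Real.exp (Vs T δ e s z t - Vs T δ e (insert i s) z t)) ∧
    ∀ (a : ℂ), ∀ v ∈ Submodule.span ℂ (e '' (s : Set ℕ)),
      ‖a‖ ^ 2 * Real.exp (Vs T δ e s z t - Vs T δ e (insert i s) z t)
        ≤ qf T δ z t (a • e i + v) := by
  obtain ⟨f, -, h1, -, h3, -, h5⟩ := gram_frame hy he s z ht
  set v : H := -∑ k, ⟪f k, oQ T δ z t (e i)⟫_ℂ • f k with hv
  have hvs : v ∈ Submodule.span ℂ (e '' (s : Set ℕ)) :=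
    Submodule.neg_mem _ (Submodule.sum_mem _ fun k _ => Submodule.smul_mem _ _ (h5 k))
  have o1 : ∀ l, ⟪f l, oQ T δ z t (e i + v)⟫_ℂ = 0 := by
    intro l
    simp only [hv, map_add, map_neg, map_sum, map_smul, inner_add_right, inner_neg_right,
      inner_sum, inner_smul_right, h1, mul_ite, mul_one, mul_zero, Finset.sum_ite_eq,
      Finset.mem_univ, if_true, add_neg_cancel]
  have o2 : ∀ u ∈ Submodule.span ℂ (e '' (s : Set ℕ)), ⟪u, oQ T δ z t (e i + v)⟫_ℂ = 0 := by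
    intro u hu
    obtain ⟨a, rfl⟩ := h3 u hu
    simp only [sum_inner, inner_smul_left, o1, mul_zero, Finset.sum_const_zero]
  have hq : qf T δ z t (e i + v) = Real.exp (Vs T δ e s z t - Vs T δ e (insert i s) z t) := by
    have d1 := gram_schur (oQ T δ z t) e s hi hvs
      (fun k => o2 _ (Submodule.subset_span ⟨k, k.2, rfl⟩))
    rw [inner_oQ_self hy z ht] at d1
    have d2 : (gram T δ z t (fun k : (insert i s : Finset ℕ) => e k)).det.re =
        qf T δ z t (e i + v) * (gram T δ z t (fun k : s => e k)).det.re := by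
      rw [← Complex.re_ofReal_mul]
      exact congrArg Complex.re d1
    have p1 := (gram_det_pos hy he s z ht).1
    have p2 := (gram_det_pos hy he (insert i s) z ht).1
    rw [Vs, Vs, Real.exp_sub, Real.exp_neg, Real.exp_neg, Real.exp_log p1, Real.exp_log p2, d2]
    have p3 : qf T δ z t (e i + v) ≠ 0 := by
      intro h0
      rw [d2, h0, zero_mul] at p2
      exact lt_irrefl _ p2
    field_simp
  refine ⟨⟨v, hvs, hq⟩, fun a v' hv' => ?_⟩
  obtain ⟨S, hS1, hS2⟩ := exists_rootQ hy z ht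
  have e1 : a • e i + v' = (v' - a • v) + a • (e i + v) := by
    rw [smul_add]
    abel
  have o3 : ⟪S (v' - a • v), S (a • (e i + v))⟫_ℂ = 0 := by
    rw [← hS1, map_smul, inner_smul_right,
      o2 _ (Submodule.sub_mem _ hv' (Submodule.smul_mem _ _ hvs)), mul_zero]
  have e2 := norm_add_sq_eq_norm_sq_add_norm_sq_of_inner_eq_zero _ _ o3
  rw [← hq, ← qf_smul hy, e1, hS2, hS2, map_add S (v' - a • v), sq, sq, e2]
  exact le_add_of_nonneg_left (mul_self_nonneg _)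

theorem Vs_mono (hy : Hyp T δ) {e : ℕ → H} (he : Orthonormal ℂ e) {s s' : Finset ℕ}
    (hs : s ⊆ s') (z : ℂ) {t : ℝ} (ht : 0 < t) : Vs T δ e s z t ≤ Vs T δ e s' z t := by
  have key : ∀ r : Finset ℕ, Vs T δ e s z t ≤ Vs T δ e (s ∪ r) z t := by
    intro r
    induction r using Finset.induction_on with
    | empty => rw [Finset.union_empty]
    | insert a r ha ih =>
      rw [Finset.union_insert]
      by_cases h : a ∈ s ∪ r
      · rwa [Finset.insert_eq_of_mem h]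
      · have h1 := (Vs_insert hy he (s ∪ r) h z ht).2 1 0 (Submodule.zero_mem _)
        have h2 := qf_le hy z ht (e a)
        rw [he.1 a, one_pow] at h2
        rw [norm_one, one_pow, one_mul, one_smul, add_zero] at h1
        have h3 := Real.exp_le_one_iff.1 (h1.trans h2)
        linarith
  have := key s'
  rwa [Finset.union_eq_right.2 hs] at this

end Pool.Agent.P.MP_f981b0_an.Hy
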