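import Pool.Agent.P.MP_f981b0_an.Hy.Defs

set_option autoImplicit false

open scoped InnerProductSpace ComplexConjugate
open MeasureTheory Filter Topology

noncomputable section

namespace Pool.Agent.P.MP_f981b0_an.Hy

variable {H : Type*} [NormedAddCommGroup H] [InnerProductSpace ℂ H] [CompleteSpace H]

/-- The Leibniz expansion of the determinant with one column replaced. -/
theorem jac_updateCol {ι : Type*} [Fintype ι] [DecidableEq ι] (M : Matrix ι ι ℂ) (i : ι)
    (b : ι → ℂ) :
    (M.updateCol i b).det = ∑ σ : Equiv.Perm ι, ((Equiv.Perm.sign σ : ℤ) : ℂ) *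
      ((∏ j ∈ Finset.univ.erase i, M (σ j) j) * b (σ i)) := by
  rw [Matrix.det_apply']
  refine Finset.sum_congr rfl fun σ _ => ?_
  congr 1
  rw [← Finset.prod_erase_mul _ _ (Finset.mem_univ i)]
  congr 1
  · refine Finset.prod_congr rfl fun j hj => ?_
    rw [Matrix.updateCol_ne (Finset.ne_of_mem_erase hj)]
  · rw [Matrix.updateCol_self]

/-- Jacobi formula for the first derivative. -/
theorem jac_first {ι : Type*} [Fintype ι] [DecidableEq ι] (N : ℝ → Matrix ι ι ℂ)
    (N' : Matrix ι ι ℂ) (s : ℝ)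
    (h1 : ∀ i k, HasDerivAt (fun s => N s i k) (N' i k) s) :
    HasDerivAt (fun s => (N s).det) ((N s).adjugate * N').trace s := by
  have e1 : (fun s => (N s).det) = fun s => ∑ σ : Equiv.Perm ι,
      ((Equiv.Perm.sign σ : ℤ) : ℂ) * ∏ i, N s (σ i) i := by
    funext s
    rw [Matrix.det_apply']
  have e2 : ((N s).adjugate * N').trace = ∑ σ : Equiv.Perm ι,
      ((Equiv.Perm.sign σ : ℤ) : ℂ) *
        ∑ i, (∏ j ∈ Finset.univ.erase i, N s (σ j) j) • N' (σ i) i := by
    have e3 : ∀ i, ((N s).adjugate * N') i i = ((N s).updateCol i (fun k => N' k i)).det := by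
      intro i
      rw [← Matrix.cramer_apply, Matrix.cramer_eq_adjugate_mulVec]
      rfl
    simp only [Matrix.trace, Matrix.diag_apply, e3, jac_updateCol, Finset.mul_sum, smul_eq_mul]
    rw [Finset.sum_comm]
  rw [e1, e2]
  refine HasDerivAt.fun_sum fun σ _ => ?_
  refine HasDerivAt.const_mul _ ?_
  exact HasDerivAt.fun_finsetProd (f := fun i s => N s (σ i) i) fun i _ => h1 (σ i) i

/-- The entries of the adjugate are differentiable. -/
theorem jac_adj {ι : Type*} [Fintype ι] [DecidableEq ι] (N : ℝ → Matrix ι ι ℂ)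
    (N' : Matrix ι ι ℂ) (s : ℝ)
    (h1 : ∀ i k, HasDerivAt (fun s => N s i k) (N' i k) s) :
    ∃ B' : Matrix ι ι ℂ, ∀ i k, HasDerivAt (fun s => (N s).adjugate i k) (B' i k) s := by
  have key : ∀ i k, ∃ c : ℂ, HasDerivAt (fun s => (N s).adjugate i k) c s := by
    intro i k
    have e1 : (fun s => (N s).adjugate i k)
        = fun s => ((N s).updateRow k (Pi.single i 1)).det := by
      funext s
      rw [Matrix.adjugate_apply]
    rw [e1]
    refine ⟨_, jac_first (fun s => (N s).updateRow k (Pi.single i 1)) (N'.updateRow k 0) s ?_⟩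
    intro a b
    by_cases hab : a = k
    · subst hab
      simp only [Matrix.updateRow_self, Pi.zero_apply]
      exact hasDerivAt_const _ _
    · simp only [Matrix.updateRow_ne hab]
      exact h1 a b
  choose B' hB using key
  exact ⟨Matrix.of B', hB⟩

/-- Derivative of the entries of a product of matrices. -/
theorem jac_mul {ι : Type*} [Fintype ι] (A B : ℝ → Matrix ι ι ℂ)
    (A' B' : Matrix ι ι ℂ) (s : ℝ)
    (hA : ∀ i k, HasDerivAt (fun s => A s i k) (A' i k) s)
    (hB : ∀ i k, HasDerivAt (fun s => B s i k) (B' i k) s) (i k : ι) :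
    HasDerivAt (fun s => (A s * B s) i k) ((A' * B s + A s * B') i k) s := by
  simp only [Matrix.mul_apply, Matrix.add_apply]
  rw [← Finset.sum_add_distrib]
  exact HasDerivAt.fun_sum fun j _ => (hA i j).mul (hB j k)

/-- Jacobi formula to second order at the identity matrix. -/
theorem jac {ι : Type*} [Fintype ι] [DecidableEq ι] (N N' : ℝ → Matrix ι ι ℂ)
    (N'' : Matrix ι ι ℂ) (s0 : ℝ)
    (h1 : ∀ s i k, HasDerivAt (fun s => N s i k) (N' s i k) s)
    (h2 : ∀ i k, HasDerivAt (fun s => N' s i k) (N'' i k) s0)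
    (h0 : N s0 = 1) (h3 : (N' s0).trace.im = 0) :
    deriv (fun s => Real.log (N s).det.re) s0 = (N' s0).trace.re ∧
    deriv (deriv (fun s => Real.log (N s).det.re)) s0
      = (N''.trace - (N' s0 * N' s0).trace).re := by
  set D1 : ℝ → ℂ := fun s => ((N s).adjugate * N' s).trace with hD1
  have hD : ∀ s, HasDerivAt (fun s => (N s).det) (D1 s) s := fun s =>
    jac_first N (N' s) s (h1 s)
  have hD10 : D1 s0 = (N' s0).trace := by
    simp only [hD1, h0, Matrix.adjugate_one, Matrix.one_mul]
  obtain ⟨B', hB⟩ := jac_adj N (N' s0) s0 (h1 s0)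
  have hB' : B' = (N' s0).trace • (1 : Matrix ι ι ℂ) - N' s0 := by
    ext i k
    have a1 := jac_mul (fun s => (N s).adjugate) N B' (N' s0) s0 hB (h1 s0) i k
    have a2 : HasDerivAt (fun s => ((N s).adjugate * N s) i k)
        (D1 s0 * (1 : Matrix ι ι ℂ) i k) s0 := by
      have e1 : (fun s => ((N s).adjugate * N s) i k)
          = fun s => (N s).det * (1 : Matrix ι ι ℂ) i k := by
        funext s
        rw [Matrix.adjugate_mul, Matrix.smul_apply, smul_eq_mul]
      rw [e1]
      exact (hD s0).mul_const _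
    have a3 := a1.unique a2
    simp only [h0, Matrix.adjugate_one, Matrix.one_mul, Matrix.mul_one, Matrix.add_apply,
      hD10] at a3
    rw [Matrix.sub_apply, Matrix.smul_apply, smul_eq_mul, ← a3]
    ring
  have hD2 : HasDerivAt D1
      ((N' s0).trace * (N' s0).trace - (N' s0 * N' s0).trace + N''.trace) s0 := by
    have a1 : HasDerivAt (fun s => ∑ i, ((N s).adjugate * N' s) i i)
        (∑ i, (B' * N' s0 + (N s0).adjugate * N'') i i) s0 :=
      HasDerivAt.fun_sum fun i _ =>
        jac_mul (fun s => (N s).adjugate) N' B' N'' s0 hB h2 i i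
    have a2 : (∑ i, (B' * N' s0 + (N s0).adjugate * N'') i i)
        = (N' s0).trace * (N' s0).trace - (N' s0 * N' s0).trace + N''.trace := by
      change (B' * N' s0 + (N s0).adjugate * N'').trace = _
      rw [hB', h0, Matrix.adjugate_one, Matrix.one_mul, Matrix.trace_add, Matrix.sub_mul,
        Matrix.trace_sub, Matrix.smul_mul, Matrix.one_mul, Matrix.trace_smul, smul_eq_mul]
    rw [a2] at a1
    exact a1
  have hR : ∀ s, HasDerivAt (fun s => (N s).det.re) (D1 s).re s := fun s =>
    Complex.reCLM.hasFDerivAt.comp_hasDerivAt s (hD s)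
  have hR2 : HasDerivAt (fun s => (D1 s).re)
      ((N' s0).trace * (N' s0).trace - (N' s0 * N' s0).trace + N''.trace).re s0 :=
    Complex.reCLM.hasFDerivAt.comp_hasDerivAt s0 hD2
  have hd0 : (N s0).det.re = 1 := by
    rw [h0, Matrix.det_one, Complex.one_re]
  have hev : ∀ᶠ s in 𝓝 s0, (N s).det.re ≠ 0 := by
    have hc : ContinuousAt (fun s => (N s).det.re) s0 := (hR s0).continuousAt
    refine hc.eventually_ne ?_
    rw [hd0]
    exact one_ne_zero
  have hlog : ∀ s, (N s).det.re ≠ 0 →
      deriv (fun s => Real.log (N s).det.re) s = (D1 s).re / (N s).det.re :=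
    fun s hs => ((hR s).log hs).deriv
  refine ⟨?_, ?_⟩
  · rw [hlog s0 (by rw [hd0]; exact one_ne_zero), hd0, hD10, div_one]
  · have e1 : deriv (fun s => Real.log (N s).det.re) =ᶠ[𝓝 s0]
        fun s => (D1 s).re / (N s).det.re := hev.mono fun s hs => hlog s hs
    rw [e1.deriv_eq]
    have a1 := (hR2.div (hR s0) (by rw [hd0]; exact one_ne_zero)).deriv
    have e2 : (fun s => (D1 s).re / (N s).det.re)
        = (fun s => (D1 s).re) / (fun s => (N s).det.re) := rfl
    rw [e2, a1, hd0, hD10]
    simp only [Complex.add_re, Complex.sub_re, Complex.mul_re, h3]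
    ring

end Pool.Agent.P.MP_f981b0_an.Hy
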