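import Pool.Agent.P.MP_f981b0_an.Hy.CalcOp
import Pool.Agent.P.MP_f981b0_an.Hy.Gram
import Pool.Agent.P.MP_f981b0_an.Hy.Jac

set_option autoImplicit false

open scoped InnerProductSpace ComplexConjugate
open MeasureTheory Filter Topology

noncomputable section

namespace Pool.Agent.P.MP_f981b0_an.Hy

variable {H : Type*} [NormedAddCommGroup H] [InnerProductSpace ℂ H] [CompleteSpace H]

variable {T δ : H →L[ℂ] H}

theorem calcV_gram_apply (hy : Hyp T δ) (z : ℂ) (t : ℝ) {ι : Type*} (f : ι → H) (k l : ι) :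
    gram T δ z t f k l = ⟪f k, f l⟫_ℂ - ⟪δ (f k), ra T z t (δ (f l))⟫_ℂ := by
  simp only [gram, Matrix.of_apply]
  rw [oQ_apply hy, inner_sub_right, inner_del hy]

/-- Jacobi formula for `c - log det (G - g s)`. -/
theorem calcV_jac {ι : Type*} [Fintype ι] [DecidableEq ι] (F : ℝ → ℝ) (c : ℝ)
    (N : ℝ → Matrix ι ι ℂ) (G : ι → ι → ℂ) (g g' : ι → ι → ℝ → ℂ) (g'' : ι → ι → ℂ) (s0 : ℝ)
    (hF : ∀ s, F s = c - Real.log (N s).det.re)
    (hN : ∀ s k l, N s k l = G k l - g k l s)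
    (h1 : ∀ k l s, HasDerivAt (g k l) (g' k l s) s)
    (h2 : ∀ k l, HasDerivAt (g' k l) (g'' k l) s0)
    (h0 : N s0 = 1) (h3 : ∀ k, (g' k k s0).im = 0) :
    deriv F s0 = ∑ k, (g' k k s0).re ∧
      deriv (deriv F) s0 = (∑ k, g'' k k + ∑ k, ∑ l, g' k l s0 * g' l k s0).re := by
  have hj := jac N (fun s => Matrix.of fun k l => -g' k l s) (Matrix.of fun k l => -g'' k l) s0
    (fun s k l => by
      have : (fun s => N s k l) = fun s => G k l - g k l s := funext fun s => hN s k l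
      rw [this]
      exact (h1 k l s).const_sub _)
    (fun k l => (h2 k l).neg) h0
    (by simp [Matrix.trace, Complex.im_sum, h3])
  have hFe : F = fun s => c - Real.log (N s).det.re := funext hF
  have hd : deriv F = fun s => -deriv (fun s => Real.log (N s).det.re) s := by
    funext s
    rw [hFe, deriv_const_sub]
  constructor
  · rw [hd]
    simp only
    rw [hj.1]
    simp [Matrix.trace, Complex.re_sum]
  · rw [hd, deriv.fun_neg, hj.2]
    simp [Matrix.trace, Matrix.mul_apply, Complex.re_sum]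
    ring

/-- The derivatives of `V` at `p`, in a frame adapted to `p`. -/
theorem calcV_derivs (hy : Hyp T δ) {e : ℕ → H} (s : Finset ℕ) (p : ℝ × ℝ × ℝ) (f : s → H)
    (c : ℝ) (z : ℂ) (hz : z = (p.1 : ℂ) + (p.2.1 : ℂ) * Complex.I) (t : ℝ)
    (ht : t = Real.exp (-p.2.2))
    (hf : ∀ k l, ⟪f k, oQ T δ z t (f l)⟫_ℂ = if k = l then 1 else 0)
    (hc : ∀ (z : ℂ) (t : ℝ), 0 < t → Vs T δ e s z t = c - Real.log (gram T δ z t f).det.re)
    (Y : s → H) (hY : ∀ k, Y k = ra T z t (δ (f k))) :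
    dx (lift (Vs T δ e s)) p = ∑ k, 2 * (⟪Y k, oA T z (Y k)⟫_ℂ).re ∧
    dy (lift (Vs T δ e s)) p = ∑ k, 2 * (⟪Y k, oA T z (Y k)⟫_ℂ).im ∧
    dt (lift (Vs T δ e s)) p = t * ∑ k, ‖Y k‖ ^ 2 ∧
    opL (lift (Vs T δ e s)) p =
      t ^ 2 * ∑ l, ∑ k, ‖⟪Y k, Y l⟫_ℂ‖ ^ 2 + t * ∑ l, ∑ k, ‖⟪Y k, oA T z (Y l)⟫_ℂ‖ ^ 2
        - ∑ l, (t ^ 2 * (bf T z t (Y l) - af T z t (Y l))
          + t * (bf T z t (oA T z (Y l)) - af T z t (oA T z (Y l)))) := by
  obtain ⟨x, y, τ⟩ := p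
  simp only at hz ht
  have ht0 : 0 < t := ht ▸ Real.exp_pos _
  choose fx fy ft cx cy ct h1 h2 h3 h4 h5 h6 h7 using
    fun k l : s => ra_second T (δ (f k)) (δ (f l)) x y τ
  simp only [← hz, ← ht, ← hY] at h7
  have hone : gram T δ z t f = 1 := by
    ext k l
    simp only [gram, Matrix.of_apply, hf, Matrix.one_apply]
  have hconj : ∀ k l, ⟪oA T z (Y k), Y l⟫_ℂ = conj ⟪Y l, oA T z (Y k)⟫_ℂ := fun k l =>
    (inner_conj_symm _ _).symm
  have jx := calcV_jac (fun r => lift (Vs T δ e s) (r, y, τ)) c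
    (fun r => gram T δ ((r : ℂ) + (y : ℂ) * Complex.I) (Real.exp (-τ)) f)
    (fun k l => ⟪f k, f l⟫_ℂ) _ fx cx x (fun r => hc _ _ (Real.exp_pos _))
    (fun r k l => calcV_gram_apply hy _ _ f k l) h1 h4 (by rw [← hz, ← ht]; exact hone)
    (fun k => by rw [(h7 k k).1, hconj]; simp [-inner_conj_symm])
  have jy := calcV_jac (fun r => lift (Vs T δ e s) (x, r, τ)) c
    (fun r => gram T δ ((x : ℂ) + (r : ℂ) * Complex.I) (Real.exp (-τ)) f)
    (fun k l => ⟪f k, f l⟫_ℂ) _ fy cy y (fun r => hc _ _ (Real.exp_pos _))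
    (fun r k l => calcV_gram_apply hy _ _ f k l) h2 h5 (by rw [← hz, ← ht]; exact hone)
    (fun k => by rw [(h7 k k).2.1, hconj]; simp [-inner_conj_symm])
  have jt := calcV_jac (fun r => lift (Vs T δ e s) (x, y, r)) c
    (fun r => gram T δ ((x : ℂ) + (y : ℂ) * Complex.I) (Real.exp (-r)) f)
    (fun k l => ⟪f k, f l⟫_ℂ) _ ft ct τ (fun r => hc _ _ (Real.exp_pos _))
    (fun r k l => calcV_gram_apply hy _ _ f k l) h3 h6 (by rw [← hz, ← ht]; exact hone)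
    (fun k => by rw [(h7 k k).2.2.1, inner_self_c]; simp [-Complex.ofReal_pow])
  refine ⟨?_, ?_, ?_, ?_⟩
  · show deriv (fun r => lift (Vs T δ e s) (r, y, τ)) x = _
    rw [jx.1]
    refine Finset.sum_congr rfl fun k _ => ?_
    rw [(h7 k k).1, hconj]
    simp only [Complex.add_re, Complex.conj_re]
    ring
  · show deriv (fun r => lift (Vs T δ e s) (x, r, τ)) y = _
    rw [jy.1]
    refine Finset.sum_congr rfl fun k _ => ?_
    rw [(h7 k k).2.1, hconj]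
    simp only [Complex.sub_re, Complex.mul_re, Complex.I_re, Complex.I_im, Complex.conj_re,
      Complex.conj_im]
    ring
  · show deriv (fun r => lift (Vs T δ e s) (x, y, r)) τ = _
    rw [jt.1, Finset.mul_sum]
    refine Finset.sum_congr rfl fun k _ => ?_
    rw [(h7 k k).2.2.1, inner_self_c, ← Complex.ofReal_mul, Complex.ofReal_re]
  · show deriv (deriv (fun r => lift (Vs T δ e s) (x, y, r))) τ + Real.exp (-τ) / 4 *
      (deriv (deriv (fun r => lift (Vs T δ e s) (r, y, τ))) x +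
        deriv (deriv (fun r => lift (Vs T δ e s) (x, r, τ))) y) = _
    rw [jx.2, jy.2, jt.2, ← ht]
    have e1 : ∀ k l, ft k l τ * ft l k τ = ((t ^ 2 * ‖⟪Y l, Y k⟫_ℂ‖ ^ 2 : ℝ) : ℂ) := by
      intro k l
      rw [(h7 k l).2.2.1, (h7 l k).2.2.1, ← inner_conj_symm (Y k) (Y l)]
      push_cast
      rw [← Complex.conj_mul' ⟪Y l, Y k⟫_ℂ]
      ring
    have e2 : ∀ k l, fx k l x * fx l k x + fy k l y * fy l k y =
        ((2 * ‖⟪Y k, oA T z (Y l)⟫_ℂ‖ ^ 2 + 2 * ‖⟪Y l, oA T z (Y k)⟫_ℂ‖ ^ 2 : ℝ) : ℂ) := by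
      intro k l
      rw [(h7 k l).1, (h7 l k).1, (h7 k l).2.1, (h7 l k).2.1, hconj, hconj]
      push_cast
      rw [← Complex.conj_mul' ⟪Y l, oA T z (Y k)⟫_ℂ, ← Complex.conj_mul' ⟪Y k, oA T z (Y l)⟫_ℂ]
      linear_combination (conj ⟪Y l, oA T z (Y k)⟫_ℂ - ⟪Y k, oA T z (Y l)⟫_ℂ) *
        (conj ⟪Y k, oA T z (Y l)⟫_ℂ - ⟪Y l, oA T z (Y k)⟫_ℂ) * Complex.I_mul_I
    have e3 : ∀ k, ct k k + (t : ℂ) / 4 * (cx k k + cy k k) =
        ((-(t ^ 2 * (bf T z t (Y k) - af T z t (Y k))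
          + t * (bf T z t (oA T z (Y k)) - af T z t (oA T z (Y k)))) : ℝ) : ℂ) := by
      intro k
      rw [(h7 k k).2.2.2, inner_sub_right, inner_sub_right, inner_ra_self T z ht0,
        inner_rb_self T z ht0, inner_ra_self T z ht0, inner_rb_self T z ht0]
      push_cast
      ring
    have e4 : ∑ k, ∑ l, (2 * ‖⟪Y k, oA T z (Y l)⟫_ℂ‖ ^ 2 + 2 * ‖⟪Y l, oA T z (Y k)⟫_ℂ‖ ^ 2)
        = 4 * ∑ l, ∑ k, ‖⟪Y k, oA T z (Y l)⟫_ℂ‖ ^ 2 := by
      simp only [Finset.sum_add_distrib, ← Finset.mul_sum]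
      rw [Finset.sum_comm]
      ring
    have key : (∑ k, ct k k + ∑ k, ∑ l, ft k l τ * ft l k τ) + (t : ℂ) / 4 *
        ((∑ k, cx k k + ∑ k, ∑ l, fx k l x * fx l k x) +
          (∑ k, cy k k + ∑ k, ∑ l, fy k l y * fy l k y)) =
        ((t ^ 2 * ∑ l, ∑ k, ‖⟪Y k, Y l⟫_ℂ‖ ^ 2 + t * ∑ l, ∑ k, ‖⟪Y k, oA T z (Y l)⟫_ℂ‖ ^ 2
        - ∑ l, (t ^ 2 * (bf T z t (Y l) - af T z t (Y l))
          + t * (bf T z t (oA T z (Y l)) - af T z t (oA T z (Y l)))) : ℝ) : ℂ) := by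
      have a1 : ∑ k, ∑ l, ft k l τ * ft l k τ
          = ((t ^ 2 * ∑ l, ∑ k, ‖⟪Y k, Y l⟫_ℂ‖ ^ 2 : ℝ) : ℂ) := by
        simp only [e1, Finset.mul_sum, Complex.ofReal_sum]
      have a2 : ∑ k, ∑ l, fx k l x * fx l k x + ∑ k, ∑ l, fy k l y * fy l k y
          = ((4 * ∑ l, ∑ k, ‖⟪Y k, oA T z (Y l)⟫_ℂ‖ ^ 2 : ℝ) : ℂ) := by
        rw [← e4]
        simp only [← Finset.sum_add_distrib, e2, Complex.ofReal_sum]
      have a3 : ∑ k, ct k k + (t : ℂ) / 4 * (∑ k, cx k k + ∑ k, cy k k) =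
          ((-∑ l, (t ^ 2 * (bf T z t (Y l) - af T z t (Y l))
          + t * (bf T z t (oA T z (Y l)) - af T z t (oA T z (Y l)))) : ℝ) : ℂ) := by
        rw [← Finset.sum_add_distrib, Finset.mul_sum, ← Finset.sum_add_distrib,
          ← Finset.sum_neg_distrib, Complex.ofReal_sum]
        exact Finset.sum_congr rfl fun k _ => e3 k
      have a4 : ∀ A B C : ℝ, ((t ^ 2 * A + t * B - C : ℝ) : ℂ) =
          ((t ^ 2 * A : ℝ) : ℂ) + (t : ℂ) / 4 * ((4 * B : ℝ) : ℂ) + ((-C : ℝ) : ℂ) := by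
        intro A B C
        push_cast
        ring
      rw [a4, ← a1, ← a2, ← a3]
      ring
    have hre := congrArg Complex.re key
    rw [Complex.ofReal_re] at hre
    rw [← hre]
    have : ((t : ℂ) / 4) = ((t / 4 : ℝ) : ℂ) := by push_cast; ring
    rw [this]
    simp only [Complex.add_re, Complex.re_ofReal_mul]

end Pool.Agent.P.MP_f981b0_an.Hy
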