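import Pool.Agent.P.MP_f981b0_an.Hy.CalcOp
import Pool.Agent.P.MP_f981b0_an.Hy.Gram
import Pool.Agent.P.MP_f981b0_an.Hy.Jac
import Pool.Agent.P.MP_f981b0_an.Hy.CalcV1

set_option autoImplicit false

open scoped InnerProductSpace ComplexConjugate
open MeasureTheory Filter Topology

noncomputable section

namespace Pool.Agent.P.MP_f981b0_an.Hy

variable {H : Type*} [NormedAddCommGroup H] [InnerProductSpace ℂ H] [CompleteSpace H]

variable {T δ : H →L[ℂ] H}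

theorem contDiff_Vs (hy : Hyp T δ) {e : ℕ → H} (he : Orthonormal ℂ e) (s : Finset ℕ) :
    ContDiff ℝ 2 (lift (Vs T δ e s)) := by
  have hent : ∀ i k : s, ContDiff ℝ 2 fun p : ℝ × ℝ × ℝ =>
      gram T δ ((p.1 : ℂ) + (p.2.1 : ℂ) * Complex.I) (Real.exp (-p.2.2))
        (fun i : s => e i) i k := by
    intro i k
    simp only [calcV_gram_apply hy]
    exact contDiff_const.sub (contDiff_ra_form T _ _)
  have hdet : ContDiff ℝ 2 fun p : ℝ × ℝ × ℝ =>
      (gram T δ ((p.1 : ℂ) + (p.2.1 : ℂ) * Complex.I) (Real.exp (-p.2.2))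
        (fun i : s => e i)).det := by
    simp only [Matrix.det_apply']
    exact ContDiff.sum fun σ _ => contDiff_const.mul (contDiff_prod fun i _ => hent _ _)
  have hre : ContDiff ℝ 2 fun p : ℝ × ℝ × ℝ =>
      (gram T δ ((p.1 : ℂ) + (p.2.1 : ℂ) * Complex.I) (Real.exp (-p.2.2))
        (fun i : s => e i)).det.re := Complex.reCLM.contDiff.comp hdet
  exact (hre.log fun p => (gram_det_pos hy he s _ (Real.exp_pos _)).1.ne').neg

theorem calcV_inner (hy : Hyp T δ) (z : ℂ) {t : ℝ} (ht : 0 < t) (u h : H) :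
    ⟪ra T z t (δ u), h⟫_ℂ = ⟪u, δ (ra T z t h)⟫_ℂ := by
  rw [inner_ra T z ht, inner_del hy]

theorem calcV_bessel (hy : Hyp T δ) (z : ℂ) {t : ℝ} (ht : 0 < t) {ι : Type*} [Fintype ι]
    [DecidableEq ι] (f : ι → H)
    (hf : ∀ k l, ⟪f k, oQ T δ z t (f l)⟫_ℂ = if k = l then 1 else 0) (h : H) :
    ∑ k, ‖⟪ra T z t (δ (f k)), h⟫_ℂ‖ ^ 2 ≤ bf T z t h - af T z t h := by
  rw [bf_sub_af hy z ht]
  simp only [calcV_inner hy z ht]
  exact bessel_Q hy z ht f hf _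

theorem opL_Vs (hy : Hyp T δ) {e : ℕ → H} (he : Orthonormal ℂ e) (s : Finset ℕ)
    (p : ℝ × ℝ × ℝ) : opL (lift (Vs T δ e s)) p ≤ 0 := by
  have ht : 0 < Real.exp (-p.2.2) := Real.exp_pos _
  obtain ⟨f, c, hf, hc, -, -⟩ := exists_frame hy he s ((p.1 : ℂ) + (p.2.1 : ℂ) * Complex.I) ht
  rw [(calcV_derivs hy s p f c _ rfl _ rfl hf hc _ fun k => rfl).2.2.2, Finset.sum_add_distrib,
    ← Finset.mul_sum, ← Finset.mul_sum]
  have h1 := mul_le_mul_of_nonneg_left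
    (Finset.sum_le_sum fun l (_ : l ∈ Finset.univ) => calcV_bessel hy _ ht f hf
      (ra T ((p.1 : ℂ) + (p.2.1 : ℂ) * Complex.I) (Real.exp (-p.2.2)) (δ (f l))))
    (sq_nonneg (Real.exp (-p.2.2)))
  have h2 := mul_le_mul_of_nonneg_left
    (Finset.sum_le_sum fun l (_ : l ∈ Finset.univ) => calcV_bessel hy _ ht f hf
      (oA T ((p.1 : ℂ) + (p.2.1 : ℂ) * Complex.I)
        (ra T ((p.1 : ℂ) + (p.2.1 : ℂ) * Complex.I) (Real.exp (-p.2.2)) (δ (f l))))) ht.le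
  linarith

/-- The trace bound `t Σ ‖a δ f_k‖² ≤ 1`. -/
theorem calcV_trace (hy : Hyp T δ) (e : HilbertBasis ℕ ℂ H) (htr : TrB T δ e) (z : ℂ) {t : ℝ}
    (ht : 0 < t) {ι : Type*} [Fintype ι] [DecidableEq ι] (f : ι → H)
    (hf : ∀ k l, ⟪f k, oQ T δ z t (f l)⟫_ℂ = if k = l then 1 else 0) :
    t * ∑ k, ‖ra T z t (δ (f k))‖ ^ 2 ≤ 1 := by
  have hp : ∀ y : H, HasSum (fun m => ‖⟪y, e m⟫_ℂ‖ ^ 2) (‖y‖ ^ 2) := by
    intro y
    have h1 := Complex.reCLM.hasSum (e.hasSum_inner_mul_inner y y)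
    simp only [Complex.reCLM_apply, re_inner_self] at h1
    convert h1 using 2 with m
    rw [← inner_conj_symm (e m) y, Complex.mul_conj', ← Complex.ofReal_pow, Complex.ofReal_re]
  have hs : HasSum (fun m => ∑ k, ‖⟪ra T z t (δ (f k)), e m⟫_ℂ‖ ^ 2)
      (∑ k, ‖ra T z t (δ (f k))‖ ^ 2) := hasSum_sum fun k _ => hp _
  refine le_of_tendsto' (hs.tendsto_sum_nat.const_mul t) fun n => ?_
  refine le_trans (mul_le_mul_of_nonneg_left ?_ ht.le) (htr.trba z t ht n)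
  exact Finset.sum_le_sum fun m _ => calcV_bessel hy z ht f hf _

theorem dt_Vs (hy : Hyp T δ) (e : HilbertBasis ℕ ℂ H) (htr : TrB T δ e) (s : Finset ℕ)
    (p : ℝ × ℝ × ℝ) : 0 ≤ dt (lift (Vs T δ e s)) p ∧ dt (lift (Vs T δ e s)) p ≤ 1 := by
  have ht : 0 < Real.exp (-p.2.2) := Real.exp_pos _
  obtain ⟨f, c, hf, hc, -, -⟩ :=
    exists_frame hy e.orthonormal s ((p.1 : ℂ) + (p.2.1 : ℂ) * Complex.I) ht
  rw [(calcV_derivs hy s p f c _ rfl _ rfl hf hc _ fun k => rfl).2.2.1]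
  exact ⟨by positivity, calcV_trace hy e htr _ ht f hf⟩

theorem calcV_grad {ι : Type*} [Fintype ι] (w : ι → ℝ) (a b : ι → ℝ) {A τ : ℝ}
    (hw : ∀ k, |w k| ≤ a k * b k) (ha : ∑ k, a k ^ 2 ≤ 2 * A)
    (hb : Real.exp (-τ) * ∑ k, b k ^ 2 ≤ 1) :
    |∑ k, 2 * w k| ≤ 3 * Real.exp (τ / 2) * √A := by
  have hA : 0 ≤ A := by
    have : 0 ≤ ∑ k, a k ^ 2 := Finset.sum_nonneg fun k _ => sq_nonneg _
    linarith
  have h1 : |∑ k, 2 * w k| ≤ 2 * ∑ k, a k * b k := by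
    rw [Finset.mul_sum]
    refine (Finset.abs_sum_le_sum_abs _ _).trans (Finset.sum_le_sum fun k _ => ?_)
    rw [abs_mul, abs_two]
    linarith [hw k]
  have h2 := Finset.sum_mul_sq_le_sq_mul_sq Finset.univ a b
  have hE : Real.exp (τ / 2) ^ 2 = Real.exp τ := by
    rw [sq, ← Real.exp_add, add_halves]
  have hb' : ∑ k, b k ^ 2 ≤ Real.exp τ := by
    have h3 : Real.exp τ * Real.exp (-τ) = 1 := by rw [← Real.exp_add]; simp
    have h4 := mul_le_mul_of_nonneg_left hb (Real.exp_pos τ).le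
    rwa [← mul_assoc, h3, one_mul, mul_one] at h4
  have h5 : (∑ k, a k * b k) ^ 2 ≤ 2 * A * Real.exp τ :=
    h2.trans (mul_le_mul ha hb' (Finset.sum_nonneg fun k _ => sq_nonneg _) (by positivity))
  refine h1.trans (le_of_sq_le_sq ?_ (by positivity))
  rw [mul_pow, mul_pow, mul_pow, hE, Real.sq_sqrt hA]
  have : 0 ≤ A * Real.exp τ := by positivity
  linarith

theorem grad_Vs (hy : Hyp T δ) (e : HilbertBasis ℕ ℂ H) (htr : TrB T δ e) (s : Finset ℕ)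
    (p : ℝ × ℝ × ℝ) :
    |dx (lift (Vs T δ e s)) p| ≤ 3 * Real.exp (p.2.2 / 2) *
      √(∑ i ∈ s, af T ((p.1 : ℂ) + (p.2.1 : ℂ) * Complex.I) (Real.exp (-p.2.2)) (δ (e i))) ∧
    |dy (lift (Vs T δ e s)) p| ≤ 3 * Real.exp (p.2.2 / 2) *
      √(∑ i ∈ s, af T ((p.1 : ℂ) + (p.2.1 : ℂ) * Complex.I) (Real.exp (-p.2.2)) (δ (e i))) := by
  have ht : 0 < Real.exp (-p.2.2) := Real.exp_pos _
  obtain ⟨f, c, hf, hc, -, hS⟩ :=
    exists_frame hy e.orthonormal s ((p.1 : ℂ) + (p.2.1 : ℂ) * Complex.I) ht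
  have hd := calcV_derivs hy s p f c _ rfl _ rfl hf hc _ fun k => rfl
  have htr' := calcV_trace hy e htr _ ht f hf
  have hn : ∀ (z : ℂ) (y : H), ‖⟪y, oA T z y⟫_ℂ‖ ≤ ‖oS T z y‖ * ‖y‖ := fun z y => by
    rw [← inner_oS_left]
    exact norm_inner_le_norm _ _
  rw [hd.1, hd.2.1]
  exact ⟨calcV_grad _ _ _ (fun k => (Complex.abs_re_le_norm _).trans (hn _ _)) hS htr',
    calcV_grad _ _ _ (fun k => (Complex.abs_im_le_norm _).trans (hn _ _)) hS htr'⟩

theorem calcV_line (e : ℕ → H) (s : Finset ℕ) (z : ℂ) :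
    (fun r : ℝ => lift (Vs T δ e s) (z.re, z.im, r)) =
      fun r => Vs T δ e s z (Real.exp (-r)) := by
  funext r
  simp only [lift, Complex.re_add_im]

theorem calcV_hasDerivAt (hy : Hyp T δ) {e : ℕ → H} (he : Orthonormal ℂ e) (s : Finset ℕ)
    (z : ℂ) (τ : ℝ) : HasDerivAt (fun r => Vs T δ e s z (Real.exp (-r)))
      (dt (lift (Vs T δ e s)) (z.re, z.im, τ)) τ := by
  have h1 : Differentiable ℝ (fun r : ℝ => lift (Vs T δ e s) (z.re, z.im, r)) :=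
    ((contDiff_Vs hy he s).differentiable (by norm_num)).comp (by fun_prop)
  have h2 := (h1 τ).hasDerivAt
  rw [← calcV_line]
  exact h2

theorem calcV_hasDerivAt_qf (hy : Hyp T δ) (z : ℂ) (u : H) (τ : ℝ) :
    HasDerivAt (fun r => qf T δ z (Real.exp (-r)) u)
      (-(Real.exp (-τ) * ‖ra T z (Real.exp (-τ)) (δ u)‖ ^ 2)) τ := by
  have ht : 0 < Real.exp (-τ) := Real.exp_pos _
  have h1 := (hasDerivAt_const τ (δ u)).inner ℂ (hasDerivAt_ra_t T z (δ u) τ)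
  have h2 := Complex.reCLM.hasFDerivAt.comp_hasDerivAt τ h1
  have h3 : (fun r => qf T δ z (Real.exp (-r)) u) =
      fun r => ‖u‖ ^ 2 - (⟪δ u, ra T z (Real.exp (-r)) (δ u)⟫_ℂ).re := by
    funext r
    rw [qf_eq_af hy]
    rfl
  rw [h3]
  refine HasDerivAt.const_sub _ ?_
  refine h2.congr_deriv ?_
  rw [inner_zero_left, add_zero, inner_smul_right, ← inner_ra T z ht, inner_self_c,
    ← Complex.ofReal_mul, Complex.reCLM_apply, Complex.ofReal_re]

theorem calcV_frame_bound (z : ℂ) {t : ℝ} {ι : Type*} [Fintype ι]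
    [DecidableEq ι] (f : ι → H)
    (hf : ∀ k l, ⟪f k, oQ T δ z t (f l)⟫_ℂ = if k = l then 1 else 0) (a : ι → ℂ) :
    ‖ra T z t (δ (∑ k, a k • f k))‖ ^ 2 ≤
      (∑ k, ‖ra T z t (δ (f k))‖ ^ 2) * qf T δ z t (∑ k, a k • f k) := by
  have hq : qf T δ z t (∑ k, a k • f k) = ∑ k, ‖a k‖ ^ 2 := by
    unfold qf
    simp only [map_sum, map_smul, sum_inner, inner_sum, inner_smul_left, inner_smul_right, hf,
      mul_ite, mul_one, mul_zero, Finset.sum_ite_eq', Finset.mem_univ,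
      if_true, Complex.re_sum]
    refine Finset.sum_congr rfl fun k _ => ?_
    rw [Complex.mul_conj', ← Complex.ofReal_pow, Complex.ofReal_re]
  have h1 : ‖ra T z t (δ (∑ k, a k • f k))‖ ≤ ∑ k, ‖ra T z t (δ (f k))‖ * ‖a k‖ := by
    simp only [map_sum, map_smul]
    refine (norm_sum_le _ _).trans (Finset.sum_le_sum fun k _ => ?_)
    rw [norm_smul, mul_comm]
  rw [hq]
  exact (pow_le_pow_left₀ (norm_nonneg _) h1 2).trans
    (Finset.sum_mul_sq_le_sq_mul_sq Finset.univ _ _)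

/-- `τ ↦ V + log q(u)` is increasing. -/
theorem rel_Vs (hy : Hyp T δ) {e : ℕ → H} (he : Orthonormal ℂ e) (s : Finset ℕ) (z : ℂ)
    {t t' : ℝ} (ht' : 0 < t') (htt : t' ≤ t) {u : H}
    (hu : u ∈ Submodule.span ℂ (e '' (s : Set ℕ))) :
    qf T δ z t u ≤ Real.exp (Vs T δ e s z t' - Vs T δ e s z t) * qf T δ z t' u := by
  have ht : 0 < t := ht'.trans_le htt
  by_cases hu0 : u = 0
  · subst hu0
    simp [qf]
  have hq : ∀ r : ℝ, 0 < qf T δ z (Real.exp (-r)) u := fun r => qf_pos hy z (Real.exp_pos _) hu0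
  have hφ := fun r : ℝ => (calcV_hasDerivAt hy he s z r).add
    ((calcV_hasDerivAt_qf hy z u r).log (hq r).ne')
  have hmono := monotone_of_hasDerivAt_nonneg hφ (fun r => by
    have hr : 0 < Real.exp (-r) := Real.exp_pos _
    obtain ⟨f, c, hf, hc, hspan, -⟩ := exists_frame hy he s z hr
    obtain ⟨a, ha⟩ := hspan u hu
    have hd := (calcV_derivs hy s (z.re, z.im, r) f c z (Complex.re_add_im z).symm _ rfl hf hc _
      fun k => rfl).2.2.1
    have hb := calcV_frame_bound z f hf a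
    rw [← ha] at hb
    simp only [Pi.zero_apply]
    rw [hd, neg_div, ← sub_eq_add_neg, sub_nonneg, div_le_iff₀ (hq r), mul_assoc]
    exact mul_le_mul_of_nonneg_left hb hr.le)
  have h1 := hmono (neg_le_neg (Real.log_le_log ht' htt))
  simp only [Pi.add_apply, neg_neg, Real.exp_log ht, Real.exp_log ht'] at h1
  have hqt := qf_pos hy z ht hu0
  have hqt' := qf_pos hy z ht' hu0
  rw [← Real.exp_log hqt, ← Real.exp_log hqt', ← Real.exp_add]
  exact Real.exp_le_exp.2 (by linarith)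

/-- Increments in `t`, from `dt_Vs`. -/
theorem Vs_incr (hy : Hyp T δ) (e : HilbertBasis ℕ ℂ H) (htr : TrB T δ e) (s : Finset ℕ) (z : ℂ)
    {t t' : ℝ} (ht' : 0 < t') (htt : t' ≤ t) :
    Vs T δ e s z t ≤ Vs T δ e s z t' ∧
      Vs T δ e s z t' ≤ Vs T δ e s z t + (Real.log t - Real.log t') := by
  have ht : 0 < t := ht'.trans_le htt
  have hd := calcV_hasDerivAt hy e.orthonormal s z
  have hle := neg_le_neg (Real.log_le_log ht' htt)
  have m1 := monotone_of_hasDerivAt_nonneg hd (fun r => (dt_Vs hy e htr s _).1) hle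
  have m2 := monotone_of_hasDerivAt_nonneg (fun r => (hasDerivAt_id r).sub (hd r))
    (fun r => sub_nonneg.2 (dt_Vs hy e htr s _).2) hle
  simp only [Pi.sub_apply, id, neg_neg, Real.exp_log ht, Real.exp_log ht'] at m1 m2
  exact ⟨m1, by linarith⟩

end Pool.Agent.P.MP_f981b0_an.Hy
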