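import Pool.Agent.P.MP_f981b0_an.Hy.Basic

set_option autoImplicit false

open scoped InnerProductSpace ComplexConjugate
open MeasureTheory Filter Topology

noncomputable section

namespace Pool.Agent.P.MP_f981b0_an.Hy

variable {H : Type*} [NormedAddCommGroup H] [InnerProductSpace ℂ H] [CompleteSpace H]

omit [CompleteSpace H] in
theorem Krylov_of_findim (hinf : ¬FiniteDimensional ℂ H) {T : H →L[ℂ] H} (V : Submodule ℂ H)
    [FiniteDimensional ℂ V] (hV : V ≠ ⊥) (hT : ∀ x ∈ V, T x ∈ V) : HasInv T := by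
  refine ⟨V, V.closed_of_finiteDimensional, hV, ?_, hT⟩
  rintro rfl
  exact hinf (Module.Finite.equiv (Submodule.topEquiv (R := ℂ) (M := H)))

omit [CompleteSpace H] in
theorem Krylov_line_inv {T : H →L[ℂ] H} {x : H} {c : ℂ} (h : T x = c • x) :
    ∀ y ∈ Submodule.span ℂ {x}, T y ∈ Submodule.span ℂ {x} := by
  intro y hy
  obtain ⟨a, rfl⟩ := Submodule.mem_span_singleton.1 hy
  rw [map_smul, h, smul_smul]
  exact Submodule.smul_mem _ _ (Submodule.mem_span_singleton_self x)

theorem Krylov_of_eigen (hinf : ¬FiniteDimensional ℂ H) {T : H →L[ℂ] H} {x : H} {c : ℂ}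
    (hx : x ≠ 0) (h : T x = c • x) : HasInv T :=
  Krylov_of_findim hinf (Submodule.span ℂ {x})
    (by rwa [Ne, Submodule.span_singleton_eq_bot]) (Krylov_line_inv h)

theorem hasInv_findim [FiniteDimensional ℂ H] (h2 : 2 ≤ Module.finrank ℂ H) (T : H →L[ℂ] H) :
    HasInv T := by
  have : Nontrivial H := Module.nontrivial_of_finrank_pos (R := ℂ) (by omega)
  obtain ⟨c, hc⟩ := Module.End.exists_eigenvalue (T : H →ₗ[ℂ] H)
  obtain ⟨x, hx⟩ := hc.exists_hasEigenvector
  have hx0 : x ≠ 0 := hx.2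
  have hTx : T x = c • x := hx.apply_eq_smul
  refine ⟨Submodule.span ℂ {x}, Submodule.closed_of_finiteDimensional _,
    by rwa [Ne, Submodule.span_singleton_eq_bot], ?_, Krylov_line_inv hTx⟩
  intro htop
  have h1 : Module.finrank ℂ (Submodule.span ℂ {x}) = 1 := finrank_span_singleton hx0
  rw [htop, finrank_top] at h1
  omega

theorem hasInv_normal (hinf : ¬FiniteDimensional ℂ H) (T : H →L[ℂ] H)
    (hn : star T * T = T * star T) : HasInv T := by
  have hN : IsStarNormal T := ⟨hn⟩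
  have : Nontrivial H := by
    by_contra hne
    rw [not_nontrivial_iff_subsingleton] at hne
    exact hinf inferInstance
  by_cases hs : ∃ l ∈ spectrum ℂ T, ∃ m ∈ spectrum ℂ T, l ≠ m
  · obtain ⟨l, hl, m, hm, hlm⟩ := hs
    set r : ℝ := ‖l - m‖ / 2 with hr
    have hr0 : 0 < r := by
      have : 0 < ‖l - m‖ := norm_pos_iff.2 (sub_ne_zero.2 hlm)
      positivity
    set f : ℂ → ℂ := fun z => ((max 0 (r - ‖z - l‖) : ℝ) : ℂ) with hf
    set g : ℂ → ℂ := fun z => ((max 0 (r - ‖z - m‖) : ℝ) : ℂ) with hg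
    have hfc : Continuous f := by rw [hf]; fun_prop
    have hgc : Continuous g := by rw [hg]; fun_prop
    have hfg : ∀ z, f z * g z = 0 := by
      intro z
      by_cases h1 : r ≤ ‖z - l‖
      · have : f z = 0 := by simp only [hf]; rw [max_eq_left (by linarith)]; simp
        rw [this, zero_mul]
      · have h2 : r ≤ ‖z - m‖ := by
          have : ‖l - m‖ ≤ ‖z - l‖ + ‖z - m‖ := by
            calc ‖l - m‖ = ‖(z - m) - (z - l)‖ := by congr 1; ring
              _ ≤ ‖z - m‖ + ‖z - l‖ := norm_sub_le _ _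
              _ = _ := add_comm _ _
          linarith
        have : g z = 0 := by simp only [hg]; rw [max_eq_left (by linarith)]; simp
        rw [this, mul_zero]
    have key : ∀ (φ : ℂ → ℂ), Continuous φ → ∀ w ∈ spectrum ℂ T, φ w ≠ 0 → cfc φ T ≠ 0 := by
      intro φ hφ w hw hne h0
      have hsp : spectrum ℂ (cfc φ T) = φ '' spectrum ℂ T :=
        cfc_map_spectrum φ T hN hφ.continuousOn
      have : φ w ∈ spectrum ℂ (cfc φ T) := by rw [hsp]; exact ⟨w, hw, rfl⟩
      rw [h0, spectrum.zero_eq] at this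
      exact hne this
    have hF : cfc f T ≠ 0 := key f hfc l hl (by
      simp only [hf, sub_self, norm_zero, sub_zero]
      rw [max_eq_right hr0.le]; exact_mod_cast hr0.ne')
    have hG : cfc g T ≠ 0 := key g hgc m hm (by
      simp only [hg, sub_self, norm_zero, sub_zero]
      rw [max_eq_right hr0.le]; exact_mod_cast hr0.ne')
    have hFG : cfc f T * cfc g T = 0 := by
      rw [← cfc_mul f g T hfc.continuousOn hgc.continuousOn]
      simp only [hfg]
      exact cfc_const_zero ℂ T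
    have hcomm : cfc f T * T = T * cfc f T := by
      have h1 := cfc_commute_cfc f id T
      rw [cfc_id ℂ T] at h1
      exact h1
    refine ⟨LinearMap.ker (cfc f T : H →L[ℂ] H).toLinearMap,
      ContinuousLinearMap.isClosed_ker _, ?_, ?_, ?_⟩
    · intro hb
      apply hG
      ext y
      have hy : cfc g T y ∈ LinearMap.ker (cfc f T : H →L[ℂ] H).toLinearMap := by
        rw [LinearMap.mem_ker]
        have := congrArg (fun B : H →L[ℂ] H => B y) hFG
        simpa using this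
      rw [hb] at hy
      simpa using hy
    · intro ht
      apply hF
      ext y
      have hy : y ∈ LinearMap.ker (cfc f T : H →L[ℂ] H).toLinearMap := by rw [ht]; trivial
      simpa using hy
    · intro y hy
      rw [LinearMap.mem_ker] at hy ⊢
      have := congrArg (fun B : H →L[ℂ] H => B y) hcomm
      simp only [mul_apply_eq_comp] at this
      have hy' : cfc f T y = 0 := hy
      change cfc f T (T y) = 0
      rw [this, hy', map_zero]
  · push Not at hs
    obtain ⟨l, hl⟩ := spectrum.nonempty T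
    have h1 : cfc (id : ℂ → ℂ) T = cfc (fun _ : ℂ => l) T :=
      cfc_congr fun w hw => hs w hw l hl
    rw [cfc_id ℂ T, cfc_const l T] at h1
    obtain ⟨x, hx⟩ := exists_ne (0 : H)
    refine Krylov_of_eigen hinf hx (c := l) ?_
    rw [h1, Algebra.algebraMap_eq_smul_one]
    simp

theorem hasInv_star {T : H →L[ℂ] H} (h : HasInv (star T)) : HasInv T := by
  obtain ⟨V, hc, h0, h1, hV⟩ := h
  have : CompleteSpace V := hc.completeSpace_coe
  refine ⟨Vᗮ, V.isClosed_orthogonal, ?_, ?_, ?_⟩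
  · rwa [Ne, Submodule.orthogonal_eq_bot_iff]
  · rwa [Ne, Submodule.orthogonal_eq_top_iff]
  · intro x hx
    rw [Submodule.mem_orthogonal] at hx ⊢
    intro u hu
    rw [← inner_star_left]
    exact hx _ (hV u hu)

omit [CompleteSpace H] in
theorem Krylov_closure_inv {T : H →L[ℂ] H} (V : Submodule ℂ H) (hV : ∀ x ∈ V, T x ∈ V) :
    ∀ x ∈ V.topologicalClosure, T x ∈ V.topologicalClosure := by
  intro x hx
  have hx' : x ∈ closure (V : Set H) := hx
  have : T x ∈ closure (V : Set H) := map_mem_closure T.continuous hx' hV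
  exact this

omit [CompleteSpace H] in
theorem Krylov_closure_top {T : H →L[ℂ] H} (hT : ¬HasInv T) (V : Submodule ℂ H) (h0 : V ≠ ⊥)
    (hV : ∀ x ∈ V, T x ∈ V) : V.topologicalClosure = ⊤ := by
  by_contra hne
  refine hT ⟨V.topologicalClosure, V.isClosed_topologicalClosure, ?_, hne,
    Krylov_closure_inv V hV⟩
  intro hb
  exact h0 (le_bot_iff.1 (hb ▸ V.le_topologicalClosure))

theorem denseRange_oA (hinf : ¬FiniteDimensional ℂ H) {T : H →L[ℂ] H} (hT : ¬HasInv T) (z : ℂ) :
    DenseRange (oA T z) := by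
  have : Nontrivial H := by
    by_contra hne
    rw [not_nontrivial_iff_subsingleton] at hne
    exact hinf inferInstance
  have h := Krylov_closure_top hT (LinearMap.range (oA T z).toLinearMap) ?_ ?_
  · rw [← Submodule.dense_iff_topologicalClosure_eq_top] at h
    exact h
  · intro hb
    obtain ⟨x, hx⟩ := exists_ne (0 : H)
    have h1 : oA T z x ∈ LinearMap.range (oA T z).toLinearMap := ⟨x, rfl⟩
    rw [hb, Submodule.mem_bot, oA_apply, sub_eq_zero] at h1
    exact hT (Krylov_of_eigen hinf hx h1)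
  · rintro _ ⟨x, rfl⟩
    refine ⟨T x, ?_⟩
    change oA T z (T x) = T (oA T z x)
    rw [oA_apply, oA_apply, map_sub, map_smul]

/-- The square root of the self-commutator of a hyponormal operator. -/
theorem exists_hyp {T : H →L[ℂ] H} (hT : ∀ x, ‖star T x‖ ≤ ‖T x‖) : ∃ δ, Hyp T δ := by
  obtain ⟨S, h1, h2⟩ := exists_root (star T * T - T * star T) (by simp [star_sub, star_mul]) (by
    intro u
    have e1 : ⟪u, (star T * T - T * star T) u⟫_ℂ = ⟪T u, T u⟫_ℂ - ⟪star T u, star T u⟫_ℂ := by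
      rw [sub_apply, inner_sub_right, mul_apply_eq_comp,
        mul_apply_eq_comp, inner_star_right, inner_star_left]
    rw [e1, Complex.sub_re, re_inner_self, re_inner_self]
    have := hT u
    have h0 := norm_nonneg (star T u)
    nlinarith)
  exact ⟨S, h1, h2⟩

omit [CompleteSpace H] in
theorem Krylov_dense {T : H →L[ℂ] H} (hT : ¬HasInv T) {x : H} (hx : x ≠ 0) :
    (Submodule.span ℂ (Set.range fun n : ℕ => (T ^ n) x)).topologicalClosure = ⊤ := by
  refine Krylov_closure_top hT _ ?_ ?_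
  · intro hb
    have : (T ^ 0) x ∈ Submodule.span ℂ (Set.range fun n : ℕ => (T ^ n) x) :=
      Submodule.subset_span ⟨0, rfl⟩
    rw [hb] at this
    simp at this
    exact hx this
  · intro y hy
    induction hy using Submodule.span_induction with
    | mem y hy =>
      obtain ⟨n, rfl⟩ := hy
      refine Submodule.subset_span ⟨n + 1, ?_⟩
      simp [pow_succ']
    | zero => simp
    | add a b _ _ ha hb => rw [map_add]; exact Submodule.add_mem _ ha hb
    | smul c a _ ha => rw [map_smul]; exact Submodule.smul_mem _ _ ha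

omit [CompleteSpace H] in
theorem Krylov_map_span {T : H →L[ℂ] H} {s : Set H} {W : Submodule ℂ H}
    (h : ∀ y ∈ s, T y ∈ W) : ∀ y ∈ Submodule.span ℂ s, T y ∈ W := by
  intro y hy
  induction hy using Submodule.span_induction with
  | mem y hy => exact h y hy
  | zero => simp
  | add a b _ _ ha hb => rw [map_add]; exact Submodule.add_mem _ ha hb
  | smul c a _ ha => rw [map_smul]; exact Submodule.smul_mem _ _ ha

omit [CompleteSpace H] in
theorem Krylov_inner_span {u : H} {s : Set H} (h : ∀ y ∈ s, ⟪u, y⟫_ℂ = 0) :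
    ∀ y ∈ Submodule.span ℂ s, ⟪u, y⟫_ℂ = 0 := by
  intro y hy
  induction hy using Submodule.span_induction with
  | mem y hy => exact h y hy
  | zero => simp
  | add a b _ _ ha hb => rw [inner_add_right, ha, hb, add_zero]
  | smul c a _ ha => rw [inner_smul_right, ha, mul_zero]

open InnerProductSpace in
/-- Krylov basis, in which `T` is upper Hessenberg. -/
theorem exists_hess (hinf : ¬FiniteDimensional ℂ H) {T : H →L[ℂ] H} (hT : ¬HasInv T) {x : H}
    (hx : x ≠ 0) : ∃ e : HilbertBasis ℕ ℂ H, (∃ c : ℂ, c ≠ 0 ∧ e 0 = c • x) ∧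
      ∀ k m : ℕ, k + 1 < m → ⟪e m, T (e k)⟫_ℂ = 0 := by
  have hd := Krylov_dense hT hx
  set v : ℕ → H := fun n => (T ^ n) x with hv
  have hv0 : v 0 = x := by simp [hv]
  have hTv : ∀ n, T (v n) = v (n + 1) := by
    intro n
    simp only [hv, pow_succ', mul_apply_eq_comp]
  have hne : ∀ n, gramSchmidt ℂ v n ≠ 0 := by
    intro n h
    have h1 : v n ∈ Submodule.span ℂ (v '' Set.Iio n) := by
      rw [← span_gramSchmidt_Iio ℂ v n, gramSchmidt_def'' ℂ v n, h, zero_add]
      refine Submodule.sum_mem _ fun a ha => Submodule.smul_mem _ _ ?_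
      rw [Finset.mem_Iio] at ha
      exact Submodule.subset_span ⟨a, ha, rfl⟩
    have : FiniteDimensional ℂ (Submodule.span ℂ (v '' Set.Iio n)) :=
      FiniteDimensional.span_of_finite ℂ ((Set.finite_Iio n).image v)
    have hx1 : x ∈ Submodule.span ℂ (v '' Set.Iio n) := by
      rcases Nat.eq_zero_or_pos n with rfl | hn
      · rwa [hv0] at h1
      · exact Submodule.subset_span ⟨0, hn, hv0⟩
    refine hT (Krylov_of_findim hinf (Submodule.span ℂ (v '' Set.Iio n)) ?_ ?_)
    · intro hb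
      rw [hb, Submodule.mem_bot] at hx1
      exact hx hx1
    · refine Krylov_map_span ?_
      rintro _ ⟨i, hi, rfl⟩
      rw [hTv]
      rcases (Nat.succ_le_of_lt hi).lt_or_eq with h2 | h2
      · exact Submodule.subset_span ⟨i + 1, h2, rfl⟩
      · have h3 : i + 1 = n := h2
        rw [h3]; exact h1
  have hon : Orthonormal ℂ (gramSchmidtNormed ℂ v) := by
    constructor
    · intro i
      rw [gramSchmidtNormed]
      exact norm_smul_inv_norm (hne i)
    · intro i j hij
      simp only [gramSchmidtNormed, inner_smul_left, inner_smul_right]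
      rw [gramSchmidt_orthogonal ℂ v hij, mul_zero, mul_zero]
  have hsp : ⊤ ≤ (Submodule.span ℂ (Set.range (gramSchmidtNormed ℂ v))).topologicalClosure := by
    rw [span_gramSchmidtNormed_range, span_gramSchmidt, hd]
  refine ⟨HilbertBasis.mk hon hsp, ?_, ?_⟩
  · refine ⟨((‖gramSchmidt ℂ v 0‖ : ℝ) : ℂ)⁻¹, ?_, ?_⟩
    · exact inv_ne_zero (by exact_mod_cast norm_ne_zero_iff.2 (hne 0))
    · rw [HilbertBasis.coe_mk, gramSchmidtNormed]
      have h0 : gramSchmidt ℂ v 0 = x := by rw [← hv0]; exact gramSchmidt_bot ℂ v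
      rw [h0]
      rfl
  · intro k m hkm
    rw [HilbertBasis.coe_mk]
    have h1 : gramSchmidt ℂ v k ∈ Submodule.span ℂ (v '' Set.Iic k) :=
      gramSchmidt_mem_span ℂ v le_rfl
    have h2 : T (gramSchmidt ℂ v k) ∈ Submodule.span ℂ (v '' Set.Iic (k + 1)) := by
      refine Krylov_map_span ?_ _ h1
      rintro _ ⟨i, hi, rfl⟩
      rw [hTv]
      exact Submodule.subset_span ⟨i + 1, Nat.succ_le_succ hi, rfl⟩
    have h3 : ⟪gramSchmidt ℂ v m, T (gramSchmidt ℂ v k)⟫_ℂ = 0 := by
      refine Krylov_inner_span ?_ _ h2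
      rintro _ ⟨i, hi, rfl⟩
      exact gramSchmidt_inv_triangular ℂ v (lt_of_le_of_lt hi hkm)
    simp only [gramSchmidtNormed, map_smul, inner_smul_left, inner_smul_right]
    rw [h3, mul_zero, mul_zero]

/-- The orthogonal projection on the span of the first `N` vectors. -/
def KrylovP (e : ℕ → H) (N : ℕ) : H →L[ℂ] H :=
  ∑ k ∈ Finset.range N, (innerSL ℂ (e k)).smulRight (e k)

omit [CompleteSpace H] in
theorem KrylovP_apply (e : ℕ → H) (N : ℕ) (y : H) :
    KrylovP e N y = ∑ k ∈ Finset.range N, ⟪e k, y⟫_ℂ • e k := by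
  simp [KrylovP]

omit [CompleteSpace H] in
theorem KrylovP_inner (e : ℕ → H) (N : ℕ) (u y : H) :
    ⟪KrylovP e N u, y⟫_ℂ = ⟪u, KrylovP e N y⟫_ℂ := by
  rw [KrylovP_apply, KrylovP_apply, sum_inner, inner_sum]
  refine Finset.sum_congr rfl fun k _ => ?_
  rw [inner_smul_left, inner_smul_right, inner_conj_symm, mul_comm]

theorem KrylovP_star (e : ℕ → H) (N : ℕ) : star (KrylovP e N) = KrylovP e N := by
  ext y
  refine ext_inner_left ℂ fun u => ?_
  rw [inner_star_right, KrylovP_inner]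

theorem KrylovP_basis {e : ℕ → H} (he : Orthonormal ℂ e) {N k : ℕ} (hk : k < N) :
    KrylovP e N (e k) = e k := by
  rw [KrylovP_apply, Finset.sum_eq_single k]
  · rw [inner_self_c, he.1 k]; simp
  · intro j _ hj
    rw [he.2 hj, zero_smul]
  · intro h; exact absurd (Finset.mem_range.2 hk) h

theorem KrylovP_normsq {e : ℕ → H} (he : Orthonormal ℂ e) (N : ℕ) (y : H) :
    ‖KrylovP e N y‖ ^ 2 = ∑ k ∈ Finset.range N, ‖⟪e k, y⟫_ℂ‖ ^ 2 := by
  rw [← re_inner_self, KrylovP_apply, he.inner_sum, Complex.re_sum]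
  refine Finset.sum_congr rfl fun k _ => ?_
  rw [Complex.conj_mul']
  norm_cast

theorem KrylovP_le {e : ℕ → H} (he : Orthonormal ℂ e) (N : ℕ) (y : H) :
    ‖KrylovP e N y‖ ^ 2 ≤ ‖y‖ ^ 2 := by
  rw [KrylovP_normsq he]
  exact he.sum_inner_products_le y

omit [CompleteSpace H] in
theorem KrylovP_fix (e : HilbertBasis ℕ ℂ H) {N : ℕ} {y : H}
    (h : ∀ m, N ≤ m → ⟪e m, y⟫_ℂ = 0) : KrylovP e N y = y := by
  rw [KrylovP_apply]
  have h1 := e.hasSum_repr y
  simp only [HilbertBasis.repr_apply_apply] at h1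
  have h2 : HasSum (fun m => ⟪e m, y⟫_ℂ • e m) (∑ k ∈ Finset.range N, ⟪e k, y⟫_ℂ • e k) := by
    refine hasSum_sum_of_ne_finset_zero fun m hm => ?_
    rw [h m (by simpa using hm), zero_smul]
  exact h2.unique h1

omit [CompleteSpace H] in
theorem Krylov_trace {e : ℕ → H} {A B : H →L[ℂ] H} {N n : ℕ}
    (h : ∀ k, k < N → KrylovP e n (A (e k)) = A (e k)) :
    ∑ m ∈ Finset.range n, ⟪e m, A (KrylovP e N (B (e m)))⟫_ℂ
      = ∑ k ∈ Finset.range N, ⟪e k, B (A (e k))⟫_ℂ := by
  have h1 : ∀ m, ⟪e m, A (KrylovP e N (B (e m)))⟫_ℂ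
      = ∑ k ∈ Finset.range N, ⟪e m, A (e k)⟫_ℂ * ⟪e k, B (e m)⟫_ℂ := by
    intro m
    rw [KrylovP_apply, map_sum, inner_sum]
    refine Finset.sum_congr rfl fun k _ => ?_
    rw [map_smul, inner_smul_right, mul_comm]
  simp only [h1]
  rw [Finset.sum_comm]
  refine Finset.sum_congr rfl fun k hk => ?_
  conv_rhs => rw [← h k (Finset.mem_range.1 hk), KrylovP_apply, map_sum, inner_sum]
  refine Finset.sum_congr rfl fun m _ => ?_
  rw [map_smul, inner_smul_right]

theorem Krylov_oA_zero (B : H →L[ℂ] H) : oA B 0 = B := by simp [oA]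

theorem Krylov_oS_zero (B : H →L[ℂ] H) : oS B 0 = star B := by simp [oS]

theorem Krylov_trD {T δ : H →L[ℂ] H} (hy : Hyp T δ) (e : HilbertBasis ℕ ℂ H)
    (hess : ∀ k m : ℕ, k + 1 < m → ⟪e m, T (e k)⟫_ℂ = 0) (n : ℕ) :
    ∑ i ∈ Finset.range n, ‖δ (e i)‖ ^ 2 ≤ ‖T‖ ^ 2 := by
  rcases n with _ | N
  · simp
  have he := e.orthonormal
  have h1 : ∀ u, ‖δ u‖ ^ 2 = ‖T u‖ ^ 2 - ‖star T u‖ ^ 2 := by
    intro u
    have := norm_oA_sq hy 0 u
    rw [Krylov_oA_zero, Krylov_oS_zero] at this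
    linarith
  have h2 : ∑ k ∈ Finset.range N, ‖T (e k)‖ ^ 2
      ≤ ∑ m ∈ Finset.range (N + 1), ‖star T (e m)‖ ^ 2 := by
    calc ∑ k ∈ Finset.range N, ‖T (e k)‖ ^ 2
        = ∑ k ∈ Finset.range N, ∑ m ∈ Finset.range (N + 1), ‖⟪e m, T (e k)⟫_ℂ‖ ^ 2 := by
          refine Finset.sum_congr rfl fun k hk => ?_
          rw [← KrylovP_normsq he, KrylovP_fix e]
          intro m hm
          exact hess k m (by have := Finset.mem_range.1 hk; omega)
      _ = ∑ m ∈ Finset.range (N + 1), ∑ k ∈ Finset.range N, ‖⟪e k, star T (e m)⟫_ℂ‖ ^ 2 := by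
          rw [Finset.sum_comm]
          refine Finset.sum_congr rfl fun m _ => Finset.sum_congr rfl fun k _ => ?_
          rw [inner_star_right, norm_inner_symm]
      _ ≤ _ := Finset.sum_le_sum fun m _ => he.sum_inner_products_le _
  have h3 : ‖T (e N)‖ ^ 2 ≤ ‖T‖ ^ 2 := by
    have := T.le_opNorm (e N)
    rw [he.1 N, mul_one] at this
    exact pow_le_pow_left₀ (norm_nonneg _) this 2
  simp only [h1]
  rw [Finset.sum_sub_distrib, Finset.sum_range_succ (fun k => ‖T (e k)‖ ^ 2)]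
  linarith

theorem Krylov_trba {T : H →L[ℂ] H} (e : HilbertBasis ℕ ℂ H)
    (hess : ∀ k m : ℕ, k + 1 < m → ⟪e m, T (e k)⟫_ℂ = 0) (z : ℂ) (t : ℝ) (ht : 0 < t) (n : ℕ) :
    t * ∑ i ∈ Finset.range n, (bf T z t (e i) - af T z t (e i)) ≤ 1 := by
  rcases n with _ | N
  · simp
  have he := e.orthonormal
  set P : H →L[ℂ] H := KrylovP e N with hP
  set B : H →L[ℂ] H := oA T z * P with hB
  have hBA : ∀ y, oA B 0 y = oA T z (P y) := by intro y; rw [Krylov_oA_zero]; rfl
  have hBS : ∀ y, oS B 0 y = P (oS T z y) := by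
    intro y
    rw [Krylov_oS_zero, hB, star_mul, star_oA, hP, KrylovP_star]; rfl
  have c1 : ∀ h, bf T z t h ≤ bf B 0 t h := by
    intro h
    have a1 := bf_var B 0 ht h (rb T z t h)
    have a2 := bf_eq T z ht h
    have a3 : (⟪h, rb T z t h⟫_ℂ).re = bf T z t h := rfl
    have a4 := KrylovP_le he N (oS T z (rb T z t h))
    rw [hBS] at a1
    linarith
  have c2 : ∀ h, P h = h → af B 0 t h ≤ af T z t h := by
    intro h hh
    have a1 := af_var T z ht h (P (ra B 0 t h))
    have a2 := af_eq B 0 ht h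
    have a3 : (⟪h, P (ra B 0 t h)⟫_ℂ).re = af B 0 t h := by
      rw [hP, ← KrylovP_inner, ← hP, hh]; rfl
    have a4 := KrylovP_le he N (ra B 0 t h)
    have a5 := mul_le_mul_of_nonneg_left a4 ht.le
    rw [hBA] at a2
    linarith
  set C : H →L[ℂ] H := ra B 0 t * oS B 0 with hC
  have c3 : ∀ m, t * bf B 0 t (e m) = 1 - (⟪e m, oA T z (P (C (e m)))⟫_ℂ).re := by
    intro m
    have a1 := rb_left B 0 ht (e m)
    rw [oS_rb B 0 ht, hBA] at a1
    have a2 := congrArg (fun w => (⟪e m, w⟫_ℂ).re) a1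
    simp only [inner_add_right, inner_smul_right, Complex.add_re, Complex.re_ofReal_mul,
      re_inner_self, he.1 m] at a2
    have a3 : (⟪e m, rb B 0 t (e m)⟫_ℂ).re = bf B 0 t (e m) := rfl
    have a4 : C (e m) = ra B 0 t (oS B 0 (e m)) := rfl
    rw [a4, ← a3]
    linarith
  have c4 : ∀ k, k < N → (⟪e k, C (oA T z (e k))⟫_ℂ).re = 1 - t * af B 0 t (e k) := by
    intro k hk
    have a1 := ra_right B 0 ht (e k)
    rw [map_add, map_smul, hBA, hP, KrylovP_basis he hk] at a1
    have a2 := congrArg (fun w => (⟪e k, w⟫_ℂ).re) a1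
    simp only [inner_add_right, inner_smul_right, Complex.add_re, Complex.re_ofReal_mul,
      re_inner_self, he.1 k] at a2
    have a3 : (⟪e k, ra B 0 t (e k)⟫_ℂ).re = af B 0 t (e k) := rfl
    have a4 : C (oA T z (e k)) = ra B 0 t (oS B 0 (oA T z (e k))) := rfl
    rw [a4, ← a3]
    linarith
  have c5 : ∑ m ∈ Finset.range (N + 1), ⟪e m, oA T z (P (C (e m)))⟫_ℂ
      = ∑ k ∈ Finset.range N, ⟪e k, C (oA T z (e k))⟫_ℂ := by
    refine Krylov_trace fun k hk => KrylovP_fix e fun m hm => ?_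
    rw [oA_apply, inner_sub_right, inner_smul_right, hess k m (by omega),
      he.2 (show m ≠ k by omega), mul_zero, sub_zero]
  have c6 := congrArg Complex.re c5
  rw [Complex.re_sum, Complex.re_sum] at c6
  have d1 : ∑ m ∈ Finset.range (N + 1), t * bf T z t (e m)
      ≤ ∑ m ∈ Finset.range (N + 1), (1 - (⟪e m, oA T z (P (C (e m)))⟫_ℂ).re) :=
    Finset.sum_le_sum fun m _ => by
      rw [← c3]; exact mul_le_mul_of_nonneg_left (c1 _) ht.le
  have d2 : ∑ k ∈ Finset.range N, (1 - t * af T z t (e k))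
      ≤ ∑ k ∈ Finset.range N, (⟪e k, C (oA T z (e k))⟫_ℂ).re :=
    Finset.sum_le_sum fun k hk => by
      have hk' := Finset.mem_range.1 hk
      rw [c4 k hk']
      have := mul_le_mul_of_nonneg_left (c2 (e k) (KrylovP_basis he hk')) ht.le
      linarith
  have d3 : 0 ≤ t * af T z t (e N) := mul_nonneg ht.le (af_nonneg T z ht _)
  rw [Finset.sum_sub_distrib, c6] at d1
  rw [Finset.sum_sub_distrib] at d2
  rw [Finset.mul_sum]
  simp only [mul_sub]
  rw [Finset.sum_sub_distrib, Finset.sum_range_succ (fun k => t * af T z t (e k))]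
  simp only [Finset.sum_const, Finset.card_range, nsmul_eq_mul, mul_one] at d1 d2
  push_cast at d1
  linarith

/-- Berger and Shaw type trace bounds. -/
theorem trB_of_hess {T δ : H →L[ℂ] H} (hy : Hyp T δ) (e : HilbertBasis ℕ ℂ H)
    (hess : ∀ k m : ℕ, k + 1 < m → ⟪e m, T (e k)⟫_ℂ = 0) : TrB T δ e :=
  ⟨Krylov_trD hy e hess, Krylov_trba e hess⟩

/-- The last step of both cases. -/
theorem hasInv_of_seq {T : H →L[ℂ] H} {x η : H} (hx : x ≠ 0) (y : ℕ → H) {C : ℝ}
    (hC : ∀ l, ‖y l‖ ≤ C) (hη : ∀ l, 1 / 2 ≤ (⟪η, y l⟫_ℂ).re)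
    (h0 : ∀ n : ℕ, Tendsto (fun l => ⟪(T ^ n) x, y l⟫_ℂ) atTop (𝓝 0)) : HasInv T := by
  by_contra hT
  have hd := Krylov_dense hT hx
  rw [← Submodule.dense_iff_topologicalClosure_eq_top] at hd
  have hC0 : 0 ≤ C := (norm_nonneg _).trans (hC 0)
  have hspan : ∀ v ∈ Submodule.span ℂ (Set.range fun n : ℕ => (T ^ n) x),
      Tendsto (fun l => ⟪v, y l⟫_ℂ) atTop (𝓝 0) := by
    intro v hv
    induction hv using Submodule.span_induction with
    | mem v hv => obtain ⟨n, rfl⟩ := hv; exact h0 n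
    | zero => simp
    | add a b _ _ ha hb =>
      simp only [inner_add_left]
      simpa using ha.add hb
    | smul c a _ ha =>
      simp only [inner_smul_left]
      simpa using ha.const_mul (conj c)
  have hε : 0 < 1 / (4 * (C + 1)) := by positivity
  obtain ⟨v, hv, hvd⟩ := Metric.mem_closure_iff.1 (hd η) _ hε
  have hlim := hspan v hv
  have hre : Tendsto (fun l => (⟪v, y l⟫_ℂ).re) atTop (𝓝 0) := by
    exact (Complex.continuous_re.tendsto 0).comp hlim
  have hev : ∀ᶠ l in atTop, (⟪v, y l⟫_ℂ).re < 1 / 4 := hre.eventually (gt_mem_nhds (by norm_num))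
  obtain ⟨l, hl⟩ := hev.exists
  have h1 : ⟪η, y l⟫_ℂ = ⟪v, y l⟫_ℂ + ⟪η - v, y l⟫_ℂ := by rw [inner_sub_left]; ring
  have h2 : (⟪η - v, y l⟫_ℂ).re ≤ ‖η - v‖ * ‖y l‖ :=
    (Complex.re_le_norm _).trans (norm_inner_le_norm _ _)
  rw [dist_eq_norm] at hvd
  have h3 : ‖η - v‖ * ‖y l‖ ≤ 1 / (4 * (C + 1)) * C :=
    mul_le_mul hvd.le (hC l) (norm_nonneg _) hε.le
  have h4 : 1 / (4 * (C + 1)) * C ≤ 1 / 4 := by
    rw [div_mul_eq_mul_div, div_le_div_iff₀ (by positivity) (by norm_num)]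
    linarith
  have h5 := hη l
  rw [h1, Complex.add_re] at h5
  linarith

end Pool.Agent.P.MP_f981b0_an.Hy
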