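import Pool.Agent.P.MP_f981b0_an.Hy.Defs

set_option autoImplicit false

open scoped InnerProductSpace ComplexConjugate
open MeasureTheory Filter Topology

noncomputable section

namespace Pool.Agent.P.MP_f981b0_an.Hy

variable {H : Type*} [NormedAddCommGroup H] [InnerProductSpace ℂ H] [CompleteSpace H]

open Classical in
theorem ult_pliss (v : ℕ → ℝ) {γ C : ℝ} (hγ : 0 < γ) (hlow : ∀ j : ℕ, γ * j - C ≤ v j)
    (h0 : v 0 ≤ C) (hstep : ∀ j, v (j + 1) ≤ v j + 1) (J : ℕ) :
    γ * J - 2 * C ≤ ∑ j ∈ Finset.range J, if ∀ i, j ≤ i → v j ≤ v i then (1 : ℝ) else 0 := by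
  have hb : ∀ j : ℕ, ∀ i : ℕ, γ * j - C ≤ v (j + i) := fun j i => by
    refine le_trans ?_ (hlow (j + i))
    have : 0 ≤ γ * i := by positivity
    push_cast; linarith
  have hbdd : ∀ j : ℕ, BddBelow (Set.range fun i : ℕ => v (j + i)) := fun j =>
    ⟨γ * j - C, by rintro _ ⟨i, rfl⟩; exact hb j i⟩
  have hle : ∀ j i : ℕ, j ≤ i → ⨅ i : ℕ, v (j + i) ≤ v i := fun j i h => by
    obtain ⟨k, rfl⟩ := Nat.exists_eq_add_of_le h
    exact ciInf_le (hbdd j) k
  have key : ∀ J : ℕ, ⨅ i : ℕ, v (J + i) ≤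
      C + ∑ j ∈ Finset.range J, if ∀ i, j ≤ i → v j ≤ v i then (1 : ℝ) else 0 := by
    intro J
    induction J with
    | zero => simpa using (hle 0 0 le_rfl).trans h0
    | succ J ih =>
      rw [Finset.sum_range_succ]
      split_ifs with h
      · have h1 : v J ≤ ⨅ i : ℕ, v (J + i) := le_ciInf fun i => h _ (Nat.le_add_right _ _)
        have h2 := hle (J + 1) (J + 1) le_rfl
        have h3 := hstep J
        linarith
      · push Not at h
        obtain ⟨i, hi, hlt⟩ := h
        have hi' : J + 1 ≤ i := by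
          rcases hi.eq_or_lt with rfl | h'
          · exact absurd hlt (lt_irrefl _)
          · exact h'
        have h1 : ⨅ i : ℕ, v (J + 1 + i) ≤ ⨅ i : ℕ, v (J + i) := by
          refine le_ciInf fun k => ?_
          rcases Nat.eq_zero_or_pos k with rfl | hk
          · exact (hle _ _ hi').trans hlt.le
          · exact hle _ _ (by omega)
        linarith
  have h1 : γ * J - C ≤ ⨅ i : ℕ, v (J + i) := le_ciInf (hb J)
  linarith [key J]

theorem ult_weak {E : Type*} [NormedAddCommGroup E] [InnerProductSpace ℝ E] [CompleteSpace E]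
    (U : Ultrafilter ℕ) (x : ℕ → E) {B : ℝ} (hB : ∀ k, ‖x k‖ ≤ B) :
    ∃ y : E, ∀ h : E, Tendsto (fun k => ⟪h, x k⟫_ℝ) U (𝓝 ⟪h, y⟫_ℝ) := by
  have h1 : ∀ h : E, ∀ k, ‖⟪h, x k⟫_ℝ‖ ≤ B * ‖h‖ := fun h k => by
    rw [mul_comm]
    exact (norm_inner_le_norm _ _).trans (mul_le_mul_of_nonneg_left (hB k) (norm_nonneg _))
  have h2 : ∀ h : E, ∃ l : ℝ, Tendsto (fun k => ⟪h, x k⟫_ℝ) U (𝓝 l) := fun h => by
    obtain ⟨l, -, hl⟩ := (isCompact_closedBall (0 : ℝ) (B * ‖h‖)).ultrafilter_le_nhds
      (U.map fun k => ⟪h, x k⟫_ℝ) (by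
        rw [Ultrafilter.coe_map, le_principal_iff, mem_map]
        exact Eventually.of_forall fun k => by simpa using h1 h k)
    exact ⟨l, hl⟩
  choose l hl using h2
  let L : E →ₗ[ℝ] ℝ :=
    { toFun := l
      map_add' := fun e e' => tendsto_nhds_unique (hl (e + e')) (by
        simpa only [inner_add_left] using (hl e).add (hl e'))
      map_smul' := fun c e => tendsto_nhds_unique (hl (c • e)) (by
        simpa only [real_inner_smul_left, smul_eq_mul, RingHom.id_apply] using (hl e).const_mul c) }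
  have hL : ∀ e, ‖L e‖ ≤ B * ‖e‖ := fun e =>
    le_of_tendsto (hl e).norm (Eventually.of_forall (h1 e))
  refine ⟨(InnerProductSpace.toDual ℝ E).symm (L.mkContinuous B hL), fun h => ?_⟩
  rw [real_inner_comm, InnerProductSpace.toDual_symm_apply]
  exact hl h

theorem ult_lim {α : Type*} [MeasurableSpace α] (μ : Measure α) [IsFiniteMeasure μ]
    (hμ : 0 < μ.real Set.univ) (A : ℕ → Set α) (hA : ∀ j, MeasurableSet (A j)) {γ : ℝ}
    (hγ : 0 < γ) (U : Ultrafilter ℕ) (hU : ∀ᶠ j in U, γ / 2 * μ.real Set.univ ≤ μ.real (A j)) :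
    ∃ P : Set α, MeasurableSet P ∧ μ P ≠ 0 ∧ ∀ G, MeasurableSet G → G ⊆ P → 0 < μ.real G →
      ∀ᶠ j in U, γ / 4 * μ.real G ≤ μ.real (G ∩ A j) := by
  obtain ⟨φ, hφ⟩ := ult_weak U
    (fun j => indicatorConstLp 2 (hA j) (measure_ne_top μ _) (1 : ℝ))
    (B := μ.real Set.univ ^ (1 / (2 : ENNReal).toReal)) (fun j => by
      refine norm_indicatorConstLp_le.trans ?_
      rw [norm_one, one_mul]
      exact Real.rpow_le_rpow measureReal_nonneg (measureReal_mono (Set.subset_univ _))
        (by positivity))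
  have hlim : ∀ G, MeasurableSet G →
      Tendsto (fun j => μ.real (G ∩ A j)) U (𝓝 (∫ x in G, φ x ∂μ)) := by
    intro G hG
    have := hφ (indicatorConstLp 2 hG (measure_ne_top μ _) (1 : ℝ))
    simp only [L2.real_inner_indicatorConstLp_one_indicatorConstLp_one] at this
    rwa [L2.inner_indicatorConstLp_one] at this
  have hint : Integrable φ μ := (Lp.memLp φ).integrable (by norm_num)
  have hm : Measurable φ := (Lp.stronglyMeasurable φ).measurable
  refine ⟨{x | γ / 3 < φ x}, measurableSet_lt measurable_const hm, ?_, ?_⟩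
  · intro h0
    have h1 : γ / 2 * μ.real Set.univ ≤ ∫ x in Set.univ, φ x ∂μ :=
      ge_of_tendsto (hlim _ MeasurableSet.univ) (by simpa using hU)
    rw [Measure.restrict_univ] at h1
    have h2 : ∫ x, φ x ∂μ ≤ ∫ _x, γ / 3 ∂μ := by
      refine integral_mono_ae hint (integrable_const _) ?_
      rw [EventuallyLE, ae_iff]
      simpa using h0
    rw [integral_const, smul_eq_mul] at h2
    nlinarith
  · intro G hG hGP hG0
    have h1 : γ / 3 * μ.real G ≤ ∫ x in G, φ x ∂μ :=
      setIntegral_ge_of_const_le_real hG (measure_ne_top μ _) (fun x hx => le_of_lt (hGP hx))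
        hint.integrableOn
    exact (hlim G hG).eventually_const_le (by nlinarith)

/-- Pliss lemma and a weak limit along an ultrafilter. -/
theorem ult {S : Set ℂ} (hS : MeasurableSet S) (hpos : volume S ≠ 0) (hfin : volume S ≠ ⊤)
    (v : ℕ → ℂ → ℝ) (hv : ∀ j, Measurable (v j)) {γ C : ℝ} (hγ : 0 < γ)
    (hlow : ∀ z ∈ S, ∀ j : ℕ, γ * j - C ≤ v j z) (h0 : ∀ z ∈ S, v 0 z ≤ C)
    (hstep : ∀ z ∈ S, ∀ j, v (j + 1) z ≤ v j z + 1) :
    ∃ S' : Set ℂ, S' ⊆ S ∧ MeasurableSet S' ∧ volume S' ≠ 0 ∧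
      ∃ F : Filter ℕ, F.NeBot ∧ F ≤ atTop ∧
        ∀ G : Set ℂ, MeasurableSet G → G ⊆ S' → 0 < volume.real G →
          ∀ᶠ j in F, γ / 4 * volume.real G ≤
            volume.real (G ∩ {z | ∀ i, j ≤ i → v j z ≤ v i z}) := by
  classical
  have hA : ∀ j, MeasurableSet {z | ∀ i, j ≤ i → v j z ≤ v i z} := fun j => by
    have : {z | ∀ i, j ≤ i → v j z ≤ v i z} = ⋂ i, ⋂ (_ : j ≤ i), {z | v j z ≤ v i z} := by
      ext z; simp
    rw [this]
    exact MeasurableSet.iInter fun i => MeasurableSet.iInter fun _ =>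
      measurableSet_le (hv j) (hv i)
  set A : ℕ → Set ℂ := fun j => {z | ∀ i, j ≤ i → v j z ≤ v i z} with hAdef
  have : IsFiniteMeasure (volume.restrict S) := isFiniteMeasure_restrict.2 hfin
  set μ := volume.restrict S with hμdef
  have hμ : 0 < μ.real Set.univ := by
    rw [measureReal_def, hμdef, Measure.restrict_apply_univ]
    exact ENNReal.toReal_pos hpos hfin
  have hsum : ∀ J : ℕ, (γ * J - 2 * C) * μ.real Set.univ ≤
      ∑ j ∈ Finset.range J, μ.real (A j) := by
    intro J
    have h1 : ∀ j, μ.real (A j) = ∫ z, (A j).indicator (fun _ => (1 : ℝ)) z ∂μ := fun j => by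
      rw [integral_indicator (hA j), setIntegral_const, smul_eq_mul, mul_one]
    have h2 : ∀ j, Integrable ((A j).indicator fun _ => (1 : ℝ)) μ := fun j =>
      (integrable_const _).indicator (hA j)
    simp_rw [h1]
    rw [← integral_finsetSum _ fun j _ => h2 j, mul_comm, ← smul_eq_mul, ← integral_const]
    refine integral_mono_ae (integrable_const _) (integrable_finsetSum _ fun j _ => h2 j) ?_
    filter_upwards [ae_restrict_mem hS] with z hz
    refine (ult_pliss (fun j => v j z) hγ (hlow z hz) (h0 z hz) (hstep z hz) J).trans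
      (le_of_eq (Finset.sum_congr rfl fun j _ => ?_))
    simp only [Set.indicator, hAdef, Set.mem_ofPred_eq]
  have hfr : ∃ᶠ j in atTop, γ / 2 * μ.real Set.univ ≤ μ.real (A j) := by
    by_contra hn
    rw [not_frequently, eventually_atTop] at hn
    obtain ⟨j0, hj0⟩ := hn
    obtain ⟨J, hJ⟩ := exists_nat_gt ((2 * C + j0) / (γ / 2))
    rw [div_lt_iff₀ (by positivity)] at hJ
    have h1 : ∑ j ∈ Finset.range J, μ.real (A j) ≤ ∑ j ∈ Finset.range J,
        (γ / 2 * μ.real Set.univ + if j ∈ Finset.range j0 then μ.real Set.univ else 0) := by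
      refine Finset.sum_le_sum fun j _ => ?_
      split_ifs with h
      · have : μ.real (A j) ≤ μ.real Set.univ := measureReal_mono (Set.subset_univ _)
        have : 0 ≤ γ / 2 * μ.real Set.univ := by positivity
        linarith
      · have := hj0 j (by simpa using h)
        linarith [not_le.1 this]
    rw [Finset.sum_add_distrib, Finset.sum_ite_mem, Finset.sum_const, Finset.sum_const,
      Finset.card_range, nsmul_eq_mul, nsmul_eq_mul] at h1
    have h2 : ((Finset.range J ∩ Finset.range j0).card : ℝ) ≤ j0 := by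
      have := Finset.card_le_card (Finset.inter_subset_right (s₁ := Finset.range J)
        (s₂ := Finset.range j0))
      rw [Finset.card_range] at this
      exact_mod_cast this
    have h3 := mul_le_mul_of_nonneg_right h2 hμ.le
    have h4 := hsum J
    nlinarith
  have := frequently_iff_neBot.1 hfr
  set U := Ultrafilter.of (atTop ⊓ 𝓟 {j | γ / 2 * μ.real Set.univ ≤ μ.real (A j)}) with hUdef
  have hU := Ultrafilter.of_le (atTop ⊓ 𝓟 {j | γ / 2 * μ.real Set.univ ≤ μ.real (A j)})
  obtain ⟨P, hP, hP0, hPG⟩ := ult_lim μ hμ A hA hγ U (le_principal_iff.1 (hU.trans inf_le_right))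
  refine ⟨P ∩ S, Set.inter_subset_right, hP.inter hS, ?_, U, U.neBot, hU.trans inf_le_left, ?_⟩
  · rwa [hμdef, Measure.restrict_apply hP] at hP0
  · intro G hG hGS hG0
    have e : ∀ X : Set ℂ, X ⊆ G → μ.real X = volume.real X := fun X hX => by
      rw [measureReal_def, measureReal_def, hμdef,
        Measure.restrict_eq_self _ (hX.trans (hGS.trans Set.inter_subset_right))]
    have := hPG G hG (hGS.trans Set.inter_subset_left) (by rwa [e G le_rfl])
    filter_upwards [this] with j hj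
    rwa [e G le_rfl, e _ Set.inter_subset_left] at hj

end Pool.Agent.P.MP_f981b0_an.Hy
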