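import Pool.Agent.P.MP_f981b0_an.Hy.Step
import Pool.Agent.P.MP_f981b0_an.Hy.Ult
import Pool.Agent.P.MP_f981b0_an.Hy.Krylov

set_option autoImplicit false

open scoped InnerProductSpace ComplexConjugate
open MeasureTheory Filter Topology

noncomputable section

namespace Pool.Agent.P.MP_f981b0_an.Hy

variable {H : Type*} [NormedAddCommGroup H] [InnerProductSpace ℂ H] [CompleteSpace H]

variable {T δ : H →L[ℂ] H} {e0 : H} {R : ℕ → ℂ → ℝ}

theorem caseA_om_pos (hy : Hyp T δ) (j : ℕ) (z : ℂ) : 0 < om T δ e0 R j z :=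
  mul_pos (one_pos.trans_le (one_le_bt hy z (tt_pos j))) (Real.exp_pos _)

theorem caseA_log_le {a b s : ℝ} (ha : 0 < a) (hb : 0 < b) :
    a * (4 : ℝ) ^ s ≤ b ↔ Real.log a / Real.log 4 + s ≤ Real.log b / Real.log 4 := by
  have h4 : 0 < Real.log 4 := Real.log_pos (by norm_num)
  have hs : (0 : ℝ) < 4 ^ s := Real.rpow_pos_of_pos (by norm_num) s
  rw [← Real.log_le_log_iff (mul_pos ha hs) hb, Real.log_mul ha.ne' hs.ne',
    Real.log_rpow (by norm_num), le_div_iff₀ h4, add_mul, div_mul_cancel₀ _ h4.ne']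

theorem exists_env (hy : Hyp T δ) (he : ‖e0‖ = 1) (hR : RData T δ e0 R)
    (hd : ∀ z, DenseRange (oA T z)) {g c : ℝ} (hg : 0 < g) (hg1 : g ≤ 1 / 4) (hc : 0 < c)
    (hS : volume {z | ∀ j : ℕ, c * (4 : ℝ) ^ (4 * g * j) ≤ om T δ e0 R j z} ≠ 0) :
    ∃ (c1 : ℝ) (c0 : ℂ) (S : Set ℂ) (F : Filter ℕ), Env T δ e0 R g c c1 c0 S F ∧
      MeasurableSet S ∧ volume S ≠ 0 := by
  obtain ⟨c0, hc0⟩ := exists_ball_part hS
  have hm : MeasurableSet {z | ∀ j : ℕ, c * (4 : ℝ) ^ (4 * g * j) ≤ om T δ e0 R j z} := by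
    rw [Set.ofPred_forall]
    exact MeasurableSet.iInter fun j =>
      measurableSet_le measurable_const (stDefs_measurable_om hy hR j)
  have hξ : (0 : ℝ) < 1 + ‖δ e0‖ ^ 2 := by positivity
  obtain ⟨S, hSS, hSm, hS0, F, hF, hFle, hgood⟩ := ult (hm.inter measurableSet_closedBall) hc0
    ((measure_mono Set.inter_subset_right).trans_lt measure_closedBall_lt_top).ne
    (fun j z => Real.log (om T δ e0 R j z) / Real.log 4 - g * j)
    (fun j => ((Real.measurable_log.comp (stDefs_measurable_om hy hR j)).div_const _).sub_const _)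
    (γ := 3 * g)
    (C := max (-(Real.log c / Real.log 4)) (Real.log (1 + ‖δ e0‖ ^ 2) / Real.log 4))
    (by positivity)
    (fun z hz j => by
      have h1 := (caseA_log_le hc (caseA_om_pos hy j z)).1 (hz.1 j)
      have h2 := le_max_left (-(Real.log c / Real.log 4))
        (Real.log (1 + ‖δ e0‖ ^ 2) / Real.log 4)
      linarith)
    (fun z _ => by
      have h1 : om T δ e0 R 0 z * (4 : ℝ) ^ (0 : ℝ) ≤ 1 + ‖δ e0‖ ^ 2 := by
        rw [Real.rpow_zero, mul_one, om]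
        have h2 := bf_le T z (tt_pos 0) (δ e0)
        have h3 := one_le_bt (e0 := e0) hy z (tt_pos 0)
        have h4 : Real.exp (-R 0 z) ≤ 1 := Real.exp_le_one_iff.2 (neg_nonpos.2 (hR.nonneg 0 z))
        refine (mul_le_of_le_one_right (by linarith) h4).trans ?_
        rw [bt]
        rw [tt_zero] at h2 ⊢
        linarith
      have h2 := (caseA_log_le (caseA_om_pos hy 0 z) hξ).1 h1
      have h3 := le_max_right (-(Real.log c / Real.log 4))
        (Real.log (1 + ‖δ e0‖ ^ 2) / Real.log 4)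
      simp only [Nat.cast_zero, mul_zero]
      linarith)
    (fun z _ j => by
      have h1 : om T δ e0 R (j + 1) z * (4 : ℝ) ^ (-1 : ℝ) ≤ om T δ e0 R j z := by
        have h2 := bt_succ (e0 := e0) hy z j
        have h3 := one_le_bt (e0 := e0) hy z (tt_pos j)
        have h4 : Real.exp (-R (j + 1) z) ≤ Real.exp (-R j z) :=
          Real.exp_le_exp.2 (neg_le_neg (hR.mono z j (j + 1) (Nat.le_succ j)))
        have h5 := mul_le_mul h2 h4 (Real.exp_pos _).le (by linarith)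
        rw [Real.rpow_neg_one, om, om]
        linarith
      have h2 := (caseA_log_le (caseA_om_pos hy (j + 1) z) (caseA_om_pos hy j z)).1 h1
      push_cast
      nlinarith)
  refine ⟨3 * g / 4, c0, S, F, ⟨hy, he, hR, hd, hg, hg1, hc, by positivity,
    fun z hz => (hSS hz).2, fun z hz => (hSS hz).1, hF, hFle, fun G hG hGS hG0 => ?_⟩, hSm, hS0⟩
  refine (hgood G hG hGS hG0).mono fun j hj => hj.trans (le_of_eq ?_)
  congr 2
  ext z
  refine forall_congr' fun l => imp_congr_right fun _ => ?_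
  rw [caseA_log_le (caseA_om_pos hy j z) (caseA_om_pos hy l z)]
  constructor <;> intro h <;> linarith

theorem exists_start {g c c1 : ℝ} {c0 : ℂ} {S : Set ℂ} {F : Filter ℕ}
    (env : Env T δ e0 R g c c1 c0 S F) (hm : MeasurableSet S) (hpos : volume S ≠ 0) :
    ∃ A B : ℝ, 0 < A ∧ 0 ≤ B ∧ Stt T δ e0 g S A B 0 e0 := by
  have hg := env.hg
  have hc := env.hc
  obtain ⟨G, hGS, hG, hG0⟩ := hm.exists_lt_isCompact_of_ne_top
    ((measure_mono env.hS).trans_lt measure_closedBall_lt_top).ne (pos_iff_ne_zero.2 hpos)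
  have hvol : 0 < volume.real G := ENNReal.toReal_pos hG0.ne' hG.measure_lt_top.ne
  obtain ⟨C, hC, hdq⟩ := dq_bound env.hy env.he env.hR (g := 4 * g) (by positivity)
  obtain ⟨Ck, hCk, hk⟩ := kint hg
  have hq : ∀ p ∈ G, ∀ (j : ℕ) (τ : ℝ), tt j ≤ τ → τ ≤ 1 →
      qf T δ p τ (dv T δ e0 p (tt j)) ≤ C / c * τ ^ g := by
    intro p hp j τ h1 h2
    have hτ : 0 < τ := (tt_pos j).trans_le h1
    have h3 := (hdq p 0 c hc (fun l _ => by simpa using env.hom p (hGS hp) l) j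
      (Nat.zero_le j)).2 τ h1 (by rwa [tt_zero])
    rw [tt_zero, div_one] at h3
    refine h3.trans (mul_le_mul ?_ (Real.rpow_le_rpow_of_exponent_ge hτ h2 (by linarith))
      (Real.rpow_nonneg hτ.le _) (by positivity))
    exact div_le_div_of_nonneg_right (mul_le_of_le_one_right hC.le
      (Real.exp_le_one_iff.2 (neg_nonpos.2 (env.hR.nonneg 0 p)))) hc.le
  obtain ⟨Λ, hΛ, hΛk⟩ : ∃ Λ : ℝ, 0 < Λ ∧
      7 * (C / c) * (Ck * (1 / 2 : ℝ) ^ (2 * g)) = Λ * volume.real G :=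
    ⟨7 * (C / c) * (Ck * (1 / 2 : ℝ) ^ (2 * g)) / volume.real G, by positivity,
      (div_mul_cancel₀ _ hvol.ne').symm⟩
  refine ⟨Λ, Λ, hΛ, hΛ.le, Unit, inferInstance, inferInstance, 0, 1 / 2, 1, fun _ => c0,
    fun _ => G, fun _ => 1, fun _ => 7 * (C / c), fun _ => Λ, fun _ => 4, fun _ _ => 0,
    by norm_num, one_pos, fun _ => hG, fun _ => hGS, fun _ => hGS.trans env.hS, fun _ => hvol,
    fun _ => one_pos, by simp, fun _ => by positivity, fun _ => hΛ,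
    fun _ _ h => absurd rfl h, fun _ p hp q hq' hpq j _ => ?_, fun _ _ h => absurd rfl h,
    fun _ p hp => ?_, fun _ => ⟨0, (2 : ℂ) • e0, ?_, ?_⟩, ?_, by simp, by simp⟩
  · refine K5 env.hy hpq (t0 := 1) (tt_pos j) (tt_le_one j) ?_ (by linarith [env.hg1])
      (by positivity) _ _ (hq p hp j) (hq q hq' j)
    have h1 := mem_closedBall_iff_norm.1 (env.hS (hGS hp))
    have h2 := mem_closedBall_iff_norm.1 (env.hS (hGS hq'))
    have h3 : ‖p - q‖ ≤ 1 := by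
      have := norm_sub_le (p - c0) (q - c0)
      rw [sub_sub_sub_cancel_right] at this
      linarith
    exact pow_le_one₀ (norm_nonneg _) h3
  · rw [← hΛk]
    exact mul_le_mul_of_nonneg_left (hk c0 p (1 / 2) G (by norm_num) hG (hGS.trans env.hS)
      (env.hS (hGS hp))) (by positivity)
  · rw [norm_smul, env.he]
    norm_num
  · rw [map_zero, zero_add, smul_smul]
    norm_num
  · simp only [Finset.univ_unique, Finset.sum_singleton]
    linarith

theorem caseA_dc {α : Type*} (P : ℕ → α → Prop) (Q : ℕ → α → α → Prop) (a : α) (h0 : P 0 a)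
    (hs : ∀ l x, P l x → ∃ x', P (l + 1) x' ∧ Q l x x') :
    ∃ x : ℕ → α, x 0 = a ∧ ∀ l, Q l (x l) (x (l + 1)) := by
  choose! f hf using hs
  have hP : ∀ l, P l (Nat.rec a f l) := by
    intro l
    induction l with
    | zero => exact h0
    | succ l ih => exact (hf l _ ih).1
  exact ⟨fun l => Nat.rec a f l, rfl, fun l => (hf l _ (hP l)).2⟩

/-- Case (a). -/
theorem caseA (hy : Hyp T δ) (he : ‖e0‖ = 1) (hR : RData T δ e0 R)
    (hd : ∀ z, DenseRange (oA T z)) {g c : ℝ} (hg : 0 < g) (hg1 : g ≤ 1 / 4) (hc : 0 < c)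
    (hS : volume {z | ∀ j : ℕ, c * (4 : ℝ) ^ (4 * g * j) ≤ om T δ e0 R j z} ≠ 0) :
    HasInv T := by
  obtain ⟨c1, c0, S, F, env, hm, hpos⟩ := exists_env hy he hR hd hg hg1 hc hS
  obtain ⟨A0, B0, hA0, hB0, h0⟩ := exists_start env hm hpos
  obtain ⟨C1, hC1, hstep⟩ := step env
  obtain ⟨Rr, hRr, hθ⟩ : ∃ Rr : ℝ, 4 ≤ Rr ∧ C1 * Rr ^ (-(2 * g)) ≤ 1 / 16 := by
    have h1 := (tendsto_rpow_neg_atTop (y := 2 * g) (by positivity)).const_mul C1
    rw [mul_zero] at h1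
    exact ((eventually_ge_atTop 4).and (h1.eventually (ge_mem_nhds (by norm_num)))).exists
  obtain ⟨θ, hθe⟩ : ∃ θ, θ = C1 * Rr ^ (-(2 * g)) := ⟨_, rfl⟩
  have hθ0 : 0 < θ := hθe ▸ mul_pos hC1 (Real.rpow_pos_of_pos (by linarith) _)
  rw [← hθe] at hθ
  obtain ⟨st, hst⟩ : ∃ st : ℕ → ℝ, ∀ l, st l = 16 * C1 * A0 * (1 / 4) ^ l := ⟨_, fun _ => rfl⟩
  have hst0 : ∀ l, 0 < st l := fun l => by rw [hst]; positivity
  have hst1 : ∀ l, st (l + 1) = st l / 4 := fun l => by rw [hst, hst]; ring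
  have hst2 : ∀ l, st l ≤ st 0 := fun l => by
    rw [hst, hst, pow_zero]
    exact mul_le_mul_of_nonneg_left (pow_le_one₀ (by norm_num) (by norm_num)) (by positivity)
  obtain ⟨B, hB, hB'⟩ : ∃ B : ℕ → ℝ, B 0 = B0 ∧ ∀ l, B (l + 1) = C1 * Rr ^ 2 * st l :=
    ⟨fun l => Nat.casesOn l B0 fun l => C1 * Rr ^ 2 * st l, rfl, fun _ => rfl⟩
  obtain ⟨E, hE, hE'⟩ : ∃ E : ℕ → ℝ, E 0 = 0 ∧ ∀ l, E (l + 1) = E l + C1 * B l :=
    ⟨fun l => Nat.rec 0 (fun l e => e + C1 * B l) l, rfl, fun _ => rfl⟩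
  have hK : 0 < C1 * (C1 * Rr ^ 2) := mul_pos hC1 (mul_pos hC1 (by positivity))
  have hEb : ∀ l, E (l + 1) + 2 * (C1 * (C1 * Rr ^ 2) * st l) ≤
      C1 * B0 + 2 * (C1 * (C1 * Rr ^ 2) * st 0) := by
    intro l
    induction l with
    | zero => rw [hE', hE, hB, zero_add]
    | succ l ih =>
      rw [hE' (l + 1), hB', hst1]
      have := mul_pos hK (hst0 l)
      nlinarith
  obtain ⟨x, hx0, hx⟩ := caseA_dc (fun l x => Stt T δ e0 g S (θ ^ l * A0) (B l) (E l) x)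
    (fun l x x' => ∃ y : H, ‖x - x'‖ ^ 2 ≤ C1 * (θ ^ l * A0) / st l ∧
      ‖y‖ ^ 2 ≤ E (l + 1) + 2 * st l ∧ 1 / 2 ≤ (⟪δ e0, y⟫_ℂ).re ∧
      ∀ n : ℕ, ‖⟪(T ^ n) x, y⟫_ℂ‖ ^ 2 ≤ ‖T ^ n‖ ^ 2 * (C1 * (θ ^ l * A0))) e0
    (by simpa only [pow_zero, one_mul, hB, hE] using h0)
    (fun l x hx => by
      obtain ⟨x', y, h1, h2⟩ := hstep _ _ _ (st l) Rr x (by positivity) (hst0 l) hRr hx
      refine ⟨x', ?_, y, by rwa [hE']⟩
      rw [← hθe] at h1
      rwa [hB', hE', pow_succ', mul_assoc])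
  choose y hxx hy1 hy2 hy3 using hx
  have hdist : ∀ l, dist (x l) (x (l + 1)) ≤ 1 / 4 * (1 / 2) ^ l := by
    intro l
    rw [dist_eq_norm]
    refine (pow_le_pow_iff_left₀ (norm_nonneg _) (by positivity) two_ne_zero).1
      ((hxx l).trans ?_)
    have h1 : θ ^ l ≤ (1 / 16) ^ l := pow_le_pow_left₀ hθ0.le hθ l
    have h2 : (1 / 4 * (1 / 2 : ℝ) ^ l) ^ 2 * st l = C1 * ((1 / 16) ^ l * A0) := by
      have h3 : (1 / 16 : ℝ) ^ l = ((1 / 2) ^ l) ^ 2 * (1 / 4) ^ l := by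
        rw [← pow_mul, mul_comm l 2, pow_mul, ← mul_pow]; norm_num
      rw [hst, h3]; ring
    rw [div_le_iff₀ (hst0 l), h2]
    gcongr
  obtain ⟨a, ha⟩ := cauchySeq_tendsto_of_complete
    (cauchySeq_of_le_geometric (1 / 2) (1 / 4) (by norm_num) hdist)
  have ha0 : a ≠ 0 := by
    rintro rfl
    have := dist_le_of_le_geometric_of_tendsto₀ (1 / 2) (1 / 4) (by norm_num) hdist ha
    rw [hx0, dist_zero_right, he] at this
    norm_num at this
  obtain ⟨Cy, hCy⟩ : ∃ Cy : ℝ, ∀ l, ‖y l‖ ≤ Cy := by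
    refine ⟨√(C1 * B0 + 2 * (C1 * (C1 * Rr ^ 2) * st 0) + 2 * st 0), fun l =>
      Real.le_sqrt_of_sq_le ((hy1 l).trans ?_)⟩
    have := hEb l
    have := hst2 l
    have := mul_pos hK (hst0 l)
    linarith
  refine hasInv_of_seq ha0 y hCy hy2 fun n => ?_
  have h1 : Tendsto (fun l => ⟪(T ^ n) (x l), y l⟫_ℂ) atTop (𝓝 0) := by
    rw [tendsto_zero_iff_norm_tendsto_zero]
    have h2 : Tendsto (fun l : ℕ => √(‖T ^ n‖ ^ 2 * (C1 * (θ ^ l * A0)))) atTop
        (𝓝 √(‖T ^ n‖ ^ 2 * (C1 * (0 * A0)))) :=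
      ((((tendsto_pow_atTop_nhds_zero_of_lt_one hθ0.le (by linarith)).mul_const A0).const_mul
        C1).const_mul _).sqrt
    rw [zero_mul, mul_zero, mul_zero, Real.sqrt_zero] at h2
    exact squeeze_zero (fun _ => norm_nonneg _) (fun l => Real.le_sqrt_of_sq_le (hy3 l n)) h2
  have h2 : Tendsto (fun l => ⟪(T ^ n) a - (T ^ n) (x l), y l⟫_ℂ) atTop (𝓝 0) := by
    rw [tendsto_zero_iff_norm_tendsto_zero]
    have h3 : Tendsto (fun l => ‖(T ^ n) a - (T ^ n) (x l)‖ * Cy) atTop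
        (𝓝 (‖(T ^ n) a - (T ^ n) a‖ * Cy)) :=
      (tendsto_const_nhds.sub (((T ^ n).continuous.tendsto a).comp ha)).norm.mul_const Cy
    rw [sub_self, norm_zero, zero_mul] at h3
    exact squeeze_zero (fun _ => norm_nonneg _) (fun l => (norm_inner_le_norm _ _).trans
      (mul_le_mul_of_nonneg_left (hCy l) (norm_nonneg _))) h3
  have h3 := h1.add h2
  rw [add_zero] at h3
  refine h3.congr fun l => ?_
  rw [← inner_add_left, add_sub_cancel]

end Pool.Agent.P.MP_f981b0_an.Hy
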