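import Pool.Agent.P.MP_f981b0_an.Hy.Kern
import Pool.Agent.P.MP_f981b0_an.Hy.Meas
import Pool.Agent.P.MP_f981b0_an.Hy.Krylov

set_option autoImplicit false

open scoped InnerProductSpace ComplexConjugate
open MeasureTheory Filter Topology

noncomputable section

namespace Pool.Agent.P.MP_f981b0_an.Hy

variable {H : Type*} [NormedAddCommGroup H] [InnerProductSpace ℂ H] [CompleteSpace H]

variable {T δ : H →L[ℂ] H}

/-- Approximate eigenvectors of `T*` almost orthogonal to `x` are almost orthogonal to the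
orbit of `x`. -/
theorem CaseB_orbit (T : H →L[ℂ] H) (x : H) {K R : ℝ} (hK : 0 ≤ K) (hR : 0 ≤ R) (n : ℕ) :
    ∃ C : ℝ, 0 ≤ C ∧ ∀ (p : ℂ) (y : H) (ε : ℝ), 0 ≤ ε → ‖p‖ ≤ R → ‖⟪x, y⟫_ℂ‖ ≤ K * ε →
      ‖oS T p y‖ ≤ ε → ‖⟪(T ^ n) x, y⟫_ℂ‖ ≤ C * ε := by
  induction n with
  | zero => exact ⟨K, hK, fun p y ε _ _ h _ => by simpa using h⟩
  | succ n ih =>
    obtain ⟨C, hC, h⟩ := ih
    refine ⟨‖(T ^ n) x‖ + R * C, by positivity, fun p y ε hε hp h1 h2 => ?_⟩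
    have h3 := h p y ε hε hp h1 h2
    have h4 : ⟪(T ^ (n + 1)) x, y⟫_ℂ
        = ⟪(T ^ n) x, oS T p y⟫_ℂ + conj p * ⟪(T ^ n) x, y⟫_ℂ := by
      rw [inner_oS_right, oA_apply, inner_sub_left, inner_smul_left, pow_succ',
        mul_apply_eq_comp]
      ring
    rw [h4]
    have h5 : ‖⟪(T ^ n) x, oS T p y⟫_ℂ‖ ≤ ‖(T ^ n) x‖ * ε :=
      (norm_inner_le_norm _ _).trans (mul_le_mul_of_nonneg_left h2 (norm_nonneg _))
    have h6 : ‖conj p * ⟪(T ^ n) x, y⟫_ℂ‖ ≤ R * (C * ε) := by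
      rw [norm_mul, RCLike.norm_conj]
      exact mul_le_mul hp h3 (norm_nonneg _) hR
    calc _ ≤ ‖⟪(T ^ n) x, oS T p y⟫_ℂ‖ + ‖conj p * ⟪(T ^ n) x, y⟫_ℂ‖ := norm_add_le _ _
      _ ≤ ‖(T ^ n) x‖ * ε + R * (C * ε) := add_le_add h5 h6
      _ = (‖(T ^ n) x‖ + R * C) * ε := by ring

omit [CompleteSpace H] in
/-- Norm of a sum from diagonal and off-diagonal bounds. -/
theorem CaseB_sum (P : Finset ℂ) (y : ℂ → H) {a b : ℝ} (ha : ∀ p ∈ P, ‖y p‖ ^ 2 ≤ a)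
    (hb : ∀ p ∈ P, ∑ q ∈ P.erase p, ‖⟪y p, y q⟫_ℂ‖ ≤ b) :
    ‖∑ p ∈ P, y p‖ ^ 2 ≤ P.card * (a + b) := by
  have h1 : ((‖∑ p ∈ P, y p‖ ^ 2 : ℝ) : ℂ) = ∑ p ∈ P, ∑ q ∈ P, ⟪y p, y q⟫_ℂ := by
    have h0 : ⟪∑ p ∈ P, y p, ∑ p ∈ P, y p⟫_ℂ = ((‖∑ p ∈ P, y p‖ ^ 2 : ℝ) : ℂ) := by
      rw [inner_self_eq_norm_sq_to_K]; norm_cast
    rw [← h0, sum_inner]
    exact Finset.sum_congr rfl fun p _ => inner_sum _ _ _
  have h2 : ‖∑ p ∈ P, y p‖ ^ 2 = ‖∑ p ∈ P, ∑ q ∈ P, ⟪y p, y q⟫_ℂ‖ := by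
    rw [← h1, Complex.norm_real, Real.norm_of_nonneg (sq_nonneg _)]
  rw [h2]
  refine (norm_sum_le _ _).trans ?_
  rw [← nsmul_eq_mul]
  refine Finset.sum_le_card_nsmul _ _ _ fun p hp => ?_
  refine (norm_sum_le _ _).trans ?_
  rw [← Finset.add_sum_erase _ _ hp]
  refine add_le_add ?_ (hb p hp)
  rw [inner_self_eq_norm_sq_to_K, norm_pow, RCLike.norm_ofReal, abs_norm]
  exact ha p hp

/-- What one approximate eigenvector satisfies. -/
theorem CaseB_point (hy : Hyp T δ) {e0 em d : H} (p : ℂ) {t ε : ℝ} (ht : 0 < t) (hε : 0 ≤ ε)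
    (h0 : ⟪e0, d⟫_ℂ = 0) (hm : ⟪em, d⟫_ℂ = 1) (hq : qf T δ p t d ≤ ε ^ 2) :
    ‖oS T p (ra T p t (δ d))‖ ≤ ε ∧ ‖⟪δ e0, ra T p t (δ d)⟫_ℂ‖ ≤ ‖e0‖ * ε ∧
      1 - ‖em‖ * ε ≤ (⟪δ em, ra T p t (δ d)⟫_ℂ).re := by
  have h1 := qf_eq hy p ht d
  have h2 : 0 ≤ t * ‖ra T p t (δ d)‖ ^ 2 := by positivity
  have h3 : ‖d - δ (ra T p t (δ d))‖ ≤ ε := by
    refine abs_le_of_sq_le_sq' ?_ hε |>.2
    nlinarith [sq_nonneg ‖oS T p (ra T p t (δ d))‖]
  have h4 : ‖oS T p (ra T p t (δ d))‖ ≤ ε := by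
    refine abs_le_of_sq_le_sq' ?_ hε |>.2
    nlinarith [sq_nonneg ‖d - δ (ra T p t (δ d))‖]
  have h5 : ∀ v : H, ⟪δ v, ra T p t (δ d)⟫_ℂ = ⟪v, d⟫_ℂ - ⟪v, d - δ (ra T p t (δ d))⟫_ℂ := by
    intro v
    rw [inner_del hy, inner_sub_right]
    ring
  have h6 : ∀ v : H, ‖⟪v, d - δ (ra T p t (δ d))⟫_ℂ‖ ≤ ‖v‖ * ε := fun v =>
    (norm_inner_le_norm _ _).trans (mul_le_mul_of_nonneg_left h3 (norm_nonneg _))
  refine ⟨h4, ?_, ?_⟩
  · rw [h5, h0, zero_sub, norm_neg]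
    exact h6 e0
  · rw [h5, hm, Complex.sub_re, Complex.one_re]
    have h7 := (Complex.re_le_norm _).trans (h6 em)
    linarith

/-- Case (b). -/
theorem caseB (hy : Hyp T δ) {e0 em : H} (hξ : δ e0 ≠ 0) {S : Set ℂ} (hS : volume S ≠ 0)
    {L g : ℝ} (hg : 0 < g) (hg1 : g ≤ 1)
    (h : ∀ z ∈ S, ∀ J : ℕ, ∃ d : H, ⟪e0, d⟫_ℂ = 0 ∧ ⟪em, d⟫_ℂ = 1 ∧
      ∀ τ, tt J ≤ τ → τ ≤ 1 → qf T δ z τ d ≤ L * τ ^ g) : HasInv T := by
  classical
  obtain ⟨c, hc⟩ := exists_ball_part hS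
  set G : Set ℂ := Metric.closedBall c (1 / 2) with hG
  set E : Set ℂ := S ∩ G with hE
  have hGc : IsCompact G := isCompact_closedBall _ _
  have hEG : E ⊆ G := Set.inter_subset_right
  have hEtop : volume E ≠ ⊤ := ((measure_mono hEG).trans_lt hGc.measure_lt_top).ne
  set e : ℝ := (volume E).toReal with he
  have he0 : 0 < e := ENNReal.toReal_pos hc hEtop
  have heE : ENNReal.ofReal e ≤ volume E := (ENNReal.ofReal_toReal hEtop).le
  obtain ⟨Ck, hCk, hk⟩ := kint hg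
  set I0 : ℝ := Ck * (1 / 2 : ℝ) ^ (2 * g) with hI0
  have hI00 : 0 < I0 := by positivity
  have hI : ∀ p ∈ G, ∫ q in G, kk g (p - q) ≤ I0 := fun p hp =>
    hk c p (1 / 2) G (by norm_num) hGc subset_rfl hp
  have hL : 0 ≤ L := by
    obtain ⟨z, hz⟩ := nonempty_of_measure_ne_zero hS
    obtain ⟨d, -, -, hd⟩ := h z hz 0
    have h1 := hd 1 (tt_le_one 0) le_rfl
    rw [Real.one_rpow, mul_one] at h1
    exact (qf_nonneg hy z one_pos d).trans h1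
  have hR : (0 : ℝ) ≤ ‖c‖ + 1 / 2 := by positivity
  choose Cn hCn0 hCn using CaseB_orbit T (δ e0) (norm_nonneg e0) hR
  set ε : ℕ → ℝ := fun J => √(L * tt J ^ g) with hε
  have hε0 : ∀ J, 0 ≤ ε J := fun J => Real.sqrt_nonneg _
  have hεsq : ∀ J, ε J ^ 2 = L * tt J ^ g := fun J =>
    Real.sq_sqrt (mul_nonneg hL (Real.rpow_nonneg (tt_pos J).le _))
  have hεlim : Tendsto ε atTop (𝓝 0) := by
    have h1 := ((tt_tendsto.rpow_const (Or.inr hg.le)).const_mul L).sqrt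
    rw [Real.zero_rpow hg.ne', mul_zero, Real.sqrt_zero] at h1
    exact h1
  set B : ℝ := 2 + 14 * L * (16 * 1 * I0 / e) with hB
  have key : ∀ J : ℕ, ∃ y : H, ‖y‖ ^ 2 ≤ B ∧ 1 - ‖em‖ * ε J ≤ (⟪δ em, y⟫_ℂ).re ∧
      ∀ n : ℕ, ‖⟪(T ^ n) (δ e0), y⟫_ℂ‖ ≤ Cn n * ε J := by
    intro J
    have ht := tt_pos J
    have ht1 := tt_le_one J
    choose! d hd0 hdm hdq using fun z hz => h z hz J
    set w0 : ℝ := tt J / (L + 1) with hw0
    have hw00 : 0 < w0 := by positivity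
    have hw01 : w0 ≤ 1 := by
      rw [hw0, div_le_one (by linarith)]
      linarith
    obtain ⟨P, hPE, hP1, -, hProw⟩ := greedy hg hEG hGc he0 heE hI00 hI (fun _ => w0) hw00 one_pos
      (fun _ _ => ⟨le_rfl, hw01⟩)
    rw [Finset.sum_const, nsmul_eq_mul] at hP1
    have hN : (0 : ℝ) < P.card := by
      by_contra hc'
      have h1 : (P.card : ℝ) * w0 ≤ 0 := mul_nonpos_of_nonpos_of_nonneg (not_lt.1 hc') hw00.le
      linarith
    have hPS : ∀ p ∈ P, p ∈ S := fun p hp => (hPE (Finset.mem_coe.2 hp)).1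
    have hPG : ∀ p ∈ P, p ∈ G := fun p hp => (hPE (Finset.mem_coe.2 hp)).2
    set y : ℂ → H := fun p => ra T p (tt J) (δ (d p)) with hy'
    have hpt : ∀ p ∈ P, ‖oS T p (y p)‖ ≤ ε J ∧ ‖⟪δ e0, y p⟫_ℂ‖ ≤ ‖e0‖ * ε J ∧
        1 - ‖em‖ * ε J ≤ (⟪δ em, y p⟫_ℂ).re := fun p hp =>
      CaseB_point hy p ht (hε0 J) (hd0 p (hPS p hp)) (hdm p (hPS p hp))
        (by rw [hεsq]; exact hdq p (hPS p hp) _ le_rfl ht1)
    have hdiag : ∀ p ∈ P, ‖y p‖ ^ 2 ≤ 1 / w0 := by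
      intro p hp
      have h1 := (coarse_norm hy p ht (d p)).trans (hdq p (hPS p hp) _ le_rfl ht1)
      have h2 : tt J ^ g ≤ 1 := Real.rpow_le_one ht.le ht1 hg.le
      have h3 : L * tt J ^ g ≤ L * 1 := mul_le_mul_of_nonneg_left h2 hL
      rw [hw0, one_div_div, le_div_iff₀ ht]
      linarith
    have hoff : ∀ p ∈ P, ∑ q ∈ P.erase p, ‖⟪y p, y q⟫_ℂ‖ ≤ 7 * L * (16 * 1 * I0 / e) / w0 := by
      intro p hp
      have h1 : ∑ q ∈ P.erase p, ‖⟪y p, y q⟫_ℂ‖ ≤ ∑ q ∈ P.erase p, 7 * L * kk g (p - q) := by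
        refine Finset.sum_le_sum fun q hq => ?_
        have hq' := Finset.mem_of_mem_erase hq
        have hdist : ‖p - q‖ ≤ 1 := by
          have h2 := Metric.mem_closedBall.1 (hPG p hp)
          have h3 := Metric.mem_closedBall.1 (hPG q hq')
          have h4 := dist_triangle_right p q c
          rw [← dist_eq_norm]
          linarith
        exact K5 hy (Finset.ne_of_mem_erase hq).symm ht ht1
          (pow_le_one₀ (norm_nonneg _) hdist) hg1 hL (d p) (d q) (hdq p (hPS p hp))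
          (hdq q (hPS q hq'))
      have h2 := hProw p hp
      rw [← Finset.mul_sum] at h1 h2
      refine h1.trans ?_
      rw [mul_div_assoc (7 * L)]
      refine mul_le_mul_of_nonneg_left ?_ (by positivity)
      rw [le_div_iff₀ hw00]
      linarith
    have hsum := CaseB_sum P y hdiag hoff
    refine ⟨(((P.card : ℝ)⁻¹ : ℝ) : ℂ) • ∑ p ∈ P, y p, ?_, ?_, fun n => ?_⟩
    · rw [norm_smul, mul_pow, Complex.norm_real, Real.norm_of_nonneg (by positivity)]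
      have h1 : ((P.card : ℝ)⁻¹) ^ 2 * ‖∑ p ∈ P, y p‖ ^ 2 ≤
          ((P.card : ℝ)⁻¹) ^ 2 * (P.card * (1 / w0 + 7 * L * (16 * 1 * I0 / e) / w0)) :=
        mul_le_mul_of_nonneg_left hsum (by positivity)
      refine h1.trans ?_
      have h2 : ((P.card : ℝ)⁻¹) ^ 2 * (P.card * (1 / w0 + 7 * L * (16 * 1 * I0 / e) / w0))
          = (1 + 7 * L * (16 * 1 * I0 / e)) / (P.card * w0) := by
        field_simp
      rw [h2, div_le_iff₀ (by positivity)]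
      have h3 : 0 ≤ B := by positivity
      have h4 := mul_le_mul_of_nonneg_left hP1 h3
      rw [hB] at h4 ⊢
      linarith
    · rw [inner_smul_right, Complex.re_ofReal_mul, inner_sum, Complex.re_sum]
      have h1 : P.card • (1 - ‖em‖ * ε J) ≤ ∑ p ∈ P, (⟪δ em, y p⟫_ℂ).re :=
        Finset.card_nsmul_le_sum _ _ _ fun p hp => (hpt p hp).2.2
      rw [nsmul_eq_mul] at h1
      rw [inv_mul_eq_div, le_div_iff₀ hN]
      linarith
    · rw [inner_smul_right, norm_mul, Complex.norm_real, Real.norm_of_nonneg (by positivity),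
        inner_sum]
      have h1 : ∑ p ∈ P, ‖⟪(T ^ n) (δ e0), y p⟫_ℂ‖ ≤ P.card • (Cn n * ε J) := by
        refine Finset.sum_le_card_nsmul _ _ _ fun p hp => ?_
        refine hCn n p (y p) (ε J) (hε0 J) ?_ (hpt p hp).2.1 (hpt p hp).1
        have h2 := Metric.mem_closedBall.1 (hPG p hp)
        rw [dist_eq_norm] at h2
        have h3 := norm_add_le (p - c) c
        rw [sub_add_cancel] at h3
        linarith
      rw [nsmul_eq_mul] at h1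
      have h2 := (norm_sum_le _ _).trans h1
      rw [inv_mul_eq_div, div_le_iff₀ hN]
      linarith
  choose y hy1 hy2 hy3 using key
  have hev : ∀ᶠ J in atTop, ‖em‖ * ε J < 1 / 2 := by
    have h1 := hεlim.const_mul ‖em‖
    rw [mul_zero] at h1
    exact h1.eventually (gt_mem_nhds (by norm_num))
  obtain ⟨J0, hJ0⟩ := eventually_atTop.1 hev
  refine hasInv_of_seq (η := δ em) hξ (fun l => y (l + J0)) (C := √B) (fun l => ?_) (fun l => ?_)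
    (fun n => ?_)
  · exact Real.le_sqrt_of_sq_le (hy1 _)
  · have h1 := hy2 (l + J0)
    have h2 := hJ0 (l + J0) (Nat.le_add_left _ _)
    linarith
  · have h1 := ((hεlim.comp (tendsto_add_atTop_nat J0)).const_mul (Cn n))
    rw [mul_zero] at h1
    exact squeeze_zero_norm (fun l => hy3 (l + J0) n) h1

end Pool.Agent.P.MP_f981b0_an.Hy
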