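import Mathlib

set_option autoImplicit false

open scoped InnerProductSpace ComplexConjugate
open MeasureTheory Filter Topology

noncomputable section

namespace Pool.Agent.P.MP_f981b0_an.Hy

variable {H : Type*} [NormedAddCommGroup H] [InnerProductSpace ℂ H] [CompleteSpace H]

/-- `T` has a closed invariant subspace other than `0` and `H`. -/
def HasInv (T : H →L[ℂ] H) : Prop :=
  ∃ V : Submodule ℂ H, IsClosed (V : Set H) ∧ V ≠ ⊥ ∧ V ≠ ⊤ ∧ ∀ x ∈ V, T x ∈ V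

/-- `A = T - z`. -/
def oA (T : H →L[ℂ] H) (z : ℂ) : H →L[ℂ] H := T - z • (1 : H →L[ℂ] H)

/-- `A* = T* - conj z`. -/
def oS (T : H →L[ℂ] H) (z : ℂ) : H →L[ℂ] H := star T - conj z • (1 : H →L[ℂ] H)

/-- `a = (A* A + t)⁻¹`. -/
def ra (T : H →L[ℂ] H) (z : ℂ) (t : ℝ) : H →L[ℂ] H :=
  Ring.inverse (oS T z * oA T z + (t : ℂ) • (1 : H →L[ℂ] H))

/-- `b = (A A* + t)⁻¹`. -/
def rb (T : H →L[ℂ] H) (z : ℂ) (t : ℝ) : H →L[ℂ] H :=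
  Ring.inverse (oA T z * oS T z + (t : ℂ) • (1 : H →L[ℂ] H))

/-- The form of `a`. -/
def af (T : H →L[ℂ] H) (z : ℂ) (t : ℝ) (h : H) : ℝ := (⟪h, ra T z t h⟫_ℂ).re

/-- The form of `b`. -/
def bf (T : H →L[ℂ] H) (z : ℂ) (t : ℝ) (h : H) : ℝ := (⟪h, rb T z t h⟫_ℂ).re

/-- `δ` is a self-adjoint square root of the self-commutator of `T`. -/
structure Hyp (T δ : H →L[ℂ] H) : Prop where
  sa : star δ = δ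
  sq : δ * δ = star T * T - T * star T

/-- `Q = 1 - δ a δ`. -/
def oQ (T δ : H →L[ℂ] H) (z : ℂ) (t : ℝ) : H →L[ℂ] H := 1 - δ * ra T z t * δ

/-- `M = 1 + δ b δ`, the inverse of `Q`. -/
def oM (T δ : H →L[ℂ] H) (z : ℂ) (t : ℝ) : H →L[ℂ] H := 1 + δ * rb T z t * δ

/-- The form of `Q`. -/
def qf (T δ : H →L[ℂ] H) (z : ℂ) (t : ℝ) (u : H) : ℝ := (⟪u, oQ T δ z t u⟫_ℂ).re

/-- The form of `M`. -/
def mf (T δ : H →L[ℂ] H) (z : ℂ) (t : ℝ) (u : H) : ℝ := (⟪u, oM T δ z t u⟫_ℂ).re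

/-- `β = 1 + ⟨b ξ, ξ⟩`, `ξ = δ e0`. -/
def bt (T δ : H →L[ℂ] H) (e0 : H) (z : ℂ) (t : ℝ) : ℝ := 1 + bf T z t (δ e0)

/-- `d = M e0 / β`. -/
def dv (T δ : H →L[ℂ] H) (e0 : H) (z : ℂ) (t : ℝ) : H :=
  ((bt T δ e0 z t : ℝ) : ℂ)⁻¹ • oM T δ z t e0

/-- `Y = a δ d = b ξ / β`. -/
def yh (T δ : H →L[ℂ] H) (e0 : H) (z : ℂ) (t : ℝ) : H := ra T z t (δ (dv T δ e0 z t))

/-- The times `t_j = 4 ^ (-j)`. -/
def tt (j : ℕ) : ℝ := (1 / 4 : ℝ) ^ j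

/-- The kernel `|ζ| ^ (2 g - 2)`. -/
def kk (g : ℝ) (ζ : ℂ) : ℝ := ‖ζ‖ ^ (2 * g - 2)

/-- Gram matrix of `Q`. -/
def gram (T δ : H →L[ℂ] H) (z : ℂ) (t : ℝ) {ι : Type*} (v : ι → H) : Matrix ι ι ℂ :=
  Matrix.of fun i k => ⟪v i, oQ T δ z t (v k)⟫_ℂ

/-- `V_s = - log det Gram`. -/
def Vs (T δ : H →L[ℂ] H) (e : ℕ → H) (s : Finset ℕ) (z : ℂ) (t : ℝ) : ℝ :=
  -Real.log (gram T δ z t (fun i : s => e i)).det.re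

/-- `V_n`, the limit of `V_s` over the intervals `[n, N)`, at time `t_j`. -/
def Vn (T δ : H →L[ℂ] H) (e : ℕ → H) (n j : ℕ) (z : ℂ) : ℝ :=
  ⨆ N : ℕ, Vs T δ e (Finset.Ico n N) z (tt j)

/-- A function of `(z, t)` read in the coordinates `z = x + i y`, `t = exp (-τ)`. -/
def lift (F : ℂ → ℝ → ℝ) (p : ℝ × ℝ × ℝ) : ℝ :=
  F ((p.1 : ℂ) + (p.2.1 : ℂ) * Complex.I) (Real.exp (-p.2.2))

def dx (f : ℝ × ℝ × ℝ → ℝ) (p : ℝ × ℝ × ℝ) : ℝ := deriv (fun s => f (s, p.2.1, p.2.2)) p.1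
def dy (f : ℝ × ℝ × ℝ → ℝ) (p : ℝ × ℝ × ℝ) : ℝ := deriv (fun s => f (p.1, s, p.2.2)) p.2.1
def dt (f : ℝ × ℝ × ℝ → ℝ) (p : ℝ × ℝ × ℝ) : ℝ := deriv (fun s => f (p.1, p.2.1, s)) p.2.2
def dxx (f : ℝ × ℝ × ℝ → ℝ) (p : ℝ × ℝ × ℝ) : ℝ :=
  deriv (deriv (fun s => f (s, p.2.1, p.2.2))) p.1
def dyy (f : ℝ × ℝ × ℝ → ℝ) (p : ℝ × ℝ × ℝ) : ℝ :=
  deriv (deriv (fun s => f (p.1, s, p.2.2))) p.2.1
def dtt (f : ℝ × ℝ × ℝ → ℝ) (p : ℝ × ℝ × ℝ) : ℝ :=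
  deriv (deriv (fun s => f (p.1, p.2.1, s))) p.2.2

/-- The operator `∂τ² + (exp (-τ) / 4) (∂x² + ∂y²)` (the Laplacian of `ℝ⁴` on functions that
are radial in the last two variables). -/
def opL (f : ℝ × ℝ × ℝ → ℝ) (p : ℝ × ℝ × ℝ) : ℝ :=
  dtt f p + Real.exp (-p.2.2) / 4 * (dxx f p + dyy f p)

/-- The trace bounds in an orthonormal basis. -/
structure TrB (T δ : H →L[ℂ] H) (e : ℕ → H) : Prop where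
  trD : ∀ n : ℕ, ∑ i ∈ Finset.range n, ‖δ (e i)‖ ^ 2 ≤ ‖T‖ ^ 2
  trba : ∀ (z : ℂ) (t : ℝ), 0 < t → ∀ n : ℕ,
    t * ∑ i ∈ Finset.range n, (bf T z t (e i) - af T z t (e i)) ≤ 1

/-- What part II uses about `R j z = V_1` at time `t_j`. -/
structure RData (T δ : H →L[ℂ] H) (e0 : H) (R : ℕ → ℂ → ℝ) : Prop where
  meas : ∀ j, Measurable (R j)
  nonneg : ∀ j z, 0 ≤ R j z
  mono : ∀ z i j, i ≤ j → R i z ≤ R j z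
  low : ∀ j z u, ⟪e0, u⟫_ℂ = 0 → ‖u‖ ^ 2 ≤ Real.exp (R j z) * qf T δ z (tt j) u
  rel : ∀ z i j u, i ≤ j → ⟪e0, u⟫_ℂ = 0 →
    qf T δ z (tt i) u ≤ Real.exp (R j z - R i z) * qf T δ z (tt j) u

/-- `ω_j = β_j exp (-R_j)`. -/
def om (T δ : H →L[ℂ] H) (e0 : H) (R : ℕ → ℂ → ℝ) (j : ℕ) (z : ℂ) : ℝ :=
  bt T δ e0 z (tt j) * Real.exp (-R j z)

end Pool.Agent.P.MP_f981b0_an.Hy
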