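import Pool.Agent.P.MP_f981b0_an.Hy.Basic

set_option autoImplicit false

open scoped InnerProductSpace ComplexConjugate
open MeasureTheory Filter Topology

noncomputable section

namespace Pool.Agent.P.MP_f981b0_an.Hy

variable {H : Type*} [NormedAddCommGroup H] [InnerProductSpace ℂ H] [CompleteSpace H]

variable {T δ : H →L[ℂ] H}

/-- The key identity. -/
theorem key_id (hy : Hyp T δ) (z w : ℂ) (y y' : H) :
    ((‖z - w‖ ^ 2 : ℝ) : ℂ) * ⟪y, y'⟫_ℂ =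
      ⟪oS T z (oA T z y), y'⟫_ℂ + ⟪y, oS T w (oA T w y')⟫_ℂ - ⟪δ y, δ y'⟫_ℂ
        - ⟪oA T z y, oA T w y'⟫_ℂ - ⟪oS T z y, oS T w y'⟫_ℂ := by
  have e1 : ∀ x, oA T w x = oA T z x + (z - w) • x := fun x => by
    rw [oA_shift T z w x]; abel
  have e2 : ∀ x, oS T w x = oS T z x + conj (z - w) • x := fun x => by
    rw [oS_shift T z w x]; abel
  have e3 : ⟪δ y, δ y'⟫_ℂ = ⟪oA T z y, oA T z y'⟫_ℂ - ⟪oS T z y, oS T z y'⟫_ℂ := by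
    rw [inner_del hy, del_del hy z, inner_sub_right, inner_oS_right, inner_oS_left]
  have e4 : ((‖z - w‖ ^ 2 : ℝ) : ℂ) = conj (z - w) * (z - w) := by
    rw [Complex.conj_mul']; push_cast; rfl
  rw [inner_oS_left, inner_oS_right, e3, e4, e1 y, e1 y', e2 y']
  simp only [inner_add_left, inner_add_right, inner_smul_left, inner_smul_right, inner_oS_left]
  ring

omit [CompleteSpace H] in
theorem Kern_cs (a b a' b' c : H) (h : ‖c‖ ^ 2 = ‖a'‖ ^ 2 + ‖b'‖ ^ 2) :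
    ∃ X : ℝ, 0 ≤ X ∧ X ^ 2 = ‖a‖ ^ 2 + ‖b‖ ^ 2 ∧ ‖⟪a, a'⟫_ℂ‖ + ‖⟪b, b'⟫_ℂ‖ ≤ X * ‖c‖ := by
  refine ⟨√(‖a‖ ^ 2 + ‖b‖ ^ 2), Real.sqrt_nonneg _, Real.sq_sqrt (by positivity), ?_⟩
  refine (add_le_add (norm_inner_le_norm _ _) (norm_inner_le_norm _ _)).trans ?_
  refine (abs_le_of_sq_le_sq' ?_ (by positivity)).2
  rw [mul_pow, Real.sq_sqrt (by positivity), h]
  nlinarith [sq_nonneg (‖a‖ * ‖b'‖ - ‖b‖ * ‖a'‖)]

theorem Kern_id2 (hy : Hyp T δ) (z w : ℂ) {t s : ℝ} (ht : 0 < t) (hs : 0 < s) (g g' : H) :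
    ((‖z - w‖ ^ 2 + t + s : ℝ) : ℂ) * ⟪ra T z t g, ra T w s g'⟫_ℂ =
      ⟪g, ra T w s g'⟫_ℂ + ⟪ra T z t g, g'⟫_ℂ - ⟪δ (ra T z t g), δ (ra T w s g')⟫_ℂ
        - ⟪oA T z (ra T z t g), oA T w (ra T w s g')⟫_ℂ
        - ⟪oS T z (ra T z t g), oS T w (ra T w s g')⟫_ℂ := by
  have e := key_id hy z w (ra T z t g) (ra T w s g')
  have h1 := congrArg (fun x => ⟪x, ra T w s g'⟫_ℂ) (ra_left T z ht g)
  have h2 := congrArg (fun x => ⟪ra T z t g, x⟫_ℂ) (ra_left T w hs g')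
  simp only [inner_add_left, inner_add_right, inner_smul_left, inner_smul_right,
    Complex.conj_ofReal] at h1 h2
  rw [Complex.ofReal_add, Complex.ofReal_add]
  linear_combination e + h1 + h2

theorem Kern_norm_oA (hy : Hyp T δ) (z : ℂ) {t : ℝ} (ht : 0 < t) (u : H) :
    ‖oA T z (ra T z t (δ u))‖ ≤ ‖u‖ := by
  refine (abs_le_of_sq_le_sq' ?_ (norm_nonneg _)).2
  have h1 := af_eq T z ht (δ u)
  have h2 := af_del hy z ht u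
  have : 0 ≤ t * ‖ra T z t (δ u)‖ ^ 2 := by positivity
  linarith

/-- K1: coarse against anything. -/
theorem K1 (hy : Hyp T δ) (z w : ℂ) {t : ℝ} (ht : 0 < t) (u f : H) :
    t * ‖⟪ra T z t (δ u), f⟫_ℂ‖ ≤ √(qf T δ z t u) * ‖oA T w f‖ := by
  set y := ra T z t (δ u) with hyd
  have e0 : (t : ℂ) • y = δ (u - δ y) - oA T z (oS T z y) := by
    rw [map_sub, del_del hy z, ← ra_left T z ht (δ u), ← hyd]; abel
  have e4 : ((‖z - w‖ ^ 2 : ℝ) : ℂ) = conj (z - w) * (z - w) := by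
    rw [Complex.conj_mul']; push_cast; rfl
  have e1 : ((t + ‖z - w‖ ^ 2 : ℝ) : ℂ) * ⟪y, f⟫_ℂ =
      ⟪u - δ y, δ f⟫_ℂ - ⟪oS T z y, oS T w f⟫_ℂ + conj (z - w) * ⟪y, oA T w f⟫_ℂ := by
    have h1 : (t : ℂ) * ⟪y, f⟫_ℂ = ⟪u - δ y, δ f⟫_ℂ - ⟪oS T z y, oS T z f⟫_ℂ := by
      rw [← inner_del hy, inner_oS_right, ← inner_sub_left, ← e0, inner_smul_left,
        Complex.conj_ofReal]
    have h2 : ⟪oS T z y, f⟫_ℂ = ⟪y, oA T w f⟫_ℂ - (z - w) * ⟪y, f⟫_ℂ := by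
      rw [inner_oS_left, oA_shift T z w f, inner_sub_right, inner_smul_right]
    rw [oS_shift T z w f, inner_sub_right, inner_smul_right, h2] at h1
    rw [Complex.ofReal_add, e4]
    linear_combination h1
  have hq := qf_eq hy z ht u
  rw [← hyd] at hq
  obtain ⟨X, hX0, hX2, hX⟩ := Kern_cs (u - δ y) (oS T z y) (δ f) (oS T w f) (oA T w f)
    (by rw [norm_oA_sq hy w f, add_comm])
  have h3 : (t + ‖z - w‖ ^ 2) * ‖⟪y, f⟫_ℂ‖ ≤ (X + ‖z - w‖ * ‖y‖) * ‖oA T w f‖ := by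
    have h4 := congrArg norm e1
    rw [norm_mul, Complex.norm_real, Real.norm_of_nonneg (by positivity)] at h4
    rw [h4]
    refine (norm_add_le _ _).trans ?_
    rw [norm_mul, Complex.norm_conj, add_mul, mul_assoc]
    exact add_le_add ((norm_sub_le _ _).trans hX)
      (mul_le_mul_of_nonneg_left (norm_inner_le_norm _ _) (norm_nonneg _))
  have hr := Real.sq_sqrt (qf_nonneg hy z ht u)
  have hr0 := Real.sqrt_nonneg (qf T δ z t u)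
  set r := √(qf T δ z t u)
  set Z := ‖z - w‖
  set Y := ‖y‖
  have hZ : 0 ≤ Z := norm_nonneg _
  have hY : 0 ≤ Y := norm_nonneg _
  have h5 : t * (X + Z * Y) ≤ r * (t + Z ^ 2) := by
    refine abs_le_of_sq_le_sq' ?_ (by positivity) |>.2
    have h6 : r ^ 2 = X ^ 2 + t * Y ^ 2 := by rw [hr, hq, hX2]
    have h7 : t * (X + Z * Y) ^ 2 ≤ r ^ 2 * (t + Z ^ 2) := by
      rw [h6]; nlinarith [sq_nonneg (X * Z - t * Y)]
    calc (t * (X + Z * Y)) ^ 2 = t * (t * (X + Z * Y) ^ 2) := by ring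
      _ ≤ (t + Z ^ 2) * (r ^ 2 * (t + Z ^ 2)) := by gcongr; nlinarith
      _ = _ := by ring
  refine le_of_mul_le_mul_left ?_ (show 0 < t + Z ^ 2 by positivity)
  calc (t + Z ^ 2) * (t * ‖⟪y, f⟫_ℂ‖) = t * ((t + Z ^ 2) * ‖⟪y, f⟫_ℂ‖) := by ring
    _ ≤ t * ((X + Z * Y) * ‖oA T w f‖) := by gcongr
    _ = t * (X + Z * Y) * ‖oA T w f‖ := by ring
    _ ≤ r * (t + Z ^ 2) * ‖oA T w f‖ := by gcongr
    _ = _ := by ring

/-- K3: two solutions of resolvent equations. -/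
theorem K3 (hy : Hyp T δ) (z w : ℂ) {t s : ℝ} (ht : 0 < t) (hs : 0 < s) (g g' : H) :
    (‖z - w‖ ^ 2 + t + s) * ‖⟪ra T z t g, ra T w s g'⟫_ℂ‖ ≤
      ‖⟪g, ra T w s g'⟫_ℂ‖ + ‖⟪ra T z t g, g'⟫_ℂ‖
        + 2 * ‖oA T z (ra T z t g)‖ * ‖oA T w (ra T w s g')‖ := by
  have e := Kern_id2 hy z w ht hs g g'
  set y := ra T z t g
  set y' := ra T w s g'
  obtain ⟨X, hX0, hX2, hX⟩ := Kern_cs (δ y) (oS T z y) (δ y') (oS T w y') (oA T w y')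
    (by rw [norm_oA_sq hy w y', add_comm])
  have hXe : X = ‖oA T z y‖ := by
    refine (pow_left_inj₀ hX0 (norm_nonneg _) two_ne_zero).1 ?_
    rw [hX2, norm_oA_sq hy z y, add_comm]
  have h4 := congrArg norm e
  rw [norm_mul, Complex.norm_real, Real.norm_of_nonneg (by positivity)] at h4
  rw [h4]
  have h5 := norm_inner_le_norm (𝕜 := ℂ) (oA T z y) (oA T w y')
  have h6 := norm_sub_le (⟪g, y'⟫_ℂ + ⟪y, g'⟫_ℂ - ⟪δ y, δ y'⟫_ℂ - ⟪oA T z y, oA T w y'⟫_ℂ)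
    ⟪oS T z y, oS T w y'⟫_ℂ
  have h7 := norm_sub_le (⟪g, y'⟫_ℂ + ⟪y, g'⟫_ℂ - ⟪δ y, δ y'⟫_ℂ) ⟪oA T z y, oA T w y'⟫_ℂ
  have h8 := norm_sub_le (⟪g, y'⟫_ℂ + ⟪y, g'⟫_ℂ) ⟪δ y, δ y'⟫_ℂ
  have h9 := norm_add_le ⟪g, y'⟫_ℂ ⟪y, g'⟫_ℂ
  rw [hXe] at hX
  linarith

/-- K2: the same when the first right hand side is `δ u`. -/
theorem K2 (hy : Hyp T δ) (z w : ℂ) {t s : ℝ} (ht : 0 < t) (hs : 0 < s) (u g' : H) :
    (‖z - w‖ ^ 2 + t + s) * ‖⟪ra T z t (δ u), ra T w s g'⟫_ℂ‖ ≤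
      ‖⟪ra T z t (δ u), g'⟫_ℂ‖ + 2 * ‖u‖ * ‖oA T w (ra T w s g')‖ := by
  have e := Kern_id2 hy z w ht hs (δ u) g'
  have hq := qf_eq hy z ht u
  have hA := Kern_norm_oA hy z ht u
  set y := ra T z t (δ u)
  set y' := ra T w s g'
  obtain ⟨X, hX0, hX2, hX⟩ := Kern_cs (u - δ y) (oS T z y) (δ y') (oS T w y') (oA T w y')
    (by rw [norm_oA_sq hy w y', add_comm])
  have hXu : X ≤ ‖u‖ := by
    refine (abs_le_of_sq_le_sq' ?_ (norm_nonneg _)).2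
    have := qf_le hy z ht u
    have : 0 ≤ t * ‖y‖ ^ 2 := by positivity
    linarith
  have e' : ⟪δ u, y'⟫_ℂ + ⟪y, g'⟫_ℂ - ⟪δ y, δ y'⟫_ℂ - ⟪oA T z y, oA T w y'⟫_ℂ
      - ⟪oS T z y, oS T w y'⟫_ℂ = ⟪y, g'⟫_ℂ + (⟪u - δ y, δ y'⟫_ℂ - ⟪oS T z y, oS T w y'⟫_ℂ)
      - ⟪oA T z y, oA T w y'⟫_ℂ := by
    rw [inner_sub_left, inner_del hy u]; ring
  have h4 := congrArg norm (e.trans e')
  rw [norm_mul, Complex.norm_real, Real.norm_of_nonneg (by positivity)] at h4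
  rw [h4]
  have h5 := norm_inner_le_norm (𝕜 := ℂ) (oA T z y) (oA T w y')
  have h6 := norm_sub_le (⟪y, g'⟫_ℂ + (⟪u - δ y, δ y'⟫_ℂ - ⟪oS T z y, oS T w y'⟫_ℂ))
    ⟪oA T z y, oA T w y'⟫_ℂ
  have h7 := norm_add_le ⟪y, g'⟫_ℂ (⟪u - δ y, δ y'⟫_ℂ - ⟪oS T z y, oS T w y'⟫_ℂ)
  have h8 := norm_sub_le ⟪u - δ y, δ y'⟫_ℂ ⟪oS T z y, oS T w y'⟫_ℂ
  have h9 := mul_le_mul_of_nonneg_right hXu (norm_nonneg (oA T w y'))
  have h10 := mul_le_mul_of_nonneg_right hA (norm_nonneg (oA T w y'))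
  linarith

/-- Energy of the fine part. -/
theorem fine_energy (hy : Hyp T δ) (z : ℂ) {t s : ℝ} (hs : 0 < s) (hst : s ≤ t) (u : H) :
    ‖oA T z (ra T z s (δ u) - ra T z t (δ u))‖ ≤ √(qf T δ z t u) := by
  have ht := hs.trans_le hst
  refine Real.le_sqrt_of_sq_le ?_
  have e := ra_sub T z hs ht (δ u)
  set c := ra T z t (δ u) with hc
  set g := ((t - s : ℝ) : ℂ) • c with hg
  have h1 := af_eq T z hs g
  have h2 : af T z s (δ u) - af T z t (δ u) = (t - s) * ‖c‖ ^ 2 + af T z s g := by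
    have h3 : ⟪δ u, ra T z s (δ u)⟫_ℂ - ⟪δ u, c⟫_ℂ = ⟪c, g⟫_ℂ + ⟪ra T z s g, g⟫_ℂ := by
      rw [← inner_sub_right, e, ← inner_ra T z hs, ← inner_add_left, ← e, add_sub_cancel]
    have h4 : ⟪c, g⟫_ℂ = (((t - s) * ‖c‖ ^ 2 : ℝ) : ℂ) := by
      rw [hg, inner_smul_right, inner_self_c]; push_cast; rfl
    have h5 := congrArg Complex.re h3
    rw [h4, inner_ra T z hs g g, Complex.sub_re, Complex.add_re, Complex.ofReal_re] at h5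
    exact h5
  have h6 := qf_eq_af hy z (t := t) u
  have h7 := qf_eq_af hy z (t := s) u
  have h8 := qf_nonneg hy z hs u
  have h9 : 0 ≤ (t - s) * ‖c‖ ^ 2 := mul_nonneg (sub_nonneg.2 hst) (sq_nonneg _)
  have h10 : 0 ≤ s * ‖ra T z s g‖ ^ 2 := by positivity
  rw [e]
  linarith

theorem coarse_norm (hy : Hyp T δ) (z : ℂ) {t : ℝ} (ht : 0 < t) (u : H) :
    t * ‖ra T z t (δ u)‖ ^ 2 ≤ qf T δ z t u := by
  rw [qf_eq hy z ht u]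
  nlinarith [sq_nonneg ‖u - δ (ra T z t (δ u))‖, sq_nonneg ‖oS T z (ra T z t (δ u))‖]

theorem Kern_cf (hy : Hyp T δ) (z w : ℂ) {t s : ℝ} (hs : 0 < s) (hst : s ≤ t) (u u' : H) :
    t * ‖⟪ra T z t (δ u), ra T w s (δ u') - ra T w t (δ u')⟫_ℂ‖ ≤
      √(qf T δ z t u) * √(qf T δ w t u') :=
  (K1 hy z w (hs.trans_le hst) u _).trans
    (mul_le_mul_of_nonneg_left (fine_energy hy w hs hst u') (Real.sqrt_nonneg _))

theorem Kern_cc (hy : Hyp T δ) (z w : ℂ) {t : ℝ} (ht : 0 < t) (u u' : H) :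
    t * (‖ra T z t (δ u)‖ * ‖ra T w t (δ u')‖) ≤ √(qf T δ z t u) * √(qf T δ w t u') := by
  rw [← Real.sqrt_mul (qf_nonneg hy z ht u)]
  refine Real.le_sqrt_of_sq_le ?_
  calc (t * (‖ra T z t (δ u)‖ * ‖ra T w t (δ u')‖)) ^ 2
      = (t * ‖ra T z t (δ u)‖ ^ 2) * (t * ‖ra T w t (δ u')‖ ^ 2) := by ring
    _ ≤ _ := mul_le_mul (coarse_norm hy z ht u) (coarse_norm hy w ht u') (by positivity)
      (qf_nonneg hy z ht u)

theorem Kern_cc' (hy : Hyp T δ) (z w : ℂ) {t : ℝ} (ht : 0 < t) (u u' : H) :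
    t * ‖⟪ra T z t (δ u), ra T w t (δ u')⟫_ℂ‖ ≤ √(qf T δ z t u) * √(qf T δ w t u') :=
  (mul_le_mul_of_nonneg_left (norm_inner_le_norm _ _) ht.le).trans (Kern_cc hy z w ht u u')

/-- Fine against fine, far apart. -/
theorem K_ff (hy : Hyp T δ) (z w : ℂ) {t s : ℝ} (hs : 0 < s) (hst : s ≤ t) (u u' : H) :
    ‖z - w‖ ^ 2 * ‖⟪ra T z s (δ u) - ra T z t (δ u), ra T w s (δ u') - ra T w t (δ u')⟫_ℂ‖ ≤
      4 * (√(qf T δ z t u) * √(qf T δ w t u')) := by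
  have ht := hs.trans_le hst
  have h1 := K3 hy z w hs hs (((t - s : ℝ) : ℂ) • ra T z t (δ u))
    (((t - s : ℝ) : ℂ) • ra T w t (δ u'))
  rw [← ra_sub T z hs ht, ← ra_sub T w hs ht] at h1
  have h2 := fine_energy hy z hs hst u
  have h3 := fine_energy hy w hs hst u'
  have h4 := Kern_cf hy z w hs hst u u'
  have h5 := Kern_cf hy w z hs hst u' u
  rw [norm_inner_symm] at h5
  set f := ra T z s (δ u) - ra T z t (δ u)
  set f' := ra T w s (δ u') - ra T w t (δ u')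
  rw [inner_smul_left, inner_smul_right, norm_mul, norm_mul, Complex.norm_conj,
    Complex.norm_real, Real.norm_of_nonneg (sub_nonneg.2 hst)] at h1
  have h6 : ‖oA T z f‖ * ‖oA T w f'‖ ≤ √(qf T δ z t u) * √(qf T δ w t u') := by gcongr
  have h7 := mul_nonneg hs.le (norm_nonneg ⟪f, f'⟫_ℂ)
  have h8 := mul_nonneg hs.le (norm_nonneg ⟪ra T z t (δ u), f'⟫_ℂ)
  have h9 := mul_nonneg hs.le (norm_nonneg ⟪f, ra T w t (δ u')⟫_ℂ)
  nlinarith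

theorem K4 (hy : Hyp T δ) (z w : ℂ) {t s : ℝ} (hs : 0 < s) (hst : s ≤ t)
    (htz : t ≤ ‖z - w‖ ^ 2) (u u' : H) :
    t * ‖⟪ra T z s (δ u), ra T w s (δ u')⟫_ℂ‖ ≤ 7 * (√(qf T δ z t u) * √(qf T δ w t u')) := by
  have ht := hs.trans_le hst
  have h1 := K_ff hy z w hs hst u u'
  have h4 := Kern_cf hy z w hs hst u u'
  have h5 := Kern_cf hy w z hs hst u' u
  have h6 := Kern_cc' hy z w ht u u'
  rw [norm_inner_symm] at h5
  have e : ⟪ra T z s (δ u), ra T w s (δ u')⟫_ℂ =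
      ⟪ra T z s (δ u) - ra T z t (δ u), ra T w s (δ u') - ra T w t (δ u')⟫_ℂ +
      ⟪ra T z t (δ u), ra T w s (δ u') - ra T w t (δ u')⟫_ℂ +
      ⟪ra T z s (δ u) - ra T z t (δ u), ra T w t (δ u')⟫_ℂ +
      ⟪ra T z t (δ u), ra T w t (δ u')⟫_ℂ := by
    simp only [inner_sub_left, inner_sub_right]; ring
  have h7 := mul_le_mul_of_nonneg_left (e ▸ (norm_add₃_le.trans (add_le_add_left
    (add_le_add_left (norm_add_le _ _) _) _)) :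
      ‖⟪ra T z s (δ u), ra T w s (δ u')⟫_ℂ‖ ≤ _) ht.le
  have h8 := mul_le_mul_of_nonneg_right htz
    (norm_nonneg ⟪ra T z s (δ u) - ra T z t (δ u), ra T w s (δ u') - ra T w t (δ u')⟫_ℂ)
  nlinarith

/-- K5: the kernel bound. -/
theorem K5 (hy : Hyp T δ) {z w : ℂ} (hzw : z ≠ w) {t0 s g L : ℝ} (hs : 0 < s) (hst : s ≤ t0)
    (htz : ‖z - w‖ ^ 2 ≤ t0) (hg1 : g ≤ 1) (hL : 0 ≤ L) (u u' : H)
    (hu : ∀ τ, s ≤ τ → τ ≤ t0 → qf T δ z τ u ≤ L * τ ^ g)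
    (hu' : ∀ τ, s ≤ τ → τ ≤ t0 → qf T δ w τ u' ≤ L * τ ^ g) :
    ‖⟪ra T z s (δ u), ra T w s (δ u')⟫_ℂ‖ ≤ 7 * L * kk g (z - w) := by
  have hζ : 0 < ‖z - w‖ := norm_pos_iff.2 (sub_ne_zero.2 hzw)
  have hk : kk g (z - w) = (‖z - w‖ ^ 2) ^ (g - 1) := by
    rw [kk, ← Real.rpow_natCast, ← Real.rpow_mul hζ.le]; congr 1; push_cast; ring
  have hsq : ∀ τ, s ≤ τ → τ ≤ t0 → √(qf T δ z τ u) * √(qf T δ w τ u') ≤ L * τ ^ g := by
    intro τ h1 h2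
    have h0 : 0 ≤ L * τ ^ g := mul_nonneg hL (Real.rpow_nonneg (hs.le.trans h1) _)
    rw [← Real.mul_self_sqrt h0]
    exact mul_le_mul (Real.sqrt_le_sqrt (hu τ h1 h2)) (Real.sqrt_le_sqrt (hu' τ h1 h2))
      (Real.sqrt_nonneg _) (Real.sqrt_nonneg _)
  rw [hk]
  rcases le_total s (‖z - w‖ ^ 2) with h | h
  · have h1 := K4 hy z w hs h le_rfl u u'
    have h2 := hsq _ h htz
    have hp : 0 < ‖z - w‖ ^ 2 := by positivity
    rw [Real.rpow_sub_one hp.ne', ← mul_div_assoc, le_div_iff₀ hp]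
    linarith
  · have h1 := (Kern_cc' hy z w hs u u').trans (hsq s le_rfl hst)
    have h2 : s ^ (g - 1) ≤ (‖z - w‖ ^ 2) ^ (g - 1) :=
      Real.rpow_le_rpow_of_nonpos (by positivity) h (by linarith)
    have h3 : ‖⟪ra T z s (δ u), ra T w s (δ u')⟫_ℂ‖ ≤ L * s ^ (g - 1) := by
      rw [Real.rpow_sub_one hs.ne', ← mul_div_assoc, le_div_iff₀ hs]
      linarith
    have h4 := mul_le_mul_of_nonneg_left h2 hL
    have h5 : 0 ≤ L * (‖z - w‖ ^ 2) ^ (g - 1) := by positivity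
    linarith

/-- Bessel type bound for `a`. -/
theorem K_bessel (hy : Hyp T δ) (z w : ℂ) {s : ℝ} (hs : 0 < s) (g : H) :
    (‖z - w‖ ^ 2 + 2 * s) * ‖⟪ra T z s g, ra T w s g⟫_ℂ‖ ≤ 2 * (af T z s g + af T w s g) := by
  have h1 := K3 hy z w hs hs g g
  rw [inner_ra T z hs g g, inner_ra_self T z hs, inner_ra_self T w hs, Complex.norm_real,
    Complex.norm_real, Real.norm_of_nonneg (af_nonneg T z hs g),
    Real.norm_of_nonneg (af_nonneg T w hs g)] at h1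
  have h2 := af_eq T z hs g
  have h3 := af_eq T w hs g
  have h4 : 0 ≤ s * ‖ra T z s g‖ ^ 2 := by positivity
  have h5 : 0 ≤ s * ‖ra T w s g‖ ^ 2 := by positivity
  nlinarith [sq_nonneg (‖oA T z (ra T z s g)‖ - ‖oA T w (ra T w s g)‖)]

theorem inv_le_kk {g : ℝ} (hg : 0 ≤ g) (hg1 : g ≤ 1) {ζ : ℂ} (hζ : ζ ≠ 0) {t : ℝ} (ht : 0 < t) :
    1 / (‖ζ‖ ^ 2 + t) ≤ t ^ (-g) * kk g ζ := by
  have hζ' : 0 < ‖ζ‖ := norm_pos_iff.2 hζ
  have hk : kk g ζ = (‖ζ‖ ^ 2) ^ (g - 1) := by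
    rw [kk, ← Real.rpow_natCast, ← Real.rpow_mul hζ'.le]; congr 1; push_cast; ring
  have hp : 0 < ‖ζ‖ ^ 2 + t := by positivity
  have h1 : (‖ζ‖ ^ 2 + t) ^ (-g) ≤ t ^ (-g) :=
    Real.rpow_le_rpow_of_nonpos ht (by nlinarith) (by linarith)
  have h2 : (‖ζ‖ ^ 2 + t) ^ (g - 1) ≤ (‖ζ‖ ^ 2) ^ (g - 1) :=
    Real.rpow_le_rpow_of_nonpos (by positivity) (by linarith) (by linarith)
  rw [hk]
  calc 1 / (‖ζ‖ ^ 2 + t) = (‖ζ‖ ^ 2 + t) ^ (-g) * (‖ζ‖ ^ 2 + t) ^ (g - 1) := by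
        rw [← Real.rpow_add hp, show -g + (g - 1) = -1 by ring, Real.rpow_neg_one, one_div]
    _ ≤ _ := mul_le_mul h1 h2 (by positivity) (by positivity)

end Pool.Agent.P.MP_f981b0_an.Hy
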