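import Pool.Agent.P.MP_f981b0_an.Hy.Kern

set_option autoImplicit false

open scoped InnerProductSpace ComplexConjugate
open MeasureTheory Filter Topology

noncomputable section

namespace Pool.Agent.P.MP_f981b0_an.Hy

variable {H : Type*} [NormedAddCommGroup H] [InnerProductSpace ℂ H] [CompleteSpace H]

variable {T δ : H →L[ℂ] H}

theorem LB_offdiag {ι : Type*} [Fintype ι] [DecidableEq ι] (κ : ι → ι → ℝ)
    (hκ : ∀ j k, κ j k = κ k j) (w n : ι → ℝ) (hn : ∀ j, 0 ≤ n j) {Θ : ℝ}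
    (hrow : ∀ j, ∑ k ∈ Finset.univ.erase j, w k * κ j k ≤ Θ) :
    ∑ j, ∑ k ∈ Finset.univ.erase j, (n j * w k + n k * w j) / 2 * κ j k ≤ Θ * ∑ j, n j := by
  have h1 : ∑ j, ∑ k ∈ Finset.univ.erase j, n j * (w k * κ j k) ≤ Θ * ∑ j, n j := by
    rw [Finset.mul_sum]
    refine Finset.sum_le_sum fun j _ => ?_
    rw [← Finset.mul_sum, mul_comm Θ]
    exact mul_le_mul_of_nonneg_left (hrow j) (hn j)
  have h2 : ∑ j, ∑ k ∈ Finset.univ.erase j, n k * (w j * κ k j) =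
      ∑ j, ∑ k ∈ Finset.univ.erase j, n j * (w k * κ j k) :=
    Finset.sum_comm' fun j k => by simp [eq_comm]
  have h3 : ∑ j, ∑ k ∈ Finset.univ.erase j, (n j * w k + n k * w j) / 2 * κ j k =
      (∑ j, ∑ k ∈ Finset.univ.erase j, n j * (w k * κ j k) +
        ∑ j, ∑ k ∈ Finset.univ.erase j, n k * (w j * κ k j)) / 2 := by
    rw [← Finset.sum_add_distrib, Finset.sum_div]
    refine Finset.sum_congr rfl fun j _ => ?_
    rw [← Finset.sum_add_distrib, Finset.sum_div]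
    refine Finset.sum_congr rfl fun k _ => ?_
    rw [hκ k j]; ring
  rw [h3, h2]
  linarith

omit [CompleteSpace H] in
theorem LB_re_inner_sum {ι : Type*} [Fintype ι] [DecidableEq ι] (x z : ι → H) :
    (⟪∑ j, x j, ∑ k, z k⟫_ℂ).re =
      ∑ j, (⟪x j, z j⟫_ℂ).re + ∑ j, ∑ k ∈ Finset.univ.erase j, (⟪x j, z k⟫_ℂ).re := by
  rw [sum_inner, Complex.re_sum, ← Finset.sum_add_distrib]
  refine Finset.sum_congr rfl fun j _ => ?_
  rw [inner_sum, Complex.re_sum, Finset.add_sum_erase _ (fun k => (⟪x j, z k⟫_ℂ).re)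
    (Finset.mem_univ j)]

theorem LB_sum_upper {ι : Type*} [Fintype ι] [DecidableEq ι] (z : ι → H) (m : ι → ι → ℝ)
    (h : ∀ j k, j ≠ k → ‖⟪z j, z k⟫_ℂ‖ ≤ m j k) :
    ‖∑ j, z j‖ ^ 2 ≤ ∑ j, ‖z j‖ ^ 2 + ∑ j, ∑ k ∈ Finset.univ.erase j, m j k := by
  rw [← re_inner_self, LB_re_inner_sum]
  simp only [re_inner_self]
  gcongr with j _ k hk
  exact (Complex.re_le_norm _).trans (h j k (Finset.ne_of_mem_erase hk).symm)

theorem LB_sum_lower {ι : Type*} [Fintype ι] [DecidableEq ι] (C z : ι → H) (m : ι → ι → ℝ)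
    (h : ∀ j k, j ≠ k → 2 * ‖⟪C j, z k⟫_ℂ‖ + ‖⟪z j, z k⟫_ℂ‖ ≤ m j k) :
    ∑ j, (‖z j‖ ^ 2 / 2 - 2 * ‖C j‖ ^ 2) - ∑ j, ∑ k ∈ Finset.univ.erase j, m j k ≤
      ‖∑ j, C j + ∑ j, z j‖ ^ 2 := by
  have h0 := norm_add_sq (𝕜 := ℂ) (∑ j, C j) (∑ j, z j)
  rw [RCLike.re_to_complex, ← re_inner_self (∑ j, z j), LB_re_inner_sum, LB_re_inner_sum] at h0
  simp only [re_inner_self] at h0
  have h1 : ∑ j, (‖z j‖ ^ 2 / 2 - 2 * ‖C j‖ ^ 2) ≤
      2 * ∑ j, (⟪C j, z j⟫_ℂ).re + ∑ j, ‖z j‖ ^ 2 := by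
    rw [Finset.mul_sum, ← Finset.sum_add_distrib]
    refine Finset.sum_le_sum fun j _ => ?_
    have h2 := (abs_le.1 ((Complex.abs_re_le_norm ⟪C j, z j⟫_ℂ).trans
      (norm_inner_le_norm _ _))).1
    nlinarith [sq_nonneg (‖z j‖ - 2 * ‖C j‖)]
  have h3 : -∑ j, ∑ k ∈ Finset.univ.erase j, m j k ≤
      2 * ∑ j, ∑ k ∈ Finset.univ.erase j, (⟪C j, z k⟫_ℂ).re +
        ∑ j, ∑ k ∈ Finset.univ.erase j, (⟪z j, z k⟫_ℂ).re := by
    rw [Finset.mul_sum, ← Finset.sum_add_distrib, ← Finset.sum_neg_distrib]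
    refine Finset.sum_le_sum fun j _ => ?_
    rw [Finset.mul_sum, ← Finset.sum_add_distrib, ← Finset.sum_neg_distrib]
    refine Finset.sum_le_sum fun k hk => ?_
    have h4 := h j k (Finset.ne_of_mem_erase hk).symm
    have h5 := (abs_le.1 (Complex.abs_re_le_norm ⟪C j, z k⟫_ℂ)).1
    have h6 := (abs_le.1 (Complex.abs_re_le_norm ⟪z j, z k⟫_ℂ)).1
    linarith
  nlinarith [sq_nonneg ‖∑ j, C j‖]

/-- Division by `|ζ|² + τ`. -/
theorem LB_div {g : ℝ} (hg : 0 ≤ g) (hg1 : g ≤ 1) {ζ : ℂ} (hζ : ζ ≠ 0) {τ D X B : ℝ}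
    (hτ : 0 < τ) (hD : ‖ζ‖ ^ 2 + τ ≤ D) (hX : 0 ≤ X) (hB : 0 ≤ B) (h : D * X ≤ B) :
    X ≤ B * (τ ^ (-g) * kk g ζ) := by
  have hp : 0 < ‖ζ‖ ^ 2 + τ := by positivity
  calc X ≤ B * (1 / (‖ζ‖ ^ 2 + τ)) := by
        rw [mul_one_div, le_div_iff₀ hp]; nlinarith
    _ ≤ _ := mul_le_mul_of_nonneg_left (inv_le_kk hg hg1 hζ hτ) hB

theorem LB_del_le (hy : Hyp T δ) (z : ℂ) (u : H) : ‖δ u‖ ≤ ‖oA T z u‖ := by
  refine (abs_le_of_sq_le_sq' ?_ (norm_nonneg _)).2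
  rw [norm_oA_sq hy z u]
  nlinarith [sq_nonneg ‖oS T z u‖]

theorem LB_oS_le (hy : Hyp T δ) (z : ℂ) (u : H) : ‖oS T z u‖ ≤ ‖oA T z u‖ := by
  refine (abs_le_of_sq_le_sq' ?_ (norm_nonneg _)).2
  rw [norm_oA_sq hy z u]
  nlinarith [sq_nonneg ‖δ u‖]

/-- The remainder. -/
theorem LB_rho (hy : Hyp T δ) (z : ℂ) {s : ℝ} (hs : 0 < s) (y p' : H) :
    ‖oA T z (ra T z s ((s : ℂ) • y + δ p'))‖ ≤ √s * ‖y‖ + ‖p'‖ ∧
      √s * ‖ra T z s ((s : ℂ) • y + δ p')‖ ≤ √s * ‖y‖ + ‖p'‖ := by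
  have hss := Real.sq_sqrt hs.le
  have h1 : √(af T z s ((s : ℂ) • y)) ≤ √s * ‖y‖ := by
    refine Real.sqrt_le_iff.2 ⟨by positivity, le_of_mul_le_mul_left ?_ hs⟩
    refine (af_le T z hs _).trans_eq ?_
    rw [norm_smul, Complex.norm_real, Real.norm_of_nonneg hs.le, mul_pow, mul_pow, hss]; ring
  have h2 : √(af T z s (δ p')) ≤ ‖p'‖ := Real.sqrt_le_iff.2 ⟨norm_nonneg _, af_del hy z hs p'⟩
  have h3 := (sqrt_af_add T z hs ((s : ℂ) • y) (δ p')).trans (add_le_add h1 h2)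
  have h4 := (Real.sqrt_le_iff.1 h3).2
  rw [af_eq T z hs] at h4
  refine ⟨(abs_le_of_sq_le_sq' ?_ (by positivity)).2, (abs_le_of_sq_le_sq' ?_ (by positivity)).2⟩
  · have : 0 ≤ s * ‖ra T z s ((s : ℂ) • y + δ p')‖ ^ 2 := by positivity
    linarith
  · rw [mul_pow, hss]
    nlinarith [sq_nonneg ‖oA T z (ra T z s ((s : ℂ) • y + δ p'))‖]

theorem LB_inner_rhs (hy : Hyp T δ) (z : ℂ) {s E : ℝ} (hs : 0 < s) (x y p' : H)
    (h1 : ‖oA T z x‖ ≤ E) (h2 : √s * ‖x‖ ≤ E) :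
    ‖⟪x, (s : ℂ) • y + δ p'⟫_ℂ‖ ≤ E * (√s * ‖y‖ + ‖p'‖) := by
  have hss := Real.mul_self_sqrt hs.le
  rw [inner_add_right, inner_smul_right, ← inner_del hy]
  refine (norm_add_le _ _).trans ?_
  rw [norm_mul, Complex.norm_real, Real.norm_of_nonneg hs.le, mul_add]
  refine add_le_add ?_ ((norm_inner_le_norm _ _).trans
    (mul_le_mul_of_nonneg_right ((LB_del_le hy z x).trans h1) (norm_nonneg _)))
  calc s * ‖⟪x, y⟫_ℂ‖ ≤ s * (‖x‖ * ‖y‖) :=
        mul_le_mul_of_nonneg_left (norm_inner_le_norm _ _) hs.le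
    _ = √s * ‖x‖ * (√s * ‖y‖) := by linear_combination (-(‖x‖ * ‖y‖)) * hss
    _ ≤ _ := mul_le_mul_of_nonneg_right h2 (by positivity)

section pair

variable (hy : Hyp T δ) {z w : ℂ} (hzw : z ≠ w) {s t g Cd L : ℝ} (hs : 0 < s) (hst : s ≤ t)
  (hg : 0 < g) (hg1 : g ≤ 1 / 4)
include hy hzw hs hst hg hg1

theorem LB_P1 (hL : 0 ≤ L) {d d' : H} (hd : ‖d‖ ≤ Cd) (hq : qf T δ w t d' ≤ L * t ^ (4 * g)) :
    ‖⟪ra T z t (δ d), ra T w s (δ d') - ra T w t (δ d')⟫_ℂ‖ ≤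
      3 * Cd * √L * t ^ g * kk g (z - w) := by
  have ht := hs.trans_le hst
  have hCd := (norm_nonneg _).trans hd
  have h1 := K2 hy z w ht hs d (((t - s : ℝ) : ℂ) • ra T w t (δ d'))
  rw [← ra_sub T w hs ht, inner_smul_right, norm_mul, Complex.norm_real,
    Real.norm_of_nonneg (sub_nonneg.2 hst)] at h1
  have h2 : √(qf T δ w t d') ≤ √L * t ^ (2 * g) := by
    refine Real.sqrt_le_iff.2 ⟨by positivity, hq.trans_eq ?_⟩
    rw [mul_pow, Real.sq_sqrt hL, ← Real.rpow_natCast, ← Real.rpow_mul ht.le]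
    congr 2; push_cast; ring
  have h3 : √(qf T δ z t d) ≤ Cd :=
    (Real.sqrt_le_iff.2 ⟨norm_nonneg _, qf_le hy z ht d⟩).trans hd
  have h4 := (Kern_cc' hy z w ht d d').trans (mul_le_mul h3 h2 (Real.sqrt_nonneg _) hCd)
  have h5 := mul_le_mul hd ((fine_energy hy w hs hst d').trans h2) (norm_nonneg _) hCd
  have h6 := mul_nonneg hs.le (norm_nonneg ⟪ra T z t (δ d), ra T w t (δ d')⟫_ℂ)
  refine (LB_div hg.le (by linarith) (sub_ne_zero.2 hzw) ht (D := ‖z - w‖ ^ 2 + t + s)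
    (B := 3 * (Cd * (√L * t ^ (2 * g)))) (by linarith) (norm_nonneg _) (by positivity)
    (by linarith)).trans_eq ?_
  have : t ^ (2 * g) * t ^ (-g) = t ^ g := by rw [← Real.rpow_add ht]; congr 1; ring
  rw [← this]; ring

theorem LB_P2 {d : H} (hd : ‖d‖ ≤ Cd) (y p' : H) :
    ‖⟪ra T z t (δ d), ra T w s ((s : ℂ) • y + δ p')⟫_ℂ‖ ≤
      3 * Cd * (√s * ‖y‖ + ‖p'‖) * (s ^ (-g) * kk g (z - w)) := by
  have ht := hs.trans_le hst
  have hCd := (norm_nonneg _).trans hd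
  have h1 := K2 hy z w ht hs d ((s : ℂ) • y + δ p')
  have h2 : √s * ‖ra T z t (δ d)‖ ≤ Cd := by
    refine le_trans ((abs_le_of_sq_le_sq' ?_ (norm_nonneg _)).2) hd
    rw [mul_pow, Real.sq_sqrt hs.le]
    exact (mul_le_mul_of_nonneg_right hst (sq_nonneg _)).trans
      ((coarse_norm hy z ht d).trans (qf_le hy z ht d))
  have h3 := LB_inner_rhs hy z hs _ y p' ((Kern_norm_oA hy z ht d).trans hd) h2
  have h4 := mul_le_mul hd (LB_rho hy w hs y p').1 (norm_nonneg _) hCd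
  exact LB_div hg.le (by linarith) (sub_ne_zero.2 hzw) hs (D := ‖z - w‖ ^ 2 + t + s)
    (by linarith) (norm_nonneg _) (by positivity) (by linarith)

omit hst in
theorem LB_P3 (y p' y' p'' : H) :
    ‖⟪ra T z s ((s : ℂ) • y + δ p'), ra T w s ((s : ℂ) • y' + δ p'')⟫_ℂ‖ ≤
      4 * ((√s * ‖y‖ + ‖p'‖) * (√s * ‖y'‖ + ‖p''‖)) * (s ^ (-g) * kk g (z - w)) := by
  have h1 := K3 hy z w hs hs ((s : ℂ) • y + δ p') ((s : ℂ) • y' + δ p'')
  obtain ⟨a1, a2⟩ := LB_rho hy z hs y p'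
  obtain ⟨b1, b2⟩ := LB_rho hy w hs y' p''
  have h2 := LB_inner_rhs hy z hs _ y' p'' a1 a2
  have h3 := LB_inner_rhs hy w hs _ y p' b1 b2
  rw [norm_inner_symm] at h3
  have h4 := mul_le_mul a1 b1 (norm_nonneg _) (by positivity)
  exact LB_div hg.le (by linarith) (sub_ne_zero.2 hzw) hs (D := ‖z - w‖ ^ 2 + s + s)
    (by linarith) (norm_nonneg _) (by positivity) (by linarith)

theorem LB_P4 (ht1 : t ≤ 1) (hL : 0 ≤ L) {d d' : H}
    (hq : ∀ τ, s ≤ τ → τ ≤ t → qf T δ z τ d ≤ L * τ ^ (4 * g))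
    (hq' : ∀ τ, s ≤ τ → τ ≤ t → qf T δ w τ d' ≤ L * τ ^ (4 * g)) :
    ‖⟪ra T z s (δ d) - ra T z t (δ d), ra T w s (δ d') - ra T w t (δ d')⟫_ℂ‖ ≤
      10 * L * t ^ g * kk g (z - w) := by
  have ht := hs.trans_le hst
  have hζ : 0 < ‖z - w‖ := norm_pos_iff.2 (sub_ne_zero.2 hzw)
  have hk0 := kk_nonneg g (z - w)
  have hsq : √(qf T δ z t d) * √(qf T δ w t d') ≤ L * t ^ (4 * g) := by
    have h0 : 0 ≤ L * t ^ (4 * g) := by positivity
    rw [← Real.mul_self_sqrt h0]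
    exact mul_le_mul (Real.sqrt_le_sqrt (hq t hst le_rfl)) (Real.sqrt_le_sqrt (hq' t hst le_rfl))
      (Real.sqrt_nonneg _) (Real.sqrt_nonneg _)
  have h3g : t ^ (3 * g) ≤ t ^ g := Real.rpow_le_rpow_of_exponent_ge ht ht1 (by linarith)
  have hsuff : ‖⟪ra T z s (δ d) - ra T z t (δ d), ra T w s (δ d') - ra T w t (δ d')⟫_ℂ‖ ≤
      10 * (L * t ^ (3 * g) * kk g (z - w)) := by
    have h4g : ∀ τ : ℝ, 0 < τ → τ ^ (4 * g) = τ ^ (3 * g) * τ ^ g := fun τ hτ => by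
      rw [← Real.rpow_add hτ]; congr 1; ring
    rcases le_total t (‖z - w‖ ^ 2) with h | h
    · have h1 := K_ff hy z w hs hst d d'
      have h2 := mul_le_mul_of_nonneg_right h
        (norm_nonneg ⟪ra T z s (δ d) - ra T z t (δ d), ra T w s (δ d') - ra T w t (δ d')⟫_ℂ)
      refine (LB_div hg.le (by linarith) (sub_ne_zero.2 hzw) ht (D := ‖z - w‖ ^ 2 + t)
        (B := 8 * (L * t ^ (4 * g))) le_rfl (norm_nonneg _) (by positivity)
        (by linarith)).trans ?_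
      have e : t ^ (4 * g) * t ^ (-g) = t ^ (3 * g) := by
        rw [← Real.rpow_add ht]; congr 1; ring
      have h5 : 0 ≤ L * t ^ (3 * g) * kk g (z - w) := by positivity
      calc 8 * (L * t ^ (4 * g)) * (t ^ (-g) * kk g (z - w))
          = 8 * (L * (t ^ (4 * g) * t ^ (-g)) * kk g (z - w)) := by ring
        _ ≤ _ := by rw [e]; linarith
    · have hb : ∀ τ, s ≤ τ → τ ≤ t → L * τ ^ (4 * g) ≤ L * t ^ (3 * g) * τ ^ g := by
        intro τ h1 h2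
        have hτ := hs.trans_le h1
        rw [h4g τ hτ, mul_assoc]
        gcongr
      have h1 := K5 hy hzw hs hst h (by linarith : g ≤ 1) (L := L * t ^ (3 * g)) (by positivity)
        d d' (fun τ a b => (hq τ a b).trans (hb τ a b)) (fun τ a b => (hq' τ a b).trans (hb τ a b))
      have h4 := (Kern_cf hy z w hs hst d d').trans hsq
      have h5 := (Kern_cf hy w z hs hst d' d).trans ((mul_comm _ _).trans_le hsq)
      have h6 := (Kern_cc' hy z w ht d d').trans hsq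
      rw [norm_inner_symm] at h5
      have hk : t ^ (g - 1) ≤ kk g (z - w) := by
        have : kk g (z - w) = (‖z - w‖ ^ 2) ^ (g - 1) := by
          rw [kk, ← Real.rpow_natCast, ← Real.rpow_mul hζ.le]; congr 1; push_cast; ring
        rw [this]
        exact Real.rpow_le_rpow_of_nonpos (by positivity) h (by linarith)
      have hX : ∀ X : ℝ, t * X ≤ L * t ^ (4 * g) → X ≤ L * t ^ (3 * g) * kk g (z - w) := by
        intro X hX
        refine le_trans ?_ (mul_le_mul_of_nonneg_left hk (by positivity))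
        rw [Real.rpow_sub_one ht.ne', ← mul_div_assoc, le_div_iff₀ ht, mul_assoc, ← h4g t ht,
          mul_comm]
        exact hX
      have e : ⟪ra T z s (δ d) - ra T z t (δ d), ra T w s (δ d') - ra T w t (δ d')⟫_ℂ =
          ⟪ra T z s (δ d), ra T w s (δ d')⟫_ℂ -
          ⟪ra T z t (δ d), ra T w s (δ d') - ra T w t (δ d')⟫_ℂ -
          ⟪ra T z s (δ d) - ra T z t (δ d), ra T w t (δ d')⟫_ℂ -
          ⟪ra T z t (δ d), ra T w t (δ d')⟫_ℂ := by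
        simp only [inner_sub_left, inner_sub_right]; ring
      have h7 := e ▸ ((norm_sub_le _ _).trans (add_le_add_left ((norm_sub_le _ _).trans
        (add_le_add_left (norm_sub_le _ _) _)) _) :
        ‖⟪ra T z s (δ d), ra T w s (δ d')⟫_ℂ -
          ⟪ra T z t (δ d), ra T w s (δ d') - ra T w t (δ d')⟫_ℂ -
          ⟪ra T z s (δ d) - ra T z t (δ d), ra T w t (δ d')⟫_ℂ -
          ⟪ra T z t (δ d), ra T w t (δ d')⟫_ℂ‖ ≤ _)
      linarith [hX _ h4, hX _ h5, hX _ h6]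
  refine hsuff.trans ?_
  have := mul_le_mul_of_nonneg_right (mul_le_mul_of_nonneg_left h3g hL) hk0
  linarith

end pair

/-- Bessel type bound for the main parts. -/
theorem LB_bessel (hy : Hyp T δ) {ι : Type*} [Fintype ι] [DecidableEq ι] (p : ι → ℂ) {s : ℝ}
    (hs : 0 < s) (hrow : ∀ j, ∑ k ∈ Finset.univ.erase j, 1 * (s / (‖p j - p k‖ ^ 2 + 2 * s)) ≤ 1 / 4)
    (h : ι → H) :
    ‖∑ j, ra T (p j) s (oA T (p j) (h j))‖ ^ 2 ≤ 2 * ∑ j, ‖h j‖ ^ 2 / s := by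
  set v := ∑ j, ra T (p j) s (oA T (p j) (h j)) with hv
  have h1 := LB_sum_upper (fun j => (s : ℂ) • ra T (p j) s v)
    (fun j k => 4 * ((s * af T (p j) s v * 1 + s * af T (p k) s v * 1) / 2 *
      (s / (‖p j - p k‖ ^ 2 + 2 * s)))) (fun j k _ => by
      have h2 := K_bessel hy (p j) (p k) hs v
      have hp : 0 < ‖p j - p k‖ ^ 2 + 2 * s := by positivity
      rw [inner_smul_left, inner_smul_right, norm_mul, norm_mul, Complex.norm_conj,
        Complex.norm_real, Real.norm_of_nonneg hs.le, ← mul_div_assoc, ← mul_div_assoc,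
        le_div_iff₀ hp]
      have := mul_le_mul_of_nonneg_left h2 (mul_pos hs hs).le
      linarith)
  have h2 := LB_offdiag (fun j k => s / (‖p j - p k‖ ^ 2 + 2 * s))
    (fun j k => by simp only [norm_sub_rev (p j) (p k)]) (fun _ => 1)
    (fun j => s * af T (p j) s v) (fun j => mul_nonneg hs.le (af_nonneg T _ hs v)) hrow
  simp only [← Finset.mul_sum] at h1 h2
  have h3 : ∑ j, ‖(s : ℂ) • ra T (p j) s v‖ ^ 2 ≤ s * ∑ j, af T (p j) s v := by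
    rw [Finset.mul_sum]
    refine Finset.sum_le_sum fun j _ => ?_
    rw [norm_smul, Complex.norm_real, Real.norm_of_nonneg hs.le, af_eq T _ hs]
    nlinarith [mul_nonneg hs.le (sq_nonneg ‖oA T (p j) (ra T (p j) s v)‖)]
  have h4 : s * ∑ j, af T (p j) s v = (⟪v, ∑ j, (s : ℂ) • ra T (p j) s v⟫_ℂ).re := by
    rw [inner_sum, Complex.re_sum, Finset.mul_sum]
    refine Finset.sum_congr rfl fun j _ => ?_
    rw [inner_smul_right, Complex.re_ofReal_mul, af]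
  have h5 := (Complex.re_le_norm ⟪v, ∑ j, (s : ℂ) • ra T (p j) s v⟫_ℂ).trans
    (norm_inner_le_norm _ _)
  have h6 : s * ∑ j, af T (p j) s v ≤ 2 * ‖v‖ ^ 2 := by
    linarith [sq_nonneg (‖v‖ - ‖∑ j, (s : ℂ) • ra T (p j) s v‖ / 2), sq_nonneg ‖v‖]
  have h7 : ‖v‖ ^ 2 ≤ ∑ j, (s * af T (p j) s v / 4 + ‖h j‖ ^ 2 / s) := by
    rw [← re_inner_self]
    conv_lhs => enter [1, 3]; rw [hv]
    rw [inner_sum, Complex.re_sum]
    refine Finset.sum_le_sum fun j _ => ?_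
    rw [← inner_ra T _ hs, ← inner_oS_left]
    refine (Complex.re_le_norm _).trans ((norm_inner_le_norm _ _).trans ?_)
    have h8 : ‖oS T (p j) (ra T (p j) s v)‖ ^ 2 ≤ af T (p j) s v := by
      have := pow_le_pow_left₀ (norm_nonneg _) (LB_oS_le hy (p j) (ra T (p j) s v)) 2
      rw [af_eq T _ hs]
      nlinarith [mul_nonneg hs.le (sq_nonneg ‖ra T (p j) s v‖)]
    refine le_of_mul_le_mul_left ?_ hs
    rw [mul_add, mul_div_cancel₀ _ hs.ne']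
    linarith [sq_nonneg (s * ‖oS T (p j) (ra T (p j) s v)‖ / 2 - ‖h j‖),
      mul_le_mul_of_nonneg_left h8 (mul_pos hs hs).le]
  rw [Finset.sum_add_distrib, ← Finset.sum_div, ← Finset.mul_sum] at h7
  linarith

/-- The decomposition of one vector. -/
theorem LB_point (hy : Hyp T δ) {e0 : H} (he : ‖e0‖ = 1) (z : ℂ) {s r ω : ℝ} (hs : 0 < s)
    (hr1 : 1 ≤ r) (hr : ∀ u, ⟪e0, u⟫_ℂ = 0 → ‖u‖ ^ 2 ≤ r * qf T δ z s u) (hω1 : 1 ≤ ω)
    (hω : r * ω ≤ bt T δ e0 z s) (y : H) :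
    ∃ (α : ℂ) (p' : H) (a : ℝ), 0 ≤ a ∧
      a ^ 2 = (‖y‖ ^ 2 + ‖oS T z y‖ ^ 2 / s) * (s * bt T δ e0 z s) ∧ ‖α‖ ≤ a ∧
      √s * ‖y‖ + ‖p'‖ ≤ 2 * (a / √ω) ∧
      y = ra T z s (oA T z (oS T z y)) + α • ra T z s (δ (dv T δ e0 z s)) +
        ra T z s ((s : ℂ) • y + δ p') := by
  set N := ‖y‖ ^ 2 + ‖oS T z y‖ ^ 2 / s with hN
  have hN0 : 0 ≤ N := by positivity
  have hβ := one_le_bt hy z hs (e0 := e0)
  have hq : qf T δ z s (δ y) ≤ s * N := by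
    have := qf_var hy z hs (δ y) y
    rw [sub_self, norm_zero] at this
    rw [hN, mul_add, mul_div_cancel₀ _ hs.ne']
    linarith
  obtain ⟨h1, h2⟩ := qf_split hy z hs he (δ y)
  have ha2 : √(N * (s * bt T δ e0 z s)) ^ 2 = N * (s * bt T δ e0 z s) :=
    Real.sq_sqrt (by positivity)
  have hω0 : 0 < ω := by linarith
  have hb : ∀ X : ℝ, 0 ≤ X → X ^ 2 ≤ r * (s * N) → X ≤ √(N * (s * bt T δ e0 z s)) / √ω := by
    intro X _ hX
    refine (abs_le_of_sq_le_sq' ?_ (by positivity)).2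
    rw [div_pow, ha2, Real.sq_sqrt hω0.le, le_div_iff₀ hω0]
    calc X ^ 2 * ω ≤ r * (s * N) * ω := by gcongr
      _ = r * ω * (s * N) := by ring
      _ ≤ bt T δ e0 z s * (s * N) := by gcongr
      _ = _ := by ring
  refine ⟨⟪e0, δ y⟫_ℂ, δ y - ⟪e0, δ y⟫_ℂ • dv T δ e0 z s, √(N * (s * bt T δ e0 z s)),
    Real.sqrt_nonneg _, ha2, Real.le_sqrt_of_sq_le ?_, ?_, ?_⟩
  · refine (inner_e0_le hy z hs he _).trans ?_
    calc bt T δ e0 z s * qf T δ z s (δ y) ≤ bt T δ e0 z s * (s * N) := by gcongr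
      _ = _ := by ring
  · rw [two_mul]
    refine add_le_add (hb _ (by positivity) ?_) (hb _ (norm_nonneg _) ?_)
    · rw [mul_pow, Real.sq_sqrt hs.le]
      have h3 : s * ‖y‖ ^ 2 ≤ s * N := by
        rw [hN]; gcongr; exact le_add_of_nonneg_right (by positivity)
      nlinarith [mul_nonneg hs.le hN0]
    · exact (hr _ h1).trans (mul_le_mul_of_nonneg_left (h2.trans hq) (by linarith))
  · rw [← map_smul, ← map_add, ← map_add]
    conv_lhs => rw [← ra_right T z hs y]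
    congr 1
    rw [map_sub, map_smul, del_del hy z]
    abel

theorem LB_real1 {y u c z N h : ℝ} (hy : 0 ≤ y) (k6 : y ≤ u + c + z) (k1 : c ^ 2 ≤ N / 100)
    (k4 : u ^ 2 ≤ h) (k8 : N = y ^ 2 + h) : N / 6 - N / 40 - 2 / 3 * h ≤ z ^ 2 / 2 - 2 * c ^ 2 := by
  have k7 := pow_le_pow_left₀ hy k6 2
  nlinarith [sq_nonneg (u - c), sq_nonneg (u - z), sq_nonneg (c - z)]

/-- The lower bound (LB). -/
theorem lower_bound (hy : Hyp T δ) {e0 : H} (he : ‖e0‖ = 1) {ι : Type*} [Fintype ι]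
    [DecidableEq ι] (p : ι → ℂ) (hp : Function.Injective p) {s t g Cd L ω Θ : ℝ} (r : ι → ℝ)
    (hs : 0 < s) (hst : s ≤ t) (ht1 : t ≤ 1) (hg : 0 < g) (hg1 : g ≤ 1 / 4)
    (hCd : 0 ≤ Cd) (hL : 0 ≤ L) (hΘ : 0 ≤ Θ)
    (hd : ∀ j, ‖dv T δ e0 (p j) s‖ ≤ Cd)
    (hq : ∀ j τ, s ≤ τ → τ ≤ t → qf T δ (p j) τ (dv T δ e0 (p j) s) ≤ L * τ ^ (4 * g))
    (hr1 : ∀ j, 1 ≤ r j)
    (hr : ∀ j u, ⟪e0, u⟫_ℂ = 0 → ‖u‖ ^ 2 ≤ r j * qf T δ (p j) s u)
    (hω1 : 1 ≤ ω) (hω : ∀ j, r j * ω ≤ bt T δ e0 (p j) s)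
    (hrow : ∀ j, ∑ k ∈ Finset.univ.erase j, s * bt T δ e0 (p k) s * kk g (p j - p k) ≤ Θ)
    (hw : ∀ j, s * bt T δ e0 (p j) s * Cd ^ 2 ≤ t / 100)
    (hsm1 : (Cd * √L + L) * t ^ g * Θ ≤ 1 / 1000)
    (hsm2 : (Cd + 1) * s ^ (-g) * Θ ≤ √ω / 1000) (y : ι → H) :
    ∑ j, (‖y j‖ ^ 2 + ‖oS T (p j) (y j)‖ ^ 2 / s) ≤
      60 * (‖∑ j, y j‖ ^ 2 + ∑ j, ‖oS T (p j) (y j)‖ ^ 2 / s) := by
  have ht := hs.trans_le hst
  have hω0 : 0 < ω := by linarith
  have hσ1 : 1 ≤ √ω := Real.one_le_sqrt.2 hω1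
  have hσ0 : 0 < √ω := by linarith
  have hsg : 0 < s ^ (-g) := Real.rpow_pos_of_pos hs _
  have htg : 0 < t ^ g := Real.rpow_pos_of_pos ht _
  have hsL := Real.sqrt_nonneg L
  choose α p' a ha0 ha2 hα hE hdec using fun j =>
    LB_point hy he (p j) hs (hr1 j) (hr j) hω1 (hω j) (y j)
  set N : ι → ℝ := fun j => ‖y j‖ ^ 2 + ‖oS T (p j) (y j)‖ ^ 2 / s with hN
  have hN0 : ∀ j, 0 ≤ N j := fun j => by simp only [hN]; positivity
  set d : ι → H := fun j => dv T δ e0 (p j) s with hdd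
  set c : ι → H := fun j => ra T (p j) t (δ (d j)) with hc
  set f : ι → H := fun j => ra T (p j) s (δ (d j)) - ra T (p j) t (δ (d j)) with hf
  set ρ : ι → H := fun j => ra T (p j) s ((s : ℂ) • y j + δ (p' j)) with hρ
  set u : ι → H := fun j => ra T (p j) s (oA T (p j) (oS T (p j) (y j))) with hu
  set η : ℝ := (6 * Cd * √L + 10 * L) * t ^ g + (36 * Cd + 16) * (s ^ (-g) / √ω) with hη
  have hη0 : 0 ≤ η := by positivity
  have hηΘ : η * Θ ≤ 46 / 1000 := by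
    have h1 : (Cd + 1) * (s ^ (-g) / √ω) * Θ ≤ 1 / 1000 := by
      rw [← mul_div_assoc, div_mul_eq_mul_div, div_le_iff₀ hσ0]; linarith
    have h2 : 0 ≤ Cd * √L * t ^ g * Θ := by positivity
    have h3 : 0 ≤ s ^ (-g) / √ω * Θ := by positivity
    have h4 : 0 ≤ Cd * (s ^ (-g) / √ω) * Θ := by positivity
    rw [hη]; linarith
  have hdec' : ∀ j, y j = u j + α j • c j + (α j • f j + ρ j) := by
    intro j
    conv_lhs => rw [hdec j]
    simp only [hu, hc, hf, hρ, hdd, smul_sub]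
    abel
  -- off-diagonal terms
  have hoff : ∀ j k, j ≠ k → 2 * ‖⟪α j • c j, α k • f k + ρ k⟫_ℂ‖ +
      ‖⟪α j • f j + ρ j, α k • f k + ρ k⟫_ℂ‖ ≤
      η * ((N j * (s * bt T δ e0 (p k) s) + N k * (s * bt T δ e0 (p j) s)) / 2 *
        kk g (p j - p k)) := by
    intro j k hjk
    have hne : p j ≠ p k := fun h => hjk (hp h)
    have hκ := kk_nonneg g (p j - p k)
    set κ := kk g (p j - p k) with hκd
    set σ := s ^ (-g) / √ω with hσ
    have hσp : 0 ≤ σ := by positivity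
    have b1 : ‖⟪c j, f k⟫_ℂ‖ ≤ 3 * Cd * √L * t ^ g * κ :=
      LB_P1 hy hne hs hst hg hg1 hL (hd j) (hq k t hst le_rfl)
    have b4 : ‖⟪f j, f k⟫_ℂ‖ ≤ 10 * L * t ^ g * κ :=
      LB_P4 hy hne hs hst hg hg1 ht1 hL (hq j) (hq k)
    have hP2 : ∀ i l, p i ≠ p l → ∀ τ, s ≤ τ → ‖⟪ra T (p i) τ (δ (d i)), ρ l⟫_ℂ‖ ≤
        6 * Cd * a l * σ * kk g (p i - p l) := by
      intro i l hil τ hτ
      have := kk_nonneg g (p i - p l)
      refine (LB_P2 hy hil hs hτ hg hg1 (hd i) (y l) (p' l)).trans ?_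
      calc 3 * Cd * (√s * ‖y l‖ + ‖p' l‖) * (s ^ (-g) * kk g (p i - p l))
          ≤ 3 * Cd * (2 * (a l / √ω)) * (s ^ (-g) * kk g (p i - p l)) := by
            gcongr; exact hE l
        _ = _ := by rw [hσ]; ring
    have b2 : ‖⟪c j, ρ k⟫_ℂ‖ ≤ 6 * Cd * a k * σ * κ := hP2 j k hne t hst
    have hP2' : ∀ i l, p i ≠ p l → ‖⟪f i, ρ l⟫_ℂ‖ ≤ 12 * Cd * a l * σ * kk g (p i - p l) := by
      intro i l hil
      simp only [hf]
      rw [inner_sub_left]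
      have := add_le_add (hP2 i l hil s le_rfl) (hP2 i l hil t hst)
      exact (norm_sub_le _ _).trans (by linarith)
    have b5 := hP2' j k hne
    have b6 := hP2' k j hne.symm
    rw [norm_inner_symm, kk_sub_comm] at b6
    have b3 : ‖⟪ρ j, ρ k⟫_ℂ‖ ≤ 16 * (a j * a k) * σ * κ := by
      refine (LB_P3 hy hne hs hg hg1 (y j) (p' j) (y k) (p' k)).trans ?_
      have haj := ha0 j
      have hak := ha0 k
      calc 4 * ((√s * ‖y j‖ + ‖p' j‖) * (√s * ‖y k‖ + ‖p' k‖)) * (s ^ (-g) * κ)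
          ≤ 4 * ((2 * a j) * (2 * (a k / √ω))) * (s ^ (-g) * κ) := by
            gcongr
            · exact (hE j).trans (by gcongr; exact div_le_self haj hσ1)
            · exact hE k
        _ = _ := by rw [hσ]; ring
    have haa : a j * a k ≤
        (N j * (s * bt T δ e0 (p k) s) + N k * (s * bt T δ e0 (p j) s)) / 2 := by
      have hβj := one_le_bt hy (p j) hs (e0 := e0)
      have hβk := one_le_bt hy (p k) hs (e0 := e0)
      have h1 : 0 ≤ N j * (s * bt T δ e0 (p k) s) := mul_nonneg (hN0 j) (by positivity)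
      have h2 : 0 ≤ N k * (s * bt T δ e0 (p j) s) := mul_nonneg (hN0 k) (by positivity)
      refine (abs_le_of_sq_le_sq' ?_ (by positivity)).2
      have e : (a j * a k) ^ 2 =
          (N j * (s * bt T δ e0 (p k) s)) * (N k * (s * bt T δ e0 (p j) s)) := by
        rw [mul_pow, ha2 j, ha2 k]; simp only [hN]; ring
      rw [e]
      linarith [sq_nonneg (N j * (s * bt T δ e0 (p k) s) - N k * (s * bt T δ e0 (p j) s))]
    have haj := ha0 j
    have hak := ha0 k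
    have hαj := hα j
    have hαk := hα k
    have c1 : ‖⟪α j • c j, α k • f k + ρ k⟫_ℂ‖ ≤
        a j * (a k * (3 * Cd * √L * t ^ g * κ) + 6 * Cd * a k * σ * κ) := by
      rw [inner_smul_left, norm_mul, Complex.norm_conj, inner_add_right, inner_smul_right]
      refine mul_le_mul hαj ((norm_add_le _ _).trans ?_) (norm_nonneg _) haj
      rw [norm_mul]
      gcongr
    have c2 : ‖⟪α j • f j + ρ j, α k • f k + ρ k⟫_ℂ‖ ≤
        a j * (a k * (10 * L * t ^ g * κ) + 12 * Cd * a k * σ * κ) +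
          (a k * (12 * Cd * a j * σ * κ) + 16 * (a j * a k) * σ * κ) := by
      rw [inner_add_left]
      refine (norm_add_le _ _).trans (add_le_add ?_ ?_)
      · rw [inner_smul_left, norm_mul, Complex.norm_conj, inner_add_right, inner_smul_right]
        refine mul_le_mul hαj ((norm_add_le _ _).trans ?_) (norm_nonneg _) haj
        rw [norm_mul]
        gcongr
      · rw [inner_add_right, inner_smul_right]
        refine (norm_add_le _ _).trans ?_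
        rw [norm_mul]
        gcongr
    calc _ ≤ η * (a j * a k * κ) := by rw [hη]; linarith
      _ ≤ _ := by gcongr
  have h1 := LB_sum_lower (fun j => α j • c j) (fun j => α j • f j + ρ j) _ hoff
  have h2 := LB_offdiag (fun j k => kk g (p j - p k)) (fun j k => kk_sub_comm g _ _)
    (fun k => s * bt T δ e0 (p k) s) N hN0 hrow
  simp only [← Finset.mul_sum] at h1
  have hNs : 0 ≤ ∑ j, N j := Finset.sum_nonneg fun j _ => hN0 j
  have h3 := (mul_le_mul_of_nonneg_left h2 hη0).trans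
    ((mul_assoc _ _ _).symm.trans_le (mul_le_mul_of_nonneg_right hηΘ hNs))
  -- the main parts
  have h4 : ‖∑ j, u j‖ ^ 2 ≤ 2 * ∑ j, ‖oS T (p j) (y j)‖ ^ 2 / s := by
    refine LB_bessel hy p hs (fun j => ?_) _
    calc ∑ k ∈ Finset.univ.erase j, 1 * (s / (‖p j - p k‖ ^ 2 + 2 * s))
        ≤ ∑ k ∈ Finset.univ.erase j,
          s ^ (-g) / ω * (s * bt T δ e0 (p k) s * kk g (p j - p k)) := by
          refine Finset.sum_le_sum fun k hk => ?_
          have hne : p j - p k ≠ 0 :=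
            sub_ne_zero.2 fun h => Finset.ne_of_mem_erase hk (hp h).symm
          have hκ := kk_nonneg g (p j - p k)
          have h5 : ω ≤ bt T δ e0 (p k) s := (le_mul_of_one_le_left hω0.le (hr1 k)).trans (hω k)
          have h6 := LB_div hg.le (by linarith) hne hs (D := ‖p j - p k‖ ^ 2 + 2 * s)
            (X := s / (‖p j - p k‖ ^ 2 + 2 * s)) (B := s) (by linarith) (by positivity) hs.le
            (by rw [mul_div_cancel₀ _ (by positivity)])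
          calc 1 * (s / (‖p j - p k‖ ^ 2 + 2 * s)) ≤ s * (s ^ (-g) * kk g (p j - p k)) := by
                rw [one_mul]; exact h6
            _ = s ^ (-g) / ω * (s * ω * kk g (p j - p k)) := by field_simp
            _ ≤ _ := by gcongr
      _ ≤ s ^ (-g) / ω * Θ := by
          rw [← Finset.mul_sum]
          exact mul_le_mul_of_nonneg_left (hrow j) (by positivity)
      _ ≤ 1 / 4 := by
          rw [div_mul_eq_mul_div, div_le_iff₀ hω0]
          have h7 : √ω ≤ ω :=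
            (le_mul_of_one_le_left hσ0.le hσ1).trans_eq (Real.mul_self_sqrt hω0.le)
          have h8 : 0 ≤ Cd * s ^ (-g) * Θ := by positivity
          linarith
  have h5 : ∑ j, α j • c j + ∑ j, (α j • f j + ρ j) = ∑ j, y j - ∑ j, u j := by
    rw [← Finset.sum_add_distrib, ← Finset.sum_sub_distrib]
    refine Finset.sum_congr rfl fun j _ => ?_
    conv_rhs => rw [hdec' j]
    abel
  rw [h5] at h1
  have h6 : ‖∑ j, y j - ∑ j, u j‖ ^ 2 ≤ 2 * ‖∑ j, y j‖ ^ 2 + 2 * ‖∑ j, u j‖ ^ 2 := by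
    have := pow_le_pow_left₀ (norm_nonneg _) (norm_sub_le (∑ j, y j) (∑ j, u j)) 2
    linarith [sq_nonneg (‖∑ j, y j‖ - ‖∑ j, u j‖)]
  have h7 : ∑ j, (N j / 6 - N j / 40 - 2 / 3 * (‖oS T (p j) (y j)‖ ^ 2 / s)) ≤
      ∑ j, (‖α j • f j + ρ j‖ ^ 2 / 2 - 2 * ‖α j • c j‖ ^ 2) := by
    refine Finset.sum_le_sum fun j _ => ?_
    have k1 : ‖α j • c j‖ ^ 2 ≤ N j / 100 := by
      have k2 : t * ‖c j‖ ^ 2 ≤ Cd ^ 2 := (coarse_norm hy _ ht _).trans
        ((qf_le hy _ ht _).trans (pow_le_pow_left₀ (norm_nonneg _) (hd j) 2))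
      have k3 : ‖α j‖ ^ 2 ≤ N j * (s * bt T δ e0 (p j) s) :=
        (pow_le_pow_left₀ (norm_nonneg _) (hα j) 2).trans_eq (ha2 j)
      refine le_of_mul_le_mul_left ?_ ht
      rw [norm_smul, mul_pow]
      calc t * (‖α j‖ ^ 2 * ‖c j‖ ^ 2) = ‖α j‖ ^ 2 * (t * ‖c j‖ ^ 2) := by ring
        _ ≤ N j * (s * bt T δ e0 (p j) s) * Cd ^ 2 :=
          mul_le_mul k3 k2 (by positivity) ((sq_nonneg _).trans k3)
        _ = N j * (s * bt T δ e0 (p j) s * Cd ^ 2) := by ring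
        _ ≤ N j * (t / 100) := mul_le_mul_of_nonneg_left (hw j) (hN0 j)
        _ = _ := by ring
    have k4 : ‖u j‖ ^ 2 ≤ ‖oS T (p j) (y j)‖ ^ 2 / s := by
      rw [le_div_iff₀ hs]
      have k5 := af_oA hy (p j) hs (oS T (p j) (y j))
      rw [af_eq T _ hs] at k5
      have k9 := sq_nonneg ‖oA T (p j) (u j)‖
      rw [mul_comm]
      exact (le_add_of_nonneg_left k9).trans k5
    have k6 : ‖y j‖ ≤ ‖u j‖ + ‖α j • c j‖ + ‖α j • f j + ρ j‖ := by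
      conv_lhs => rw [hdec' j]
      exact norm_add₃_le
    exact LB_real1 (norm_nonneg _) k6 k1 k4 rfl
  rw [Finset.sum_sub_distrib, Finset.sum_sub_distrib, ← Finset.sum_div, ← Finset.sum_div,
    ← Finset.mul_sum] at h7
  have h8 : 0 ≤ ∑ j, ‖oS T (p j) (y j)‖ ^ 2 / s := Finset.sum_nonneg fun j _ => by positivity
  have h9 := sq_nonneg ‖∑ j, y j‖
  linarith

/-- The cut. -/
theorem cut (T : H →L[ℂ] H) {ι : Type*} [Fintype ι] (p : ι → ℂ) {s σ C : ℝ} (hs : 0 < s)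
    (hσ : 0 < σ) (hC : 0 ≤ C)
    (hLB : ∀ y : ι → H, ∑ j, (‖y j‖ ^ 2 + ‖oS T (p j) (y j)‖ ^ 2 / s) ≤
      C * (‖∑ j, y j‖ ^ 2 + ∑ j, ‖oS T (p j) (y j)‖ ^ 2 / s)) (x : H) :
    ∃ x' : H, ‖x - x'‖ ^ 2 + s * ∑ j, bf T (p j) σ x' ≤ C * (s * ∑ j, bf T (p j) s x) := by
  set B : H →L[ℂ] H := ∑ j, (s : ℂ) • rb T (p j) σ with hB
  have hBa : ∀ u, B u = ∑ j, (s : ℂ) • rb T (p j) σ u := fun u => by
    simp [hB]
  have hBr : ∀ u, (⟪u, B u⟫_ℂ).re = s * ∑ j, bf T (p j) σ u := fun u => by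
    rw [hBa, inner_sum, Complex.re_sum, Finset.mul_sum]
    refine Finset.sum_congr rfl fun j _ => ?_
    rw [inner_smul_right, Complex.re_ofReal_mul, bf]
  obtain ⟨U, hU⟩ := isUnit_add_pos B (fun u => by
    rw [hBr]
    exact mul_nonneg hs.le (Finset.sum_nonneg fun j _ => bf_nonneg T _ hσ u)) one_pos
  set x' : H := (↑U⁻¹ : H →L[ℂ] H) x with hx'
  have hx : B x' + x' = x := by
    have := congrArg (fun A : H →L[ℂ] H => A x) U.mul_inv
    simpa [hU] using this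
  refine ⟨x', ?_⟩
  set y : ι → H := fun j => (s : ℂ) • rb T (p j) σ x' with hy
  have hY : x - x' = ∑ j, y j := by rw [← hBa, ← hx]; abel
  set Φ := ‖x - x'‖ ^ 2 + s * ∑ j, bf T (p j) σ x' with hΦ
  have hΦ0 : 0 ≤ Φ := add_nonneg (sq_nonneg _)
    (mul_nonneg hs.le (Finset.sum_nonneg fun j _ => bf_nonneg T _ hσ x'))
  have h1 : Φ = (⟪x, ∑ j, y j⟫_ℂ).re := by
    rw [hΦ, ← hBr, ← re_inner_self, hBa x', ← hY, ← Complex.add_re, ← inner_add_left,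
      sub_add_cancel]
  have h2 : Φ ≤ ∑ j, ‖⟪x, y j⟫_ℂ‖ := by
    rw [h1, inner_sum]
    exact (Complex.re_le_norm _).trans (norm_sum_le _ _)
  have h3 : (∑ j, ‖⟪x, y j⟫_ℂ‖) ^ 2 ≤ (∑ j, s * bf T (p j) s x) *
      ∑ j, (‖y j‖ ^ 2 + ‖oS T (p j) (y j)‖ ^ 2 / s) := by
    refine Finset.sum_sq_le_sum_mul_sum_of_sq_le_mul _
      (fun j _ => mul_nonneg hs.le (bf_nonneg T _ hs x)) (fun j _ => by positivity) fun j _ => ?_
    refine (bf_cs T (p j) hs x (y j)).trans_eq ?_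
    field_simp
    ring
  have h4 : ∑ j, ‖oS T (p j) (y j)‖ ^ 2 / s ≤ s * ∑ j, bf T (p j) σ x' := by
    rw [Finset.mul_sum]
    refine Finset.sum_le_sum fun j _ => ?_
    simp only [hy]
    rw [map_smul, norm_smul, Complex.norm_real, Real.norm_of_nonneg hs.le, div_le_iff₀ hs,
      bf_eq T _ hσ]
    linarith [mul_nonneg (mul_pos hs hs).le (mul_nonneg hσ.le (sq_nonneg ‖rb T (p j) σ x'‖))]
  have h5 : ∑ j, (‖y j‖ ^ 2 + ‖oS T (p j) (y j)‖ ^ 2 / s) ≤ C * Φ := by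
    refine (hLB y).trans (mul_le_mul_of_nonneg_left ?_ hC)
    rw [hΦ, hY]
    linarith
  rw [← Finset.mul_sum] at h3
  have hS : 0 ≤ s * ∑ j, bf T (p j) s x :=
    mul_nonneg hs.le (Finset.sum_nonneg fun j _ => bf_nonneg T _ hs x)
  have h6 : Φ ^ 2 ≤ (s * ∑ j, bf T (p j) s x) * (C * Φ) :=
    (pow_le_pow_left₀ hΦ0 h2 2).trans (h3.trans (mul_le_mul_of_nonneg_left h5 hS))
  rcases hΦ0.eq_or_lt with h0 | h0
  · rw [← h0]; positivity
  · refine le_of_mul_le_mul_right ?_ h0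
    linarith

end Pool.Agent.P.MP_f981b0_an.Hy
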