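import Pool.Agent.P.MP_f981b0_an.Hy.Basic

set_option autoImplicit false

open scoped InnerProductSpace ComplexConjugate
open MeasureTheory Filter Topology

noncomputable section

namespace Pool.Agent.P.MP_f981b0_an.Hy

variable {H : Type*} [NormedAddCommGroup H] [InnerProductSpace ℂ H] [CompleteSpace H]

variable {T δ : H →L[ℂ] H}

theorem lyap_growth {W : ℕ → ℝ} {ρ : ℝ} (h : Tendsto (fun j : ℕ => W j / j) atTop (𝓝 ρ))
    {ε : ℝ} (hε : 0 < ε) : ∃ C : ℝ, ∀ j : ℕ, |W j - ρ * j| ≤ C + ε * j := by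
  obtain ⟨j0, hj0⟩ := eventually_atTop.1 ((Metric.tendsto_nhds.1 h ε hε).and
    (eventually_gt_atTop 0))
  have hS : 0 ≤ ∑ i ∈ Finset.range j0, |W i - ρ * i| := Finset.sum_nonneg fun _ _ => abs_nonneg _
  refine ⟨∑ i ∈ Finset.range j0, |W i - ρ * i|, fun j => ?_⟩
  rcases lt_or_ge j j0 with hj | hj
  · have := Finset.single_le_sum (f := fun i : ℕ => |W i - ρ * i|) (fun _ _ => abs_nonneg _)
      (Finset.mem_range.2 hj)
    have h2 : 0 ≤ ε * j := by positivity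
    linarith
  · obtain ⟨h1, h2⟩ := hj0 j hj
    have hj' : (0 : ℝ) < j := by exact_mod_cast h2
    rw [Real.dist_eq] at h1
    have : W j - ρ * j = (W j / j - ρ) * j := by field_simp
    rw [this, abs_mul, abs_of_pos hj']
    have := mul_le_mul_of_nonneg_right h1.le hj'.le
    linarith

/-- The seminorms used in the Lyapunov argument. -/
structure LyapSn (p : ℕ → H → ℝ) : Prop where
  nonneg : ∀ j u, 0 ≤ p j u
  add : ∀ j u v, p j (u + v) ≤ p j u + p j v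
  sub : ∀ j u v, p j (u - v) ≤ p j u + p j v
  smul : ∀ j (c : ℂ) u, p j (c • u) = ‖c‖ * p j u
  le : ∀ j u, p j u ≤ ‖u‖
  succ : ∀ j u, p j u ≤ 2 * p (j + 1) u

/-- Lower bound with exponential rate `r` on the vectors orthogonal to `e i`, `i < n`. -/
def LyapL (p : ℕ → H → ℝ) (e : ℕ → H) (n : ℕ) (r : ℝ) : Prop :=
  ∃ C : ℝ, 0 ≤ C ∧ ∀ (j : ℕ) (u : H), (∀ i < n, ⟪e i, u⟫_ℂ = 0) →
    ‖u‖ ≤ C * Real.exp (r * j) * p j u

omit [CompleteSpace H] in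
theorem lyap_diff {p : ℕ → H → ℝ} (hp : LyapSn p) {e : ℕ → H} {n : ℕ} {r : ℝ}
    (hL : LyapL p e (n + 1) r) {d : ℕ → H} (d1 : ∀ j, ∀ i < n, ⟪e i, d j⟫_ℂ = 0)
    (d2 : ∀ j, ⟪e n, d j⟫_ℂ = 1) {a B : ℝ} (hB : 0 ≤ B)
    (d3 : ∀ j, p j (d j) ≤ B * Real.exp (a * j)) :
    ∃ C : ℝ, 0 ≤ C ∧ ∀ l : ℕ, ‖d (l + 1) - d l‖ ≤ C * Real.exp ((r + a) * l) := by
  obtain ⟨C, hC, h⟩ := hL
  refine ⟨C * (B * (2 * Real.exp a + 1)), by positivity, fun l => ?_⟩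
  refine (h l _ fun i hi => ?_).trans ?_
  · rw [inner_sub_right]
    rcases (Nat.lt_succ_iff.1 hi).eq_or_lt with rfl | hi
    · rw [d2, d2, sub_self]
    · rw [d1 _ i hi, d1 _ i hi, sub_self]
  · have h1 := hp.sub l (d (l + 1)) (d l)
    have h2 := hp.succ l (d (l + 1))
    have h3 := d3 (l + 1)
    have h4 := d3 l
    have e1 : Real.exp (a * ((l + 1 : ℕ) : ℝ)) = Real.exp a * Real.exp (a * l) := by
      rw [← Real.exp_add]; congr 1; push_cast; ring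
    rw [e1] at h3
    have h5 : p l (d (l + 1) - d l) ≤ B * (2 * Real.exp a + 1) * Real.exp (a * l) := by
      nlinarith
    refine (mul_le_mul_of_nonneg_left h5 (by positivity)).trans (le_of_eq ?_)
    rw [add_mul r a, Real.exp_add]; ring

omit [CompleteSpace H] in
theorem lyap_step {p : ℕ → H → ℝ} (hp : LyapSn p) {e : ℕ → H} {n : ℕ} {D : ℕ → ℝ} {σ : ℝ}
    (hD : Tendsto (fun j : ℕ => D j / j) atTop (𝓝 (-σ)))
    (F2 : ∀ j u, (∀ i < n, ⟪e i, u⟫_ℂ = 0) → ‖⟪e n, u⟫_ℂ‖ * Real.exp (D j) ≤ p j u)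
    (F3 : ∀ j, ∃ d : H, (∀ i < n, ⟪e i, d⟫_ℂ = 0) ∧ ⟪e n, d⟫_ℂ = 1 ∧ p j d ≤ 2 * Real.exp (D j))
    {r r' : ℝ} (hL : LyapL p e (n + 1) r) (hσ : σ ≤ r) (hr : r < r') : LyapL p e n r' := by
  choose d d1 d2 d3 using F3
  obtain ⟨ε, hε, rfl⟩ : ∃ ε : ℝ, 0 < ε ∧ r' = r + 2 * ε := ⟨(r' - r) / 2, by linarith, by ring⟩
  obtain ⟨C0, hC0⟩ := lyap_growth hD hε
  obtain ⟨C1, hC1, h1⟩ := lyap_diff hp hL d1 d2 (a := -σ + ε) (B := 2 * Real.exp C0)
    (by positivity) (fun j => (d3 j).trans (by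
      rw [mul_assoc, ← Real.exp_add]
      have := (abs_le.1 (hC0 j)).2
      gcongr; linarith))
  have hθ : 0 < Real.exp (r + (-σ + ε)) - 1 := by
    rw [sub_pos]; exact Real.one_lt_exp_iff.2 (by linarith)
  set K := ‖d 0‖ + C1 / (Real.exp (r + (-σ + ε)) - 1) with hK
  have hK0 : 0 ≤ K := by positivity
  have hK1 : C1 ≤ K * (Real.exp (r + (-σ + ε)) - 1) := by
    rw [hK, add_mul, div_mul_cancel₀ _ hθ.ne']
    have : 0 ≤ ‖d 0‖ * (Real.exp (r + (-σ + ε)) - 1) := by positivity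
    linarith
  have h2 : ∀ j : ℕ, ‖d j‖ ≤ K * Real.exp ((r + (-σ + ε)) * j) := by
    intro j
    induction j with
    | zero =>
      have : 0 ≤ C1 / (Real.exp (r + (-σ + ε)) - 1) := by positivity
      simp only [Nat.cast_zero, mul_zero, Real.exp_zero, mul_one]
      linarith
    | succ j ih =>
      have a1 : ‖d (j + 1)‖ ≤ ‖d j‖ + ‖d (j + 1) - d j‖ := norm_le_insert' _ _
      have e1 : Real.exp ((r + (-σ + ε)) * ((j + 1 : ℕ) : ℝ)) =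
          Real.exp (r + (-σ + ε)) * Real.exp ((r + (-σ + ε)) * j) := by
        rw [← Real.exp_add]; congr 1; push_cast; ring
      have a2 := mul_le_mul_of_nonneg_right hK1 (Real.exp_pos ((r + (-σ + ε)) * j)).le
      rw [e1]
      linarith [h1 j]
  obtain ⟨C, hC, h⟩ := hL
  refine ⟨3 * C + Real.exp C0 * K, by positivity, fun j u hu => ?_⟩
  have b1 := F2 j u hu
  have b0 := hp.nonneg j u
  have b2 : p j (u - ⟪e n, u⟫_ℂ • d j) ≤ 3 * p j u := by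
    have := hp.sub j u (⟪e n, u⟫_ℂ • d j)
    rw [hp.smul] at this
    have := mul_le_mul_of_nonneg_left (d3 j) (norm_nonneg ⟪e n, u⟫_ℂ)
    nlinarith
  have b3 := h j (u - ⟪e n, u⟫_ℂ • d j) (fun i hi => by
    rw [inner_sub_right, inner_smul_right]
    rcases (Nat.lt_succ_iff.1 hi).eq_or_lt with rfl | hi
    · rw [d2, mul_one, sub_self]
    · rw [hu i hi, d1 _ i hi, mul_zero, sub_self])
  have b4 : ‖⟪e n, u⟫_ℂ‖ ≤ Real.exp (C0 + (σ + ε) * j) * p j u := by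
    have c1 : 1 ≤ Real.exp (C0 + (σ + ε) * j) * Real.exp (D j) := by
      rw [← Real.exp_add]
      have := (abs_le.1 (hC0 j)).1
      exact Real.one_le_exp (by linarith)
    have c2 := mul_le_mul_of_nonneg_left b1 (Real.exp_pos (C0 + (σ + ε) * j)).le
    have c3 := mul_le_mul_of_nonneg_left c1 (norm_nonneg ⟪e n, u⟫_ℂ)
    nlinarith
  have b5 : ‖u‖ ≤ ‖u - ⟪e n, u⟫_ℂ • d j‖ + ‖⟪e n, u⟫_ℂ‖ * ‖d j‖ := by
    rw [← norm_smul]; exact norm_le_norm_sub_add _ _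
  have b6 : ‖⟪e n, u⟫_ℂ‖ * ‖d j‖ ≤ Real.exp C0 * K * Real.exp ((r + 2 * ε) * j) * p j u := by
    refine (mul_le_mul b4 (h2 j) (norm_nonneg _) (by positivity)).trans (le_of_eq ?_)
    have : Real.exp (C0 + (σ + ε) * j) * Real.exp ((r + (-σ + ε)) * j) =
        Real.exp C0 * Real.exp ((r + 2 * ε) * j) := by
      rw [← Real.exp_add, ← Real.exp_add]; congr 1; ring
    calc _ = (Real.exp (C0 + (σ + ε) * j) * Real.exp ((r + (-σ + ε)) * j)) * K * p j u := by ring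
      _ = _ := by rw [this]; ring
  have b7 : C * Real.exp (r * j) * p j (u - ⟪e n, u⟫_ℂ • d j) ≤
      C * Real.exp ((r + 2 * ε) * j) * (3 * p j u) := by
    have := hp.nonneg j (u - ⟪e n, u⟫_ℂ • d j)
    gcongr
  nlinarith

omit [CompleteSpace H] in
theorem lyap_end {p : ℕ → H → ℝ} (hp : LyapSn p) {e : ℕ → H} {n : ℕ} {D : ℕ → ℝ} {σ : ℝ}
    (hD : Tendsto (fun j : ℕ => D j / j) atTop (𝓝 (-σ)))
    (F3 : ∀ j, ∃ d : H, (∀ i < n, ⟪e i, d⟫_ℂ = 0) ∧ ⟪e n, d⟫_ℂ = 1 ∧ p j d ≤ 2 * Real.exp (D j))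
    {r : ℝ} (hL : LyapL p e (n + 1) r) (hr : 0 < r) (hσ : r < σ) :
    ∃ η C : ℝ, 0 < η ∧ 0 ≤ C ∧ ∀ J : ℕ, ∃ d : H, (∀ i < n, ⟪e i, d⟫_ℂ = 0) ∧ ⟪e n, d⟫_ℂ = 1 ∧
      ∀ i ≤ J, p i d ≤ C * Real.exp (-η * i) := by
  choose d d1 d2 d3 using F3
  obtain ⟨ε, hε, rfl⟩ : ∃ ε : ℝ, 0 < ε ∧ σ = r + 2 * ε := ⟨(σ - r) / 2, by linarith, by ring⟩
  obtain ⟨C0, hC0⟩ := lyap_growth hD hε
  have d4 : ∀ j, p j (d j) ≤ 2 * Real.exp C0 * Real.exp ((-(r + 2 * ε) + ε) * j) := fun j =>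
    (d3 j).trans (by
      rw [mul_assoc, ← Real.exp_add]
      have := (abs_le.1 (hC0 j)).2
      gcongr; linarith)
  obtain ⟨C1, hC1, h1⟩ := lyap_diff hp hL d1 d2 (by positivity) d4
  rw [show r + (-(r + 2 * ε) + ε) = -ε by ring] at h1
  have hθ : 0 < 1 - Real.exp (-ε) := by
    rw [sub_pos]; exact Real.exp_lt_one_iff.2 (by linarith)
  set K := C1 / (1 - Real.exp (-ε)) with hK
  have hK0 : 0 ≤ K := by positivity
  have hK1 : C1 = K * (1 - Real.exp (-ε)) := by rw [hK, div_mul_cancel₀ _ hθ.ne']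
  have h2 : ∀ i J : ℕ, i ≤ J →
      ‖d J - d i‖ ≤ K * (Real.exp (-ε * i) - Real.exp (-ε * J)) := by
    intro i J hJ
    induction J, hJ using Nat.le_induction with
    | base => simp
    | succ j _ ih =>
      have a1 : ‖d (j + 1) - d i‖ ≤ ‖d (j + 1) - d j‖ + ‖d j - d i‖ :=
        norm_sub_le_norm_sub_add_norm_sub _ _ _
      have e1 : Real.exp (-ε * ((j + 1 : ℕ) : ℝ)) = Real.exp (-ε) * Real.exp (-ε * j) := by
        rw [← Real.exp_add]; congr 1; push_cast; ring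
      have a2 := h1 j
      rw [hK1] at a2
      rw [e1]
      linarith
  refine ⟨ε, 2 * Real.exp C0 + K, hε, by positivity, fun J => ⟨d J, d1 J, d2 J, fun i hi => ?_⟩⟩
  have a1 := hp.add i (d i) (d J - d i)
  rw [add_sub_cancel] at a1
  have a2 := hp.le i (d J - d i)
  have a3 := h2 i J hi
  have a4 : 2 * Real.exp C0 * Real.exp ((-(r + 2 * ε) + ε) * i) ≤
      2 * Real.exp C0 * Real.exp (-ε * i) := by
    gcongr; linarith
  have a5 : 0 ≤ K * Real.exp (-ε * J) := by positivity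
  linarith [d4 i]

omit [CompleteSpace H] in
theorem lyap_core {p : ℕ → H → ℝ} (hp : LyapSn p) (e : ℕ → H) (W : ℕ → ℕ → ℝ)
    (F1 : ∀ n j u, (∀ i < n, ⟪e i, u⟫_ℂ = 0) → ‖u‖ ≤ Real.exp (W n j) * p j u)
    (F2 : ∀ n j u, (∀ i < n, ⟪e i, u⟫_ℂ = 0) →
      ‖⟪e n, u⟫_ℂ‖ * Real.exp (W (n + 1) j - W n j) ≤ p j u)
    (F3 : ∀ n j, ∃ d : H, (∀ i < n, ⟪e i, d⟫_ℂ = 0) ∧ ⟪e n, d⟫_ℂ = 1 ∧
      p j d ≤ 2 * Real.exp (W (n + 1) j - W n j))
    (ρ : ℕ → ℝ) (hρ : ∀ n, Tendsto (fun j : ℕ => W n j / j) atTop (𝓝 (ρ n)))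
    (hanti : ∀ n j, W (n + 1) j ≤ W n j) (htail : ∀ ε : ℝ, 0 < ε → ∃ n, ρ n < ε)
    (hpos : 0 < ρ 1) :
    ∃ m : ℕ, ∃ η C : ℝ, 0 < η ∧ 0 ≤ C ∧ ∀ J : ℕ, ∃ d : H, ⟪e 0, d⟫_ℂ = 0 ∧ ⟪e m, d⟫_ℂ = 1 ∧
      ∀ i ≤ J, p i d ≤ C * Real.exp (-η * i) := by
  have hD : ∀ n, Tendsto (fun j : ℕ => (W (n + 1) j - W n j) / j) atTop
      (𝓝 (-(ρ n - ρ (n + 1)))) := fun n => by
    simpa only [sub_div, neg_sub] using (hρ (n + 1)).sub (hρ n)
  have hmono : Antitone ρ := antitone_nat_of_succ_le fun n =>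
    le_of_tendsto_of_tendsto' (hρ (n + 1)) (hρ n) fun j =>
      div_le_div_of_nonneg_right (hanti n j) (Nat.cast_nonneg j)
  have hinit : ∀ n r, ρ n < r → LyapL p e n r := by
    intro n r hr
    obtain ⟨C0, hC0⟩ := lyap_growth (hρ n) (sub_pos.2 hr)
    refine ⟨Real.exp C0, (Real.exp_pos _).le, fun j u hu => (F1 n j u hu).trans ?_⟩
    rw [← Real.exp_add]
    have := (abs_le.1 (hC0 j)).2
    have := hp.nonneg j u
    gcongr; linarith
  have claim : ∃ m, 1 ≤ m ∧ ∃ r, 0 < r ∧ LyapL p e (m + 1) r ∧ r < ρ m - ρ (m + 1) := by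
    by_contra hn
    push Not at hn
    have h1 : ∀ r0, 0 < r0 → ∀ n, 1 ≤ n → ∀ r, r0 < r → LyapL p e n r := by
      intro r0 hr0
      obtain ⟨n0, hn0⟩ := htail r0 hr0
      have : ∀ k n, 1 ≤ n → n0 ≤ n + k → ∀ r, r0 < r → LyapL p e n r := by
        intro k
        induction k with
        | zero => intro n _ h r hr; exact hinit n r (((hmono h).trans_lt hn0).trans hr)
        | succ k ih =>
          intro n h1 h r hr
          have hL := ih (n + 1) (by omega) (by omega) ((r0 + r) / 2) (by linarith)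
          exact lyap_step hp (hD n) (F2 n) (F3 n) hL (hn n h1 _ (by linarith) hL) (by linarith)
      exact fun n h => this n0 n h (by omega)
    have h2 : ∀ n, 1 ≤ n → ρ n ≤ ρ (n + 1) := by
      intro n h
      refine le_of_forall_pos_le_add fun ε hε => ?_
      have := hn n h ε hε (h1 (ε / 2) (by linarith) (n + 1) (by omega) ε (by linarith))
      linarith
    have h3 : ∀ n, 1 ≤ n → ρ 1 ≤ ρ n := by
      intro n h
      induction n, h using Nat.le_induction with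
      | base => exact le_rfl
      | succ n h ih => exact ih.trans (h2 n h)
    obtain ⟨n, hn'⟩ := htail _ hpos
    rcases Nat.eq_zero_or_pos n with rfl | h
    · exact absurd (hmono (Nat.zero_le 1)) (not_le.2 hn')
    · exact absurd (h3 n h) (not_le.2 hn')
  obtain ⟨m, hm, r, hr, hL, hσ⟩ := claim
  obtain ⟨η, C, hη, hC, h⟩ := lyap_end hp (hD m) (F3 m) hL hr hσ
  refine ⟨m, η, C, hη, hC, fun J => ?_⟩
  obtain ⟨d, d1, d2, d3⟩ := h J
  exact ⟨d, d1 0 hm, d2, d3⟩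

theorem lyap_time (J : ℕ) {τ : ℝ} (h1 : tt J ≤ τ) (h2 : τ ≤ 1) :
    ∃ i ≤ J, τ ≤ tt i ∧ tt i ≤ 4 * τ := by
  induction J with
  | zero =>
    rw [tt_zero] at h1
    exact ⟨0, le_rfl, by rwa [tt_zero], by rw [tt_zero]; linarith⟩
  | succ J ih =>
    rcases le_total (tt J) τ with h | h
    · obtain ⟨i, hi, h3⟩ := ih h
      exact ⟨i, hi.trans (Nat.le_succ J), h3⟩
    · rw [tt_succ] at h1
      exact ⟨J, Nat.le_succ J, h, by linarith⟩

/-- Lyapunov regularity argument at a fixed point `z`. -/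
theorem lyap (hy : Hyp T δ) (e : ℕ → H) (z : ℂ) (V : ℕ → ℕ → ℝ)
    (F1 : ∀ n j u, (∀ i < n, ⟪e i, u⟫_ℂ = 0) → ‖u‖ ^ 2 ≤ Real.exp (V n j) * qf T δ z (tt j) u)
    (F2 : ∀ n j u, (∀ i < n, ⟪e i, u⟫_ℂ = 0) →
      ‖⟪e n, u⟫_ℂ‖ ^ 2 * Real.exp (V (n + 1) j - V n j) ≤ qf T δ z (tt j) u)
    (F3 : ∀ n j, ∃ d : H, (∀ i < n, ⟪e i, d⟫_ℂ = 0) ∧ ⟪e n, d⟫_ℂ = 1 ∧
      qf T δ z (tt j) d ≤ 2 * Real.exp (V (n + 1) j - V n j))
    (ρ : ℕ → ℝ) (hρ : ∀ n, Tendsto (fun j : ℕ => V n j / j) atTop (𝓝 (ρ n)))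
    (hanti : ∀ n j, V (n + 1) j ≤ V n j) (htail : ∀ ε : ℝ, 0 < ε → ∃ n, ρ n < ε)
    (hpos : 0 < ρ 1) :
    ∃ m k : ℕ, ∀ J : ℕ, ∃ d : H, ⟪e 0, d⟫_ℂ = 0 ∧ ⟪e m, d⟫_ℂ = 1 ∧
      ∀ τ, tt J ≤ τ → τ ≤ 1 → qf T δ z τ d ≤ (k + 1) * τ ^ (1 / ((k : ℝ) + 1)) := by
  have hq : ∀ j u, 0 ≤ qf T δ z (tt j) u := fun j u => qf_nonneg hy z (tt_pos j) u
  have hexp : ∀ x : ℝ, Real.exp (x / 2) ^ 2 = Real.exp x := fun x => by
    rw [← Real.exp_nat_mul]; congr 1; push_cast; ring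
  have hp : LyapSn fun j u => √(qf T δ z (tt j) u) :=
    { nonneg := fun j u => Real.sqrt_nonneg _
      add := fun j u v => sqrt_qf_add hy z (tt_pos j) u v
      sub := fun j u v => sqrt_qf_sub hy z (tt_pos j) u v
      smul := fun j c u => by
        rw [qf_smul hy, Real.sqrt_mul (sq_nonneg _), Real.sqrt_sq (norm_nonneg _)]
      le := fun j u => Real.sqrt_le_iff.2 ⟨norm_nonneg _, qf_le hy z (tt_pos j) u⟩
      succ := fun j u => Real.sqrt_le_iff.2 ⟨by positivity, by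
        rw [mul_pow, Real.sq_sqrt (hq _ _)]
        linarith [qf_succ hy z j u]⟩ }
  obtain ⟨m, η, C, hη, hC, h⟩ := lyap_core hp e (fun n j => V n j / 2)
    (fun n j u hu => by
      refine le_of_sq_le_sq ?_ (by positivity)
      rw [mul_pow, hexp, Real.sq_sqrt (hq _ _)]
      exact F1 n j u hu)
    (fun n j u hu => by
      refine Real.le_sqrt_of_sq_le ?_
      rw [mul_pow, ← sub_div, hexp]
      exact F2 n j u hu)
    (fun n j => by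
      obtain ⟨d, d1, d2, d3⟩ := F3 n j
      refine ⟨d, d1, d2, Real.sqrt_le_iff.2 ⟨by positivity, ?_⟩⟩
      rw [mul_pow, ← sub_div, hexp]
      linarith [Real.exp_pos (V (n + 1) j - V n j)])
    (fun n => ρ n / 2)
    (fun n => by simpa only [div_right_comm] using (hρ n).div_const 2)
    (fun n j => by linarith [hanti n j])
    (fun ε hε => by
      obtain ⟨n, hn⟩ := htail (2 * ε) (by linarith)
      exact ⟨n, by linarith⟩)
    (by linarith)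
  have hl4 : 0 < Real.log 4 := Real.log_pos (by norm_num)
  obtain ⟨k, hk⟩ := exists_nat_ge (4 * C ^ 2 + Real.log 4 / (2 * η))
  have hk0 : (0 : ℝ) < (k : ℝ) + 1 := by positivity
  have hk1 : 4 * C ^ 2 ≤ (k : ℝ) + 1 := by
    have : 0 ≤ Real.log 4 / (2 * η) := by positivity
    linarith
  have hk2 : Real.log 4 * (1 / ((k : ℝ) + 1)) ≤ 2 * η := by
    have : Real.log 4 / (2 * η) ≤ (k : ℝ) + 1 := by nlinarith [sq_nonneg C]
    rw [div_le_iff₀ (by positivity)] at this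
    rw [mul_one_div, div_le_iff₀ hk0]
    linarith
  refine ⟨m, k, fun J => ?_⟩
  obtain ⟨d, d1, d2, d3⟩ := h J
  refine ⟨d, d1, d2, fun τ h1 h2 => ?_⟩
  obtain ⟨i, hi, h3, h4⟩ := lyap_time J h1 h2
  have hτ : 0 < τ := (tt_pos J).trans_le h1
  have a1 := qf_mono hy z hτ h3 d
  have a2 : qf T δ z (tt i) d ≤ (C * Real.exp (-η * i)) ^ 2 := (Real.sqrt_le_iff.1 (d3 i hi)).2
  have hg0 : 0 ≤ 1 / ((k : ℝ) + 1) := by positivity
  have hg1 : 1 / ((k : ℝ) + 1) ≤ 1 := by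
    rw [div_le_one hk0]; linarith [Nat.cast_nonneg (α := ℝ) k]
  have a3 : Real.exp (-η * i) ^ 2 ≤ tt i ^ (1 / ((k : ℝ) + 1)) := by
    rw [tt_eq_exp, ← Real.exp_mul, ← Real.exp_nat_mul, Real.exp_le_exp]
    have := mul_le_mul_of_nonneg_left hk2 (Nat.cast_nonneg (α := ℝ) i)
    push_cast
    nlinarith
  have a4 : tt i ^ (1 / ((k : ℝ) + 1)) ≤ 4 * τ ^ (1 / ((k : ℝ) + 1)) := by
    refine (Real.rpow_le_rpow (tt_pos i).le h4 hg0).trans ?_
    rw [Real.mul_rpow (by norm_num) hτ.le]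
    refine mul_le_mul_of_nonneg_right ?_ (Real.rpow_nonneg hτ.le _)
    simpa using Real.rpow_le_rpow_of_exponent_le (show (1 : ℝ) ≤ 4 by norm_num) hg1
  have a5 : 0 ≤ τ ^ (1 / ((k : ℝ) + 1)) := Real.rpow_nonneg hτ.le _
  calc _ ≤ C ^ 2 * Real.exp (-η * i) ^ 2 := by rw [← mul_pow]; exact a1.trans a2
    _ ≤ C ^ 2 * (4 * τ ^ (1 / ((k : ℝ) + 1))) :=
        mul_le_mul_of_nonneg_left (a3.trans a4) (sq_nonneg C)
    _ = 4 * C ^ 2 * τ ^ (1 / ((k : ℝ) + 1)) := by ring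
    _ ≤ _ := mul_le_mul_of_nonneg_right hk1 a5

end Pool.Agent.P.MP_f981b0_an.Hy
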