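import Pool.Agent.P.MP_f981b0_an.Hy.Rate1

set_option autoImplicit false

open scoped InnerProductSpace ComplexConjugate
open MeasureTheory Filter Topology

noncomputable section

namespace Pool.Agent.P.MP_f981b0_an.Hy

variable {H : Type*} [NormedAddCommGroup H] [InnerProductSpace ℂ H] [CompleteSpace H]

/-- The index of the dyadic square of level `n` containing `p`. -/
def Rate_ix (n : ℕ) (p : ℝ × ℝ) : ℤ × ℤ := (⌊2 ^ n * p.1⌋, ⌊2 ^ n * p.2⌋)

theorem Rate_ix_meas (n : ℕ) : Measurable (Rate_ix n) :=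
  (Measurable.floor (by fun_prop)).prodMk (Measurable.floor (by fun_prop))

theorem Rate_floor (n : ℕ) (x : ℝ) (k : ℤ) :
    ⌊2 ^ n * x⌋ = k ↔ x ∈ Set.Ico ((k : ℝ) / 2 ^ n) (k / 2 ^ n + 1 / 2 ^ n) := by
  have h : (0 : ℝ) < 2 ^ n := by positivity
  rw [Int.floor_eq_iff, Set.mem_Ico, ← add_div, div_le_iff₀ h, lt_div_iff₀ h, mul_comm x]

theorem Rate_fib (n : ℕ) (k : ℤ × ℤ) : Rate_ix n ⁻¹' {k} =
    Set.Ico ((k.1 : ℝ) / 2 ^ n) (k.1 / 2 ^ n + 1 / 2 ^ n) ×ˢ
      Set.Ico ((k.2 : ℝ) / 2 ^ n) (k.2 / 2 ^ n + 1 / 2 ^ n) := by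
  ext p
  simp only [Set.mem_preimage, Set.mem_singleton_iff, Set.mem_prod, ← Rate_floor, Rate_ix,
    Prod.ext_iff]

theorem Rate_vol (x y l : ℝ) (hl : 0 ≤ l) :
    volume (Set.Ico x (x + l) ×ˢ Set.Ico y (y + l)) = ENNReal.ofReal (l * l) := by
  rw [Measure.volume_eq_prod, Measure.prod_prod, Real.volume_Ico, Real.volume_Ico,
    add_sub_cancel_left, add_sub_cancel_left, ENNReal.ofReal_mul hl]

theorem Rate_fac {m n : ℕ} (h : m ≤ n) : ∃ ψ : ℤ × ℤ → ℤ × ℤ, Rate_ix m = ψ ∘ Rate_ix n := by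
  obtain ⟨r, rfl⟩ := Nat.exists_eq_add_of_le h
  refine ⟨fun k => (k.1 / (2 ^ r : ℕ), k.2 / (2 ^ r : ℕ)), funext fun p => ?_⟩
  have : ∀ x : ℝ, 2 ^ (m + r) * x / (2 ^ r : ℕ) = 2 ^ m * x := fun x => by
    push_cast
    rw [pow_add]
    field_simp
  simp only [Rate_ix, Function.comp_apply, ← Int.floor_div_natCast, this]

/-- The filtration of dyadic squares of level `i ^ 2`. -/
def Rate_fil : Filtration ℕ (inferInstance : MeasurableSpace (ℝ × ℝ)) where
  seq i := MeasurableSpace.comap (Rate_ix (i ^ 2)) inferInstance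
  mono' i j h := by
    obtain ⟨ψ, hψ⟩ := Rate_fac (Nat.pow_le_pow_left h 2)
    simp only [hψ]
    exact ((measurable_of_countable ψ).comp (comap_measurable _)).comap_le
  le' i := (Rate_ix_meas _).comap_le

theorem Rate_set {f : ℝ × ℝ → ℝ} (k0 : ℤ × ℤ) (hf : IntegrableOn f (Rate_ix 0 ⁻¹' {k0})) {n : ℕ}
    (h : ∀ k, ∫ p in Rate_ix n ⁻¹' {k}, f p ≤ 0) (t : Set (ℤ × ℤ)) :
    ∫ p in Rate_ix n ⁻¹' t, f p ∂(volume.restrict (Rate_ix 0 ⁻¹' {k0})) ≤ 0 := by
  obtain ⟨ψ, hψ⟩ := Rate_fac (Nat.zero_le n)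
  have e : Rate_ix n ⁻¹' t ∩ Rate_ix 0 ⁻¹' {k0} =
      ⋃ k : {k // k ∈ t ∧ ψ k = k0}, Rate_ix n ⁻¹' {k.1} := by
    ext p
    simp [hψ]
  rw [Measure.restrict_restrict (Rate_ix_meas n (Set.to_countable t).measurableSet), e]
  refine (hasSum_integral_iUnion (fun k => Rate_ix_meas n (measurableSet_singleton _))
    (fun k k' hk => ?_) (e ▸ hf.mono_set Set.inter_subset_right)).nonpos fun k => h _
  exact Disjoint.preimage _ (Set.disjoint_singleton.2 fun h => hk (Subtype.ext h))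

theorem Rate_seq {u : ℕ → ℝ} {c : ℝ} (hc : 0 ≤ c) (h : ∀ j, u (j + 1) - u j ≤ c * (1 + j) / 2 ^ j)
    {a b e : ℕ} (hab : a < b) (hbe : b < e) :
    (∑ j ∈ Finset.Ico b e, u j) / ((e : ℝ) - b) ≤
      (∑ j ∈ Finset.Ico a b, u j) / ((b : ℝ) - a) + 2 * c * (a + 2) / 2 ^ a := by
  have h1 : Antitone fun j : ℕ => u j + 2 * c * (j + 2) / 2 ^ j := by
    refine antitone_nat_of_succ_le fun j => ?_
    have : 2 * c * ((j : ℝ) + 2) / 2 ^ j =
        2 * c * (((j + 1 : ℕ) : ℝ) + 2) / 2 ^ (j + 1) + c * (1 + j) / 2 ^ j := by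
      push_cast
      field_simp
      ring
    linarith [h j]
  have h2 : Antitone fun j : ℕ => 2 * c * ((j : ℝ) + 2) / 2 ^ j := by
    refine antitone_nat_of_succ_le fun j => ?_
    have : 2 * c * ((j : ℝ) + 2) / 2 ^ j =
        2 * c * (((j + 1 : ℕ) : ℝ) + 2) / 2 ^ (j + 1) + c * (1 + j) / 2 ^ j := by
      push_cast
      field_simp
      ring
    have : 0 ≤ c * (1 + (j : ℝ)) / 2 ^ j := by positivity
    linarith
  have p1 : (0 : ℝ) < (e : ℝ) - b := sub_pos.2 (by exact_mod_cast hbe)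
  have p2 : (0 : ℝ) < (b : ℝ) - a := sub_pos.2 (by exact_mod_cast hab)
  have a1 := Finset.sum_le_card_nsmul (Finset.Ico b e) u (u b + 2 * c * (b + 2) / 2 ^ b)
    fun j hj => by
      have := h1 (Finset.mem_Ico.1 hj).1
      have : 0 ≤ 2 * c * ((j : ℝ) + 2) / 2 ^ j := by positivity
      linarith
  have a2 := Finset.card_nsmul_le_sum (Finset.Ico a b) u
    (u b + 2 * c * (b + 2) / 2 ^ b - 2 * c * (a + 2) / 2 ^ a) fun j hj => by
      have := h1 (Finset.mem_Ico.1 hj).2.le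
      have := h2 (Finset.mem_Ico.1 hj).1
      linarith
  rw [Nat.card_Ico, nsmul_eq_mul, Nat.cast_sub hbe.le, mul_comm, ← div_le_iff₀ p1] at a1
  rw [Nat.card_Ico, nsmul_eq_mul, Nat.cast_sub hab.le, mul_comm, ← le_div_iff₀ p2] at a2
  linarith

theorem Rate_theta : Summable fun i : ℕ => (((i : ℝ) + 2) ^ 2 + 2) / 2 ^ i := by
  have h := fun k => summable_pow_mul_geometric_of_norm_lt_one (R := ℝ) k (r := 1 / 2)
    (by rw [Real.norm_of_nonneg] <;> norm_num)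
  refine (((h 2).add ((h 1).mul_left 4)).add ((h 0).mul_left 6)).congr fun i => ?_
  rw [one_div_pow]
  field_simp
  ring

/-- The rate theorem. -/
theorem rate (W : ℕ → ℝ × ℝ → ℝ) (C : ℝ)
    (hinc : ∀ j p, 0 ≤ W (j + 1) p - W j p ∧ W (j + 1) p - W j p ≤ 2)
    (hlip : ∀ j p q, |W j p - W j q| ≤ C * (1 + j) * 2 ^ j * (|p.1 - q.1| + |p.2 - q.2|))
    (hsec : ∀ (j : ℕ) (x y l : ℝ), 0 ≤ l →
      ∫ p in Set.Ico x (x + l) ×ˢ Set.Ico y (y + l),
        (W (j + 2) p - 2 * W (j + 1) p + W j p) ≤ C * (1 + j) / 2 ^ j * l) :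
    ∀ᵐ p : ℝ × ℝ, ∃ ρ : ℝ, Tendsto (fun j : ℕ => W j p / j) atTop (𝓝 ρ) := by
  have hC : 0 ≤ C := by simpa using (abs_nonneg _).trans (hlip 0 (1, 0) (0, 0))
  have hW : ∀ j, Measurable (W j) := fun j => by
    refine (LipschitzWith.of_dist_le' (K := C * (1 + j) * 2 ^ j * 2) fun p q =>
      (hlip j p q).trans ?_).continuous.measurable
    rw [mul_assoc _ 2]
    refine mul_le_mul_of_nonneg_left ?_ (by positivity)
    have a1 : |p.1 - q.1| ≤ dist p q := le_max_left _ _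
    have a2 : |p.2 - q.2| ≤ dist p q := le_max_right _ _
    linarith
  have hU : ∀ j p, |W (j + 1) p - W j p| ≤ 2 := fun j p =>
    abs_le.2 ⟨by linarith [(hinc j p).1], (hinc j p).2⟩
  have tel : ∀ a b p, a ≤ b → W b p - W a p = ∑ j ∈ Finset.Ico a b, (W (j + 1) p - W j p) :=
    fun a b p h => (Finset.sum_Ico_sub (fun j => W j p) h).symm
  have cast : ∀ i : ℕ, (((i + 2) ^ 2 : ℕ) : ℝ) - ((i + 1) ^ 2 : ℕ) = 2 * i + 3 := fun i => by
    push_cast
    ring
  have lt : ∀ i : ℕ, (i + 1) ^ 2 < (i + 2) ^ 2 := fun i => Nat.pow_lt_pow_left (by omega) two_ne_zero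
  let Y : ℕ → ℝ × ℝ → ℝ := fun i p => (W ((i + 2) ^ 2) p - W ((i + 1) ^ 2) p) / (2 * i + 3)
  have hYm : ∀ i, Measurable (Y i) := fun i => ((hW _).sub (hW _)).div_const _
  have hYb : ∀ i p, |Y i p| ≤ 2 := fun i p => by
    have h0 : (0 : ℝ) < 2 * i + 3 := by positivity
    simp only [Y]
    rw [abs_div, abs_of_pos h0, div_le_iff₀ h0, tel _ _ p (lt i).le]
    refine (Finset.abs_sum_le_sum_abs _ _).trans
      ((Finset.sum_le_card_nsmul _ _ 2 fun j _ => hU j p).trans ?_)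
    rw [Nat.card_Ico, nsmul_eq_mul, Nat.cast_sub (lt i).le, cast, mul_comm]
  let θ : ℕ → ℝ := fun i => 4 * C * ((((i : ℝ) + 2) ^ 2 + 2) / 2 ^ i)
  have hθ0 : ∀ i, 0 ≤ θ i := fun i => by positivity
  have hθ : Summable θ := Rate_theta.mul_left _
  let g : ℕ → ℝ × ℝ → ℝ := fun i p => Y i
    ((Rate_ix ((i + 3) ^ 2) p).1 / 2 ^ ((i + 3) ^ 2), (Rate_ix ((i + 3) ^ 2) p).2 / 2 ^ ((i + 3) ^ 2))
  have hgm : ∀ i, StronglyMeasurable[Rate_fil (i + 3)] (g i) := fun i =>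
    ((measurable_of_countable fun k : ℤ × ℤ =>
      Y i (k.1 / 2 ^ ((i + 3) ^ 2), k.2 / 2 ^ ((i + 3) ^ 2))).comp
        (comap_measurable _)).stronglyMeasurable
  have hg1 : ∀ (i : ℕ) p, |(2 * (i : ℝ) + 3) * (Y i p - g i p)| ≤ θ i := by
    intro i p
    set q : ℝ × ℝ := ((Rate_ix ((i + 3) ^ 2) p).1 / 2 ^ ((i + 3) ^ 2),
      (Rate_ix ((i + 3) ^ 2) p).2 / 2 ^ ((i + 3) ^ 2)) with hq
    have a1 := (Rate_floor ((i + 3) ^ 2) p.1 _).1 rfl
    have a2 := (Rate_floor ((i + 3) ^ 2) p.2 _).1 rfl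
    have a3 : |p.1 - q.1| + |p.2 - q.2| ≤ 2 / 2 ^ ((i + 3) ^ 2) := by
      simp only [hq, Rate_ix]
      rw [abs_of_nonneg (sub_nonneg.2 a1.1), abs_of_nonneg (sub_nonneg.2 a2.1)]
      have : (2 : ℝ) / 2 ^ ((i + 3) ^ 2) = 1 / 2 ^ ((i + 3) ^ 2) + 1 / 2 ^ ((i + 3) ^ 2) := by ring
      linarith [a1.2, a2.2]
    have a4 : ∀ j, j ≤ (i + 2) ^ 2 → |W j p - W j q| ≤ θ i / 2 := by
      intro j hj
      have b1 : (j : ℝ) ≤ (i + 2) ^ 2 := by exact_mod_cast hj
      have b2 : (2 : ℝ) ^ j * 2 ^ i ≤ 2 ^ ((i + 3) ^ 2) := by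
        rw [← pow_add]
        exact pow_le_pow_right₀ one_le_two (by nlinarith)
      have b3 : (2 : ℝ) ^ j * (2 / 2 ^ ((i + 3) ^ 2)) ≤ 2 / 2 ^ i := by
        rw [← mul_div_assoc, div_le_div_iff₀ (by positivity) (by positivity)]
        linarith
      calc _ ≤ C * (1 + j) * 2 ^ j * (2 / 2 ^ ((i + 3) ^ 2)) :=
            (hlip j p q).trans (mul_le_mul_of_nonneg_left a3 (by positivity))
        _ ≤ C * ((i + 2) ^ 2 + 2) * (2 / 2 ^ i) := by
            rw [mul_assoc]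
            exact mul_le_mul (mul_le_mul_of_nonneg_left (by linarith) hC) b3 (by positivity)
              (by positivity)
        _ = _ := by
            simp only [θ]
            ring
    have e : (2 * (i : ℝ) + 3) * (Y i p - g i p) = (W ((i + 2) ^ 2) p - W ((i + 2) ^ 2) q) -
        (W ((i + 1) ^ 2) p - W ((i + 1) ^ 2) q) := by
      change (2 * (i : ℝ) + 3) * (Y i p - Y i q) = _
      simp only [Y]
      field_simp
      ring
    rw [e]
    linarith [abs_sub (W ((i + 2) ^ 2) p - W ((i + 2) ^ 2) q)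
      (W ((i + 1) ^ 2) p - W ((i + 1) ^ 2) q), a4 _ le_rfl, a4 _ (lt i).le]
  have hg2 : ∀ i p, |Y i p - g i p| ≤ θ i := fun i p => by
    refine le_trans ?_ (hg1 i p)
    rw [abs_mul, abs_of_pos (by positivity : (0 : ℝ) < 2 * i + 3)]
    exact le_mul_of_one_le_left (abs_nonneg _) (by linarith [Nat.cast_nonneg (α := ℝ) i])
  have hfin : ∀ n k, IsFiniteMeasure (volume.restrict (Rate_ix n ⁻¹' {k})) := fun n k => by
    rw [isFiniteMeasure_restrict, Rate_fib, Rate_vol _ _ _ (by positivity)]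
    exact ENNReal.ofReal_ne_top
  have hsq : ∀ i k, ∫ p in Rate_ix (i ^ 2) ⁻¹' {k}, (Y (i + 1) p - Y i p - θ i) ≤ 0 := by
    intro i k
    have := hfin (i ^ 2) k
    have iY : ∀ i', IntegrableOn (Y i') (Rate_ix (i ^ 2) ⁻¹' {k}) := fun i' =>
      Rate_int (hYm i').aestronglyMeasurable (ae_of_all _ (hYb i'))
    have iU : ∀ j, IntegrableOn (fun p => W (j + 1) p - W j p) (Rate_ix (i ^ 2) ⁻¹' {k}) :=
      fun j => Rate_int ((hW _).sub (hW _)).aestronglyMeasurable (ae_of_all _ (hU j))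
    have iD : IntegrableOn (fun p => Y (i + 1) p - Y i p) (Rate_ix (i ^ 2) ⁻¹' {k}) :=
      (iY _).sub (iY _)
    set l : ℝ := 1 / 2 ^ (i ^ 2) with hl
    have hl0 : 0 ≤ l := by positivity
    have a1 : ∀ i' : ℕ, ∫ p in Rate_ix (i ^ 2) ⁻¹' {k}, Y i' p =
        (∑ j ∈ Finset.Ico ((i' + 1) ^ 2) ((i' + 2) ^ 2),
          ∫ p in Rate_ix (i ^ 2) ⁻¹' {k}, (W (j + 1) p - W j p)) /
          ((((i' + 2) ^ 2 : ℕ) : ℝ) - ((i' + 1) ^ 2 : ℕ)) := fun i' => by
      simp only [Y, fun p => tel _ _ p (lt i').le]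
      rw [integral_div, integral_finsetSum _ fun j _ => iU j, cast]
    have a2 := Rate_seq (u := fun j => ∫ p in Rate_ix (i ^ 2) ⁻¹' {k}, (W (j + 1) p - W j p))
      (c := C * l) (by positivity) (fun j => by
        have b1 := hsec j (k.1 / 2 ^ (i ^ 2)) (k.2 / 2 ^ (i ^ 2)) l hl0
        have b2 : (fun p => W (j + 1 + 1) p - W (j + 1) p - (W (j + 1) p - W j p)) =
            fun p => W (j + 2) p - 2 * W (j + 1) p + W j p := by
          funext p
          ring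
        rw [← integral_sub (iU _) (iU _), Rate_fib, b2]
        exact b1.trans (le_of_eq (by ring))) (lt i) (lt (i + 1))
    have a3 : volume.real (Rate_ix (i ^ 2) ⁻¹' {k}) = l * l := by
      rw [Measure.real, Rate_fib, Rate_vol _ _ _ hl0, ENNReal.toReal_ofReal (by positivity)]
    have a4 : 2 * (C * l) * ((((i + 1) ^ 2 : ℕ) : ℝ) + 2) / 2 ^ ((i + 1) ^ 2) ≤ l * l * θ i := by
      have b1 : 1 / (2 : ℝ) ^ ((i + 1) ^ 2) ≤ l * (1 / 2 ^ i) := by
        rw [hl, one_div_mul_one_div, ← pow_add]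
        exact one_div_le_one_div_of_le (by positivity)
          (pow_le_pow_right₀ one_le_two (by nlinarith))
      have b2 : (0 : ℝ) ≤ i := Nat.cast_nonneg i
      calc _ = 2 * (C * l) * (((i : ℝ) + 1) ^ 2 + 2) * (1 / 2 ^ ((i + 1) ^ 2)) := by
            push_cast
            ring
        _ ≤ 4 * (C * l) * (((i : ℝ) + 2) ^ 2 + 2) * (l * (1 / 2 ^ i)) := by
            gcongr <;> linarith
        _ = _ := by
            simp only [θ]
            ring
    rw [integral_sub iD (integrable_const _), integral_sub (iY _) (iY _), a1, a1,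
      setIntegral_const, a3, smul_eq_mul]
    linarith
  have cover : ⋃ k : ℤ × ℤ, Rate_ix 0 ⁻¹' {k} = Set.univ := by
    ext p
    simp
  rw [← Measure.restrict_univ (μ := (volume : Measure (ℝ × ℝ))), ← cover, ae_restrict_iUnion_iff]
  intro k0
  have := hfin 0 k0
  set μ : Measure (ℝ × ℝ) := volume.restrict (Rate_ix 0 ⁻¹' {k0}) with hμ
  have iY : ∀ i, Integrable (Y i) μ := fun i =>
    Rate_int (hYm i).aestronglyMeasurable (ae_of_all _ (hYb i))
  have ig : ∀ i, Integrable (g i) μ := fun i =>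
    Rate_int ((hgm i).mono (Rate_fil.le _)).aestronglyMeasurable (ae_of_all _ fun p => hYb i _)
  have key := Rate_core (μ := μ) Rate_fil hgm (fun i p => hYb i _)
    (ε := fun i => θ i + θ i + θ (i + 1)) (fun i => by
      have := hθ0 i
      have := hθ0 (i + 1)
      positivity) ((hθ.add hθ).add ((summable_nat_add_iff 1).2 hθ)) (by
      rintro i _ ⟨t, -, rfl⟩
      have iD : Integrable (fun p => Y (i + 1) p - Y i p) μ := (iY _).sub (iY _)
      have a1 := Rate_set k0 (f := fun p => Y (i + 1) p - Y i p - θ i)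
        (iD.sub (integrable_const _)) (hsq i) t
      rw [← hμ, integral_sub iD.integrableOn (integrable_const _),
        integral_sub (iY _).integrableOn (iY _).integrableOn, setIntegral_const] at a1
      have a2 : ∀ j, |∫ p in Rate_ix (i ^ 2) ⁻¹' t, Y j p ∂μ - ∫ p in Rate_ix (i ^ 2) ⁻¹' t, g j p ∂μ|
          ≤ θ j * μ.real (Rate_ix (i ^ 2) ⁻¹' t) := fun j => by
        rw [← integral_sub (iY _).integrableOn (ig _).integrableOn]
        exact norm_setIntegral_le_of_norm_le_const (f := fun p => Y j p - g j p)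
          (measure_lt_top _ _) fun p _ => hg2 j p
      rw [smul_eq_mul] at a1
      linarith [(abs_le.1 (a2 i)).2, (abs_le.1 (a2 (i + 1))).1])
  filter_upwards [key] with p ⟨ρ, hρ⟩
  refine ⟨ρ, tendsto_div_of_monotone_of_exists_subseq_tendsto_div (fun j => W j p) ρ
    (monotone_nat_of_le_succ fun j => by linarith [(hinc j p).1]) fun a ha =>
    ⟨fun k => (k ^ 2 + 1) ^ 2, ?_, ?_, ?_⟩⟩
  · have t1 : Tendsto (fun k : ℕ => (1 + ((k : ℝ) + 1)⁻¹ * 4) ^ 2) atTop (𝓝 ((1 + 0 * 4) ^ 2)) :=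
      (((tendsto_atTop_add_const_right _ 1
        tendsto_natCast_atTop_atTop).inv_tendsto_atTop.mul_const 4).const_add 1).pow 2
    filter_upwards [t1.eventually (ge_mem_nhds (by simpa using ha))] with k hk
    have b0 : (0 : ℝ) ≤ k := Nat.cast_nonneg k
    refine le_trans ?_ (mul_le_mul_of_nonneg_right hk (Nat.cast_nonneg _))
    push_cast
    rw [← mul_pow]
    refine pow_le_pow_left₀ (by positivity) ?_ 2
    have b1 : 2 * (k : ℝ) + 1 ≤ ((k : ℝ) + 1)⁻¹ * 4 * (k ^ 2 + 1) := by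
      rw [mul_assoc, ← div_eq_inv_mul, le_div_iff₀ (by positivity)]
      nlinarith [sq_nonneg ((k : ℝ) - 1)]
    nlinarith
  · exact (tendsto_pow_atTop two_ne_zero).comp
      ((tendsto_add_atTop_nat 1).comp (tendsto_pow_atTop two_ne_zero))
  · have t1 : Tendsto (fun k : ℕ => ((((k ^ 2 : ℕ) : ℝ) + 1) ^ 2)⁻¹) atTop (𝓝 0) :=
      ((tendsto_pow_atTop two_ne_zero).comp (tendsto_atTop_add_const_right _ 1
        (tendsto_natCast_atTop_atTop.comp (tendsto_pow_atTop two_ne_zero)))).inv_tendsto_atTop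
    have e : ∀ m : ℕ, W ((m + 1) ^ 2) p = ∑ i ∈ Finset.range m, (2 * (i : ℝ) + 3) * g i p +
        (W 1 p + ∑ i ∈ Finset.range m, (2 * (i : ℝ) + 3) * (Y i p - g i p)) := by
      intro m
      induction m with
      | zero => simp
      | succ m ih =>
        have : (2 * (m : ℝ) + 3) * Y m p = W ((m + 2) ^ 2) p - W ((m + 1) ^ 2) p := by
          simp only [Y]
          field_simp
        rw [Finset.sum_range_succ, Finset.sum_range_succ]
        linarith
    have t2 : Tendsto (fun k : ℕ => (W 1 p + ∑ i ∈ Finset.range (k ^ 2),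
        (2 * (i : ℝ) + 3) * (Y i p - g i p)) * ((((k ^ 2 : ℕ) : ℝ) + 1) ^ 2)⁻¹) atTop (𝓝 0) := by
      refine bdd_le_mul_tendsto_zero' (|W 1 p| + ∑' i, θ i) (Eventually.of_forall fun k => ?_) t1
      exact (abs_add_le _ _).trans (add_le_add le_rfl ((Finset.abs_sum_le_sum_abs _ _).trans
        ((Finset.sum_le_sum fun i _ => hg1 i p).trans (hθ.sum_le_tsum _ fun i _ => hθ0 i))))
    have t3 := hρ.add t2
    rw [add_zero] at t3
    refine t3.congr fun k => ?_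
    rw [e (k ^ 2)]
    push_cast
    ring

end Pool.Agent.P.MP_f981b0_an.Hy
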