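import Pool.Agent.P.MP_f981b0_an.Hy.Defs

set_option autoImplicit false

open scoped InnerProductSpace ComplexConjugate
open MeasureTheory Filter Topology

noncomputable section

namespace Pool.Agent.P.MP_f981b0_an.Hy

variable {H : Type*} [NormedAddCommGroup H] [InnerProductSpace ℂ H] [CompleteSpace H]

/-- Directional derivative. -/
def tpD (v : ℝ × ℝ × ℝ) (f : ℝ × ℝ × ℝ → ℝ) (p : ℝ × ℝ × ℝ) : ℝ := fderiv ℝ f p v

theorem tp_contDiff {f : ℝ × ℝ × ℝ → ℝ} (hf : ContDiff ℝ 2 f) (v : ℝ × ℝ × ℝ) :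
    ContDiff ℝ 1 (tpD v f) := by
  have h1 : ContDiff ℝ 1 (fderiv ℝ f) := hf.fderiv_right (by norm_num)
  exact h1.clm_apply contDiff_const

theorem tp_cont {f : ℝ × ℝ × ℝ → ℝ} (hf : ContDiff ℝ 1 f) (v : ℝ × ℝ × ℝ) :
    Continuous (tpD v f) := by
  have h1 : Continuous (fderiv ℝ f) := hf.continuous_fderiv (by norm_num)
  exact h1.clm_apply continuous_const

theorem tp_x {f : ℝ × ℝ × ℝ → ℝ} (hf : ContDiff ℝ 1 f) (x y τ : ℝ) :
    HasDerivAt (fun s => f (s, y, τ)) (tpD (1, 0, 0) f (x, y, τ)) x := by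
  have h1 : HasFDerivAt f (fderiv ℝ f (x, y, τ)) (x, y, τ) :=
    (hf.differentiable (by norm_num) _).hasFDerivAt
  have h2 : HasDerivAt (fun s : ℝ => ((s, y, τ) : ℝ × ℝ × ℝ)) (1, 0, 0) x :=
    (hasDerivAt_id x).prodMk ((hasDerivAt_const x y).prodMk (hasDerivAt_const x τ))
  exact h1.comp_hasDerivAt x h2

theorem tp_y {f : ℝ × ℝ × ℝ → ℝ} (hf : ContDiff ℝ 1 f) (x y τ : ℝ) :
    HasDerivAt (fun s => f (x, s, τ)) (tpD (0, 1, 0) f (x, y, τ)) y := by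
  have h1 : HasFDerivAt f (fderiv ℝ f (x, y, τ)) (x, y, τ) :=
    (hf.differentiable (by norm_num) _).hasFDerivAt
  have h2 : HasDerivAt (fun s : ℝ => ((x, s, τ) : ℝ × ℝ × ℝ)) (0, 1, 0) y :=
    (hasDerivAt_const y x).prodMk ((hasDerivAt_id y).prodMk (hasDerivAt_const y τ))
  exact h1.comp_hasDerivAt y h2

theorem tp_t {f : ℝ × ℝ × ℝ → ℝ} (hf : ContDiff ℝ 1 f) (x y τ : ℝ) :
    HasDerivAt (fun s => f (x, y, s)) (tpD (0, 0, 1) f (x, y, τ)) τ := by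
  have h1 : HasFDerivAt f (fderiv ℝ f (x, y, τ)) (x, y, τ) :=
    (hf.differentiable (by norm_num) _).hasFDerivAt
  have h2 : HasDerivAt (fun s : ℝ => ((x, y, s) : ℝ × ℝ × ℝ)) (0, 0, 1) τ :=
    (hasDerivAt_const τ x).prodMk ((hasDerivAt_const τ y).prodMk (hasDerivAt_id τ))
  exact h1.comp_hasDerivAt τ h2

theorem tp_dx {f : ℝ × ℝ × ℝ → ℝ} (hf : ContDiff ℝ 2 f) (x y τ : ℝ) :
    dx f (x, y, τ) = tpD (1, 0, 0) f (x, y, τ) :=
  (tp_x (hf.of_le (by norm_num)) x y τ).deriv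

theorem tp_dy {f : ℝ × ℝ × ℝ → ℝ} (hf : ContDiff ℝ 2 f) (x y τ : ℝ) :
    dy f (x, y, τ) = tpD (0, 1, 0) f (x, y, τ) :=
  (tp_y (hf.of_le (by norm_num)) x y τ).deriv

theorem tp_dxx {f : ℝ × ℝ × ℝ → ℝ} (hf : ContDiff ℝ 2 f) (x y τ : ℝ) :
    dxx f (x, y, τ) = tpD (1, 0, 0) (tpD (1, 0, 0) f) (x, y, τ) := by
  have e : deriv (fun s => f (s, y, τ)) = fun s => tpD (1, 0, 0) f (s, y, τ) :=
    funext fun s => (tp_x (hf.of_le (by norm_num)) s y τ).deriv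
  change deriv (deriv (fun s => f (s, y, τ))) x = _
  rw [e]
  exact (tp_x (tp_contDiff hf _) x y τ).deriv

theorem tp_dyy {f : ℝ × ℝ × ℝ → ℝ} (hf : ContDiff ℝ 2 f) (x y τ : ℝ) :
    dyy f (x, y, τ) = tpD (0, 1, 0) (tpD (0, 1, 0) f) (x, y, τ) := by
  have e : deriv (fun s => f (x, s, τ)) = fun s => tpD (0, 1, 0) f (x, s, τ) :=
    funext fun s => (tp_y (hf.of_le (by norm_num)) x s τ).deriv
  change deriv (deriv (fun s => f (x, s, τ))) y = _
  rw [e]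
  exact (tp_y (tp_contDiff hf _) x y τ).deriv

theorem tp_dtt {f : ℝ × ℝ × ℝ → ℝ} (hf : ContDiff ℝ 2 f) (x y τ : ℝ) :
    dtt f (x, y, τ) = tpD (0, 0, 1) (tpD (0, 0, 1) f) (x, y, τ) := by
  have e : deriv (fun s => f (x, y, s)) = fun s => tpD (0, 0, 1) f (x, y, s) :=
    funext fun s => (tp_t (hf.of_le (by norm_num)) x y s).deriv
  change deriv (deriv (fun s => f (x, y, s))) τ = _
  rw [e]
  exact (tp_t (tp_contDiff hf _) x y τ).deriv

/-- Continuous functions are integrable on the rectangle. -/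
theorem tp_intR {g : ℝ × ℝ → ℝ} (hg : Continuous g) (x0 x1 y0 y1 : ℝ) :
    IntegrableOn g (Set.Ico x0 x1 ×ˢ Set.Ico y0 y1) := by
  have hK : IsCompact (Set.Icc x0 x1 ×ˢ Set.Icc y0 y1) := isCompact_Icc.prod isCompact_Icc
  exact (hg.continuousOn.integrableOn_compact hK).mono_set
    (Set.prod_mono Set.Ico_subset_Icc_self Set.Ico_subset_Icc_self)

theorem tp_slice {g : ℝ × ℝ × ℝ → ℝ} (hg : Continuous g) (τ : ℝ) :
    Continuous (fun p : ℝ × ℝ => g (p.1, p.2, τ)) :=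
  hg.comp (by fun_prop)

/-- Fubini on the box. -/
theorem tp_swap {g : ℝ × ℝ × ℝ → ℝ} (hg : Continuous g) (x0 x1 y0 y1 a b : ℝ) :
    ∫ τ in a..b, ∫ p in Set.Ico x0 x1 ×ˢ Set.Ico y0 y1, g (p.1, p.2, τ)
      = ∫ p in Set.Ico x0 x1 ×ˢ Set.Ico y0 y1, ∫ τ in a..b, g (p.1, p.2, τ) := by
  refine intervalIntegral_integral_swap (f := fun τ (p : ℝ × ℝ) => g (p.1, p.2, τ)) ?_
  rw [Measure.prod_restrict]
  have hK : IsCompact (Set.uIcc a b ×ˢ (Set.Icc x0 x1 ×ˢ Set.Icc y0 y1)) :=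
    isCompact_uIcc.prod (isCompact_Icc.prod isCompact_Icc)
  have hc : Continuous (Function.uncurry fun τ (p : ℝ × ℝ) => g (p.1, p.2, τ)) :=
    hg.comp (by fun_prop)
  have h1 : IntegrableOn (Function.uncurry fun τ (p : ℝ × ℝ) => g (p.1, p.2, τ))
      (Set.uIcc a b ×ˢ (Set.Icc x0 x1 ×ˢ Set.Icc y0 y1)) (volume.prod volume) :=
    hc.continuousOn.integrableOn_compact hK
  exact h1.mono_set (Set.prod_mono Set.uIoc_subset_uIcc
    (Set.prod_mono Set.Ico_subset_Icc_self Set.Ico_subset_Icc_self))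

/-- The integral over the rectangle is a continuous function of the time. -/
theorem tp_contT {g : ℝ × ℝ × ℝ → ℝ} (hg : Continuous g) (x0 x1 y0 y1 : ℝ) :
    Continuous fun τ : ℝ => ∫ p in Set.Ico x0 x1 ×ˢ Set.Ico y0 y1, g (p.1, p.2, τ) := by
  have hK : IsCompact (Set.Icc x0 x1 ×ˢ Set.Icc y0 y1) := isCompact_Icc.prod isCompact_Icc
  have hc : Continuous (Function.uncurry fun τ (p : ℝ × ℝ) => g (p.1, p.2, τ)) :=
    hg.comp (by fun_prop)
  have h1 := continuous_parametric_integral_of_continuous (μ := (volume : Measure (ℝ × ℝ))) hc hK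
  have hae : (Set.Ico x0 x1 ×ˢ Set.Ico y0 y1 : Set (ℝ × ℝ)) =ᵐ[volume]
      (Set.Icc x0 x1 ×ˢ Set.Icc y0 y1 : Set (ℝ × ℝ)) := by
    rw [Measure.volume_eq_prod]
    exact Measure.set_prod_ae_eq Ico_ae_eq_Icc Ico_ae_eq_Icc
  refine h1.congr fun τ => ?_
  exact (setIntegral_congr_set hae).symm

/-- Fundamental theorem of calculus in the time variable, integrated over the rectangle. -/
theorem tp_ftc {f : ℝ × ℝ × ℝ → ℝ} (hf : ContDiff ℝ 1 f) (x0 x1 y0 y1 a b : ℝ) :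
    (∫ p in Set.Ico x0 x1 ×ˢ Set.Ico y0 y1, f (p.1, p.2, b))
      - ∫ p in Set.Ico x0 x1 ×ˢ Set.Ico y0 y1, f (p.1, p.2, a)
      = ∫ τ in a..b, ∫ p in Set.Ico x0 x1 ×ˢ Set.Ico y0 y1, tpD (0, 0, 1) f (p.1, p.2, τ) := by
  rw [tp_swap (tp_cont hf _), ← integral_sub (tp_intR (tp_slice hf.continuous b) _ _ _ _)
    (tp_intR (tp_slice hf.continuous a) _ _ _ _)]
  refine integral_congr_ae (Eventually.of_forall fun p => ?_)
  symm
  refine intervalIntegral.integral_eq_sub_of_hasDerivAt (f := fun s => f (p.1, p.2, s))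
    (fun s _ => tp_t hf p.1 p.2 s) ?_
  exact ((tp_cont hf _).comp (by fun_prop)).intervalIntegrable _ _

/-- The integral of the second derivative in `y`. -/
theorem tp_yy {g : ℝ × ℝ × ℝ → ℝ} (hg : ContDiff ℝ 1 g) {x0 x1 y0 y1 τ G : ℝ}
    (hx : x0 ≤ x1) (hy : y0 ≤ y1)
    (hG : ∀ x y, x ∈ Set.Icc x0 x1 → (y = y0 ∨ y = y1) → |g (x, y, τ)| ≤ G) :
    -(2 * G * (x1 - x0))
      ≤ ∫ p in Set.Ico x0 x1 ×ˢ Set.Ico y0 y1, tpD (0, 1, 0) g (p.1, p.2, τ) := by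
  have hI := tp_intR (tp_slice (tp_cont hg (0, 1, 0)) τ) x0 x1 y0 y1
  rw [Measure.volume_eq_prod] at hI ⊢
  rw [setIntegral_prod _ hI]
  have e : ∀ x, ∫ y in Set.Ico y0 y1, tpD (0, 1, 0) g (x, y, τ)
      = g (x, y1, τ) - g (x, y0, τ) := by
    intro x
    rw [integral_Ico_eq_integral_Ioc, ← intervalIntegral.integral_of_le hy]
    refine intervalIntegral.integral_eq_sub_of_hasDerivAt (f := fun s => g (x, s, τ))
      (fun s _ => tp_y hg x s τ) ?_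
    exact ((tp_cont hg _).comp (by fun_prop)).intervalIntegrable _ _
  simp only [e]
  rw [integral_Ico_eq_integral_Ioc, ← intervalIntegral.integral_of_le hx]
  have hc : Continuous fun x => g (x, y1, τ) - g (x, y0, τ) :=
    (hg.continuous.comp (by fun_prop)).sub (hg.continuous.comp (by fun_prop))
  have h1 : ∫ _ in x0..x1, (-(2 * G)) ≤ ∫ x in x0..x1, (g (x, y1, τ) - g (x, y0, τ)) := by
    refine intervalIntegral.integral_mono_on hx (by simp) (hc.intervalIntegrable _ _) ?_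
    intro x hxx
    have a1 := abs_le.1 (hG x y0 hxx (Or.inl rfl))
    have a2 := abs_le.1 (hG x y1 hxx (Or.inr rfl))
    linarith [a1.2, a2.1]
  rw [intervalIntegral.integral_const, smul_eq_mul] at h1
  linarith

/-- The integral of the second derivative in `x`. -/
theorem tp_xx {g : ℝ × ℝ × ℝ → ℝ} (hg : ContDiff ℝ 1 g) {x0 x1 y0 y1 τ G : ℝ}
    (hx : x0 ≤ x1) (hy : y0 ≤ y1)
    (hG : ∀ x y, (x = x0 ∨ x = x1) → y ∈ Set.Icc y0 y1 → |g (x, y, τ)| ≤ G) :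
    -(2 * G * (y1 - y0))
      ≤ ∫ p in Set.Ico x0 x1 ×ˢ Set.Ico y0 y1, tpD (1, 0, 0) g (p.1, p.2, τ) := by
  have hI := tp_intR (tp_slice (tp_cont hg (1, 0, 0)) τ) x0 x1 y0 y1
  rw [Measure.volume_eq_prod] at hI ⊢
  rw [IntegrableOn, ← Measure.prod_restrict] at hI
  rw [← Measure.prod_restrict, integral_prod_symm _ hI]
  have e : ∀ y, ∫ x in Set.Ico x0 x1, tpD (1, 0, 0) g (x, y, τ)
      = g (x1, y, τ) - g (x0, y, τ) := by
    intro y
    rw [integral_Ico_eq_integral_Ioc, ← intervalIntegral.integral_of_le hx]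
    refine intervalIntegral.integral_eq_sub_of_hasDerivAt (f := fun s => g (s, y, τ))
      (fun s _ => tp_x hg s y τ) ?_
    exact ((tp_cont hg _).comp (by fun_prop)).intervalIntegrable _ _
  simp only [e]
  rw [integral_Ico_eq_integral_Ioc, ← intervalIntegral.integral_of_le hy]
  have hc : Continuous fun y => g (x1, y, τ) - g (x0, y, τ) :=
    (hg.continuous.comp (by fun_prop)).sub (hg.continuous.comp (by fun_prop))
  have h1 : ∫ _ in y0..y1, (-(2 * G)) ≤ ∫ y in y0..y1, (g (x1, y, τ) - g (x0, y, τ)) := by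
    refine intervalIntegral.integral_mono_on hy (by simp) (hc.intervalIntegrable _ _) ?_
    intro y hyy
    have a1 := abs_le.1 (hG x0 y (Or.inl rfl) hyy)
    have a2 := abs_le.1 (hG x1 y (Or.inr rfl) hyy)
    linarith [a1.2, a2.1]
  rw [intervalIntegral.integral_const, smul_eq_mul] at h1
  linarith

/-- Three point inequality on a rectangle for a supersolution of `opL`. -/
theorem three_point (f : ℝ × ℝ × ℝ → ℝ) (hf : ContDiff ℝ 2 f) (hL : ∀ p, opL f p ≤ 0)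
    {x0 x1 y0 y1 τ0 h G : ℝ} (hx : x0 ≤ x1) (hy : y0 ≤ y1) (hh : 0 ≤ h)
    (hGx : ∀ x y τ, (x = x0 ∨ x = x1) → y ∈ Set.Icc y0 y1 → τ ∈ Set.Icc τ0 (τ0 + 2 * h) →
      |dx f (x, y, τ)| ≤ G)
    (hGy : ∀ x y τ, x ∈ Set.Icc x0 x1 → (y = y0 ∨ y = y1) → τ ∈ Set.Icc τ0 (τ0 + 2 * h) →
      |dy f (x, y, τ)| ≤ G) :
    ∫ p in Set.Ico x0 x1 ×ˢ Set.Ico y0 y1,
        (f (p.1, p.2, τ0 + 2 * h) - 2 * f (p.1, p.2, τ0 + h) + f (p.1, p.2, τ0))
      ≤ h ^ 2 * (Real.exp (-τ0) / 4) * (2 * G * ((x1 - x0) + (y1 - y0))) := by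
  have hf1 : ContDiff ℝ 1 f := hf.of_le (by norm_num)
  have hG : 0 ≤ G :=
    (abs_nonneg _).trans (hGx x0 y0 τ0 (Or.inl rfl) ⟨le_rfl, hy⟩ ⟨le_rfl, by linarith⟩)
  set K : ℝ := (Real.exp (-τ0) / 4) * (2 * G * ((x1 - x0) + (y1 - y0))) with hK
  set φ : ℝ → ℝ := fun τ => ∫ p in Set.Ico x0 x1 ×ˢ Set.Ico y0 y1, f (p.1, p.2, τ) with hφ
  set ψ : ℝ → ℝ := fun τ =>
    ∫ p in Set.Ico x0 x1 ×ˢ Set.Ico y0 y1, tpD (0, 0, 1) f (p.1, p.2, τ) with hψ
  set χ : ℝ → ℝ := fun τ =>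
    ∫ p in Set.Ico x0 x1 ×ˢ Set.Ico y0 y1,
      tpD (0, 0, 1) (tpD (0, 0, 1) f) (p.1, p.2, τ) with hχ
  have cψ : Continuous ψ := tp_contT (tp_cont hf1 _) _ _ _ _
  have cχ : Continuous χ := tp_contT (tp_cont (tp_contDiff hf _) _) _ _ _ _
  have hχK : ∀ τ ∈ Set.Icc τ0 (τ0 + 2 * h), χ τ ≤ K := by
    intro τ hτ
    have ixx := tp_intR (tp_slice (tp_cont (tp_contDiff hf (1, 0, 0)) (1, 0, 0)) τ) x0 x1 y0 y1
    have iyy := tp_intR (tp_slice (tp_cont (tp_contDiff hf (0, 1, 0)) (0, 1, 0)) τ) x0 x1 y0 y1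
    have itt := tp_intR (tp_slice (tp_cont (tp_contDiff hf (0, 0, 1)) (0, 0, 1)) τ) x0 x1 y0 y1
    have bxx := tp_xx (tp_contDiff hf (1, 0, 0)) (τ := τ) (G := G) hx hy
      (fun x y h1 h2 => by rw [← tp_dx hf]; exact hGx x y τ h1 h2 hτ)
    have byy := tp_yy (tp_contDiff hf (0, 1, 0)) (τ := τ) (G := G) hx hy
      (fun x y h1 h2 => by rw [← tp_dy hf]; exact hGy x y τ h1 h2 hτ)
    have a1 : χ τ ≤ ∫ p in Set.Ico x0 x1 ×ˢ Set.Ico y0 y1, -(Real.exp (-τ) / 4) *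
        (tpD (1, 0, 0) (tpD (1, 0, 0) f) (p.1, p.2, τ)
          + tpD (0, 1, 0) (tpD (0, 1, 0) f) (p.1, p.2, τ)) := by
      refine integral_mono itt ((ixx.add iyy).const_mul _) fun p => ?_
      have := hL (p.1, p.2, τ)
      rw [opL, tp_dtt hf, tp_dxx hf, tp_dyy hf] at this
      simp only at this ⊢
      linarith
    rw [integral_const_mul, integral_add ixx iyy] at a1
    have a2 : Real.exp (-τ) ≤ Real.exp (-τ0) := Real.exp_le_exp.2 (by linarith [hτ.1])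
    have a3 : 0 < Real.exp (-τ) := Real.exp_pos _
    have a4 : 0 ≤ 2 * G * ((x1 - x0) + (y1 - y0)) := by
      have : 0 ≤ (x1 - x0) + (y1 - y0) := by linarith
      positivity
    have a5 : Real.exp (-τ) / 4 * (2 * G * ((x1 - x0) + (y1 - y0))) ≤ K :=
      mul_le_mul_of_nonneg_right (by linarith) a4
    refine a1.trans (le_trans ?_ a5)
    rw [neg_mul, ← mul_neg]
    refine mul_le_mul_of_nonneg_left ?_ (by linarith)
    linarith
  have hψK : ∀ u ∈ Set.Icc τ0 (τ0 + h), ψ (u + h) - ψ u ≤ h * K := by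
    intro u hu
    have a1 : ψ (u + h) - ψ u = ∫ τ in u..(u + h), χ τ :=
      tp_ftc (tp_contDiff hf _) x0 x1 y0 y1 u (u + h)
    have a2 : ∫ τ in u..(u + h), χ τ ≤ ∫ _ in u..(u + h), K := by
      refine intervalIntegral.integral_mono_on (by linarith) (cχ.intervalIntegrable _ _)
        (by simp) ?_
      intro τ hτ
      exact hχK τ ⟨by linarith [hu.1, hτ.1], by linarith [hu.2, hτ.2]⟩
    rw [intervalIntegral.integral_const, smul_eq_mul] at a2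
    rw [a1]
    have e : u + h - u = h := by ring
    rwa [e] at a2
  have b1 : φ (τ0 + h) - φ τ0 = ∫ τ in τ0..(τ0 + h), ψ τ := tp_ftc hf1 x0 x1 y0 y1 _ _
  have b2 : φ (τ0 + 2 * h) - φ (τ0 + h) = ∫ τ in τ0..(τ0 + h), ψ (τ + h) := by
    rw [intervalIntegral.integral_comp_add_right ψ h]
    have e : τ0 + h + h = τ0 + 2 * h := by ring
    rw [e]
    exact tp_ftc hf1 x0 x1 y0 y1 _ _
  have cψh : Continuous fun τ => ψ (τ + h) := cψ.comp (by fun_prop)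
  have b3 : ∫ τ in τ0..(τ0 + h), (ψ (τ + h) - ψ τ) ≤ ∫ _ in τ0..(τ0 + h), h * K :=
    intervalIntegral.integral_mono_on (by linarith) ((cψh.sub cψ).intervalIntegrable _ _)
      (by simp) hψK
  rw [intervalIntegral.integral_const, smul_eq_mul,
    intervalIntegral.integral_sub (cψh.intervalIntegrable _ _) (cψ.intervalIntegrable _ _),
    ← b1, ← b2] at b3
  have i2 := tp_intR (tp_slice hf.continuous (τ0 + 2 * h)) x0 x1 y0 y1
  have i1 := tp_intR (tp_slice hf.continuous (τ0 + h)) x0 x1 y0 y1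
  have i0 := tp_intR (tp_slice hf.continuous τ0) x0 x1 y0 y1
  have e : ∫ p in Set.Ico x0 x1 ×ˢ Set.Ico y0 y1,
        (f (p.1, p.2, τ0 + 2 * h) - 2 * f (p.1, p.2, τ0 + h) + f (p.1, p.2, τ0))
      = φ (τ0 + 2 * h) - 2 * φ (τ0 + h) + φ τ0 := by
    have i3 : IntegrableOn (fun p : ℝ × ℝ => f (p.1, p.2, τ0 + 2 * h) - 2 * f (p.1, p.2, τ0 + h))
        (Set.Ico x0 x1 ×ˢ Set.Ico y0 y1) := i2.sub (i1.const_mul 2)
    rw [integral_add i3 i0, integral_sub i2 (i1.const_mul 2), integral_const_mul]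
  rw [e, mul_assoc, ← hK]
  have e2 : (τ0 + h - τ0) * (h * K) = h ^ 2 * K := by ring
  linarith

end Pool.Agent.P.MP_f981b0_an.Hy
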