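import Pool.Agent.P.MP_f981b0_an.Hy.VInf
import Pool.Agent.P.MP_f981b0_an.Hy.ThreePt

set_option autoImplicit false

open scoped InnerProductSpace ComplexConjugate
open MeasureTheory Filter Topology

noncomputable section

namespace Pool.Agent.P.MP_f981b0_an.Hy

variable {H : Type*} [NormedAddCommGroup H] [InnerProductSpace ℂ H] [CompleteSpace H]

variable {T δ : H →L[ℂ] H}

/-- The complex number with the given coordinates. -/
def rates_cz (p : ℝ × ℝ) : ℂ := (p.1 : ℂ) + (p.2 : ℂ) * Complex.I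

theorem rates_cz_cont : Continuous rates_cz := by unfold rates_cz; fun_prop

theorem rates_lift (F : ℂ → ℝ → ℝ) (p : ℝ × ℝ) (j : ℕ) {τ : ℝ} (h : τ = j * Real.log 4) :
    lift F (p.1, p.2, τ) = F (rates_cz p) (tt j) := by
  rw [h, tt_eq_exp]; rfl

theorem rates_log4 : 0 ≤ Real.log 4 ∧ Real.log 4 ≤ 2 := by
  refine ⟨Real.log_nonneg (by norm_num), ?_⟩
  have h : Real.log 4 = 2 * Real.log 2 := by
    rw [show (4 : ℝ) = 2 ^ 2 by norm_num, Real.log_pow]; norm_num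
  have := Real.log_two_lt_d9
  linarith

theorem rates_exp_half {j : ℕ} {τ : ℝ} (h : τ ≤ j * Real.log 4) : Real.exp (τ / 2) ≤ 2 ^ j := by
  have h4 : Real.log 4 = 2 * Real.log 2 := by
    rw [show (4 : ℝ) = 2 ^ 2 by norm_num, Real.log_pow]; norm_num
  calc Real.exp (τ / 2) ≤ Real.exp (j * Real.log 2) := by
        apply Real.exp_le_exp.mpr; rw [h4] at h; linarith
    _ = 2 ^ j := by rw [Real.exp_nat_mul, Real.exp_log (by norm_num)]

theorem rates_tt_le (j : ℕ) : tt j * 2 ^ j = 1 / 2 ^ j := by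
  unfold tt
  rw [← mul_pow, ← one_div_pow]; norm_num

/-- Mean value inequality along the two coordinate segments. -/
theorem rates_mv (f : ℝ × ℝ × ℝ → ℝ) (hf : ContDiff ℝ 2 f) {τ G : ℝ}
    (hx : ∀ x y, |dx f (x, y, τ)| ≤ G) (hy : ∀ x y, |dy f (x, y, τ)| ≤ G) (p q : ℝ × ℝ) :
    |f (p.1, p.2, τ) - f (q.1, q.2, τ)| ≤ G * (|p.1 - q.1| + |p.2 - q.2|) := by
  have hd : Differentiable ℝ f := hf.differentiable (by norm_num)
  have h1 : ‖f (p.1, p.2, τ) - f (q.1, p.2, τ)‖ ≤ G * ‖p.1 - q.1‖ :=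
    Convex.norm_image_sub_le_of_norm_deriv_le (f := fun s => f (s, p.2, τ)) (s := Set.univ)
      (fun x _ => by fun_prop) (fun x _ => hx x p.2) convex_univ trivial trivial
  have h2 : ‖f (q.1, p.2, τ) - f (q.1, q.2, τ)‖ ≤ G * ‖p.2 - q.2‖ :=
    Convex.norm_image_sub_le_of_norm_deriv_le (f := fun s => f (q.1, s, τ)) (s := Set.univ)
      (fun x _ => by fun_prop) (fun x _ => hy q.1 x) convex_univ trivial trivial
  rw [Real.norm_eq_abs, Real.norm_eq_abs] at h1 h2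
  calc |f (p.1, p.2, τ) - f (q.1, q.2, τ)|
      ≤ |f (p.1, p.2, τ) - f (q.1, p.2, τ)| + |f (q.1, p.2, τ) - f (q.1, q.2, τ)| :=
        abs_sub_le _ _ _
    _ ≤ _ := by linarith

/-- The three point inequality at the times `t_j`. -/
theorem rates_three (F : ℂ → ℝ → ℝ) (hf : ContDiff ℝ 2 (lift F)) (hL : ∀ p, opL (lift F) p ≤ 0)
    {x0 x1 y0 y1 G : ℝ} (j : ℕ) (hx : x0 ≤ x1) (hy : y0 ≤ y1) (hG : 0 ≤ G)
    (hGx : ∀ x y τ, (x = x0 ∨ x = x1) → 0 ≤ τ → τ ≤ (j + 2 : ℕ) * Real.log 4 →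
      |dx (lift F) (x, y, τ)| ≤ G)
    (hGy : ∀ x y τ, (y = y0 ∨ y = y1) → 0 ≤ τ → τ ≤ (j + 2 : ℕ) * Real.log 4 →
      |dy (lift F) (x, y, τ)| ≤ G) :
    ∫ p in Set.Ico x0 x1 ×ˢ Set.Ico y0 y1,
        (F (rates_cz p) (tt (j + 2)) - 2 * F (rates_cz p) (tt (j + 1)) + F (rates_cz p) (tt j))
      ≤ tt j * (2 * G * ((x1 - x0) + (y1 - y0))) := by
  obtain ⟨l0, l2⟩ := rates_log4
  have hj : 0 ≤ (j : ℝ) * Real.log 4 := by positivity
  have h := three_point (lift F) hf hL (τ0 := j * Real.log 4) (h := Real.log 4) (G := G) hx hy l0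
    (fun x y τ h1 _ h3 => hGx x y τ h1 (hj.trans h3.1) (by push_cast; linarith [h3.2]))
    (fun x y τ _ h2 h3 => hGy x y τ h2 (hj.trans h3.1) (by push_cast; linarith [h3.2]))
  have e2 : ∀ p : ℝ × ℝ, lift F (p.1, p.2, j * Real.log 4 + 2 * Real.log 4)
      = F (rates_cz p) (tt (j + 2)) := fun p => rates_lift F p _ (by push_cast; ring)
  have e1 : ∀ p : ℝ × ℝ, lift F (p.1, p.2, j * Real.log 4 + Real.log 4)
      = F (rates_cz p) (tt (j + 1)) := fun p => rates_lift F p _ (by push_cast; ring)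
  have e0 : ∀ p : ℝ × ℝ, lift F (p.1, p.2, j * Real.log 4)
      = F (rates_cz p) (tt j) := fun p => rates_lift F p _ rfl
  simp only [e2, e1, e0] at h
  refine h.trans ?_
  rw [← tt_eq_exp]
  have h1 : 0 ≤ 2 * G * ((x1 - x0) + (y1 - y0)) := by
    have : 0 ≤ (x1 - x0) + (y1 - y0) := by linarith
    positivity
  refine mul_le_mul_of_nonneg_right ?_ h1
  have h2 : Real.log 4 ^ 2 ≤ 4 := by nlinarith
  have := tt_pos j
  nlinarith

theorem rates_box_fin (x0 x1 y0 y1 : ℝ) :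
    volume (Set.Ico x0 x1 ×ˢ Set.Ico y0 y1) ≠ ⊤ := by
  rw [Measure.volume_eq_prod, Measure.prod_prod, Real.volume_Ico, Real.volume_Ico]
  exact ENNReal.mul_ne_top ENNReal.ofReal_ne_top ENNReal.ofReal_ne_top

theorem rates_cont_Vs (hy : Hyp T δ) (e : HilbertBasis ℕ ℂ H) (s : Finset ℕ) (j : ℕ) :
    Continuous fun p : ℝ × ℝ => Vs T δ e s (rates_cz p) (tt j) := by
  have h := (contDiff_Vs hy e.orthonormal s).continuous.comp
    (show Continuous fun p : ℝ × ℝ => (p.1, p.2, (j : ℝ) * Real.log 4) by fun_prop)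
  refine h.congr fun p => ?_
  exact rates_lift _ p j rfl

theorem rates_meas_Vn (hy : Hyp T δ) (e : HilbertBasis ℕ ℂ H) (htr : TrB T δ e) (n j : ℕ) :
    Measurable fun p : ℝ × ℝ => Vn T δ e n j (rates_cz p) :=
  measurable_of_tendsto_metrizable (fun N => (rates_cont_Vs hy e (Finset.Ico n N) j).measurable)
    (tendsto_pi_nhds.mpr fun p => tendsto_Vn hy e htr n j (rates_cz p))

theorem rates_int_Vn (hy : Hyp T δ) (e : HilbertBasis ℕ ℂ H) (htr : TrB T δ e) (n j : ℕ)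
    {Q : Set (ℝ × ℝ)} (hQ : volume Q ≠ ⊤) :
    IntegrableOn (fun p : ℝ × ℝ => Vn T δ e n j (rates_cz p)) Q :=
  Measure.integrableOn_of_bounded hQ (rates_meas_Vn hy e htr n j).aestronglyMeasurable
    (M := ‖T‖ ^ 2 + 2 * j) (Eventually.of_forall fun p => by
      have h := Vn_bound hy e htr n j (rates_cz p)
      rw [Real.norm_eq_abs, abs_of_nonneg h.1]
      exact h.2)

theorem rates_Vs_bound (hy : Hyp T δ) (e : HilbertBasis ℕ ℂ H) (htr : TrB T δ e) (s : Finset ℕ)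
    (z : ℂ) (j : ℕ) : 0 ≤ Vs T δ e s z (tt j) ∧ Vs T δ e s z (tt j) ≤ ‖T‖ ^ 2 + 2 * j := by
  refine ⟨Vs_nonneg hy e.orthonormal s z (tt_pos j), ?_⟩
  obtain ⟨l0, l2⟩ := rates_log4
  rw [tt_eq_exp]
  refine (Vs_bound hy e htr s z (by positivity)).trans ?_
  have : (j : ℝ) * Real.log 4 ≤ j * 2 := by gcongr
  linarith

/-- The three point inequality for `V_n`. -/
theorem rates_sec (hy : Hyp T δ) (e : HilbertBasis ℕ ℂ H) (htr : TrB T δ e) (n j : ℕ)
    {x0 x1 y0 y1 B : ℝ} (hx : x0 ≤ x1) (hy' : y0 ≤ y1)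
    (hb : ∀ (N : ℕ) (x y τ : ℝ), (x = x0 ∨ x = x1) ∨ (y = y0 ∨ y = y1) → 0 ≤ τ →
      τ ≤ (j + 2 : ℕ) * Real.log 4 →
      ∑ i ∈ Finset.Ico n N, af T ((x : ℂ) + (y : ℂ) * Complex.I) (Real.exp (-τ)) (δ (e i)) ≤ B) :
    ∫ p in Set.Ico x0 x1 ×ˢ Set.Ico y0 y1,
        (Vn T δ e n (j + 2) (rates_cz p) - 2 * Vn T δ e n (j + 1) (rates_cz p)
          + Vn T δ e n j (rates_cz p))
      ≤ 24 * √B * ((x1 - x0) + (y1 - y0)) / 2 ^ j := by
  have key : ∀ N, ∫ p in Set.Ico x0 x1 ×ˢ Set.Ico y0 y1,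
      (Vs T δ e (Finset.Ico n N) (rates_cz p) (tt (j + 2))
        - 2 * Vs T δ e (Finset.Ico n N) (rates_cz p) (tt (j + 1))
        + Vs T δ e (Finset.Ico n N) (rates_cz p) (tt j))
      ≤ 24 * √B * ((x1 - x0) + (y1 - y0)) / 2 ^ j := by
    intro N
    have hG : ∀ x y τ : ℝ, (x = x0 ∨ x = x1) ∨ (y = y0 ∨ y = y1) → 0 ≤ τ →
        τ ≤ (j + 2 : ℕ) * Real.log 4 → 3 * Real.exp (τ / 2) * √(∑ i ∈ Finset.Ico n N,
          af T ((x : ℂ) + (y : ℂ) * Complex.I) (Real.exp (-τ)) (δ (e i)))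
          ≤ 3 * 2 ^ (j + 2) * √B := by
      intro x y τ h1 h2 h3
      have h4 := rates_exp_half h3
      have h5 := Real.sqrt_le_sqrt (hb N x y τ h1 h2 h3)
      gcongr
    refine (rates_three (Vs T δ e (Finset.Ico n N)) (contDiff_Vs hy e.orthonormal _)
      (opL_Vs hy e.orthonormal _) (G := 3 * 2 ^ (j + 2) * √B) j hx hy' (by positivity)
      (fun x y τ h1 h2 h3 => (grad_Vs hy e htr _ (x, y, τ)).1.trans (hG x y τ (.inl h1) h2 h3))
      (fun x y τ h1 h2 h3 => (grad_Vs hy e htr _ (x, y, τ)).2.trans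
        (hG x y τ (.inr h1) h2 h3))).trans (le_of_eq ?_)
    have := rates_tt_le j
    rw [pow_add]
    linear_combination (24 * √B * ((x1 - x0) + (y1 - y0))) * this
  refine le_of_tendsto' (tendsto_integral_of_dominated_convergence
    (fun _ => 4 * (‖T‖ ^ 2 + 2 * ((j + 2 : ℕ) : ℝ))) (fun N => ?_) ?_ (fun N => ?_) ?_) key
  · exact (((rates_cont_Vs hy e _ _).sub (continuous_const.mul (rates_cont_Vs hy e _ _))).add
      (rates_cont_Vs hy e _ _)).aestronglyMeasurable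
  · exact integrableOn_const (rates_box_fin _ _ _ _)
  · refine Eventually.of_forall fun p => ?_
    obtain ⟨a2, b2⟩ := rates_Vs_bound hy e htr (Finset.Ico n N) (rates_cz p) (j + 2)
    obtain ⟨a1, b1⟩ := rates_Vs_bound hy e htr (Finset.Ico n N) (rates_cz p) (j + 1)
    obtain ⟨a0, b0⟩ := rates_Vs_bound hy e htr (Finset.Ico n N) (rates_cz p) j
    push_cast at b2 b1 ⊢
    rw [Real.norm_eq_abs, abs_le]
    constructor <;> linarith
  · refine Eventually.of_forall fun p => ?_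
    exact ((tendsto_Vn hy e htr n _ _).sub ((tendsto_Vn hy e htr n _ _).const_mul 2)).add
      (tendsto_Vn hy e htr n _ _)

theorem rates_seq (I : ℕ → ℝ) {D : ℝ} (hD : 0 ≤ D)
    (h : ∀ j, I (j + 2) - 2 * I (j + 1) + I j ≤ D / 2 ^ j) (j : ℕ) :
    I j ≤ I 0 + j * (I 1 - I 0 + 2 * D) := by
  have h1 : ∀ j, I (j + 1) - I j ≤ I 1 - I 0 + 2 * D - 2 * (D / 2 ^ j) := by
    intro j
    induction j with
    | zero => simp
    | succ j ih =>
      have := h j
      have e : D / 2 ^ (j + 1) = D / 2 ^ j / 2 := by rw [pow_succ, div_mul_eq_div_div]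
      rw [e]
      linarith
  induction j with
  | zero => simp
  | succ j ih =>
    have h2 := h1 j
    have h3 : 0 ≤ D / 2 ^ j := by positivity
    push_cast
    linarith

theorem rates_ae {P : ℂ → Prop} (h : ∀ᵐ p : ℝ × ℝ, P (rates_cz p)) : ∀ᵐ z : ℂ, P z := by
  have h1 := Complex.volume_preserving_equiv_real_prod.quasiMeasurePreserving.ae h
  refine h1.mono fun z hz => ?_
  have : rates_cz (Complex.measurableEquivRealProd z) = z := Complex.re_add_im z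
  rwa [this] at hz

theorem rates_ae' {P : ℂ → Prop} (h : ∀ᵐ z : ℂ, P z) : ∀ᵐ p : ℝ × ℝ, P (rates_cz p) := by
  have h1 := (Complex.volume_preserving_equiv_real_prod.symm _).quasiMeasurePreserving.ae h
  refine h1.mono fun p hp => ?_
  have : Complex.measurableEquivRealProd.symm p = rates_cz p := by
    apply Complex.ext <;> simp [rates_cz]
  rwa [this] at hp

theorem rates_bdry {l x y : ℝ} (hl : 0 ≤ l) (h : (x = -l ∨ x = l) ∨ (y = -l ∨ y = l)) :
    l ≤ ‖(x : ℂ) + (y : ℂ) * Complex.I‖ := by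
  rcases h with h | h
  · refine le_trans ?_ (Complex.abs_re_le_norm _)
    rcases h with rfl | rfl <;> simp [abs_of_nonneg hl]
  · refine le_trans ?_ (Complex.abs_im_le_norm _)
    rcases h with rfl | rfl <;> simp [abs_of_nonneg hl]

end Pool.Agent.P.MP_f981b0_an.Hy
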