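import Pool.Agent.P.MP_f981b0_an.Hy.VInf
import Pool.Agent.P.MP_f981b0_an.Hy.ThreePt
import Pool.Agent.P.MP_f981b0_an.Hy.Rate
import Pool.Agent.P.MP_f981b0_an.Hy.Rates1

set_option autoImplicit false

open scoped InnerProductSpace ComplexConjugate
open MeasureTheory Filter Topology

noncomputable section

namespace Pool.Agent.P.MP_f981b0_an.Hy

variable {H : Type*} [NormedAddCommGroup H] [InnerProductSpace ℂ H] [CompleteSpace H]

variable {T δ : H →L[ℂ] H}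

theorem rates_sqrt_le {x : ℝ} (hx : 0 ≤ x) : √x ≤ x + 1 := by
  rw [Real.sqrt_le_left (by linarith)]
  nlinarith

theorem rates_sum_af (hy : Hyp T δ) (e : HilbertBasis ℕ ℂ H) (htr : TrB T δ e) (s : Finset ℕ)
    (z : ℂ) {τ : ℝ} {j : ℕ} (h0 : 0 ≤ τ) (h1 : τ ≤ j * Real.log 4) :
    ∑ i ∈ s, af T z (Real.exp (-τ)) (δ (e i)) ≤ ‖T‖ ^ 2 + 2 * j := by
  refine (sum_af_le_Vs hy e.orthonormal s z (Real.exp_pos _)).trans
    ((Vs_bound hy e htr s z h0).trans ?_)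
  obtain ⟨l0, l2⟩ := rates_log4
  have : (j : ℝ) * Real.log 4 ≤ j * 2 := by gcongr
  linarith

theorem rates_lip (hy : Hyp T δ) (e : HilbertBasis ℕ ℂ H) (htr : TrB T δ e) (n j : ℕ)
    (p q : ℝ × ℝ) : |Vn T δ e n j (rates_cz p) - Vn T δ e n j (rates_cz q)|
      ≤ 3 * 2 ^ j * √(‖T‖ ^ 2 + 2 * j) * (|p.1 - q.1| + |p.2 - q.2|) := by
  refine le_of_tendsto' ((tendsto_Vn hy e htr n j (rates_cz p)).sub
    (tendsto_Vn hy e htr n j (rates_cz q))).abs fun N => ?_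
  obtain ⟨l0, -⟩ := rates_log4
  have hG : ∀ x y : ℝ, 3 * Real.exp (j * Real.log 4 / 2) * √(∑ i ∈ Finset.Ico n N,
      af T ((x : ℂ) + (y : ℂ) * Complex.I) (Real.exp (-(j * Real.log 4))) (δ (e i)))
      ≤ 3 * 2 ^ j * √(‖T‖ ^ 2 + 2 * j) := by
    intro x y
    have h4 := rates_exp_half (j := j) le_rfl
    have h5 := Real.sqrt_le_sqrt (rates_sum_af hy e htr (Finset.Ico n N)
      ((x : ℂ) + (y : ℂ) * Complex.I) (j := j) (by positivity) le_rfl)
    gcongr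
  have h := rates_mv (lift (Vs T δ e (Finset.Ico n N))) (contDiff_Vs hy e.orthonormal _)
    (τ := j * Real.log 4) (fun x y => (grad_Vs hy e htr _ (x, y, _)).1.trans (hG x y))
    (fun x y => (grad_Vs hy e htr _ (x, y, _)).2.trans (hG x y)) p q
  rwa [rates_lift _ p j rfl, rates_lift _ q j rfl] at h

/-- The rates exist almost everywhere. -/
theorem ae_rate (hy : Hyp T δ) (e : HilbertBasis ℕ ℂ H) (htr : TrB T δ e) :
    ∀ᵐ z : ℂ, ∀ n : ℕ, ∃ ρ : ℝ, Tendsto (fun j : ℕ => Vn T δ e n j z / j) atTop (𝓝 ρ) := by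
  rw [ae_all_iff]
  intro n
  refine rates_ae (rate (fun j p => Vn T δ e n j (rates_cz p)) (48 * (‖T‖ ^ 2 + 5))
    (fun j p => Vn_incr hy e htr n j _) (fun j p q => ?_) (fun j x y l hl => ?_))
  · refine (rates_lip hy e htr n j p q).trans (mul_le_mul_of_nonneg_right ?_ (by positivity))
    have h1 := rates_sqrt_le (x := ‖T‖ ^ 2 + 2 * j) (by positivity)
    have h2 : 3 * √(‖T‖ ^ 2 + 2 * j) ≤ 48 * (‖T‖ ^ 2 + 5) * (1 + j) := by
      have : (0 : ℝ) ≤ j := Nat.cast_nonneg j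
      have : 0 ≤ ‖T‖ ^ 2 * j := by positivity
      nlinarith [sq_nonneg ‖T‖]
    calc 3 * 2 ^ j * √(‖T‖ ^ 2 + 2 * j) = 3 * √(‖T‖ ^ 2 + 2 * j) * 2 ^ j := by ring
      _ ≤ _ := by gcongr
  · refine (rates_sec hy e htr n j (B := ‖T‖ ^ 2 + 2 * ((j + 2 : ℕ) : ℝ)) (by linarith)
      (by linarith) (fun N x y τ _ h0 h1 => rates_sum_af hy e htr _ _ h0 h1)).trans ?_
    have h1 := rates_sqrt_le (x := ‖T‖ ^ 2 + 2 * ((j + 2 : ℕ) : ℝ)) (by positivity)
    have h2 : √(‖T‖ ^ 2 + 2 * ((j + 2 : ℕ) : ℝ)) ≤ (‖T‖ ^ 2 + 5) * (1 + j) := by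
      refine h1.trans ?_
      have : (0 : ℝ) ≤ j := Nat.cast_nonneg j
      have : 0 ≤ ‖T‖ ^ 2 * j := by positivity
      push_cast
      nlinarith
    calc 24 * √(‖T‖ ^ 2 + 2 * ((j + 2 : ℕ) : ℝ)) * (x + l - x + (y + l - y)) / 2 ^ j
        = 48 * √(‖T‖ ^ 2 + 2 * ((j + 2 : ℕ) : ℝ)) / 2 ^ j * l := by ring
      _ ≤ 48 * ((‖T‖ ^ 2 + 5) * (1 + j)) / 2 ^ j * l := by gcongr
      _ = _ := by ring

theorem rates_tau (e : HilbertBasis ℕ ℂ H) (htr : TrB T δ e) : ∃ τ : ℕ → ℝ,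
    Tendsto τ atTop (𝓝 0) ∧ ∀ n N, ∑ i ∈ Finset.Ico n N, ‖δ (e i)‖ ^ 2 ≤ τ n := by
  have hs : Summable fun i => ‖δ (e i)‖ ^ 2 :=
    summable_of_sum_range_le (fun _ => by positivity) htr.trD
  refine ⟨fun n => ∑' k, ‖δ (e (k + n))‖ ^ 2, tendsto_sum_nat_add fun i => ‖δ (e i)‖ ^ 2,
    fun n N => ?_⟩
  rw [Finset.sum_Ico_eq_sum_range]
  simp only [add_comm n]
  exact ((summable_nat_add_iff n).mpr hs).sum_le_tsum _ fun _ _ => by positivity

theorem rates_split {Q : Set (ℝ × ℝ)} {f : ℕ → ℝ × ℝ → ℝ} (hf : ∀ j, IntegrableOn (f j) Q)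
    (j : ℕ) : ∫ p in Q, (f (j + 2) p - 2 * f (j + 1) p + f j p)
      = (∫ p in Q, f (j + 2) p) - 2 * (∫ p in Q, f (j + 1) p) + ∫ p in Q, f j p := by
  have h1 : Integrable (fun p => 2 * f (j + 1) p) (volume.restrict Q) := (hf _).const_mul 2
  have h2 : Integrable (fun p => f (j + 2) p - 2 * f (j + 1) p) (volume.restrict Q) :=
    (hf _).sub h1
  rw [integral_add h2 (hf j), integral_sub (hf _) h1, integral_const_mul]

theorem rates_tail_int (hy : Hyp T δ) (e : HilbertBasis ℕ ℂ H) (htr : TrB T δ e) {l : ℝ}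
    (hl : ‖T‖ + 1 ≤ l) : ∃ K : ℕ → ℝ, Tendsto K atTop (𝓝 0) ∧ ∀ n j : ℕ, 1 ≤ j →
      ∫ p in Set.Ico (-l) l ×ˢ Set.Ico (-l) l, Vn T δ e n j (rates_cz p) ≤ j * K n := by
  obtain ⟨τ, hτ, hs⟩ := rates_tau e htr
  have hl0 : 0 ≤ l := by linarith [norm_nonneg T]
  obtain ⟨Q, hQ⟩ : ∃ Q, Q = Set.Ico (-l) l ×ˢ Set.Ico (-l) l := ⟨_, rfl⟩
  have hQf : volume Q ≠ ⊤ := hQ ▸ rates_box_fin _ _ _ _
  refine ⟨fun n => volume.real Q * (4 * τ n) + 2 * (96 * l * √(τ n)), ?_, fun n j hj => ?_⟩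
  · have h1 := ((hτ.const_mul 4).const_mul (volume.real Q)).add
      ((hτ.sqrt.const_mul (96 * l)).const_mul 2)
    simpa using h1
  have hint : ∀ j, IntegrableOn (fun p : ℝ × ℝ => Vn T δ e n j (rates_cz p)) Q :=
    fun j => rates_int_Vn hy e htr n j hQf
  have hrec := rates_seq (fun j => ∫ p in Q, Vn T δ e n j (rates_cz p)) (D := 96 * l * √(τ n))
    (by positivity) (fun j => by
      rw [← rates_split hint j, hQ]
      refine (rates_sec hy e htr n j (B := τ n) (by linarith) (by linarith)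
        (fun N x y t h _ _ => le_trans (Finset.sum_le_sum fun i _ => ?_) (hs n N))).trans
        (le_of_eq (by ring))
      have h1 := rates_bdry hl0 h
      have h2 := af_far T ((x : ℂ) + (y : ℂ) * Complex.I) (Real.exp_pos (-t)) zero_le_one
        (by linarith) (δ (e i))
      linarith) j
  have h0 : 0 ≤ ∫ p in Q, Vn T δ e n 0 (rates_cz p) :=
    integral_nonneg fun p => (Vn_bound hy e htr n 0 _).1
  have h1 : ∫ p in Q, Vn T δ e n 1 (rates_cz p) ≤ volume.real Q * (4 * τ n) := by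
    have hb : ∀ z, Vn T δ e n 1 z ≤ 4 * τ n := fun z =>
      le_of_tendsto' (tendsto_Vn hy e htr n 1 z) fun N => by
        have h2 := (Vs_le hy e.orthonormal (Finset.Ico n N) z (tt_pos 1)).trans (hs n N)
        have h3 : tt 1 = 1 / 4 := by simp [tt]
        rw [h3] at h2 ⊢
        linarith
    have h4 := setIntegral_mono (hint 1) (integrableOn_const (C := 4 * τ n) hQf) fun p => hb _
    simpa using h4
  rw [← hQ]
  have hj' : (1 : ℝ) ≤ j := by exact_mod_cast hj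
  nlinarith

theorem rates_null (hy : Hyp T δ) (e : HilbertBasis ℕ ℂ H) (htr : TrB T δ e) {l ε : ℝ}
    (hl : ‖T‖ + 1 ≤ l) (hε : 0 < ε) :
    ∀ᵐ p : ℝ × ℝ, p ∈ Set.Ico (-l) l ×ˢ Set.Ico (-l) l →
      ∃ n : ℕ, ∃ᶠ j : ℕ in atTop, Vn T δ e n j (rates_cz p) < ε * j := by
  obtain ⟨K, hK, hI⟩ := rates_tail_int hy e htr hl
  obtain ⟨Q, hQ⟩ : ∃ Q, Q = Set.Ico (-l) l ×ˢ Set.Ico (-l) l := ⟨_, rfl⟩
  have hQf : volume Q ≠ ⊤ := hQ ▸ rates_box_fin _ _ _ _
  have hQm : MeasurableSet Q := hQ ▸ measurableSet_Ico.prod measurableSet_Ico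
  rw [← hQ] at hI ⊢
  rw [← ae_restrict_iff' hQm, ae_iff]
  have : IsFiniteMeasure (volume.restrict Q) := isFiniteMeasure_restrict.mpr hQf
  have hb : ∀ n, volume.restrict Q {p | ¬ ∃ n : ℕ, ∃ᶠ j : ℕ in atTop,
      Vn T δ e n j (rates_cz p) < ε * j} ≤ ENNReal.ofReal (K n / ε) := by
    intro n
    have hsub : {p | ¬ ∃ n : ℕ, ∃ᶠ j : ℕ in atTop, Vn T δ e n j (rates_cz p) < ε * j}
        ⊆ ⋃ J : ℕ, {p | ∀ j, J ≤ j → ε * j ≤ Vn T δ e n j (rates_cz p)} := by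
      intro p hp
      simp only [Set.mem_ofPred_eq, not_exists, not_frequently, not_lt] at hp
      obtain ⟨J, hJ⟩ := eventually_atTop.mp (hp n)
      exact Set.mem_iUnion.mpr ⟨J, hJ⟩
    refine (measure_mono hsub).trans ?_
    have hmono : Monotone fun J : ℕ => {p | ∀ j, J ≤ j → ε * j ≤ Vn T δ e n j (rates_cz p)} :=
      fun J J' h p hp j hj => hp j (h.trans hj)
    rw [hmono.measure_iUnion]
    refine iSup_le fun J => ?_
    have hsub2 : {p | ∀ j, J ≤ j → ε * j ≤ Vn T δ e n j (rates_cz p)}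
        ⊆ {p | ε * ((J + 1 : ℕ) : ℝ) ≤ Vn T δ e n (J + 1) (rates_cz p)} :=
      fun p hp => hp (J + 1) (Nat.le_succ J)
    refine (measure_mono hsub2).trans ?_
    have hm := (mul_meas_ge_le_integral_of_nonneg (μ := volume.restrict Q)
      (Eventually.of_forall fun p => (Vn_bound hy e htr n (J + 1) (rates_cz p)).1)
      (rates_int_Vn hy e htr n (J + 1) hQf) (ε * ((J + 1 : ℕ) : ℝ))).trans
      (hI n (J + 1) (Nat.le_add_left 1 J))
    rw [← ofReal_measureReal]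
    refine ENNReal.ofReal_le_ofReal ?_
    rw [le_div_iff₀ hε]
    have hJ : (0 : ℝ) < ((J + 1 : ℕ) : ℝ) := by positivity
    refine le_of_mul_le_mul_left ?_ hJ
    linarith
  have ht : Tendsto (fun n => ENNReal.ofReal (K n / ε)) atTop (𝓝 0) := by
    simpa using ENNReal.tendsto_ofReal (hK.div_const ε)
  exact le_antisymm (ge_of_tendsto' ht hb) bot_le

/-- The rates of the tails tend to zero almost everywhere. -/
theorem ae_tail (hy : Hyp T δ) (e : HilbertBasis ℕ ℂ H) (htr : TrB T δ e) :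
    ∀ᵐ z : ℂ, ∀ ε : ℝ, 0 < ε → ∃ n : ℕ, ∃ᶠ j : ℕ in atTop, Vn T δ e n j z < ε * j := by
  apply rates_ae
  have h := ae_all_iff.mpr fun L : ℕ => ae_all_iff.mpr fun k : ℕ =>
    rates_null hy e htr (l := ‖T‖ + 1 + L) (ε := 1 / ((k : ℝ) + 1))
      (le_add_of_nonneg_right (Nat.cast_nonneg L)) Nat.one_div_pos_of_nat
  refine h.mono fun p hp ε hε => ?_
  obtain ⟨k, hk⟩ := exists_nat_one_div_lt hε
  obtain ⟨L, hL⟩ := exists_nat_ge (|p.1| + |p.2|)
  have hT := norm_nonneg T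
  have a1 := abs_nonneg p.1
  have a2 := abs_nonneg p.2
  obtain ⟨n, hn⟩ := hp L k ⟨⟨by linarith [neg_abs_le p.1], by linarith [le_abs_self p.1]⟩,
    ⟨by linarith [neg_abs_le p.2], by linarith [le_abs_self p.2]⟩⟩
  exact ⟨n, hn.mono fun j hj => hj.trans_le (by gcongr)⟩

theorem rates_int_cont {g : ℝ × ℝ → ℝ} (hg : Continuous g) (l : ℝ) :
    IntegrableOn g (Set.Ico (-l) l ×ˢ Set.Ico (-l) l) :=
  (hg.continuousOn.integrableOn_compact (isCompact_Icc.prod isCompact_Icc)).mono_set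
    (Set.prod_mono Set.Ico_subset_Icc_self Set.Ico_subset_Icc_self)

theorem rates_lower (hy : Hyp T δ) {e0 : H} (he : ‖e0‖ = 1) (hξ : δ e0 ≠ 0) :
    ∃ l c : ℝ, 0 < c ∧ ∀ j : ℕ, j * c ≤
      ∫ p in Set.Ico (-l) l ×ˢ Set.Ico (-l) l, Real.log (bt T δ e0 (rates_cz p) (tt j)) := by
  have hc : ∀ j, Continuous fun p : ℝ × ℝ => Real.log (bt T δ e0 (rates_cz p) (tt j)) :=
    fun j => ((continuous_bt hy (tt_pos j)).comp rates_cz_cont).log fun p =>
      (lt_of_lt_of_le one_pos (one_le_bt hy _ (tt_pos j))).ne'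
  have hpos : ∀ p : ℝ × ℝ, 0 < Real.log (bt T δ e0 (rates_cz p) (tt 1))
      - Real.log (bt T δ e0 (rates_cz p) (tt 0)) := by
    intro p
    rw [sub_pos]
    refine Real.log_lt_log (lt_of_lt_of_le one_pos (one_le_bt hy _ (tt_pos 0))) ?_
    have h1 := bf_gain T (rates_cz p) (tt_pos 1) (tt_anti (Nat.zero_le 1)) (δ e0)
    have h2 : rb T (rates_cz p) (tt 0) (δ e0) ≠ 0 := by
      intro h
      have := rb_left T (rates_cz p) (tt_pos 0) (δ e0)
      rw [h] at this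
      exact hξ (by simpa using this.symm)
    have h3 : 0 < (tt 0 - tt 1) * ‖rb T (rates_cz p) (tt 0) (δ e0)‖ ^ 2 :=
      mul_pos (by norm_num [tt]) (pow_pos (norm_pos_iff.mpr h2) 2)
    unfold bt
    linarith
  obtain ⟨c, hcd⟩ : ∃ c, c = ∫ p in Set.Ico (-1 : ℝ) 1 ×ˢ Set.Ico (-1 : ℝ) 1,
      (Real.log (bt T δ e0 (rates_cz p) (tt 1)) - Real.log (bt T δ e0 (rates_cz p) (tt 0))) :=
    ⟨_, rfl⟩
  have hc0 : 0 < c := by
    rw [hcd, setIntegral_pos_iff_support_of_nonneg_ae (Eventually.of_forall fun p => (hpos p).le)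
      (rates_int_cont ((hc 1).sub (hc 0)) 1)]
    have : (Function.support fun p : ℝ × ℝ => Real.log (bt T δ e0 (rates_cz p) (tt 1))
        - Real.log (bt T δ e0 (rates_cz p) (tt 0))) = Set.univ :=
      Set.eq_univ_of_forall fun p => (hpos p).ne'
    rw [this, Set.univ_inter, Measure.volume_eq_prod, Measure.prod_prod, Real.volume_Ico]
    norm_num
  obtain ⟨l, hl⟩ : ∃ l, l = 2 * ‖T‖ + 1 + 512 * ‖δ e0‖ ^ 2 / c := ⟨_, rfl⟩
  have hT := norm_nonneg T
  have hq : 0 ≤ 512 * ‖δ e0‖ ^ 2 / c := by positivity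
  have hl1 : 1 ≤ l := by linarith
  have hl0 : 0 < l := by linarith
  refine ⟨l, c / 2, by positivity, fun j => ?_⟩
  have hint : ∀ j, IntegrableOn (fun p : ℝ × ℝ => -Real.log (bt T δ e0 (rates_cz p) (tt j)))
      (Set.Ico (-l) l ×ˢ Set.Ico (-l) l) := fun j => rates_int_cont (hc j).neg l
  have hD : 8 * (2 * ‖δ e0‖ ^ 2 / (l / 2) ^ 3) * l ≤ c / 4 := by
    have h1 : 8 * (2 * ‖δ e0‖ ^ 2 / (l / 2) ^ 3) * l = 128 * ‖δ e0‖ ^ 2 / l ^ 2 := by
      field_simp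
      norm_num
    have h2 : 512 * ‖δ e0‖ ^ 2 / c ≤ l ^ 2 := by nlinarith
    rw [div_le_iff₀ hc0] at h2
    rw [h1, div_le_iff₀ (by positivity)]
    linarith
  have hrec := rates_seq (fun j => ∫ p in Set.Ico (-l) l ×ˢ Set.Ico (-l) l,
      -Real.log (bt T δ e0 (rates_cz p) (tt j))) (D := c / 4) (by positivity) (fun j => by
      rw [← rates_split hint j]
      have hg : ∀ x y τ : ℝ, (x = -l ∨ x = l) ∨ (y = -l ∨ y = l) → _ := fun x y τ h =>
        grad_logbt hy e0 (x, y, τ) (ρ := l / 2) (by positivity)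
          (by have := rates_bdry hl0.le h; linarith)
      refine (rates_three (fun z t => -Real.log (bt T δ e0 z t)) (contDiff_logbt hy e0)
        (opL_logbt hy he) (G := 2 * ‖δ e0‖ ^ 2 / (l / 2) ^ 3) j (by linarith) (by linarith)
        (by positivity) (fun x y τ h _ _ => (hg x y τ (.inl h)).1)
        (fun x y τ h _ _ => (hg x y τ (.inr h)).2)).trans ?_
      have h1 : tt j ≤ 1 / 2 ^ j := by
        rw [← rates_tt_le]
        exact le_mul_of_one_le_right (tt_pos j).le (one_le_pow₀ (by norm_num))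
      calc tt j * (2 * (2 * ‖δ e0‖ ^ 2 / (l / 2) ^ 3) * (l - -l + (l - -l)))
          = tt j * (8 * (2 * ‖δ e0‖ ^ 2 / (l / 2) ^ 3) * l) := by ring
        _ ≤ 1 / 2 ^ j * (c / 4) := by gcongr
        _ = _ := by ring) j
  simp only [integral_neg] at hrec
  have h0 : 0 ≤ ∫ p in Set.Ico (-l) l ×ˢ Set.Ico (-l) l,
      Real.log (bt T δ e0 (rates_cz p) (tt 0)) :=
    integral_nonneg fun p => Real.log_nonneg (one_le_bt hy _ (tt_pos 0))
  have h1 : c ≤ (∫ p in Set.Ico (-l) l ×ˢ Set.Ico (-l) l,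
      Real.log (bt T δ e0 (rates_cz p) (tt 1))) - ∫ p in Set.Ico (-l) l ×ˢ Set.Ico (-l) l,
      Real.log (bt T δ e0 (rates_cz p) (tt 0)) := by
    rw [← integral_sub (rates_int_cont (hc 1) l) (rates_int_cont (hc 0) l), hcd]
    have hs : Set.Ico (-1 : ℝ) 1 ⊆ Set.Ico (-l) l := Set.Ico_subset_Ico (by linarith) hl1
    exact setIntegral_mono_set (rates_int_cont ((hc 1).sub (hc 0)) l)
      (Eventually.of_forall fun p => (hpos p).le) (Set.prod_mono hs hs).eventuallyLE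
  have hj : (0 : ℝ) ≤ j := Nat.cast_nonneg j
  nlinarith

/-- The full rate is not almost everywhere zero. -/
theorem not_ae_zero (hy : Hyp T δ) (e : HilbertBasis ℕ ℂ H) (htr : TrB T δ e)
    (hξ : δ (e 0) ≠ 0) :
    ¬ ∀ᵐ z : ℂ, Tendsto (fun j : ℕ => Vn T δ e 0 j z / j) atTop (𝓝 0) := by
  intro h
  obtain ⟨l, c, hc, hlow⟩ := rates_lower hy (e.orthonormal.1 0) hξ
  have hQf := rates_box_fin (-l) l (-l) l
  have ht := tendsto_integral_of_dominated_convergence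
    (μ := volume.restrict (Set.Ico (-l) l ×ˢ Set.Ico (-l) l))
    (F := fun (j : ℕ) (p : ℝ × ℝ) => Vn T δ e 0 j (rates_cz p) / j) (f := fun _ => 0)
    (fun _ => ‖T‖ ^ 2 + 2)
    (fun j => ((rates_meas_Vn hy e htr 0 j).div_const _).aestronglyMeasurable)
    (integrableOn_const hQf) (fun j => Eventually.of_forall fun p => by
      obtain ⟨h0, h1⟩ := Vn_bound hy e htr 0 j (rates_cz p)
      rw [Real.norm_eq_abs, abs_of_nonneg (by positivity)]
      rcases Nat.eq_zero_or_pos j with rfl | hj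
      · simp only [Nat.cast_zero, div_zero]; positivity
      · have hj' : (1 : ℝ) ≤ j := by exact_mod_cast hj
        rw [div_le_iff₀ (by linarith)]
        nlinarith [sq_nonneg ‖T‖])
    (ae_restrict_of_ae (rates_ae' h))
  rw [integral_zero] at ht
  refine absurd (ge_of_tendsto ht (eventually_atTop.mpr ⟨1, fun j hj => ?_⟩)) (not_le.mpr hc)
  have hj' : (0 : ℝ) < j := by exact_mod_cast hj
  rw [integral_div, le_div_iff₀ hj', mul_comm]
  refine (hlow j).trans (setIntegral_mono (rates_int_cont ?_ l) (rates_int_Vn hy e htr 0 j hQf)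
    fun p => logbt_le_Vn hy e htr j _)
  exact ((continuous_bt hy (tt_pos j)).comp rates_cz_cont).log fun p =>
    (lt_of_lt_of_le one_pos (one_le_bt hy _ (tt_pos j))).ne'

end Pool.Agent.P.MP_f981b0_an.Hy
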