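import Pool.Agent.P.MP_f981b0_an.Hy.CaseA
import Pool.Agent.P.MP_f981b0_an.Hy.CaseB
import Pool.Agent.P.MP_f981b0_an.Hy.Lyap
import Pool.Agent.P.MP_f981b0_an.Hy.Rates

set_option autoImplicit false

open scoped InnerProductSpace ComplexConjugate
open MeasureTheory Filter Topology

noncomputable section

namespace Pool.Agent.P.MP_f981b0_an.Hy

variable {H : Type*} [NormedAddCommGroup H] [InnerProductSpace ℂ H] [CompleteSpace H]

/-- A sequence with positive linear rate is bounded below by one of countably many lines. -/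
theorem Main_line (u : ℕ → ℝ) {ρ : ℝ} (hρ : 0 < ρ)
    (hu : Tendsto (fun j : ℕ => u j / j) atTop (𝓝 ρ)) :
    ∃ k : ℕ, ∀ j : ℕ, (1 / ((k : ℝ) + 1)) * (4 : ℝ) ^ (4 * (1 / (4 * ((k : ℝ) + 1))) * j)
      ≤ Real.exp (u j) := by
  have h1 := hu.eventually (lt_mem_nhds (show ρ / 2 < ρ by linarith))
  obtain ⟨j0, hj0⟩ := eventually_atTop.1 (h1.and (eventually_gt_atTop 0))
  have hlim : Tendsto (fun k : ℕ => 1 / ((k : ℝ) + 1)) atTop (𝓝 0) :=
    tendsto_one_div_add_atTop_nhds_zero_nat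
  have h2 : ∀ᶠ k : ℕ in atTop, ∀ j ∈ Finset.range j0,
      (1 / ((k : ℝ) + 1)) * (4 : ℝ) ^ (j : ℝ) < Real.exp (u j) := by
    rw [Finset.eventually_all]
    intro j _
    have h3 := hlim.mul_const ((4 : ℝ) ^ (j : ℝ))
    rw [zero_mul] at h3
    exact h3.eventually (gt_mem_nhds (Real.exp_pos _))
  have h3 : ∀ᶠ k : ℕ in atTop, 1 / ((k : ℝ) + 1) < ρ / 4 :=
    hlim.eventually (gt_mem_nhds (by linarith))
  obtain ⟨k, hk1, hk2⟩ := (h2.and h3).exists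
  refine ⟨k, fun j => ?_⟩
  have hk0 : (0 : ℝ) < (k : ℝ) + 1 := by positivity
  have hc0 : 0 < 1 / ((k : ℝ) + 1) := by positivity
  have hc1 : 1 / ((k : ℝ) + 1) ≤ 1 := by
    rw [div_le_one hk0]
    have : (0 : ℝ) ≤ k := Nat.cast_nonneg k
    linarith
  have hj : (0 : ℝ) ≤ j := Nat.cast_nonneg j
  have he : 4 * (1 / (4 * ((k : ℝ) + 1))) * j = 1 / ((k : ℝ) + 1) * j := by field_simp
  rw [he]
  rcases lt_or_ge j j0 with h | h
  · refine le_trans ?_ (hk1 j (Finset.mem_range.2 h)).le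
    refine mul_le_mul_of_nonneg_left ?_ hc0.le
    refine Real.rpow_le_rpow_of_exponent_le (by norm_num) ?_
    nlinarith
  · obtain ⟨h4, h5⟩ := hj0 j h
    have h6 : (0 : ℝ) < j := by exact_mod_cast h5
    rw [lt_div_iff₀ h6] at h4
    have h7 : (4 : ℝ) ^ (1 / ((k : ℝ) + 1) * j) ≤ Real.exp (u j) := by
      rw [Real.rpow_def_of_pos (by norm_num)]
      refine Real.exp_le_exp.2 ?_
      have h8 : 0 ≤ 1 / ((k : ℝ) + 1) * j := by positivity
      have h9 := mul_le_mul_of_nonneg_right VInf_log_four h8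
      have h10 := mul_le_mul_of_nonneg_right hk2.le hj
      linarith
    calc _ ≤ 1 * (4 : ℝ) ^ (1 / ((k : ℝ) + 1) * j) :=
          mul_le_mul_of_nonneg_right hc1 (by positivity)
      _ ≤ Real.exp (u j) := by rw [one_mul]; exact h7

/-- The dichotomy at a point where all rates exist. -/
theorem Main_point {T δ : H →L[ℂ] H} (hy : Hyp T δ) (e : HilbertBasis ℕ ℂ H) (htr : TrB T δ e)
    (z : ℂ) (h1 : ∀ n : ℕ, ∃ ρ : ℝ, Tendsto (fun j : ℕ => Vn T δ e n j z / j) atTop (𝓝 ρ))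
    (h2 : ∀ ε : ℝ, 0 < ε → ∃ n : ℕ, ∃ᶠ j : ℕ in atTop, Vn T δ e n j z < ε * j)
    (h3 : ¬Tendsto (fun j : ℕ => Vn T δ e 0 j z / j) atTop (𝓝 0)) :
    (∃ m k : ℕ, ∀ J : ℕ, ∃ d : H, ⟪e 0, d⟫_ℂ = 0 ∧ ⟪e m, d⟫_ℂ = 1 ∧
      ∀ τ, tt J ≤ τ → τ ≤ 1 → qf T δ z τ d ≤ (k + 1) * τ ^ (1 / ((k : ℝ) + 1))) ∨
    ∃ k : ℕ, ∀ j : ℕ, (1 / ((k : ℝ) + 1)) * (4 : ℝ) ^ (4 * (1 / (4 * ((k : ℝ) + 1))) * j)
      ≤ om T δ (e 0) (Vn T δ e 1) j z := by
  choose ρ hρ using h1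
  have hnn : ∀ n, 0 ≤ ρ n := fun n => ge_of_tendsto' (hρ n) fun j =>
    div_nonneg (Vn_bound hy e htr n j z).1 (Nat.cast_nonneg j)
  rcases (hnn 1).lt_or_eq with hp | hz
  · left
    refine lyap hy e z (fun n j => Vn T δ e n j z) (fun n j u hu => Vn_F1 hy e htr n j z u hu)
      (fun n j u hu => Vn_F2 hy e htr n j z u hu) (fun n j => Vn_F3 hy e htr n j z) ρ hρ
      (fun n j => Vn_anti hy e htr n j z) (fun ε hε => ?_) hp
    obtain ⟨n, hn⟩ := h2 (ε / 2) (by linarith)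
    refine ⟨n, ?_⟩
    by_contra hc
    have h4 := (hρ n).eventually (lt_mem_nhds (show ε / 2 < ρ n by linarith [not_lt.1 hc]))
    obtain ⟨j, hj1, hj2, hj3⟩ := (hn.and_eventually (h4.and (eventually_gt_atTop 0))).exists
    have h6 : (0 : ℝ) < j := by exact_mod_cast hj3
    rw [lt_div_iff₀ h6] at hj2
    linarith
  · right
    have h0 : 0 < ρ 0 := by
      refine (hnn 0).lt_of_ne fun h => h3 ?_
      rw [h]
      exact hρ 0
    have h4 : Tendsto (fun j : ℕ => (Vn T δ e 0 j z - 2 * Vn T δ e 1 j z) / j) atTop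
        (𝓝 (ρ 0)) := by
      have h5 := (hρ 0).sub ((hρ 1).const_mul 2)
      rw [← hz, mul_zero, sub_zero] at h5
      refine h5.congr fun j => ?_
      ring
    obtain ⟨k, hk⟩ := Main_line _ h0 h4
    refine ⟨k, fun j => (hk j).trans ?_⟩
    have hb : 0 < bt T δ (e 0) z (tt j) := one_pos.trans_le (one_le_bt hy z (tt_pos j))
    have h5 := Vn_le_logbt hy e htr j z
    unfold om
    rw [← Real.exp_log hb, ← Real.exp_add]
    refine Real.exp_le_exp.2 ?_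
    linarith

theorem hasInv_of_hyp (hinf : ¬FiniteDimensional ℂ H) {T δ : H →L[ℂ] H} (hy : Hyp T δ) :
    HasInv T := by
  by_contra hT
  have hδ : ∃ x, δ x ≠ 0 := by
    by_contra hc
    have h0 : δ = 0 := by
      ext x
      by_contra hx
      exact hc ⟨x, hx⟩
    have h1 := hy.sq
    rw [h0, mul_zero] at h1
    exact hT (hasInv_normal hinf T (sub_eq_zero.1 h1.symm))
  obtain ⟨x, hx⟩ := hδ
  have hx0 : x ≠ 0 := by
    rintro rfl
    exact hx (map_zero _)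
  obtain ⟨e, ⟨c, hc, he0⟩, hess⟩ := exists_hess hinf hT hx0
  have htr := trB_of_hess hy e hess
  have hξ : δ (e 0) ≠ 0 := by
    rw [he0, map_smul]
    exact smul_ne_zero hc hx
  have hB : ∀ᵐ z : ℂ, ∀ m k : ℕ, ¬∀ J : ℕ, ∃ d : H, ⟪e 0, d⟫_ℂ = 0 ∧ ⟪e m, d⟫_ℂ = 1 ∧
      ∀ τ, tt J ≤ τ → τ ≤ 1 → qf T δ z τ d ≤ (k + 1) * τ ^ (1 / ((k : ℝ) + 1)) := by
    refine ae_all_iff.2 fun m => ae_all_iff.2 fun k => ?_
    by_contra hc'
    have hk0 : (0 : ℝ) < (k : ℝ) + 1 := by positivity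
    refine hT (caseB hy (em := e m) hξ (S := {z | ∀ J : ℕ, ∃ d : H, ⟪e 0, d⟫_ℂ = 0 ∧
      ⟪e m, d⟫_ℂ = 1 ∧ ∀ τ, tt J ≤ τ → τ ≤ 1 →
        qf T δ z τ d ≤ (k + 1) * τ ^ (1 / ((k : ℝ) + 1))}) (fun h => hc' ?_)
      (L := k + 1) (g := 1 / ((k : ℝ) + 1)) (by positivity) ?_ fun z hz => hz)
    · exact measure_eq_zero_iff_ae_notMem.1 h
    · rw [div_le_one hk0]
      have : (0 : ℝ) ≤ k := Nat.cast_nonneg k
      linarith
  have hA : ∀ᵐ z : ℂ, ∀ k : ℕ, ¬∀ j : ℕ,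
      (1 / ((k : ℝ) + 1)) * (4 : ℝ) ^ (4 * (1 / (4 * ((k : ℝ) + 1))) * j)
        ≤ om T δ (e 0) (Vn T δ e 1) j z := by
    refine ae_all_iff.2 fun k => ?_
    by_contra hc'
    have hk0 : (0 : ℝ) < (k : ℝ) + 1 := by positivity
    refine hT (caseA hy (e.orthonormal.1 0) (rdata_Vn hy e htr) (denseRange_oA hinf hT)
      (g := 1 / (4 * ((k : ℝ) + 1))) (c := 1 / ((k : ℝ) + 1)) (by positivity) ?_ (by positivity)
      fun h => hc' ?_)
    · refine one_div_le_one_div_of_le (by norm_num) ?_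
      have : (0 : ℝ) ≤ k := Nat.cast_nonneg k
      linarith
    · exact measure_eq_zero_iff_ae_notMem.1 h
  refine not_ae_zero hy e htr hξ ?_
  filter_upwards [ae_rate hy e htr, ae_tail hy e htr, hA, hB] with z h1 h2 h3 h4
  by_contra h5
  rcases Main_point hy e htr z h1 h2 h5 with ⟨m, k, h⟩ | ⟨k, h⟩
  · exact h4 m k h
  · exact h3 k h

theorem hasInv_hyponormal (hinf : ¬FiniteDimensional ℂ H) (T : H →L[ℂ] H)
    (hT : ∀ x, ‖star T x‖ ≤ ‖T x‖) : HasInv T := by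
  obtain ⟨δ, hy⟩ := exists_hyp hT
  exact hasInv_of_hyp hinf hy

end Pool.Agent.P.MP_f981b0_an.Hy
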