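import Pool.Agent.P.MP_f981b0_an.Hy.Defs

set_option autoImplicit false

open MeasureTheory Filter Topology Finset

noncomputable section

namespace Pool.Agent.P.MP_f981b0_an.Hy

variable {Ω : Type} {m0 : MeasurableSpace Ω} {μ : Measure Ω}

theorem Rate_int [IsFiniteMeasure μ] {f : Ω → ℝ} (hf : AEStronglyMeasurable f μ) {M : ℝ}
    (hb : ∀ᵐ x ∂μ, |f x| ≤ M) : Integrable f μ :=
  (integrable_const M).mono' hf hb

theorem Rate_ae_zero {f : ℕ → Ω → ℝ} (hi : ∀ k, Integrable (fun x => f k x ^ 2) μ)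
    (hs : Summable fun k => ∫ x, f k x ^ 2 ∂μ) :
    ∀ᵐ x ∂μ, Tendsto (fun k => f k x) atTop (𝓝 0) := by
  have hm : ∀ k, AEMeasurable (fun x => ENNReal.ofReal (f k x ^ 2)) μ := fun k =>
    (hi k).aemeasurable.ennreal_ofReal
  have h1 : ∫⁻ x, ∑' k, ENNReal.ofReal (f k x ^ 2) ∂μ ≠ ⊤ := by
    rw [lintegral_tsum hm]
    simp only [← fun k => ofReal_integral_eq_lintegral_ofReal (hi k)
      (ae_of_all _ fun x => sq_nonneg (f k x))]
    rw [← ENNReal.ofReal_tsum_of_nonneg (fun k => integral_nonneg fun x => sq_nonneg _) hs]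
    exact ENNReal.ofReal_ne_top
  filter_upwards [ae_lt_top' (AEMeasurable.ennreal_tsum hm) h1] with x hx
  have h2 := (ENNReal.tendsto_toReal ENNReal.zero_ne_top).comp
    (ENNReal.tendsto_atTop_zero_of_tsum_ne_top hx.ne)
  have h3 : Tendsto (fun k => f k x ^ 2) atTop (𝓝 0) := by
    simpa [Function.comp_def, ENNReal.toReal_ofReal (sq_nonneg _)] using h2
  have h4 := h3.sqrt
  simp only [Real.sqrt_sq_eq_abs, Real.sqrt_zero] at h4
  exact (tendsto_zero_iff_abs_tendsto_zero _).2 h4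

theorem Rate_sum_odd (m : ℕ) : ∑ i ∈ range m, (2 * (i : ℝ) + 3) = (m + 1) ^ 2 - 1 := by
  induction m with
  | zero => simp
  | succ m ih =>
    rw [sum_range_succ, ih]
    push_cast
    ring

theorem Rate_cesaro {x : ℕ → ℝ} {ρ : ℝ} (h : Tendsto x atTop (𝓝 ρ)) :
    Tendsto (fun m : ℕ => (∑ i ∈ range m, (2 * (i : ℝ) + 3) * x i) / (m + 1) ^ 2) atTop (𝓝 ρ) := by
  have t1 : Tendsto (fun m : ℕ => ((m : ℝ) + 1) ^ 2) atTop atTop :=
    (tendsto_pow_atTop two_ne_zero).comp
      (tendsto_atTop_add_const_right _ 1 tendsto_natCast_atTop_atTop)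
  have h1 : (fun i : ℕ => (2 * (i : ℝ) + 3) * (x i - ρ)) =o[atTop] fun i : ℕ => 2 * (i : ℝ) + 3 := by
    have := (Asymptotics.isBigO_refl (fun i : ℕ => 2 * (i : ℝ) + 3) atTop).mul_isLittleO
      ((Asymptotics.isLittleO_one_iff ℝ).2 (tendsto_sub_nhds_zero_iff.2 h))
    simpa using this
  have h2 := h1.sum_range (fun i => by positivity) (by
    simp only [Rate_sum_odd]
    exact tendsto_atTop_add_const_right _ (-1) t1)
  have h3 : (fun m : ℕ => ∑ i ∈ range m, (2 * (i : ℝ) + 3)) =O[atTop]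
      fun m : ℕ => ((m : ℝ) + 1) ^ 2 := by
    refine Asymptotics.isBigO_of_le _ fun m => ?_
    have : (0 : ℝ) ≤ m := Nat.cast_nonneg m
    rw [Rate_sum_odd, Real.norm_of_nonneg (by nlinarith), Real.norm_of_nonneg (by positivity)]
    linarith
  have h4 := ((h2.trans_isBigO h3).tendsto_div_nhds_zero.add_const ρ).sub
    (t1.inv_tendsto_atTop.const_mul ρ)
  simp only [zero_add, mul_zero, sub_zero] at h4
  refine h4.congr fun m => ?_
  have : ((m : ℝ) + 1) ^ 2 ≠ 0 := by positivity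
  simp only [mul_sub, sum_sub_distrib, ← sum_mul, Rate_sum_odd, Pi.inv_apply]
  field_simp
  ring

theorem Rate_core [IsFiniteMeasure μ] (F : Filtration ℕ m0) {g : ℕ → Ω → ℝ}
    (hg : ∀ i, StronglyMeasurable[F (i + 3)] (g i)) (hb : ∀ i x, |g i x| ≤ 2) {ε : ℕ → ℝ}
    (hε0 : ∀ i, 0 ≤ ε i) (hε : Summable ε)
    (hs : ∀ i s, MeasurableSet[F i] s →
      ∫ x in s, g (i + 1) x ∂μ ≤ ∫ x in s, g i x ∂μ + ε i * μ.real s) :
    ∀ᵐ x ∂μ, ∃ ρ : ℝ, Tendsto (fun k : ℕ =>
      (∑ i ∈ range (k ^ 2), (2 * (i : ℝ) + 3) * g i x) / ((k ^ 2 : ℕ) + 1) ^ 2) atTop (𝓝 ρ) := by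
  have hgm : ∀ i, AEStronglyMeasurable (g i) μ := fun i =>
    ((hg i).mono (F.le _)).aestronglyMeasurable
  have hgi : ∀ i, Integrable (g i) μ := fun i => Rate_int (hgm i) (ae_of_all _ (hb i))
  let c : ℕ → Ω → ℝ := fun i => μ[g i | F i]
  have hcb : ∀ i, ∀ᵐ x ∂μ, |c i x| ≤ 2 := fun i =>
    ae_bdd_abs_condExp_of_ae_bdd_abs (ae_of_all _ (hb i))
  have hci : ∀ i, Integrable (c i) μ := fun i => integrable_condExp
  have hsub : Submartingale (fun i x => ∑ k ∈ range i, ε k - c i x) F μ := by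
    refine submartingale_of_setIntegral_le_succ
      (fun i => stronglyMeasurable_const.sub stronglyMeasurable_condExp)
      (fun i => (integrable_const _).sub (hci i)) fun i s h => ?_
    rw [integral_sub (integrable_const _) (hci i).integrableOn,
      integral_sub (integrable_const _) (hci _).integrableOn,
      setIntegral_condExp (F.le i) (hgi i) h,
      setIntegral_condExp (F.le _) (hgi _) (F.mono (Nat.le_succ i) _ h), setIntegral_const,
      setIntegral_const, sum_range_succ, smul_eq_mul, smul_eq_mul]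
    linarith [hs i s h]
  have h1 := hsub.exists_ae_tendsto_of_bdd
    (R := (μ Set.univ ^ (1 : ENNReal).toReal⁻¹ * ENNReal.ofReal (∑' k, ε k + 2)).toNNReal) fun i => by
      rw [ENNReal.coe_toNNReal (by finiteness)]
      refine eLpNorm_le_of_ae_bound ?_
      filter_upwards [hcb i] with x hx
      have a1 := hε.sum_le_tsum (range i) fun k _ => hε0 k
      have a2 : 0 ≤ ∑ k ∈ range i, ε k := sum_nonneg fun k _ => hε0 k
      rw [Real.norm_eq_abs, abs_le] at *
      constructor <;> linarith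
  let Z : ℕ → Ω → ℝ := fun i x => g i x - c i x
  have hZm : ∀ i, StronglyMeasurable[F (i + 3)] (Z i) := fun i =>
    (hg i).sub (stronglyMeasurable_condExp.mono (F.mono (Nat.le_add_right i 3)))
  have hZa : ∀ i, AEStronglyMeasurable (Z i) μ := fun i =>
    ((hZm i).mono (F.le _)).aestronglyMeasurable
  have hZb : ∀ i, ∀ᵐ x ∂μ, |Z i x| ≤ 4 := fun i => by
    filter_upwards [hcb i] with x hx
    have := hb i x
    rw [abs_le] at *
    simp only [Z]
    constructor <;> linarith
  have hZZb : ∀ i k, ∀ᵐ x ∂μ, |Z i x * Z k x| ≤ 16 := fun i k => by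
    filter_upwards [hZb i, hZb k] with x h1 h2
    rw [abs_mul]
    nlinarith [abs_nonneg (Z i x), abs_nonneg (Z k x)]
  have hZZ : ∀ i k, Integrable (fun x => Z i x * Z k x) μ := fun i k =>
    Rate_int ((hZa i).mul (hZa k)) (hZZb i k)
  have horth : ∀ i k, i + 3 ≤ k → ∫ x, Z i x * Z k x ∂μ = 0 := by
    intro i k h
    have a1 := condExp_mul_of_stronglyMeasurable_left ((hZm i).mono (F.mono h)) (hZZ i k)
      (Rate_int (hZa k) (hZb k))
    have a2 : μ[Z k | F k] =ᵐ[μ] 0 := by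
      refine (condExp_sub (hgi k) (hci k) _).trans ?_
      rw [condExp_of_stronglyMeasurable (F.le k) stronglyMeasurable_condExp (hci k)]
      simp [c]
    rw [← integral_condExp (F.le k)]
    refine integral_eq_zero_of_ae (a1.trans ?_)
    filter_upwards [a2] with x hx
    simp [hx]
  have hpair : ∀ i k, ∫ x, Z i x * Z k x ∂μ ≤
      if k ∈ Icc (i - 2) (i + 2) then 16 * μ.real Set.univ else 0 := by
    intro i k
    split_ifs with h
    · have := integral_mono_ae (hZZ i k) (integrable_const 16)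
        ((hZZb i k).mono fun x hx => (le_abs_self _).trans hx)
      simpa [mul_comm] using this
    · rw [mem_Icc] at h
      rcases (by omega : i + 3 ≤ k ∨ k + 3 ≤ i) with h2 | h2
      · exact (horth i k h2).le
      · simpa only [mul_comm] using (horth k i h2).le
  have hsq : ∀ (m : ℕ) x, (∑ i ∈ range m, (2 * (i : ℝ) + 3) * Z i x) ^ 2 = ∑ i ∈ range m,
      ∑ k ∈ range m, (2 * (i : ℝ) + 3) * (2 * (k : ℝ) + 3) * (Z i x * Z k x) := fun m x => by
    rw [sq, sum_mul_sum]
    exact sum_congr rfl fun i _ => sum_congr rfl fun k _ => by ring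
  have hSi : ∀ m : ℕ, Integrable (fun x => (∑ i ∈ range m, (2 * (i : ℝ) + 3) * Z i x) ^ 2) μ :=
    fun m => by
      simp only [hsq]
      exact integrable_finsetSum _ fun i _ => integrable_finsetSum _ fun k _ =>
        (hZZ i k).const_mul _
  have hS : ∀ m : ℕ, ∫ x, (∑ i ∈ range m, (2 * (i : ℝ) + 3) * Z i x) ^ 2 ∂μ ≤
      m * (5 * ((2 * (m : ℝ) + 3) ^ 2 * (16 * μ.real Set.univ))) := by
    intro m
    simp only [hsq]
    rw [integral_finsetSum _ fun i _ => integrable_finsetSum _ fun k _ => (hZZ i k).const_mul _]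
    refine (sum_le_card_nsmul _ _ _ fun i hi => ?_).trans (by rw [card_range, nsmul_eq_mul])
    rw [integral_finsetSum _ fun k _ => (hZZ i k).const_mul _]
    have a1 : ∀ k ∈ range m, ∫ x, (2 * (i : ℝ) + 3) * (2 * (k : ℝ) + 3) * (Z i x * Z k x) ∂μ ≤
        if k ∈ Icc (i - 2) (i + 2) then (2 * (m : ℝ) + 3) ^ 2 * (16 * μ.real Set.univ) else 0 := by
      intro k hk
      have b1 : (i : ℝ) ≤ m := by exact_mod_cast (mem_range.1 hi).le
      have b2 : (k : ℝ) ≤ m := by exact_mod_cast (mem_range.1 hk).le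
      rw [integral_const_mul]
      refine (mul_le_mul_of_nonneg_left (hpair i k) (by positivity)).trans ?_
      split_ifs
      · rw [sq]
        gcongr
      · simp
    refine (sum_le_sum a1).trans ?_
    rw [sum_ite_mem, sum_const, nsmul_eq_mul]
    refine mul_le_mul_of_nonneg_right ?_ (by positivity)
    have a2 : (range m ∩ Icc (i - 2) (i + 2)).card ≤ 5 :=
      (card_le_card inter_subset_right).trans (by rw [Nat.card_Icc]; omega)
    exact_mod_cast a2
  have h2 := Rate_ae_zero (μ := μ) (f := fun k x =>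
      (∑ i ∈ range (k ^ 2), (2 * (i : ℝ) + 3) * Z i x) / ((k ^ 2 : ℕ) + 1) ^ 2)
    (fun k => by simpa only [div_pow] using (hSi (k ^ 2)).div_const _) (by
      have s1 : Summable fun k : ℕ => 1 / ((k : ℝ) + 1) ^ 2 := by
        simpa using (summable_nat_add_iff 1).2 (Real.summable_one_div_nat_pow.2 one_lt_two)
      refine Summable.of_nonneg_of_le (fun k => integral_nonneg fun x => sq_nonneg _)
        (fun k => ?_) (s1.mul_left (1440 * μ.real Set.univ))
      simp only [div_pow]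
      rw [integral_div, div_le_iff₀ (by positivity)]
      refine (hS _).trans ?_
      set m : ℝ := ((k ^ 2 : ℕ) : ℝ) with hm
      have b0 : 0 ≤ m := Nat.cast_nonneg _
      have b1 : ((k : ℝ) + 1) ^ 2 ≤ 2 * (m + 1) := by
        rw [hm]
        push_cast
        nlinarith [sq_nonneg ((k : ℝ) - 1)]
      have b2 : 1 / (2 * (m + 1)) ≤ 1 / ((k : ℝ) + 1) ^ 2 :=
        one_div_le_one_div_of_le (by positivity) b1
      calc _ ≤ (m + 1) * (5 * ((3 * (m + 1)) ^ 2 * (16 * μ.real Set.univ))) := by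
            gcongr <;> linarith
        _ = 1440 * μ.real Set.univ * (1 / (2 * (m + 1))) * ((m + 1) ^ 2) ^ 2 := by
            field_simp
            ring
        _ ≤ _ := by gcongr)
  filter_upwards [h1, h2] with x ⟨ρ, hρ⟩ h3
  have a1 : Tendsto (fun i => c i x) atTop (𝓝 (∑' k, ε k - ρ)) := by
    simpa using hε.hasSum.tendsto_sum_nat.sub hρ
  refine ⟨0 + (∑' k, ε k - ρ), (h3.add ((Rate_cesaro a1).comp
    (tendsto_pow_atTop two_ne_zero))).congr fun k => ?_⟩
  simp only [Function.comp_apply, Z, mul_sub, sum_sub_distrib]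
  ring

end Pool.Agent.P.MP_f981b0_an.Hy
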