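import Pool.Agent.P.MP_f981b0_an.Hy.Basic

set_option autoImplicit false

open scoped InnerProductSpace ComplexConjugate
open MeasureTheory Filter Topology

noncomputable section

namespace Pool.Agent.P.MP_f981b0_an.Hy

variable {H : Type*} [NormedAddCommGroup H] [InnerProductSpace ℂ H] [CompleteSpace H]

/-- Points for which `j` is a good time. -/
def Good (T δ : H →L[ℂ] H) (e0 : H) (R : ℕ → ℂ → ℝ) (g : ℝ) (j : ℕ) : Set ℂ :=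
  {z | ∀ l, j ≤ l → om T δ e0 R j z * (4 : ℝ) ^ (g * ((l : ℝ) - j)) ≤ om T δ e0 R l z}

/-- The environment of part II. -/
structure Env (T δ : H →L[ℂ] H) (e0 : H) (R : ℕ → ℂ → ℝ) (g c c1 : ℝ) (c0 : ℂ) (S : Set ℂ)
    (F : Filter ℕ) : Prop where
  hy : Hyp T δ
  he : ‖e0‖ = 1
  hR : RData T δ e0 R
  hd : ∀ z, DenseRange (oA T z)
  hg : 0 < g
  hg1 : g ≤ 1 / 4
  hc : 0 < c
  hc1 : 0 < c1
  hS : S ⊆ Metric.closedBall c0 (1 / 2)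
  hom : ∀ z ∈ S, ∀ j : ℕ, c * (4 : ℝ) ^ (4 * g * j) ≤ om T δ e0 R j z
  ne : F.NeBot
  le : F ≤ atTop
  good : ∀ G : Set ℂ, MeasurableSet G → G ⊆ S → 0 < volume.real G →
    ∀ᶠ j in F, c1 * volume.real G ≤ volume.real (G ∩ Good T δ e0 R g j)

/-- The data of one stage of the construction. -/
structure StData (T δ : H →L[ℂ] H) (e0 : H) (g : ℝ) (S : Set ℂ) (A B Ec : ℝ) (x : H)
    {ι : Type} [Fintype ι] [DecidableEq ι] (J : ℕ) (ρ d : ℝ) (cen : ι → ℂ) (G : ι → Set ℂ)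
    (m κ Λ Γ : ι → ℝ) (k : ι → ι → ℝ) : Prop where
  hρ : 0 < ρ
  hd : 0 < d
  cpt : ∀ c, IsCompact (G c)
  sub : ∀ c, G c ⊆ S
  ball : ∀ c, G c ⊆ Metric.closedBall (cen c) ρ
  vol : ∀ c, 0 < volume.real (G c)
  mpos : ∀ c, 0 < m c
  msum : ∑ c, m c = 1
  κpos : ∀ c, 0 < κ c
  Λpos : ∀ c, 0 < Λ c
  sep : ∀ c c', c ≠ c' → ∀ p ∈ G c, ∀ q ∈ G c', d ≤ ‖p - q‖
  ker : ∀ c, ∀ p ∈ G c, ∀ q ∈ G c, p ≠ q → ∀ j, J ≤ j →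
    ‖⟪yh T δ e0 p (tt j), yh T δ e0 q (tt j)⟫_ℂ‖ ≤ κ c * kk g (p - q)
  cross : ∀ c c', c ≠ c' → ∀ p ∈ G c, ∀ q ∈ G c', ∀ j, J ≤ j →
    ‖⟪yh T δ e0 p (tt j), yh T δ e0 q (tt j)⟫_ℂ‖ ≤ k c c'
  lam : ∀ c, ∀ p ∈ G c, κ c * ∫ q in G c, kk g (p - q) ≤ Λ c * volume.real (G c)
  rep : ∀ c, ∃ v v' : H, ‖v‖ ^ 2 + ‖v'‖ ^ 2 ≤ Γ c ∧ x = oA T (cen c) v + (ρ : ℂ) • v'
  hA : ∑ c, m c * (ρ ^ 2 * Λ c * Γ c) ≤ A
  hB : ∑ c, m c ^ 2 * Λ c ≤ B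
  hE : ∑ c, ∑ c' ∈ Finset.univ.erase c, m c * m c' * k c c' ≤ Ec

/-- A stage with bounds `A`, `B`, `Ec` and vector `x` exists. -/
def Stt (T δ : H →L[ℂ] H) (e0 : H) (g : ℝ) (S : Set ℂ) (A B Ec : ℝ) (x : H) : Prop :=
  ∃ (ι : Type) (_ : Fintype ι) (_ : DecidableEq ι) (J : ℕ) (ρ d : ℝ) (cen : ι → ℂ)
    (G : ι → Set ℂ) (m κ Λ Γ : ι → ℝ) (k : ι → ι → ℝ),
    StData T δ e0 g S A B Ec x J ρ d cen G m κ Λ Γ k

theorem stDefs_measurable_om {T δ : H →L[ℂ] H} (hy : Hyp T δ) {e0 : H} {R : ℕ → ℂ → ℝ}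
    (hR : RData T δ e0 R) (j : ℕ) : Measurable (om T δ e0 R j) :=
  (continuous_bt hy (tt_pos j)).measurable.mul (Real.measurable_exp.comp (hR.meas j).neg)

theorem measurableSet_good {T δ : H →L[ℂ] H} (hy : Hyp T δ) {e0 : H} {R : ℕ → ℂ → ℝ}
    (hR : RData T δ e0 R) (g : ℝ) (j : ℕ) : MeasurableSet (Good T δ e0 R g j) := by
  unfold Good
  rw [Set.ofPred_forall]
  refine MeasurableSet.iInter fun l => ?_
  by_cases h : j ≤ l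
  · simp only [h, true_implies]
    exact measurableSet_le ((stDefs_measurable_om hy hR j).mul_const _)
      (stDefs_measurable_om hy hR l)
  · simp [h]

end Pool.Agent.P.MP_f981b0_an.Hy
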