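import Pool.Agent.P.MP_f981b0_an.Hy.Step1

set_option autoImplicit false
set_option linter.unusedSectionVars false
set_option maxHeartbeats 4000000

open scoped InnerProductSpace ComplexConjugate
open MeasureTheory Filter Topology

noncomputable section

namespace Pool.Agent.P.MP_f981b0_an.Hy

variable {H : Type*} [NormedAddCommGroup H] [InnerProductSpace ℂ H] [CompleteSpace H]

variable {T δ : H →L[ℂ] H} {e0 : H} {R : ℕ → ℂ → ℝ} {g c c1 : ℝ} {c0 : ℂ} {S : Set ℂ}
  {F : Filter ℕ}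

theorem step_sep (env : Env T δ e0 R g c c1 c0 S F) {j : ℕ} {Θ : ℝ}
    (hΘ : Θ * tt j ^ (3 * g) ≤ c / 2) {p q : ℂ} (hq : q ∈ S) (hne : p ≠ q)
    (h : tt j * bt T δ e0 q (tt j) * kk g (p - q) ≤ Θ) : √(tt j) ≤ ‖p - q‖ := by
  by_contra hlt
  push Not at hlt
  have hs := tt_pos j
  have h0 : 0 < ‖p - q‖ := norm_pos_iff.mpr (sub_ne_zero.mpr hne)
  have h1 : √(tt j) ^ (2 * g - 2) ≤ kk g (p - q) :=
    Real.rpow_le_rpow_of_nonpos h0 hlt.le (by linarith [env.hg1])
  have h2 : √(tt j) ^ (2 * g - 2) = tt j ^ (g - 1) := by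
    rw [Real.sqrt_eq_rpow, ← Real.rpow_mul hs.le]; congr 1; ring
  rw [h2] at h1
  have h3 := step_om' env hq j
  have h4 : tt j * (c * tt j ^ (-(4 * g))) * tt j ^ (g - 1) * tt j ^ (3 * g) = c := by
    have : tt j ^ (1 : ℝ) * tt j ^ (-(4 * g)) * tt j ^ (g - 1) * tt j ^ (3 * g) = 1 := by
      rw [← Real.rpow_add hs, ← Real.rpow_add hs, ← Real.rpow_add hs]
      rw [show (1 : ℝ) + -(4 * g) + (g - 1) + 3 * g = 0 by ring, Real.rpow_zero]
    rw [Real.rpow_one] at this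
    linear_combination c * this
  have h5 : tt j * (c * tt j ^ (-(4 * g))) * tt j ^ (g - 1) ≤ Θ := by
    refine le_trans ?_ h
    have a1 : 0 ≤ tt j ^ (g - 1) := Real.rpow_nonneg hs.le _
    have a2 := bt_pos env.hy q hs (e0 := e0)
    gcongr
  have h6 : 0 ≤ tt j ^ (3 * g) := Real.rpow_nonneg hs.le _
  have h7 := mul_le_mul_of_nonneg_right h5 h6
  linarith [env.hc]

/-- The cut at the chosen points. -/
theorem step_cut (env : Env T δ e0 R g c c1 c0 S F) {Θ : ℝ} (hΘ : 0 ≤ Θ) :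
    ∀ᶠ j in atTop, ∀ {ι : Type} [Fintype ι] [DecidableEq ι] (p : ι → ℂ), Function.Injective p →
      (∀ a, p a ∈ S) →
      (∀ a, ∑ b ∈ Finset.univ.erase a, tt j * bt T δ e0 (p b) (tt j) * kk g (p a - p b) ≤ Θ) →
      ∀ σ : ℝ, 0 < σ → ∀ x : H, ∃ x' : H, ‖x - x'‖ ^ 2 + tt j * ∑ a, bf T (p a) σ x' ≤
        60 * (tt j * ∑ a, bf T (p a) (tt j) x) := by
  obtain ⟨Cd, L, hCd, hL, hgl⟩ := step_glob env
  have hg := env.hg
  have hc := env.hc
  obtain ⟨i, hi⟩ := (step_ev_mul (a := g) (K := (Cd * √L + L) * Θ) hg (by positivity)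
    (show (0 : ℝ) < 1 / 1000 by norm_num)).exists
  have hti := tt_pos i
  have hε : 0 < tt i / (200 * (Cd ^ 2 + 1)) := by positivity
  filter_upwards [eventually_ge_atTop i,
    mul_bf_small T env.hd (δ e0) (isCompact_closedBall c0 (1 / 2)) hε, step_ev_small one_pos hε,
    step_ev_small (a := 4 * g) (by linarith) hc,
    step_ev_mul (a := g) (K := (Cd + 1) * Θ) hg (by positivity)
      (show 0 < √c / 1000 by positivity)] with j h1 h2 h3 h4 h5
  intro ι _ _ p hp hpS hrow σ hσ x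
  have hs := tt_pos j
  rw [Real.rpow_one] at h3
  refine cut T p hs hσ (by norm_num) (fun y => ?_) x
  refine lower_bound env.hy env.he p hp (t := tt i) (g := g) (Cd := Cd) (L := L)
    (ω := c * tt j ^ (-(4 * g))) (Θ := Θ) (fun a => Real.exp (R j (p a))) hs (tt_anti h1)
    (tt_le_one i) hg env.hg1 hCd hL hΘ (fun a => (hgl _ (hpS a) j).1)
    (fun a τ a1 a2 => (hgl _ (hpS a) j).2 τ a1 (a2.trans (tt_le_one i)))
    (fun a => Real.one_le_exp (env.hR.nonneg j _)) (fun a u hu => env.hR.low j _ u hu) ?_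
    (fun a => step_om env (hpS a) j) hrow (fun a => ?_) (by linarith) ?_ y
  · rw [Real.rpow_neg hs.le, ← div_eq_mul_inv, one_le_div (Real.rpow_pos_of_pos hs _)]
    exact h4
  · have b1 := h2 _ (env.hS (hpS a))
    have b2 : tt j * bt T δ e0 (p a) (tt j) ≤ tt i / (100 * (Cd ^ 2 + 1)) := by
      have : tt i / (100 * (Cd ^ 2 + 1)) = 2 * (tt i / (200 * (Cd ^ 2 + 1))) := by
        field_simp; ring
      unfold bt; linarith
    have b3 : tt i / (100 * (Cd ^ 2 + 1)) * Cd ^ 2 ≤ tt i / 100 := by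
      rw [div_mul_eq_mul_div, div_le_div_iff₀ (by positivity) (by positivity)]
      nlinarith
    nlinarith [mul_le_mul_of_nonneg_right b2 (sq_nonneg Cd)]
  · have b1 : √(c * tt j ^ (-(4 * g))) = √c * (tt j ^ (-g) * tt j ^ (-g)) := by
      rw [Real.sqrt_mul hc.le, ← Real.rpow_add hs, Real.sqrt_eq_rpow (tt j ^ _),
        ← Real.rpow_mul hs.le]
      congr 2; ring
    have b2 : tt j ^ g * tt j ^ (-g) = 1 := by
      rw [← Real.rpow_add hs]; simp
    have b3 : 0 < tt j ^ (-g) := Real.rpow_pos_of_pos hs _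
    rw [b1]
    have b4 := mul_le_mul_of_nonneg_right h5 (mul_pos b3 b3).le
    have b5 : (Cd + 1) * Θ * tt j ^ g * (tt j ^ (-g) * tt j ^ (-g))
        = (Cd + 1) * tt j ^ (-g) * Θ := by
      linear_combination ((Cd + 1) * Θ * tt j ^ (-g)) * b2
    linarith

theorem step_rpow {s Rr g : ℝ} (hs : 0 < s) (hR : 0 < Rr) :
    (√s / Rr) ^ (2 * g) = s ^ g * Rr ^ (-(2 * g)) := by
  rw [Real.div_rpow (Real.sqrt_nonneg _) hR.le, Real.sqrt_eq_rpow, ← Real.rpow_mul hs.le,
    Real.rpow_neg hR.le, div_eq_mul_inv]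
  congr 2; ring

/-- One step of the construction. -/
theorem step (env : Env T δ e0 R g c c1 c0 S F) : ∃ C1 : ℝ, 0 < C1 ∧
    ∀ (A B Ec st Rr : ℝ) (x : H), 0 < A → 0 < st → 4 ≤ Rr → Stt T δ e0 g S A B Ec x →
      ∃ x' y : H, Stt T δ e0 g S (C1 * Rr ^ (-(2 * g)) * A) (C1 * Rr ^ 2 * st) (Ec + C1 * B) x' ∧
        ‖x - x'‖ ^ 2 ≤ C1 * A / st ∧ ‖y‖ ^ 2 ≤ Ec + C1 * B + 2 * st ∧
        1 / 2 ≤ (⟪δ e0, y⟫_ℂ).re ∧
        ∀ n : ℕ, ‖⟪(T ^ n) x, y⟫_ℂ‖ ^ 2 ≤ ‖T ^ n‖ ^ 2 * (C1 * A) := by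
  classical
  obtain ⟨Cq, hCq, hloc⟩ := step_loc env
  obtain ⟨Ck, hCk, hkint⟩ := kint env.hg
  have hg := env.hg
  have hg1 : g ≤ 1 := by linarith [env.hg1]
  have hc := env.hc
  have hc1 := env.hc1
  have hy := env.hy
  set C2 := 16 * Cq * Ck / c1 with hC2
  have hC2p : 0 < C2 := by positivity
  set C1 := 12480 * C2 / c1 + 2 * C2 + 6240 / c1 with hC1
  have k1 : 0 < 12480 * C2 / c1 := by positivity
  have k2 : 0 < 6240 / c1 := by positivity
  refine ⟨C1, by positivity, ?_⟩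
  rintro A B Ec st Rr x hA hst hRr ⟨ι, _, _, J, ρ, d, cen, G, m, κ, Λ, Γ, k, D⟩
  have hRp : 0 < Rr := by linarith
  set W : ι → ℝ := fun a => m a / st with hW
  have hWp : ∀ a, 0 < W a := fun a => div_pos (D.mpos a) hst
  set Θ := ∑ a, (64 * W a * Λ a / (c1 * κ a) + 2 * W a * d ^ (2 * g - 2)) with hΘ
  have hdp : 0 ≤ d ^ (2 * g - 2) := Real.rpow_nonneg D.hd.le _
  have hΘ1 : ∀ a, 0 ≤ 64 * W a * Λ a / (c1 * κ a) := fun a => by
    have := hWp a; have := D.Λpos a; have := D.κpos a; positivity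
  have hΘ2 : ∀ a, 0 ≤ 2 * W a * d ^ (2 * g - 2) := fun a => by have := hWp a; positivity
  have hΘ0 : 0 ≤ Θ := Finset.sum_nonneg fun a _ => add_nonneg (hΘ1 a) (hΘ2 a)
  have ev1 := eventually_all.mpr fun a => step_cluster env (D.cpt a) (D.sub a) D.hρ (D.ball a)
    (D.vol a) (D.κpos a) (D.Λpos a) (D.ker a) (D.lam a) (D.rep a) (hWp a) hA hRr
  have ev2 := step_cut env hΘ0
  have ev3 := step_ev_mul (a := 3 * g) (by linarith) hΘ0 (show 0 < c / 2 by positivity)
  have ev4 := step_ev_small (a := 4 * g) (by linarith) (show 0 < c / 2 by positivity)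
  have := env.ne
  obtain ⟨j, h1, h2, h3, h4, h5⟩ := (ev1.and ((ev2.and (ev3.and (ev4.and
    (eventually_ge_atTop J)))).filter_mono env.le)).exists
  choose P hP1 hP2 hP3 hP4 hP5 hP6 using h1
  choose G' hG1 hG2 hG3 hG4 hG5 using hP6
  have hs := tt_pos j
  set s := tt j with hsdef
  set r := √s / Rr with hr
  have hsq : 0 < √s := Real.sqrt_pos.mpr hs
  have hrp : 0 < r := div_pos hsq hRp
  have hr4 : 4 * r ≤ √s := by
    rw [hr, ← mul_div_assoc, div_le_iff₀ hRp]; nlinarith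
  have hr2 : r ^ 2 = s / Rr ^ 2 := by rw [hr, div_pow, Real.sq_sqrt hs.le]
  set w : ℂ → ℝ := fun q => s * bt T δ e0 q s with hw
  have hbp : ∀ q, 0 < bt T δ e0 q s := fun q => bt_pos hy q hs
  have hwp : ∀ q, 0 < w q := fun q => mul_pos hs (hbp q)
  have hPG : ∀ a : (Σ a, P a), (a.2 : ℂ) ∈ G a.1 := fun a => hP1 a.1 a.2.2
  have hinj : Function.Injective fun a : (Σ a, P a) => (a.2 : ℂ) := by
    rintro ⟨a, p⟩ ⟨b, q⟩ h
    simp only at h
    by_cases hab : a = b
    · subst hab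
      congr 1
      exact Subtype.ext h
    · have := D.sep a b hab _ (hPG ⟨a, p⟩) _ (hPG ⟨b, q⟩)
      simp only [h, sub_self, norm_zero] at this
      exact absurd D.hd (not_lt.mpr this)
  have hrow : ∀ a : (Σ a, P a), ∑ b ∈ Finset.univ.erase a,
      s * bt T δ e0 (b.2 : ℂ) s * kk g ((a.2 : ℂ) - b.2) ≤ Θ := fun a => by
    rw [step_sum_erase P a (fun _ q => s * bt T δ e0 q s * kk g ((a.2 : ℂ) - q))]
    have b1 : ∑ b ∈ Finset.univ.erase a.1, ∑ q ∈ P b, s * bt T δ e0 q s * kk g ((a.2 : ℂ) - q)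
        ≤ ∑ b ∈ Finset.univ.erase a.1,
          (64 * W b * Λ b / (c1 * κ b) + 2 * W b * d ^ (2 * g - 2)) := by
      refine Finset.sum_le_sum fun b hb => ?_
      have hab : a.1 ≠ b := (Finset.ne_of_mem_erase hb).symm
      have b2 : ∑ q ∈ P b, s * bt T δ e0 q s * kk g ((a.2 : ℂ) - q)
          ≤ (∑ q ∈ P b, s * bt T δ e0 q s) * d ^ (2 * g - 2) := by
        rw [Finset.sum_mul]
        exact Finset.sum_le_sum fun q hq => mul_le_mul_of_nonneg_left
          (step_kk_anti hg1 D.hd (D.sep _ _ hab _ (hPG a) _ (hP1 b hq))) (hwp q).le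
      have b3 := mul_le_mul_of_nonneg_right (hP3 b) hdp
      linarith [hΘ1 b]
    have b4 := hP4 a.1 _ a.2.2
    rw [hΘ, ← Finset.add_sum_erase _ _ (Finset.mem_univ a.1)]
    linarith [hΘ2 a.1]
  have hsepP : ∀ a, ∀ p ∈ P a, ∀ q ∈ P a, p ≠ q → √s ≤ ‖p - q‖ := fun a p hp q hq hne => by
    refine step_sep env h3 (D.sub a (hP1 a hq)) hne ?_
    refine le_trans ?_ (hrow ⟨a, ⟨p, hp⟩⟩)
    refine Finset.single_le_sum (f := fun b : (Σ a, P a) =>
      s * bt T δ e0 (b.2 : ℂ) s * kk g (p - b.2)) (a := ⟨a, ⟨q, hq⟩⟩)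
      (fun b _ => mul_nonneg (hwp _).le (kk_nonneg _ _)) ?_
    refine Finset.mem_erase.mpr ⟨fun h => hne ?_, Finset.mem_univ _⟩
    exact (congrArg (fun b : (Σ a, P a) => (b.2 : ℂ)) h).symm
  obtain ⟨x', hx'⟩ := h2 (fun a : (Σ a, P a) => (a.2 : ℂ)) hinj (fun a => D.sub _ (hPG a)) hrow
    (r ^ 2) (by positivity) x
  set Wk : ι → ℝ := fun a => ∑ q ∈ P a, w q with hWk
  have hWkp : ∀ a, 0 < Wk a := fun a => lt_of_lt_of_le (half_pos (hWp a)) (hP2 a)
  set m' : ι → ℂ → ℝ := fun a q => m a / Wk a * w q with hm'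
  have hmW : ∀ a, m a / Wk a ≤ 2 * st := fun a => by
    rw [div_le_iff₀ (hWkp a)]
    have b1 : m a / st / 2 ≤ Wk a := hP2 a
    rw [div_div, div_le_iff₀ (by positivity)] at b1
    linarith
  have hm'p : ∀ a q, 0 < m' a q := fun a q => mul_pos (div_pos (D.mpos a) (hWkp a)) (hwp q)
  have hm'w : ∀ a q, m' a q ≤ 2 * st * w q := fun a q =>
    mul_le_mul_of_nonneg_right (hmW a) (hwp q).le
  have hm's : ∀ a, ∑ q ∈ P a, m' a q = m a := fun a => by
    simp only [hm']
    rw [← Finset.mul_sum]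
    exact div_mul_cancel₀ _ (hWkp a).ne'
  have hm'sum : ∑ b : (Σ a, P a), m' b.1 b.2 = 1 := by
    rw [step_sum_sigma P m', ← D.msum]
    exact Finset.sum_congr rfl fun a _ => hm's a
  set f : ℂ → ℝ := fun q => bf T q s x / bt T δ e0 q s with hf
  have hf0 : ∀ q, 0 ≤ f q := fun q => div_nonneg (bf_nonneg T q hs x) (hbp q).le
  have hFsum : ∑ a, m a * (4 * (12 * (ρ ^ 2 * Λ a * Γ a) + A) / c1) ≤ 52 * A / c1 := by
    have b1 : ∑ a, m a * (4 * (12 * (ρ ^ 2 * Λ a * Γ a) + A) / c1)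
        = 48 / c1 * ∑ a, m a * (ρ ^ 2 * Λ a * Γ a) + 4 * A / c1 * ∑ a, m a := by
      rw [Finset.mul_sum, Finset.mul_sum, ← Finset.sum_add_distrib]
      exact Finset.sum_congr rfl fun a _ => by ring
    rw [b1, D.msum]
    have b2 := mul_le_mul_of_nonneg_left D.hA (show 0 ≤ 48 / c1 by positivity)
    have b3 : 48 / c1 * A + 4 * A / c1 * 1 = 52 * A / c1 := by ring
    linarith
  have hmf : ∑ b : (Σ a, P a), m' b.1 b.2 * f b.2 ≤ 52 * A / c1 := by
    rw [step_sum_sigma P (fun a q => m' a q * f q)]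
    refine le_trans (Finset.sum_le_sum fun a _ => ?_) hFsum
    rw [← hm's a, Finset.sum_mul]
    exact Finset.sum_le_sum fun q hq => mul_le_mul_of_nonneg_left (hP5 a q hq) (hm'p a q).le
  have hΦ : s * ∑ b : (Σ a, P a), bf T (b.2 : ℂ) s x ≤ 104 * A / (c1 * st) := by
    rw [step_sum_sigma P (fun _ q => bf T q s x), Finset.mul_sum]
    have b1 : ∀ a, s * ∑ q ∈ P a, bf T q s x
        ≤ 2 / st * (m a * (4 * (12 * (ρ ^ 2 * Λ a * Γ a) + A) / c1)) := fun a => by
      have b2 : s * ∑ q ∈ P a, bf T q s x = ∑ q ∈ P a, w q * f q := by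
        rw [Finset.mul_sum]
        refine Finset.sum_congr rfl fun q _ => ?_
        have := hbp q
        simp only [hw, hf]; field_simp
      obtain ⟨v, v', hv, -⟩ := D.rep a
      have hΓ : 0 ≤ Γ a := le_trans (by positivity) hv
      have b0 : 0 ≤ 4 * (12 * (ρ ^ 2 * Λ a * Γ a) + A) / c1 := by
        have := D.Λpos a; positivity
      have b3 : ∑ q ∈ P a, w q * f q ≤ Wk a * (4 * (12 * (ρ ^ 2 * Λ a * Γ a) + A) / c1) := by
        simp only [hWk]
        rw [Finset.sum_mul]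
        exact Finset.sum_le_sum fun q hq => mul_le_mul_of_nonneg_left (hP5 a q hq) (hwp q).le
      have b4 := mul_le_mul_of_nonneg_right (show Wk a ≤ 2 * (m a / st) from hP3 a) b0
      rw [b2]
      refine b3.trans (b4.trans (le_of_eq ?_))
      ring
    refine (Finset.sum_le_sum fun a _ => b1 a).trans ?_
    rw [← Finset.mul_sum]
    refine (mul_le_mul_of_nonneg_left hFsum (by positivity)).trans (le_of_eq ?_)
    field_simp; ring
  have hΓ'0 : 0 ≤ s * ∑ b : (Σ a, P a), bf T (b.2 : ℂ) (r ^ 2) x' :=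
    mul_nonneg hs.le (Finset.sum_nonneg fun b _ => bf_nonneg T _ (by positivity) x')
  have hΦ' : ‖x - x'‖ ^ 2 + s * ∑ b : (Σ a, P a), bf T (b.2 : ℂ) (r ^ 2) x'
      ≤ 6240 / c1 * A / st := by
    refine hx'.trans ((mul_le_mul_of_nonneg_left hΦ (by norm_num)).trans (le_of_eq ?_))
    field_simp; ring
  set k' : (Σ a, P a) → (Σ a, P a) → ℝ := fun a b =>
    if a.1 = b.1 then 4 * κ a.1 * kk g ((a.2 : ℂ) - b.2) else k a.1 b.1 with hk'
  have hB0 : 0 ≤ ∑ a, m a ^ 2 * Λ a :=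
    Finset.sum_nonneg fun a _ => mul_nonneg (sq_nonneg _) (D.Λpos a).le
  have hE' : ∑ a : (Σ a, P a), ∑ b ∈ Finset.univ.erase a, m' a.1 a.2 * m' b.1 b.2 * k' a b
      ≤ Ec + C1 * B := by
    have b1 : ∀ a : (Σ a, P a), ∑ b ∈ Finset.univ.erase a, m' a.1 a.2 * m' b.1 b.2 * k' a b
        ≤ m' a.1 a.2 * (∑ b ∈ Finset.univ.erase a.1, m b * k a.1 b
          + 512 / c1 * (m a.1 * Λ a.1)) := fun a => by
      rw [step_sum_erase P a (fun b q => m' a.1 a.2 * m' b q *
        (if a.1 = b then 4 * κ a.1 * kk g ((a.2 : ℂ) - q) else k a.1 b)), mul_add]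
      refine add_le_add (le_of_eq ?_) ?_
      · rw [Finset.mul_sum]
        refine Finset.sum_congr rfl fun b hb => ?_
        have hab : a.1 ≠ b := (Finset.ne_of_mem_erase hb).symm
        simp only [if_neg hab]
        rw [← hm's b, Finset.sum_mul, Finset.mul_sum]
        exact Finset.sum_congr rfl fun q _ => by ring
      · simp only [if_true]
        have b2 : ∑ q ∈ (P a.1).erase a.2, m' a.1 a.2 * m' a.1 q * (4 * κ a.1 * kk g (a.2 - q))
            = m' a.1 a.2 * (4 * κ a.1 * (m a.1 / Wk a.1) *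
              ∑ q ∈ (P a.1).erase a.2, s * bt T δ e0 q s * kk g (a.2 - q)) := by
          rw [Finset.mul_sum, Finset.mul_sum]
          exact Finset.sum_congr rfl fun q _ => by simp only [hm', hw]; ring
        rw [b2]
        refine mul_le_mul_of_nonneg_left ?_ (hm'p _ _).le
        have b3 := hP4 a.1 _ a.2.2
        have b4 := D.κpos a.1
        have b5 := D.mpos a.1
        have b6 := hWkp a.1
        have b7 := D.Λpos a.1
        calc 4 * κ a.1 * (m a.1 / Wk a.1) *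
              ∑ q ∈ (P a.1).erase a.2, s * bt T δ e0 q s * kk g (a.2 - q)
            ≤ 4 * κ a.1 * (m a.1 / Wk a.1) * (64 * W a.1 * Λ a.1 / (c1 * κ a.1)) := by
              gcongr
          _ ≤ 4 * κ a.1 * (2 * st) * (64 * W a.1 * Λ a.1 / (c1 * κ a.1)) := by
              have := hmW a.1
              have := hΘ1 a.1
              gcongr
          _ = _ := by simp only [hW]; field_simp; ring
    refine (Finset.sum_le_sum fun a _ => b1 a).trans ?_
    rw [step_sum_sigma P (fun a q => m' a q * (∑ b ∈ Finset.univ.erase a, m b * k a b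
          + 512 / c1 * (m a * Λ a)))]
    have b8 : ∀ a, ∑ q ∈ P a, m' a q * (∑ b ∈ Finset.univ.erase a, m b * k a b
          + 512 / c1 * (m a * Λ a)) = ∑ b ∈ Finset.univ.erase a, m a * m b * k a b
          + 512 / c1 * (m a ^ 2 * Λ a) := fun a => by
      rw [← Finset.sum_mul, hm's a, mul_add, Finset.mul_sum]
      congr 1
      · exact Finset.sum_congr rfl fun b _ => by ring
      · ring
    simp only [b8]
    rw [Finset.sum_add_distrib, ← Finset.mul_sum]
    have b9 := D.hE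
    have b10 := D.hB
    have b11 : 512 / c1 ≤ C1 := by
      have : 512 / c1 ≤ 6240 / c1 := by gcongr; norm_num
      rw [hC1]; linarith
    have b12 : 512 / c1 * ∑ a, m a ^ 2 * Λ a ≤ C1 * B :=
      mul_le_mul b11 b10 hB0 (by positivity)
    linarith
  have hcross : ∀ a b : (Σ a, P a), a ≠ b → ∀ p ∈ G a.1, ∀ q ∈ G b.1, ‖p - a.2‖ ≤ r →
      ‖q - b.2‖ ≤ r → min d (2 * r) ≤ ‖p - q‖ ∧ ∀ j', j ≤ j' →
        ‖⟪yh T δ e0 p (tt j'), yh T δ e0 q (tt j')⟫_ℂ‖ ≤ k' a b := by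
    rintro ⟨a, pa⟩ ⟨b, pb⟩ hab p hp q hq hpa hqb
    by_cases h : a = b
    · subst h
      have hne : (pa : ℂ) ≠ pb := fun h => hab (by rw [Subtype.ext h])
      have b1 := hsepP a _ pa.2 _ pb.2 hne
      have b2 : ‖(pa : ℂ) - pb‖ ≤ ‖p - pa‖ + ‖p - q‖ + ‖q - pb‖ := by
        have : (pa : ℂ) - pb = -(p - pa) + (p - q) + (q - pb) := by ring
        rw [this]
        refine norm_add₃_le.trans ?_
        rw [norm_neg]
      simp only at hpa hqb hp hq
      have b3 : 2 * r ≤ ‖p - q‖ := by linarith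
      refine ⟨(min_le_right _ _).trans b3, fun j' hj' => ?_⟩
      have b4 : p ≠ q := fun h => by
        rw [h, sub_self, norm_zero] at b3; linarith
      simp only [hk', if_true]
      refine (D.ker a p hp q hq b4 j' (h5.trans hj')).trans ?_
      have b5 := step_kk_half (ζ := (pa : ℂ) - pb) (ζ' := p - q) hg.le hg1 (by linarith)
        (by linarith)
      nlinarith [mul_le_mul_of_nonneg_left b5 (D.κpos a).le]
    · refine ⟨(min_le_left _ _).trans (D.sep a b h p hp q hq), fun j' hj' => ?_⟩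
      simp only [hk', if_neg h]
      exact D.cross a b h p hp q hq j' (h5.trans hj')
  have hRg : 0 < Rr ^ (-(2 * g)) := Real.rpow_pos_of_pos hRp _
  have hRg1 : Rr ^ (-(2 * g)) ≤ 1 :=
    Real.rpow_le_one_of_one_le_of_nonpos (by linarith) (by linarith)
  have hball : ∀ (a : Σ a, P a), ∀ p ∈ G' a.1 a.2 a.2.2, ‖p - a.2‖ ≤ r := fun a p hp => by
    have := hG4 a.1 a.2 a.2.2 hp
    rwa [Metric.mem_closedBall, dist_eq_norm] at this
  refine ⟨x', ∑ b : (Σ a, P a), (m' b.1 b.2 : ℂ) • yh T δ e0 b.2 s,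
    ⟨(Σ a, P a), inferInstance, inferInstance, j, r, min d (2 * r), fun a => a.2,
      fun a => G' a.1 a.2 a.2.2, fun a => m' a.1 a.2,
      fun a => Cq / (bt T δ e0 a.2 s * s ^ g),
      fun a => C2 * Rr ^ (-(2 * g)) / (bt T δ e0 a.2 s * r ^ 2),
      fun a => bf T a.2 (r ^ 2) x', k', ?_⟩, ?_, ?_, ?_, ?_⟩
  · have hsg : 0 < s ^ g := Real.rpow_pos_of_pos hs _
    refine
      { hρ := hrp
        hd := lt_min D.hd (by positivity)
        cpt := fun a => hG1 _ _ _
        sub := fun a => (hG2 _ _ _).trans (D.sub _)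
        ball := fun a => hG4 _ _ _
        vol := fun a => lt_of_lt_of_le (by positivity) (hG5 _ _ a.2.2)
        mpos := fun a => hm'p _ _
        msum := hm'sum
        κpos := fun a => by have := hbp a.2; positivity
        Λpos := fun a => by have := hbp a.2; positivity
        sep := fun a b hab p hp q hq =>
          (hcross a b hab p (hG2 _ _ _ hp) q (hG2 _ _ _ hq) (hball a p hp) (hball b q hq)).1
        ker := fun a p hp q hq hne j' hj' => ?_
        cross := fun a b hab p hp q hq =>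
          (hcross a b hab p (hG2 _ _ _ hp) q (hG2 _ _ _ hq) (hball a p hp) (hball b q hq)).2
        lam := fun a p hp => ?_
        rep := fun a => ?_
        hA := ?_
        hB := ?_
        hE := hE' }
    · have b1 := hball a p hp
      have b2 := hball a q hq
      have b3 : ‖p - q‖ ≤ 2 * r := by
        have : p - q = (p - a.2) - (q - a.2) := by ring
        rw [this]
        linarith [norm_sub_le (p - a.2) (q - a.2)]
      have b4 : ∀ u : ℝ, 0 ≤ u → u ≤ 2 * r → u ^ 2 ≤ s := fun u hu0 hu => by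
        rw [← Real.sq_sqrt hs.le]
        exact pow_le_pow_left₀ hu0 (by linarith) 2
      exact hloc j a.2 p q (b4 _ (norm_nonneg _) (by linarith)) (b4 _ (norm_nonneg _) (by linarith))
        (b4 _ (norm_nonneg _) b3) (hG3 _ _ _ hp) (hG3 _ _ _ hq) hne j' hj'
    · have b1 := hkint a.2 p r _ hrp (hG1 _ _ a.2.2) (hG4 _ _ a.2.2) (hG4 _ _ a.2.2 hp)
      have b2 := hG5 _ _ a.2.2
      have b3 := hbp a.2
      rw [hr, step_rpow hs hRp] at b1
      calc Cq / (bt T δ e0 a.2 s * s ^ g) * ∫ q in G' a.1 a.2 a.2.2, kk g (p - q)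
          ≤ Cq / (bt T δ e0 a.2 s * s ^ g) * (Ck * (s ^ g * Rr ^ (-(2 * g)))) := by gcongr
        _ = C2 * Rr ^ (-(2 * g)) / (bt T δ e0 a.2 s * r ^ 2) * (c1 / 16 * r ^ 2) := by
            rw [hC2]; field_simp
        _ ≤ _ := by gcongr
    · have b0 : 0 < r ^ 2 := by positivity
      refine ⟨oS T a.2 (rb T a.2 (r ^ 2) x'), (r : ℂ) • rb T a.2 (r ^ 2) x', ?_, ?_⟩
      · rw [bf_eq T _ b0, norm_smul_real _ hrp.le, mul_pow]
      · rw [smul_smul]
        have := rb_left T (a.2 : ℂ) b0 x'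
        rw [Complex.ofReal_pow, pow_two (r : ℂ)] at this
        exact this.symm
    · have b1 : ∀ a : (Σ a, P a), m' a.1 a.2 * (r ^ 2 *
          (C2 * Rr ^ (-(2 * g)) / (bt T δ e0 a.2 s * r ^ 2)) * bf T a.2 (r ^ 2) x')
          ≤ 2 * st * C2 * Rr ^ (-(2 * g)) * (s * bf T a.2 (r ^ 2) x') := fun a => by
        have b2 := hbp a.2
        have b3 := bf_nonneg T (a.2 : ℂ) (show 0 < r ^ 2 by positivity) x'
        refine (mul_le_mul_of_nonneg_right (hm'w a.1 a.2) (by positivity)).trans (le_of_eq ?_)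
        simp only [hw]; field_simp
      refine (Finset.sum_le_sum fun a _ => b1 a).trans ?_
      rw [← Finset.mul_sum, ← Finset.mul_sum]
      have b4 : s * ∑ b : (Σ a, P a), bf T (b.2 : ℂ) (r ^ 2) x' ≤ 6240 / c1 * A / st := by
        linarith [sq_nonneg ‖x - x'‖]
      calc 2 * st * C2 * Rr ^ (-(2 * g)) * (s * ∑ b : (Σ a, P a), bf T (b.2 : ℂ) (r ^ 2) x')
          ≤ 2 * st * C2 * Rr ^ (-(2 * g)) * (6240 / c1 * A / st) := by gcongr
        _ = 12480 * C2 / c1 * Rr ^ (-(2 * g)) * A := by field_simp; ring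
        _ ≤ _ := by gcongr; rw [hC1]; linarith
    · have b1 : ∀ a : (Σ a, P a), m' a.1 a.2 ^ 2 *
          (C2 * Rr ^ (-(2 * g)) / (bt T δ e0 a.2 s * r ^ 2))
          ≤ m' a.1 a.2 * (2 * C2 * Rr ^ 2 * st) := fun a => by
        have b2 := hbp a.2
        rw [pow_two, mul_assoc]
        refine mul_le_mul_of_nonneg_left ?_ (hm'p _ _).le
        calc m' a.1 a.2 * (C2 * Rr ^ (-(2 * g)) / (bt T δ e0 a.2 s * r ^ 2))
            ≤ (2 * st * w a.2) * (C2 * 1 / (bt T δ e0 a.2 s * r ^ 2)) := by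
              have := hm'w a.1 a.2
              have := hwp a.2
              gcongr
          _ = _ := by simp only [hw]; rw [hr2]; field_simp
      refine (Finset.sum_le_sum fun a _ => b1 a).trans ?_
      rw [← Finset.sum_mul, hm'sum, one_mul]
      gcongr; rw [hC1]; linarith
  · have b1 : 6240 / c1 * A / st ≤ C1 * A / st := by
      gcongr; rw [hC1]; linarith
    linarith
  · refine (step_norm_sum _).trans ?_
    have b1 : ∑ a : (Σ a, P a), ‖(m' a.1 a.2 : ℂ) • yh T δ e0 a.2 s‖ ^ 2 ≤ 2 * st := by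
      have b2 : ∀ a : (Σ a, P a), ‖(m' a.1 a.2 : ℂ) • yh T δ e0 a.2 s‖ ^ 2
          ≤ m' a.1 a.2 * (2 * st) := fun a => by
        rw [norm_smul_real _ (hm'p _ _).le, mul_pow, pow_two, mul_assoc]
        refine mul_le_mul_of_nonneg_left ?_ (hm'p _ _).le
        have b3 := energy_yh hy (a.2 : ℂ) hs env.he
        have b4 := hbp a.2
        have b5 : w a.2 * ‖yh T δ e0 a.2 s‖ ^ 2 ≤ 1 := by
          have b6 : s * ‖yh T δ e0 a.2 s‖ ^ 2 ≤ (bt T δ e0 a.2 s)⁻¹ := by
            linarith [sq_nonneg ‖oS T a.2 (yh T δ e0 a.2 s)‖]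
          have b7 := mul_le_mul_of_nonneg_left b6 b4.le
          rw [mul_inv_cancel₀ b4.ne'] at b7
          simp only [hw]; linarith
        have b8 := mul_le_mul_of_nonneg_right (hm'w a.1 a.2) (sq_nonneg ‖yh T δ e0 a.2 s‖)
        nlinarith
      refine (Finset.sum_le_sum fun a _ => b2 a).trans ?_
      rw [← Finset.sum_mul, hm'sum, one_mul]
    have b9 : ∑ a : (Σ a, P a), ∑ b ∈ Finset.univ.erase a,
        ‖⟪(m' a.1 a.2 : ℂ) • yh T δ e0 a.2 s, (m' b.1 b.2 : ℂ) • yh T δ e0 b.2 s⟫_ℂ‖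
        ≤ Ec + C1 * B := by
      refine le_trans (Finset.sum_le_sum fun a _ => Finset.sum_le_sum fun b hb => ?_) hE'
      rw [inner_smul_left, inner_smul_right, norm_mul, norm_mul, Complex.norm_conj,
        Complex.norm_real, Complex.norm_real, Real.norm_of_nonneg (hm'p _ _).le,
        Real.norm_of_nonneg (hm'p _ _).le, ← mul_assoc]
      refine mul_le_mul_of_nonneg_left ?_ (mul_pos (hm'p _ _) (hm'p _ _)).le
      exact (hcross a b (Finset.ne_of_mem_erase hb).symm _ (hPG a) _ (hPG b)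
        (by simpa using hrp.le) (by simpa using hrp.le)).2 j le_rfl
    linarith
  · rw [inner_sum, Complex.re_sum]
    have b1 : ∀ a : (Σ a, P a), m' a.1 a.2 * (1 / 2)
        ≤ (⟪δ e0, (m' a.1 a.2 : ℂ) • yh T δ e0 a.2 s⟫_ℂ).re := fun a => by
      rw [inner_smul_right, inner_xi_yh hy _ hs, ← Complex.ofReal_mul, Complex.ofReal_re]
      refine mul_le_mul_of_nonneg_left ?_ (hm'p _ _).le
      have b2 := step_om' env (D.sub _ (hPG a)) j
      have b3 : 0 < s ^ (4 * g) := Real.rpow_pos_of_pos hs _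
      have b4 : 2 ≤ c * s ^ (-(4 * g)) := by
        rw [Real.rpow_neg hs.le, ← div_eq_mul_inv, le_div_iff₀ b3]
        have : s ^ (4 * g) ≤ c / 2 := h4
        linarith
      have b5 : (bt T δ e0 a.2 s)⁻¹ ≤ 2⁻¹ := inv_anti₀ (by norm_num) (b4.trans b2)
      linarith
    refine le_trans ?_ (Finset.sum_le_sum fun a _ => b1 a)
    rw [← Finset.sum_mul, hm'sum, one_mul]
  · intro n
    have b1 : ‖⟪(T ^ n) x, ∑ b : (Σ a, P a), (m' b.1 b.2 : ℂ) • yh T δ e0 b.2 s⟫_ℂ‖
        ≤ ∑ b : (Σ a, P a), √(m' b.1 b.2) * (√(m' b.1 b.2) * (‖T ^ n‖ * √(f b.2))) := by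
      rw [inner_sum]
      refine (norm_sum_le _ _).trans (Finset.sum_le_sum fun b _ => ?_)
      rw [inner_smul_right, norm_mul, Complex.norm_real, Real.norm_of_nonneg (hm'p _ _).le,
        ← mul_assoc, Real.mul_self_sqrt (hm'p _ _).le]
      refine mul_le_mul_of_nonneg_left (le_of_sq_le_sq ?_ (by positivity)) (hm'p _ _).le
      refine (inner_yh_le hy _ hs env.he _).trans ?_
      rw [mul_pow, Real.sq_sqrt (hf0 _)]
      have b2 := bf_comm T (b.2 : ℂ) hs (T ^ n) ((Commute.refl T).pow_left n).eq x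
      simp only [hf]
      rw [← mul_div_assoc]
      exact div_le_div_of_nonneg_right b2 (hbp _).le
    refine (pow_le_pow_left₀ (norm_nonneg _) b1 2).trans ?_
    refine (Finset.sum_mul_sq_le_sq_mul_sq _ _ _).trans ?_
    have b3 : ∑ b : (Σ a, P a), √(m' b.1 b.2) ^ 2 = 1 := by
      rw [← hm'sum]
      exact Finset.sum_congr rfl fun b _ => Real.sq_sqrt (hm'p _ _).le
    have b4 : ∑ b : (Σ a, P a), (√(m' b.1 b.2) * (‖T ^ n‖ * √(f b.2))) ^ 2
        = ‖T ^ n‖ ^ 2 * ∑ b : (Σ a, P a), m' b.1 b.2 * f b.2 := by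
      rw [Finset.mul_sum]
      refine Finset.sum_congr rfl fun b _ => ?_
      rw [mul_pow, mul_pow, Real.sq_sqrt (hm'p _ _).le, Real.sq_sqrt (hf0 _)]; ring
    rw [b3, b4, one_mul]
    refine mul_le_mul_of_nonneg_left (hmf.trans ?_) (sq_nonneg _)
    have b5 : 52 / c1 ≤ C1 := by
      have : 52 / c1 ≤ 6240 / c1 := by gcongr; norm_num
      rw [hC1]; linarith
    have := mul_le_mul_of_nonneg_right b5 hA.le
    rwa [div_mul_eq_mul_div] at this

end Pool.Agent.P.MP_f981b0_an.Hy
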