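import Pool.Agent.P.MP_f981b0_an.Hy.StDefs
import Pool.Agent.P.MP_f981b0_an.Hy.LB
import Pool.Agent.P.MP_f981b0_an.Hy.Avg

set_option autoImplicit false
set_option linter.unusedSectionVars false

open scoped InnerProductSpace ComplexConjugate
open MeasureTheory Filter Topology

noncomputable section

namespace Pool.Agent.P.MP_f981b0_an.Hy

variable {H : Type*} [NormedAddCommGroup H] [InnerProductSpace ℂ H] [CompleteSpace H]

variable {T δ : H →L[ℂ] H} {e0 : H} {R : ℕ → ℂ → ℝ} {g c c1 : ℝ} {c0 : ℂ} {S : Set ℂ}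
  {F : Filter ℕ}

theorem step_four_pow (a : ℝ) (j : ℕ) : (4 : ℝ) ^ (a * j) = tt j ^ (-a) := by
  unfold tt
  rw [← Real.rpow_natCast, ← Real.rpow_mul (by norm_num), one_div, Real.inv_rpow (by norm_num),
    ← Real.rpow_neg (by norm_num)]
  congr 1; ring

theorem step_ev_small {a ε : ℝ} (ha : 0 < a) (hε : 0 < ε) : ∀ᶠ j in atTop, tt j ^ a ≤ ε := by
  have h : Tendsto (fun j => tt j ^ a) atTop (𝓝 0) := by
    have := (Real.continuousAt_rpow_const 0 a (Or.inr ha.le)).tendsto.comp tt_tendsto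
    simpa [Real.zero_rpow ha.ne', Function.comp_def] using this
  exact h.eventually (ge_mem_nhds hε)

theorem step_ev_mul {a K ε : ℝ} (ha : 0 < a) (hK : 0 ≤ K) (hε : 0 < ε) :
    ∀ᶠ j in atTop, K * tt j ^ a ≤ ε := by
  filter_upwards [step_ev_small ha (show 0 < ε / (K + 1) by positivity)] with j hj
  have h1 : 0 ≤ tt j ^ a := Real.rpow_nonneg (tt_pos j).le _
  rw [le_div_iff₀ (by positivity)] at hj
  nlinarith

theorem step_om (env : Env T δ e0 R g c c1 c0 S F) {z : ℂ} (hz : z ∈ S) (j : ℕ) :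
    Real.exp (R j z) * (c * tt j ^ (-(4 * g))) ≤ bt T δ e0 z (tt j) := by
  have h := env.hom z hz j
  rw [step_four_pow] at h
  unfold om at h
  have h2 := mul_le_mul_of_nonneg_left h (Real.exp_pos (R j z)).le
  rwa [mul_comm (bt T δ e0 z (tt j)), ← mul_assoc (Real.exp (R j z)) (Real.exp _), ← Real.exp_add,
    add_neg_cancel, Real.exp_zero, one_mul] at h2

theorem step_om' (env : Env T δ e0 R g c c1 c0 S F) {z : ℂ} (hz : z ∈ S) (j : ℕ) :
    c * tt j ^ (-(4 * g)) ≤ bt T δ e0 z (tt j) := by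
  refine le_trans ?_ (step_om env hz j)
  have h1 : 1 ≤ Real.exp (R j z) := Real.one_le_exp (env.hR.nonneg j z)
  have h2 : 0 ≤ c * tt j ^ (-(4 * g)) :=
    mul_nonneg env.hc.le (Real.rpow_nonneg (tt_pos j).le _)
  nlinarith

theorem step_glob (env : Env T δ e0 R g c c1 c0 S F) : ∃ Cd L : ℝ, 0 ≤ Cd ∧ 0 ≤ L ∧
    ∀ z ∈ S, ∀ j, ‖dv T δ e0 z (tt j)‖ ≤ Cd ∧
      ∀ τ, tt j ≤ τ → τ ≤ 1 → qf T δ z τ (dv T δ e0 z (tt j)) ≤ L * τ ^ (4 * g) := by
  obtain ⟨C, hC, h⟩ := dq_bound env.hy env.he env.hR (g := 4 * g) (by linarith [env.hg])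
  have hc := env.hc
  refine ⟨1 + ‖δ‖ ^ 2 + √(C / c), C / c, by positivity, by positivity, fun z hz j => ?_⟩
  obtain ⟨h1, h2⟩ := h z 0 c hc (fun l _ => by simpa using env.hom z hz l) j (Nat.zero_le _)
  rw [tt_zero] at h1 h2
  refine ⟨?_, fun τ hτ hτ1 => ?_⟩
  · have h3 := norm_dv_one env.hy env.he z
    have h4 : ‖dv T δ e0 z (tt j) - dv T δ e0 z 1‖ ≤ √(C / c) := Real.le_sqrt_of_sq_le h1
    have h5 := norm_add_le (dv T δ e0 z (tt j) - dv T δ e0 z 1) (dv T δ e0 z 1)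
    rw [sub_add_cancel] at h5
    linarith
  · refine (h2 τ hτ hτ1).trans ?_
    rw [div_one]
    have h6 : Real.exp (-R 0 z) ≤ 1 := Real.exp_le_one_iff.mpr (by linarith [env.hR.nonneg 0 z])
    have h7 : 0 ≤ τ ^ (4 * g) := Real.rpow_nonneg ((tt_pos j).le.trans hτ) _
    gcongr
    nlinarith

theorem step_loc (env : Env T δ e0 R g c c1 c0 S F) : ∃ Cq : ℝ, 0 < Cq ∧
    ∀ (j : ℕ) (p q q' : ℂ), ‖q - p‖ ^ 2 ≤ tt j → ‖q' - p‖ ^ 2 ≤ tt j → ‖q - q'‖ ^ 2 ≤ tt j →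
      q ∈ Good T δ e0 R g j → q' ∈ Good T δ e0 R g j → q ≠ q' → ∀ j', j ≤ j' →
      ‖⟪yh T δ e0 q (tt j'), yh T δ e0 q' (tt j')⟫_ℂ‖ ≤
        Cq / (bt T δ e0 p (tt j) * tt j ^ g) * kk g (q - q') := by
  obtain ⟨C, hC, h⟩ := dq_bound env.hy env.he env.hR env.hg
  refine ⟨21 * C, by positivity, fun j p q q' hq hq' hqq hgq hgq' hne j' hj' => ?_⟩
  have hp := tt_pos j
  have hbp := bt_pos env.hy p hp (e0 := e0)
  have hs : 0 < tt j ^ g := Real.rpow_pos_of_pos hp _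
  have key : ∀ u : ℂ, ‖u - p‖ ^ 2 ≤ tt j → u ∈ Good T δ e0 R g j → ∀ τ, tt j' ≤ τ → τ ≤ tt j →
      qf T δ u τ (dv T δ e0 u (tt j')) ≤ 3 * C / (bt T δ e0 p (tt j) * tt j ^ g) * τ ^ g := by
    intro u hu hgu τ h1 h2
    have hbu := bt_pos env.hy u hp (e0 := e0)
    have hom : 0 < om T δ e0 R j u := mul_pos hbu (Real.exp_pos _)
    refine ((h u j _ hom hgu j' hj').2 τ h1 h2).trans ?_
    have hτ : 0 ≤ τ := (tt_pos j').le.trans h1
    have h3 := bt_harnack env.hy u hp p hu (e0 := e0)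
    have h4 : C * Real.exp (-R j u) / om T δ e0 R j u = C / bt T δ e0 u (tt j) := by
      unfold om; field_simp
    rw [h4, Real.div_rpow hτ hp.le]
    have h5 : 0 ≤ τ ^ g := Real.rpow_nonneg hτ _
    have h6 : C / bt T δ e0 u (tt j) ≤ 3 * C / bt T δ e0 p (tt j) := by
      rw [div_le_div_iff₀ hbu hbp]; nlinarith
    calc C / bt T δ e0 u (tt j) * (τ ^ g / tt j ^ g)
        ≤ 3 * C / bt T δ e0 p (tt j) * (τ ^ g / tt j ^ g) := by gcongr
      _ = _ := by field_simp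
  have h7 := K5 env.hy hne (tt_pos j') (tt_anti hj') hqq (by linarith [env.hg1]) (by positivity)
    _ _ (key q hq hgq) (key q' hq' hgq')
  refine h7.trans (le_of_eq ?_)
  ring

/-- Choice of the points in one cluster. -/
theorem step_cluster (env : Env T δ e0 R g c c1 c0 S F) {G : Set ℂ} (hG : IsCompact G)
    (hGS : G ⊆ S) {cen : ℂ} {ρ κ Λ Γ W A Rr : ℝ} (hρ : 0 < ρ) (hGc : G ⊆ Metric.closedBall cen ρ)
    (hvol : 0 < volume.real G) (hκ : 0 < κ) (hΛ : 0 < Λ) {J : ℕ}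
    (hker : ∀ p ∈ G, ∀ q ∈ G, p ≠ q → ∀ j, J ≤ j →
      ‖⟪yh T δ e0 p (tt j), yh T δ e0 q (tt j)⟫_ℂ‖ ≤ κ * kk g (p - q))
    (hlam : ∀ p ∈ G, κ * ∫ q in G, kk g (p - q) ≤ Λ * volume.real G) {x : H}
    (hrep : ∃ v v' : H, ‖v‖ ^ 2 + ‖v'‖ ^ 2 ≤ Γ ∧ x = oA T cen v + (ρ : ℂ) • v')
    (hW : 0 < W) (hA : 0 < A) (hRr : 4 ≤ Rr) :
    ∀ᶠ j in F, ∃ P : Finset ℂ, (P : Set ℂ) ⊆ G ∧
      W / 2 ≤ ∑ p ∈ P, tt j * bt T δ e0 p (tt j) ∧ ∑ p ∈ P, tt j * bt T δ e0 p (tt j) ≤ 2 * W ∧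
      (∀ p ∈ P, ∑ q ∈ P.erase p, tt j * bt T δ e0 q (tt j) * kk g (p - q)
        ≤ 64 * W * Λ / (c1 * κ)) ∧
      (∀ p ∈ P, bf T p (tt j) x / bt T δ e0 p (tt j) ≤ 4 * (12 * (ρ ^ 2 * Λ * Γ) + A) / c1) ∧
      ∀ p ∈ P, ∃ G' : Set ℂ, IsCompact G' ∧ G' ⊆ G ∧ G' ⊆ Good T δ e0 R g j ∧
        G' ⊆ Metric.closedBall p (√(tt j) / Rr) ∧
        c1 / 16 * (√(tt j) / Rr) ^ 2 ≤ volume.real G' := by
  obtain ⟨v, v', hv, rfl⟩ := hrep
  have hc := env.hc
  have hc1 := env.hc1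
  have hg := env.hg
  have hΓ : 0 ≤ Γ := le_trans (by positivity) hv
  obtain ⟨r0, hr0, hdens⟩ := dens hG hvol hc1
  set I0 := Λ * volume.real G / κ with hI0
  have hI0p : 0 < I0 := by positivity
  have hI : ∀ p ∈ G, ∫ q in G, kk g (p - q) ≤ I0 := fun p hp => by
    rw [hI0, le_div_iff₀ hκ, mul_comm]; exact hlam p hp
  have e1 : ∀ᶠ j in atTop, J ≤ j := eventually_ge_atTop J
  have e2 := mul_bf_small T env.hd (δ e0) hG (show 0 < W / 2 by positivity)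
  have e3 := step_ev_small one_pos (show 0 < W / 2 by positivity)
  have e4 := step_ev_small one_pos (show 0 < r0 ^ 2 by positivity)
  have e5 := step_ev_mul (a := 4 * g) (K := 3 * Γ * volume.real G / c) (by linarith)
    (by positivity) (show 0 < A * volume.real G / 2 by positivity)
  have e6 := step_ev_mul (a := 3 * g) (K := 72 * ρ ^ 2 * Γ * I0 / c) (by linarith)
    (by positivity) (show 0 < A * volume.real G / 2 by positivity)
  filter_upwards [env.le e1, env.le e2, env.le e3, env.le e4, env.le e5, env.le e6,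
    env.good G hG.measurableSet hGS hvol] with j h1 h2 h3 h4 h5 h6 h7
  simp only [Real.rpow_one] at h3 h4
  have hs := tt_pos j
  set s := tt j with hsdef
  set r := √s / Rr with hr
  have hrp : 0 < r := div_pos (Real.sqrt_pos.mpr hs) (by linarith)
  have hrr0 : r ≤ r0 := by
    have : √s ≤ r0 := Real.sqrt_le_iff.mpr ⟨hr0.le, h4⟩
    have h8 : r ≤ √s := div_le_self (Real.sqrt_nonneg _) (by linarith)
    linarith
  set E := G ∩ Good T δ e0 R g j with hE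
  have hEm : MeasurableSet E := hG.measurableSet.inter (measurableSet_good env.hy env.hR g j)
  have hd1 := hdens r hrp hrr0 E hEm Set.inter_subset_left h7
  set E1 := {p | p ∈ E ∧ c1 / 8 * r ^ 2 ≤ volume.real (E ∩ Metric.ball p r)} with hE1
  set x := oA T cen v + (ρ : ℂ) • v' with hx
  have hω : 0 < c * s ^ (-(4 * g)) := mul_pos hc (Real.rpow_pos_of_pos hs _)
  have hav := avg_bound env.hy env.he hg (by linarith [env.hg1]) hG hρ.le hGc hs hω hκ.le hΛ.le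
    hI0p.le (fun p => Real.exp (R j p)) (fun p _ => Real.one_le_exp (env.hR.nonneg j p))
    (fun p _ u hu => env.hR.low j p u hu) (fun p hp => step_om env (hGS hp) j)
    (fun p hp q hq hne => hker p hp q hq hne j h1) hlam hI v v' hv
  have hsm : (3 * Γ * volume.real G + 72 * ρ ^ 2 * Γ * s ^ (-g) * I0) / (c * s ^ (-(4 * g)))
      ≤ A * volume.real G := by
    have a1 : s ^ (-(4 * g)) = (s ^ (4 * g))⁻¹ := Real.rpow_neg hs.le _
    have a2 : s ^ (-g) * s ^ (4 * g) = s ^ (3 * g) := by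
      rw [← Real.rpow_add hs]; congr 1; ring
    have a3 : 0 < s ^ (4 * g) := Real.rpow_pos_of_pos hs _
    have a4 : (3 * Γ * volume.real G + 72 * ρ ^ 2 * Γ * s ^ (-g) * I0) / (c * s ^ (-(4 * g)))
        = 3 * Γ * volume.real G / c * s ^ (4 * g)
          + 72 * ρ ^ 2 * Γ * I0 / c * (s ^ (-g) * s ^ (4 * g)) := by
      rw [a1]; field_simp
    rw [a4, a2]; linarith
  set Fc := 12 * (ρ ^ 2 * Λ * Γ) + A with hFc
  have hFcp : 0 < Fc := by positivity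
  have hint : ∫ p in G, bf T p s x / bt T δ e0 p s ≤ Fc * volume.real G := by
    refine hav.trans ?_
    rw [hFc]; nlinarith
  have hfc : Continuous fun p => bf T p s x / bt T δ e0 p s :=
    (continuous_bf T hs x).div (continuous_bt env.hy hs) fun p => (bt_pos env.hy p hs).ne'
  have hE1G : E1 ⊆ G := fun p hp => hp.1.1
  have hch := cheb hE1G hG hfc
    (fun p => div_nonneg (bf_nonneg T p hs x) (bt_pos env.hy p hs).le)
    (show 0 < c1 / 2 * volume.real G by positivity) hd1 (by positivity) hint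
  set E2 := {p | p ∈ E1 ∧ bf T p s x / bt T δ e0 p s ≤
    2 * (Fc * volume.real G) / (c1 / 2 * volume.real G)} with hE2
  have hE2G : E2 ⊆ G := fun p hp => hE1G hp.1
  obtain ⟨P, hP1, hP2, hP3, hP4⟩ := greedy hg hE2G hG
    (show 0 < c1 / 2 * volume.real G / 2 by positivity) hch hI0p hI
    (fun p => s * bt T δ e0 p s) hs hW (fun p hp => by
      have b1 := one_le_bt env.hy p hs (e0 := e0)
      have b2 := h2 p (hE2G hp)
      refine ⟨by nlinarith, ?_⟩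
      unfold bt; linarith)
  refine ⟨P, hP1.trans hE2G, hP2, hP3, fun p hp => (hP4 p hp).trans (le_of_eq ?_),
    fun p hp => ((hP1 hp).2).trans (le_of_eq ?_), fun p hp => ?_⟩
  · rw [hI0]; field_simp; ring
  · field_simp; ring
  · have b1 : c1 / 8 * r ^ 2 ≤ volume.real (E ∩ Metric.ball p r) := (hP1 hp).1.2
    have b2 : MeasurableSet (E ∩ Metric.ball p r) := hEm.inter Metric.isOpen_ball.measurableSet
    have b3 : volume (E ∩ Metric.ball p r) ≠ ⊤ :=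
      ne_top_of_le_ne_top hG.measure_lt_top.ne
        (measure_mono (Set.inter_subset_left.trans Set.inter_subset_left))
    have b4 : ENNReal.ofReal (c1 / 16 * r ^ 2) < volume (E ∩ Metric.ball p r) := by
      rw [← ENNReal.ofReal_toReal b3, ENNReal.ofReal_lt_ofReal_iff']
      have b5 : 0 < c1 / 16 * r ^ 2 := by positivity
      change _ ≤ (volume (E ∩ Metric.ball p r)).toReal at b1
      constructor <;> nlinarith
    obtain ⟨K, hK1, hK2, hK3⟩ := b2.exists_lt_isCompact_of_ne_top b3 b4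
    refine ⟨K, hK2, fun u hu => (hK1 hu).1.1, fun u hu => (hK1 hu).1.2,
      fun u hu => Metric.ball_subset_closedBall (hK1 hu).2, ?_⟩
    exact (ENNReal.ofReal_le_iff_le_toReal hK2.measure_lt_top.ne).mp hK3.le

theorem step_sum_sigma {ι : Type} [Fintype ι] (P : ι → Finset ℂ) (φ : ι → ℂ → ℝ) :
    ∑ b : (Σ c, P c), φ b.1 b.2 = ∑ c, ∑ q ∈ P c, φ c q := by
  rw [Fintype.sum_sigma]
  exact Finset.sum_congr rfl fun c _ => Finset.sum_coe_sort (P c) (φ c)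

theorem step_sum_erase {ι : Type} [Fintype ι] [DecidableEq ι] (P : ι → Finset ℂ)
    [DecidableEq (Σ c, P c)] (a : Σ c, P c) (φ : ι → ℂ → ℝ) :
    ∑ b ∈ Finset.univ.erase a, φ b.1 b.2 =
      ∑ c ∈ Finset.univ.erase a.1, ∑ q ∈ P c, φ c q + ∑ q ∈ (P a.1).erase a.2, φ a.1 q := by
  rw [Finset.sum_erase_eq_sub (Finset.mem_univ _), Finset.sum_erase_eq_sub (Finset.mem_univ _),
    Finset.sum_erase_eq_sub a.2.2, step_sum_sigma]
  ring

theorem step_norm_sum {ι : Type} [Fintype ι] [DecidableEq ι] (v : ι → H) :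
    ‖∑ a, v a‖ ^ 2 ≤ ∑ a, ‖v a‖ ^ 2 + ∑ a, ∑ b ∈ Finset.univ.erase a, ‖⟪v a, v b⟫_ℂ‖ := by
  rw [← re_inner_self, sum_inner, Complex.re_sum, ← Finset.sum_add_distrib]
  refine Finset.sum_le_sum fun a _ => ?_
  rw [inner_sum, Complex.re_sum, ← Finset.add_sum_erase _ _ (Finset.mem_univ a), re_inner_self]
  exact add_le_add le_rfl (Finset.sum_le_sum fun b _ => Complex.re_le_norm _)

theorem step_kk_anti {g : ℝ} (hg1 : g ≤ 1) {d : ℝ} (hd : 0 < d) {ζ : ℂ} (h : d ≤ ‖ζ‖) :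
    kk g ζ ≤ d ^ (2 * g - 2) :=
  Real.rpow_le_rpow_of_nonpos hd h (by linarith)

theorem step_kk_half {g : ℝ} (hg : 0 ≤ g) (hg1 : g ≤ 1) {ζ ζ' : ℂ} (h0 : 0 < ‖ζ‖)
    (h : ‖ζ‖ / 2 ≤ ‖ζ'‖) : kk g ζ' ≤ 4 * kk g ζ := by
  refine (step_kk_anti hg1 (by positivity) h).trans ?_
  unfold kk
  rw [Real.div_rpow h0.le (by norm_num), div_le_iff₀ (by positivity)]
  have h1 : (2 : ℝ) ^ (-2 : ℝ) ≤ 2 ^ (2 * g - 2) :=
    Real.rpow_le_rpow_of_exponent_le (by norm_num) (by linarith)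
  have h2 : (2 : ℝ) ^ (-2 : ℝ) = 1 / 4 := by
    rw [Real.rpow_neg (by norm_num)]; norm_num
  have h3 : 0 ≤ ‖ζ‖ ^ (2 * g - 2) := Real.rpow_nonneg h0.le _
  rw [h2] at h1
  nlinarith [mul_le_mul_of_nonneg_left h1 h3]

end Pool.Agent.P.MP_f981b0_an.Hy
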