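import Pool.Agent.P.MP_f981b0_an.Hy.CalcV

set_option autoImplicit false

open scoped InnerProductSpace ComplexConjugate
open MeasureTheory Filter Topology

noncomputable section

namespace Pool.Agent.P.MP_f981b0_an.Hy

variable {H : Type*} [NormedAddCommGroup H] [InnerProductSpace ℂ H] [CompleteSpace H]

variable {T δ : H →L[ℂ] H}

theorem VInf_log_four : Real.log 4 ≤ 2 := by
  have h : Real.log 4 = 2 * Real.log 2 := by
    rw [show (4 : ℝ) = 2 ^ 2 by norm_num, Real.log_pow]; norm_num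
  have h2 : Real.log 2 ≤ 2 - 1 := Real.log_le_sub_one_of_pos (by norm_num)
  linarith

theorem VInf_log_tt (j : ℕ) : Real.log (tt j) = -((j : ℝ) * Real.log 4) := by
  rw [tt_eq_exp, Real.log_exp]

omit [CompleteSpace H] in
/-- The truncations of a vector orthogonal to the first `n` basis vectors converge to it. -/
theorem VInf_trunc (e : HilbertBasis ℕ ℂ H) (n : ℕ) (u : H) (hu : ∀ i < n, ⟪e i, u⟫_ℂ = 0) :
    Tendsto (fun N => ∑ i ∈ Finset.Ico n N, ⟪e i, u⟫_ℂ • e i) atTop (𝓝 u) := by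
  have h1 := (e.hasSum_repr u).tendsto_sum_nat
  refine h1.congr fun N => ?_
  simp only [HilbertBasis.repr_apply_apply]
  symm
  refine Finset.sum_subset ?_ ?_
  · intro i hi
    exact Finset.mem_range.2 (Finset.mem_Ico.1 hi).2
  · intro i hi hi'
    have hin : i < n := by
      by_contra hc
      exact hi' (Finset.mem_Ico.2 ⟨not_lt.1 hc, Finset.mem_range.1 hi⟩)
    rw [hu i hin, zero_smul]

omit [CompleteSpace H] in
theorem VInf_mem_span (e : ℕ → H) (s : Finset ℕ) (c : ℕ → ℂ) :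
    ∑ i ∈ s, c i • e i ∈ Submodule.span ℂ (e '' (s : Set ℕ)) := by
  refine Submodule.sum_mem _ fun i hi => Submodule.smul_mem _ _ (Submodule.subset_span ?_)
  exact ⟨i, Finset.mem_coe.2 hi, rfl⟩

omit [CompleteSpace H] in
theorem VInf_orth {e : ℕ → H} (he : Orthonormal ℂ e) (s : Finset ℕ) {i : ℕ} (hi : i ∉ s) {v : H}
    (hv : v ∈ Submodule.span ℂ (e '' (s : Set ℕ))) : ⟪e i, v⟫_ℂ = 0 := by
  induction hv using Submodule.span_induction with
  | mem x hx =>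
    obtain ⟨k, hk, rfl⟩ := hx
    have hik : i ≠ k := by
      rintro rfl
      exact hi (Finset.mem_coe.1 hk)
    exact he.2 hik
  | zero => exact inner_zero_right _
  | add x y _ _ hx hy => rw [inner_add_right, hx, hy, add_zero]
  | smul a x _ hx => rw [inner_smul_right, hx, mul_zero]

theorem VInf_insert {n N : ℕ} (h : n < N) :
    insert n (Finset.Ico (n + 1) N) = Finset.Ico n N := by
  ext i
  simp only [Finset.mem_insert, Finset.mem_Ico]
  omega

theorem VInf_notMem (n N : ℕ) : n ∉ Finset.Ico (n + 1) N := by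
  simp only [Finset.mem_Ico]
  omega

theorem Vs_bound (hy : Hyp T δ) (e : HilbertBasis ℕ ℂ H) (htr : TrB T δ e) (s : Finset ℕ)
    (z : ℂ) {τ : ℝ} (hτ : 0 ≤ τ) : Vs T δ e s z (Real.exp (-τ)) ≤ ‖T‖ ^ 2 + τ := by
  have h1 : Real.exp (-τ) ≤ 1 := Real.exp_le_one_iff.2 (by linarith)
  have h2 := (Vs_incr hy e htr s z (Real.exp_pos (-τ)) h1).2
  rw [Real.log_one, Real.log_exp] at h2
  have h3 := Vs_le hy e.orthonormal s z (t := 1) one_pos
  obtain ⟨n, hn⟩ := s.exists_nat_subset_range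
  have h4 : ∑ i ∈ s, ‖δ (e i)‖ ^ 2 ≤ ∑ i ∈ Finset.range n, ‖δ (e i)‖ ^ 2 :=
    Finset.sum_le_sum_of_subset_of_nonneg hn fun i _ _ => by positivity
  have h5 := htr.trD n
  linarith

theorem VInf_bound_tt (hy : Hyp T δ) (e : HilbertBasis ℕ ℂ H) (htr : TrB T δ e) (s : Finset ℕ)
    (j : ℕ) (z : ℂ) : Vs T δ e s z (tt j) ≤ ‖T‖ ^ 2 + 2 * j := by
  have h0 : 0 ≤ Real.log 4 := Real.log_nonneg (by norm_num)
  have hj : (0 : ℝ) ≤ j := Nat.cast_nonneg j
  have h1 := Vs_bound hy e htr s z (τ := (j : ℝ) * Real.log 4) (mul_nonneg hj h0)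
  rw [← tt_eq_exp] at h1
  have h2 : (j : ℝ) * Real.log 4 ≤ j * 2 := mul_le_mul_of_nonneg_left VInf_log_four hj
  linarith

theorem tendsto_Vn (hy : Hyp T δ) (e : HilbertBasis ℕ ℂ H) (htr : TrB T δ e) (n j : ℕ) (z : ℂ) :
    Tendsto (fun N => Vs T δ e (Finset.Ico n N) z (tt j)) atTop (𝓝 (Vn T δ e n j z)) := by
  refine tendsto_atTop_ciSup ?_ ?_
  · intro N N' hN
    exact Vs_mono hy e.orthonormal (Finset.Ico_subset_Ico_right hN) z (tt_pos j)
  · refine ⟨‖T‖ ^ 2 + 2 * j, ?_⟩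
    rintro _ ⟨N, rfl⟩
    exact VInf_bound_tt hy e htr _ j z

theorem Vn_bound (hy : Hyp T δ) (e : HilbertBasis ℕ ℂ H) (htr : TrB T δ e) (n j : ℕ) (z : ℂ) :
    0 ≤ Vn T δ e n j z ∧ Vn T δ e n j z ≤ ‖T‖ ^ 2 + 2 * j :=
  ⟨ge_of_tendsto' (tendsto_Vn hy e htr n j z) fun _ =>
      Vs_nonneg hy e.orthonormal _ z (tt_pos j),
    le_of_tendsto' (tendsto_Vn hy e htr n j z) fun _ => VInf_bound_tt hy e htr _ j z⟩

theorem Vn_anti (hy : Hyp T δ) (e : HilbertBasis ℕ ℂ H) (htr : TrB T δ e) (n j : ℕ) (z : ℂ) :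
    Vn T δ e (n + 1) j z ≤ Vn T δ e n j z :=
  le_of_tendsto_of_tendsto' (tendsto_Vn hy e htr (n + 1) j z) (tendsto_Vn hy e htr n j z)
    fun _ => Vs_mono hy e.orthonormal (Finset.Ico_subset_Ico_left (Nat.le_succ n)) z (tt_pos j)

theorem Vn_incr (hy : Hyp T δ) (e : HilbertBasis ℕ ℂ H) (htr : TrB T δ e) (n j : ℕ) (z : ℂ) :
    0 ≤ Vn T δ e n (j + 1) z - Vn T δ e n j z ∧ Vn T δ e n (j + 1) z - Vn T δ e n j z ≤ 2 := by
  have hlim := (tendsto_Vn hy e htr n (j + 1) z).sub (tendsto_Vn hy e htr n j z)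
  have hN := fun N => Vs_incr hy e htr (Finset.Ico n N) z (tt_pos (j + 1))
    (tt_anti (Nat.le_succ j))
  refine ⟨ge_of_tendsto' hlim fun N => sub_nonneg.2 (hN N).1, le_of_tendsto' hlim fun N => ?_⟩
  have h1 := (hN N).2
  rw [VInf_log_tt, VInf_log_tt] at h1
  push_cast at h1
  have h2 := VInf_log_four
  linarith

theorem Vn_F1 (hy : Hyp T δ) (e : HilbertBasis ℕ ℂ H) (htr : TrB T δ e) (n j : ℕ) (z : ℂ)
    (u : H) (hu : ∀ i < n, ⟪e i, u⟫_ℂ = 0) :
    ‖u‖ ^ 2 ≤ Real.exp (Vn T δ e n j z) * qf T δ z (tt j) u := by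
  have h1 := VInf_trunc e n u hu
  have h2 := h1.norm.pow 2
  have h3 := ((continuous_qf_vec hy z (t := tt j)).tendsto u).comp h1
  have h4 := (Real.continuous_exp.tendsto _).comp (tendsto_Vn hy e htr n j z)
  refine le_of_tendsto_of_tendsto' h2 (h4.mul h3) fun N => ?_
  exact norm_le_exp_Vs hy e.orthonormal _ z (tt_pos j) (VInf_mem_span e _ _)

theorem Vn_F2 (hy : Hyp T δ) (e : HilbertBasis ℕ ℂ H) (htr : TrB T δ e) (n j : ℕ) (z : ℂ)
    (u : H) (hu : ∀ i < n, ⟪e i, u⟫_ℂ = 0) :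
    ‖⟪e n, u⟫_ℂ‖ ^ 2 * Real.exp (Vn T δ e (n + 1) j z - Vn T δ e n j z) ≤ qf T δ z (tt j) u := by
  have h1 := VInf_trunc e n u hu
  have h3 := ((continuous_qf_vec hy z (t := tt j)).tendsto u).comp h1
  have h4 := (Real.continuous_exp.tendsto _).comp
    ((tendsto_Vn hy e htr (n + 1) j z).sub (tendsto_Vn hy e htr n j z))
  refine le_of_tendsto_of_tendsto (h4.const_mul (‖⟪e n, u⟫_ℂ‖ ^ 2)) h3 ?_
  filter_upwards [eventually_gt_atTop n] with N hN
  have h5 := (Vs_insert hy e.orthonormal (Finset.Ico (n + 1) N) (VInf_notMem n N) z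
    (tt_pos j)).2 ⟪e n, u⟫_ℂ _ (VInf_mem_span e _ fun i => ⟪e i, u⟫_ℂ)
  rw [← Finset.sum_insert (f := fun i => ⟪e i, u⟫_ℂ • e i) (VInf_notMem n N),
    VInf_insert hN] at h5
  exact h5

/-- The finite minimiser. -/
theorem VInf_min (hy : Hyp T δ) (e : HilbertBasis ℕ ℂ H) {n N : ℕ} (hN : n < N) (z : ℂ) {t : ℝ}
    (ht : 0 < t) :
    ∃ d : H, (∀ i < n, ⟪e i, d⟫_ℂ = 0) ∧ ⟪e n, d⟫_ℂ = 1 ∧
      qf T δ z t d = Real.exp (Vs T δ e (Finset.Ico (n + 1) N) z t
        - Vs T δ e (Finset.Ico n N) z t) := by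
  obtain ⟨v, hv, hq⟩ :=
    (Vs_insert hy e.orthonormal (Finset.Ico (n + 1) N) (VInf_notMem n N) z ht).1
  rw [VInf_insert hN] at hq
  refine ⟨e n + v, fun i hi => ?_, ?_, hq⟩
  · have h1 : i ∉ Finset.Ico (n + 1) N := by
      simp only [Finset.mem_Ico]
      omega
    rw [inner_add_right, VInf_orth e.orthonormal _ h1 hv, e.orthonormal.2 (ne_of_lt hi), add_zero]
  · rw [inner_add_right, VInf_orth e.orthonormal _ (VInf_notMem n N) hv, add_zero, inner_self_c,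
      e.orthonormal.1 n]
    norm_num

theorem Vn_F3 (hy : Hyp T δ) (e : HilbertBasis ℕ ℂ H) (htr : TrB T δ e) (n j : ℕ) (z : ℂ) :
    ∃ d : H, (∀ i < n, ⟪e i, d⟫_ℂ = 0) ∧ ⟪e n, d⟫_ℂ = 1 ∧
      qf T δ z (tt j) d ≤ 2 * Real.exp (Vn T δ e (n + 1) j z - Vn T δ e n j z) := by
  have h4 := (Real.continuous_exp.tendsto _).comp
    ((tendsto_Vn hy e htr (n + 1) j z).sub (tendsto_Vn hy e htr n j z))
  have hpos := Real.exp_pos (Vn T δ e (n + 1) j z - Vn T δ e n j z)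
  have h5 := h4.eventually (gt_mem_nhds (show Real.exp (Vn T δ e (n + 1) j z - Vn T δ e n j z)
    < 2 * Real.exp (Vn T δ e (n + 1) j z - Vn T δ e n j z) by linarith))
  obtain ⟨N, hN1, hN2⟩ := (h5.and (eventually_gt_atTop n)).exists
  obtain ⟨d, h1, h2, h3⟩ := VInf_min hy e hN2 z (tt_pos j)
  exact ⟨d, h1, h2, h3.le.trans hN1.le⟩

theorem VInf_continuous (hy : Hyp T δ) {e : ℕ → H} (he : Orthonormal ℂ e) (s : Finset ℕ)
    (j : ℕ) : Continuous fun z => Vs T δ e s z (tt j) := by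
  have h1 := (contDiff_Vs hy he s).continuous
  have h2 : Continuous fun z : ℂ => ((z.re, z.im, (j : ℝ) * Real.log 4) : ℝ × ℝ × ℝ) := by
    fun_prop
  refine (h1.comp h2).congr fun z => ?_
  simp only [Function.comp, lift, Complex.re_add_im, ← tt_eq_exp]

theorem rdata_Vn (hy : Hyp T δ) (e : HilbertBasis ℕ ℂ H) (htr : TrB T δ e) :
    RData T δ (e 0) (Vn T δ e 1) := by
  have h1 : ∀ u : H, ⟪e 0, u⟫_ℂ = 0 → ∀ i < 1, ⟪e i, u⟫_ℂ = 0 := by
    intro u hu i hi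
    obtain rfl : i = 0 := by omega
    exact hu
  refine ⟨fun j => ?_, fun j z => (Vn_bound hy e htr 1 j z).1, fun z i j hij => ?_,
    fun j z u hu => Vn_F1 hy e htr 1 j z u (h1 u hu), fun z i j u hij hu => ?_⟩
  · refine measurable_of_tendsto_metrizable
      (f := fun N z => Vs T δ e (Finset.Ico 1 N) z (tt j))
      (fun N => (VInf_continuous hy e.orthonormal _ j).measurable) ?_
    exact tendsto_pi_nhds.2 fun z => tendsto_Vn hy e htr 1 j z
  · have hm : Monotone fun j => Vn T δ e 1 j z :=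
      monotone_nat_of_le_succ fun j => sub_nonneg.1 (Vn_incr hy e htr 1 j z).1
    exact hm hij
  · have h2 := VInf_trunc e 1 u (h1 u hu)
    have h3 := ((continuous_qf_vec hy z (t := tt i)).tendsto u).comp h2
    have h4 := ((continuous_qf_vec hy z (t := tt j)).tendsto u).comp h2
    have h5 := (Real.continuous_exp.tendsto _).comp
      ((tendsto_Vn hy e htr 1 j z).sub (tendsto_Vn hy e htr 1 i z))
    refine le_of_tendsto_of_tendsto' h3 (h5.mul h4) fun N => ?_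
    exact rel_Vs hy e.orthonormal _ z (tt_pos j) (tt_anti hij) (VInf_mem_span e _ _)

theorem logbt_le_Vn (hy : Hyp T δ) (e : HilbertBasis ℕ ℂ H) (htr : TrB T δ e) (j : ℕ) (z : ℂ) :
    Real.log (bt T δ (e 0) z (tt j)) ≤ Vn T δ e 0 j z := by
  have he : ‖e 0‖ = 1 := e.orthonormal.1 0
  have h1 := Vn_F1 hy e htr 0 j z (oM T δ z (tt j) (e 0)) (fun i hi => absurd hi (by omega))
  rw [qf_oM hy z (tt_pos j), ← bt_eq_mf hy z he] at h1
  have hb : 1 ≤ bt T δ (e 0) z (tt j) := one_le_bt hy z (tt_pos j)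
  have h2 : bt T δ (e 0) z (tt j) ≤ ‖oM T δ z (tt j) (e 0)‖ := by
    rw [bt_eq_mf hy z he]
    have h3 := norm_inner_le_norm (𝕜 := ℂ) (e 0) (oM T δ z (tt j) (e 0))
    rw [he, one_mul] at h3
    exact (Complex.re_le_norm _).trans h3
  have h3 : bt T δ (e 0) z (tt j) * bt T δ (e 0) z (tt j) ≤
      Real.exp (Vn T δ e 0 j z) * bt T δ (e 0) z (tt j) := by
    refine le_trans ?_ h1
    rw [sq]
    exact mul_self_le_mul_self (by linarith) h2
  have h4 : bt T δ (e 0) z (tt j) ≤ Real.exp (Vn T δ e 0 j z) :=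
    le_of_mul_le_mul_right h3 (by linarith)
  exact (Real.log_le_iff_le_exp (by linarith)).2 h4

theorem Vn_le_logbt (hy : Hyp T δ) (e : HilbertBasis ℕ ℂ H) (htr : TrB T δ e) (j : ℕ) (z : ℂ) :
    Vn T δ e 0 j z ≤ Vn T δ e 1 j z + Real.log (bt T δ (e 0) z (tt j)) := by
  have he : ‖e 0‖ = 1 := e.orthonormal.1 0
  have hb : 1 ≤ bt T δ (e 0) z (tt j) := one_le_bt hy z (tt_pos j)
  refine le_of_tendsto_of_tendsto (tendsto_Vn hy e htr 0 j z)
    ((tendsto_Vn hy e htr 1 j z).add_const _) ?_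
  filter_upwards [eventually_gt_atTop 0] with N hN
  obtain ⟨d, -, h2, h3⟩ := VInf_min hy e hN z (tt_pos j)
  have h4 := inner_e0_le hy z (tt_pos j) he d
  rw [h2, h3, norm_one, one_pow, zero_add] at h4
  have h5 := Real.log_le_log one_pos h4
  rw [Real.log_one, Real.log_mul (by linarith) (Real.exp_pos _).ne', Real.log_exp] at h5
  linarith

end Pool.Agent.P.MP_f981b0_an.Hy
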